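import Pool.Agent.Work.MP_884187_pr.Gam
import Pool.Agent.Work.MP_884187_pr.Stmts
import Pool.Agent.Work.MP_884187_pr.Poly
import Pool.Agent.Work.MP_884187_pr.A1
import Pool.Agent.Work.MP_884187_pr.A5
import Pool.Agent.Work.MP_884187_pr.C2
import Pool.Agent.Work.MP_884187_pr.B1

/-! Bundle of small proof modules (one section per former module). -/

section

/-!
Module G of MP_884187_pr: asymptotics of `FF`, normalisation by `kap`.
-/

set_option autoImplicit false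

open MeasureTheory Set Filter Topology

namespace Match2D.MG

theorem kap_pos (p : ℝ) (x : ℝ → ℝ) : 0 < kap p x := by
  unfold kap
  positivity

section

variable {p : ℝ} {x : ℝ → ℝ} (hx : IsProf0 p x)
include hx

theorem IsProf0.lam_eq {s : ℝ} (hs : 1 ≤ s) :
    lam x s = -(∫ r in Ioc (0 : ℝ) 1, (1 - x r ^ 2) / r) / 2
      - (∫ r in (1 : ℝ)..s, (p - 1 - x r ^ 2) / r) / 2 + (p / 2 - 1) * Real.log s := by
  have h0 : lam x s = (∫ r in (0 : ℝ)..1, ww x r) + ∫ r in (1 : ℝ)..s, ww x r := by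
    unfold lam
    rw [intervalIntegral.integral_add_adjacent_intervals (hx.int_ww _ _) (hx.int_ww _ _)]
  have h1 : ∫ r in (0 : ℝ)..1, ww x r = -(∫ r in Ioc (0 : ℝ) 1, (1 - x r ^ 2) / r) / 2 := by
    rw [intervalIntegral.integral_of_le zero_le_one, neg_div, ← integral_div, ← integral_neg]
    refine setIntegral_congr_fun measurableSet_Ioc fun r hr => ?_
    have := hr.1.ne'
    simp only [ww]
    field_simp
    ring
  have hint : IntervalIntegrable (fun r => (p - 1 - x r ^ 2) / r) volume 1 s := by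
    rw [intervalIntegrable_iff_integrableOn_Ioc_of_le hs]
    exact (hx.toIsProfile.integrable_two hx.one_le_p).mono_set Ioc_subset_Ioi_self
  have hinv : IntervalIntegrable (fun r : ℝ => r⁻¹) volume 1 s := by
    refine intervalIntegral.intervalIntegrable_inv ?_ continuousOn_id
    intro r hr
    rw [uIcc_of_le hs] at hr
    exact (lt_of_lt_of_le one_pos hr.1).ne'
  have h2 : ∫ r in (1 : ℝ)..s, ww x r = -(∫ r in (1 : ℝ)..s, (p - 1 - x r ^ 2) / r) / 2
      + (p / 2 - 1) * Real.log s := by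
    have h3 : ∫ r in (1 : ℝ)..s, ww x r = ∫ r in (1 : ℝ)..s,
        ((-(1 / 2 : ℝ)) * ((p - 1 - x r ^ 2) / r) + (p / 2 - 1) * r⁻¹) := by
      refine intervalIntegral.integral_congr fun r hr => ?_
      rw [uIcc_of_le hs] at hr
      have : r ≠ 0 := (lt_of_lt_of_le one_pos hr.1).ne'
      simp only [ww]
      field_simp
      ring
    rw [h3, intervalIntegral.integral_add (hint.const_mul _) (hinv.const_mul _),
      intervalIntegral.integral_const_mul, intervalIntegral.integral_const_mul,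
      integral_inv_of_pos one_pos (by linarith), div_one]
    ring
  rw [h0, h1, h2]
  ring

theorem IsProf0.gam_tendsto :
    Tendsto (fun s => gam p (kap p x) x s * s ^ (1 - p / 2)) atTop (𝓝 (p / 2 * 2 ^ (p / 2))) := by
  set I1 := ∫ r in Ioc (0 : ℝ) 1, (1 - x r ^ 2) / r with hI1
  set I2 := ∫ r in Ioi (1 : ℝ), (p - 1 - x r ^ 2) / r with hI2
  have h1 : Tendsto (fun s : ℝ => ∫ r in (1 : ℝ)..s, (p - 1 - x r ^ 2) / r) atTop (𝓝 I2) :=
    intervalIntegral_tendsto_integral_Ioi 1 (hx.toIsProfile.integrable_two hx.one_le_p) tendsto_id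
  have h2 : Tendsto (fun s : ℝ => p * kap p x / 2 * Real.exp (-I1 / 2 -
      (∫ r in (1 : ℝ)..s, (p - 1 - x r ^ 2) / r) / 2)) atTop
      (𝓝 (p * kap p x / 2 * Real.exp (-I1 / 2 - I2 / 2))) :=
    ((h1.div_const 2).const_sub (-I1 / 2)).rexp.const_mul _
  have e : p * kap p x / 2 * Real.exp (-I1 / 2 - I2 / 2) = p / 2 * 2 ^ (p / 2) := by
    unfold kap
    rw [← hI1, ← hI2]
    have : Real.exp (I1 / 2 + I2 / 2) * Real.exp (-I1 / 2 - I2 / 2) = 1 := by
      rw [← Real.exp_add, ← Real.exp_zero]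
      ring_nf
    linear_combination (p / 2 * 2 ^ (p / 2)) * this
  rw [e] at h2
  refine h2.congr' ?_
  filter_upwards [eventually_ge_atTop 1] with s hs
  have hs0 : 0 < s := by linarith
  unfold gam
  rw [hx.lam_eq hs, Real.rpow_def_of_pos hs0, mul_assoc, ← Real.exp_add]
  congr 2
  ring

theorem IsProf0.FF_tendsto :
    Tendsto (fun s => FF p (kap p x) x s * s ^ (-(p / 2))) atTop (𝓝 (2 ^ (p / 2))) := by
  have hp := hx.p_pos
  have h1 := hx.gam_tendsto
  have h2 : Tendsto (fun s => x s / s) atTop (𝓝 0) := by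
    refine squeeze_zero_norm' (a := fun s => p * s⁻¹) ?_ ?_
    · filter_upwards [eventually_gt_atTop 0] with s hs
      have h3 := hx.pos' s
      rw [Real.norm_eq_abs, abs_div, abs_of_pos h3, abs_of_pos hs, div_eq_mul_inv]
      exact mul_le_mul_of_nonneg_right (hx.le_p' s) (inv_pos.mpr hs).le
    · simpa using (tendsto_inv_atTop_zero (𝕜 := ℝ)).const_mul p
  have h3 := (h1.mul (h2.const_add 1)).const_mul (2 / p)
  have e : 2 / p * (p / 2 * 2 ^ (p / 2) * (1 + 0)) = (2 : ℝ) ^ (p / 2) := by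
    field_simp
    ring
  rw [e] at h3
  refine h3.congr' ?_
  filter_upwards [eventually_gt_atTop 0] with s hs
  have h4 := hx.FF_eq (κ := kap p x) hs.le
  have h5 : FF p (kap p x) x s = 2 / p * (gam p (kap p x) x s * (x s + s)) := by
    rw [← h4]
    field_simp
  rw [h5]
  have h6 : s ^ (1 - p / 2) = s ^ (-(p / 2)) * s := by
    rw [show (1 - p / 2) = -(p / 2) + 1 by ring, Real.rpow_add hs, Real.rpow_one]
  rw [h6]
  field_simp
  ring

variable {κ : ℝ} (hκ : 0 < κ)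
include hκ

theorem IsProf0.FF_antitone : AntitoneOn (fun s => FF p κ x s * s ^ (-(p / 2))) (Ioi 0) := by
  have hp := hx.p_pos
  have hd : ∀ s : ℝ, 0 < s → HasDerivAt (fun s => FF p κ x s * s ^ (-(p / 2)))
      (gam p κ x s * s ^ (-(p / 2)) + FF p κ x s * (-(p / 2) * s ^ (-(p / 2) - 1))) s := by
    intro s hs
    exact (hx.hasDerivAt_FF s).mul (Real.hasDerivAt_rpow_const (Or.inl hs.ne'))
  refine antitoneOn_of_deriv_nonpos (convex_Ioi 0)
    (fun s hs => (hd s hs).continuousAt.continuousWithinAt) ?_ ?_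
  · rw [interior_Ioi]
    exact fun s hs => (hd s hs).differentiableAt.differentiableWithinAt
  · intro s hs
    rw [interior_Ioi] at hs
    have hs0 : 0 < s := hs
    rw [(hd s hs).deriv]
    have h1 : s ^ (-(p / 2)) = s ^ (-(p / 2) - 1) * s := by
      rw [Real.rpow_sub_one hs0.ne']
      field_simp
    have h2 := hx.FF_eq (κ := κ) hs0.le
    have h3 : gam p κ x s * s ^ (-(p / 2)) + FF p κ x s * (-(p / 2) * s ^ (-(p / 2) - 1))
        = -(gam p κ x s * x s * s ^ (-(p / 2) - 1)) := by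
      rw [h1]
      linear_combination (-s ^ (-(p / 2) - 1)) * h2
    rw [h3]
    have h4 := hx.gam_pos hκ s
    have h5 := hx.pos' s
    have h6 : 0 < s ^ (-(p / 2) - 1) := Real.rpow_pos_of_pos hs0 _
    have : 0 < gam p κ x s * x s * s ^ (-(p / 2) - 1) := by positivity
    linarith

omit hκ in
/-- `F(σ) ≥ (2 σ)^(p/2)`. -/
theorem IsProf0.FF_lower {s : ℝ} (hs : 0 ≤ s) : (2 * s) ^ (p / 2) ≤ FF p (kap p x) x s := by
  have hp := hx.p_pos
  rcases eq_or_lt_of_le hs with h | h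
  · rw [← h, FF_zero, mul_zero, Real.zero_rpow (by positivity)]
    exact (kap_pos p x).le
  · have h1 : (2 : ℝ) ^ (p / 2) ≤ FF p (kap p x) x s * s ^ (-(p / 2)) := by
      refine le_of_tendsto hx.FF_tendsto ?_
      filter_upwards [eventually_ge_atTop s] with y hy
      exact hx.FF_antitone (kap_pos p x) h (lt_of_lt_of_le h hy : (0 : ℝ) < y) hy
    rw [Real.mul_rpow (by norm_num) hs]
    have h2 : 0 < s ^ (p / 2) := Real.rpow_pos_of_pos h _
    calc (2 : ℝ) ^ (p / 2) * s ^ (p / 2) ≤ FF p (kap p x) x s * s ^ (-(p / 2)) * s ^ (p / 2) :=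
          mul_le_mul_of_nonneg_right h1 h2.le
      _ = FF p (kap p x) x s := by
          rw [mul_assoc, ← Real.rpow_add h]
          simp

theorem IsProf0.FF_mono : Monotone (FF p κ x) :=
  monotone_of_deriv_nonneg (fun s => (hx.hasDerivAt_FF s).differentiableAt) fun s => by
    rw [(hx.hasDerivAt_FF s).deriv]
    exact (hx.gam_pos hκ s).le

omit hκ in
theorem IsProf0.FF_upper {δ : ℝ} (hδ : 0 < δ) : ∃ C, 0 < C ∧ ∀ s, 0 ≤ s →
    FF p (kap p x) x s ≤ (1 + δ) * (2 * s) ^ (p / 2) + C := by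
  have hp := hx.p_pos
  have h0 : (2 : ℝ) ^ (p / 2) < (1 + δ) * 2 ^ (p / 2) := by
    have : (0 : ℝ) < 2 ^ (p / 2) := by positivity
    nlinarith
  obtain ⟨Z, hZ⟩ := eventually_atTop.mp (hx.FF_tendsto.eventually (gt_mem_nhds h0))
  refine ⟨FF p (kap p x) x (max Z 1), hx.FF_pos (kap_pos p x) (by positivity), fun s hs => ?_⟩
  rcases le_total s (max Z 1) with h | h
  · have h1 := hx.FF_mono (kap_pos p x) h
    have h2 : 0 ≤ (1 + δ) * (2 * s) ^ (p / 2) := by positivity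
    linarith
  · have hs0 : 0 < s := lt_of_lt_of_le (by positivity) h
    have h1 := (hZ s ((le_max_left _ _).trans h)).le
    have h2 : 0 < s ^ (p / 2) := Real.rpow_pos_of_pos hs0 _
    have h3 : FF p (kap p x) x s ≤ (1 + δ) * (2 * s) ^ (p / 2) := by
      rw [Real.mul_rpow (by norm_num) hs]
      calc FF p (kap p x) x s = FF p (kap p x) x s * s ^ (-(p / 2)) * s ^ (p / 2) := by
            rw [mul_assoc, ← Real.rpow_add hs0]
            simp
        _ ≤ (1 + δ) * 2 ^ (p / 2) * s ^ (p / 2) := mul_le_mul_of_nonneg_right h1 h2.le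
        _ = _ := by ring
    have h4 := hx.FF_pos (kap_pos p x) (show (0 : ℝ) ≤ max Z 1 by positivity)
    linarith

end

end Match2D.MG

end

section

/-!
MP_884187_pr: basic lemmas (plane, matrices, averages, expectation, unit square, cells).
-/

open MeasureTheory Set Filter Topology

namespace Match2D

/-! ### Length -/

lemma len_nonneg (v : ℝ × ℝ) : 0 ≤ len v := Real.sqrt_nonneg _

lemma len_sq (v : ℝ × ℝ) : len v ^ 2 = v.1 ^ 2 + v.2 ^ 2 :=
  Real.sq_sqrt (by positivity)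

@[simp] lemma len_zero : len (0 : ℝ × ℝ) = 0 := by simp [len]

lemma abs_fst_le_len (v : ℝ × ℝ) : |v.1| ≤ len v := by
  rw [← Real.sqrt_sq_eq_abs]
  exact Real.sqrt_le_sqrt (by nlinarith [sq_nonneg v.2])

lemma abs_snd_le_len (v : ℝ × ℝ) : |v.2| ≤ len v := by
  rw [← Real.sqrt_sq_eq_abs]
  exact Real.sqrt_le_sqrt (by nlinarith [sq_nonneg v.1])

lemma len_le_abs_add_abs (v : ℝ × ℝ) : len v ≤ |v.1| + |v.2| := by
  rw [len, Real.sqrt_le_left (by positivity)]
  nlinarith [abs_nonneg v.1, abs_nonneg v.2, sq_abs v.1, sq_abs v.2,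
    mul_nonneg (abs_nonneg v.1) (abs_nonneg v.2)]

lemma len_smul (c : ℝ) (v : ℝ × ℝ) : len (c • v) = |c| * len v := by
  rw [len, len, Prod.smul_fst, Prod.smul_snd, smul_eq_mul, smul_eq_mul,
    ← Real.sqrt_sq_eq_abs, ← Real.sqrt_mul (sq_nonneg c)]
  congr 1
  ring

@[simp] lemma len_neg (v : ℝ × ℝ) : len (-v) = len v := by simp [len]

lemma len_sub_comm (v w : ℝ × ℝ) : len (v - w) = len (w - v) := by
  rw [← len_neg (v - w)]
  congr 1
  abel

lemma dot_comm (v w : ℝ × ℝ) : dot v w = dot w v := by simp [dot]; ring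

lemma dot_self (v : ℝ × ℝ) : dot v v = len v ^ 2 := by rw [len_sq]; simp [dot]; ring

lemma dot_add_right (v w u : ℝ × ℝ) : dot v (w + u) = dot v w + dot v u := by simp [dot]; ring

lemma dot_add_left (v w u : ℝ × ℝ) : dot (v + w) u = dot v u + dot w u := by simp [dot]; ring

lemma dot_sub_right (v w u : ℝ × ℝ) : dot v (w - u) = dot v w - dot v u := by simp [dot]; ring

lemma dot_sub_left (v w u : ℝ × ℝ) : dot (v - w) u = dot v u - dot w u := by simp [dot]; ring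

lemma dot_smul_right (c : ℝ) (v w : ℝ × ℝ) : dot v (c • w) = c * dot v w := by simp [dot]; ring

lemma dot_smul_left (c : ℝ) (v w : ℝ × ℝ) : dot (c • v) w = c * dot v w := by simp [dot]; ring

@[simp] lemma dot_zero_right (v : ℝ × ℝ) : dot v 0 = 0 := by simp [dot]

@[simp] lemma dot_zero_left (v : ℝ × ℝ) : dot 0 v = 0 := by simp [dot]

lemma dot_sum_right {ι : Type*} (s : Finset ι) (v : ℝ × ℝ) (f : ι → ℝ × ℝ) :
    dot v (∑ i ∈ s, f i) = ∑ i ∈ s, dot v (f i) := by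
  simp only [dot, Prod.fst_sum, Prod.snd_sum, Finset.mul_sum, Finset.sum_add_distrib]

lemma abs_dot_le (v w : ℝ × ℝ) : |dot v w| ≤ len v * len w := by
  rw [← Real.sqrt_sq_eq_abs, len, len, ← Real.sqrt_mul (by positivity)]
  apply Real.sqrt_le_sqrt
  simp only [dot]
  nlinarith [sq_nonneg (v.1 * w.2 - v.2 * w.1)]

lemma len_add_le (v w : ℝ × ℝ) : len (v + w) ≤ len v + len w := by
  have h1 : len (v + w) ^ 2 ≤ (len v + len w) ^ 2 := by
    have e : len (v + w) ^ 2 = len v ^ 2 + 2 * dot v w + len w ^ 2 := by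
      rw [len_sq, len_sq, len_sq]; simp [dot]; ring
    rw [e]
    nlinarith [le_abs_self (dot v w), abs_dot_le v w]
  exact le_of_sq_le_sq h1 (add_nonneg (len_nonneg _) (len_nonneg _))
where
  le_of_sq_le_sq {a b : ℝ} (h : a ^ 2 ≤ b ^ 2) (hb : 0 ≤ b) : a ≤ b := by
    exact le_trans (le_abs_self a) (by
      have := abs_le_abs_of_sq_le_sq' h
      simpa [abs_of_nonneg hb] using this)
  abs_le_abs_of_sq_le_sq' {a b : ℝ} (h : a ^ 2 ≤ b ^ 2) : |a| ≤ |b| := sq_le_sq.mp h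

lemma len_sub_le (v w : ℝ × ℝ) : len (v - w) ≤ len v + len w := by
  rw [sub_eq_add_neg]
  exact (len_add_le _ _).trans (by rw [len_neg])

lemma len_sub_le_add (u v w : ℝ × ℝ) : len (u - w) ≤ len (u - v) + len (v - w) := by
  have : u - w = (u - v) + (v - w) := by abel
  rw [this]
  exact len_add_le _ _

lemma len_sub_ge (v w : ℝ × ℝ) : len v - len w ≤ len (v - w) := by
  have := len_add_le (v - w) w
  rw [sub_add_cancel] at this
  linarith

lemma len_sum_le {ι : Type*} (s : Finset ι) (f : ι → ℝ × ℝ) :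
    len (∑ i ∈ s, f i) ≤ ∑ i ∈ s, len (f i) := by
  classical
  induction s using Finset.induction_on with
  | empty => simp
  | insert a s ha ih =>
    rw [Finset.sum_insert ha, Finset.sum_insert ha]
    exact (len_add_le _ _).trans (by linarith)

lemma len_eq_zero {v : ℝ × ℝ} : len v = 0 ↔ v = 0 := by
  constructor
  · intro h
    have h1 := abs_fst_le_len v
    have h2 := abs_snd_le_len v
    rw [h] at h1 h2
    exact Prod.ext (abs_nonpos_iff.mp h1) (abs_nonpos_iff.mp h2)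
  · rintro rfl; simp

lemma continuous_len : Continuous len := by
  unfold len; fun_prop

lemma measurable_len : Measurable len := continuous_len.measurable

@[fun_prop] lemma Measurable.len' {α : Type*} [MeasurableSpace α] {f : α → ℝ × ℝ}
    (hf : Measurable f) : Measurable (fun a => len (f a)) := measurable_len.comp hf

@[fun_prop] lemma Continuous.len' {α : Type*} [TopologicalSpace α] {f : α → ℝ × ℝ}
    (hf : Continuous f) : Continuous (fun a => len (f a)) := continuous_len.comp hf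

/-! ### Symmetric matrices -/

namespace SymM

lemma qf_smul (M : SymM) (c : ℝ) (v : ℝ × ℝ) : M.qf (c • v) = c ^ 2 * M.qf v := by
  simp [qf]; ring

@[simp] lemma qf_zero (M : SymM) : M.qf 0 = 0 := by simp [qf]

lemma dst_nonneg (M N : SymM) : 0 ≤ dst M N := by unfold dst; positivity

lemma nrm_nonneg (M : SymM) : 0 ≤ nrm M := by unfold nrm; positivity

lemma abs_qf_sub_le (M N : SymM) (v : ℝ × ℝ) : |M.qf v - N.qf v| ≤ dst M N * len v ^ 2 := by
  have h1 : M.qf v - N.qf v = (M.a - N.a) * v.1 ^ 2 + 2 * (M.b - N.b) * (v.1 * v.2)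
      + (M.c - N.c) * v.2 ^ 2 := by simp [qf]; ring
  have h2 : |v.1 * v.2| ≤ len v ^ 2 := by
    rw [abs_mul]
    nlinarith [abs_fst_le_len v, abs_snd_le_len v, abs_nonneg v.1, abs_nonneg v.2, len_nonneg v]
  have h3 : v.1 ^ 2 ≤ len v ^ 2 := by rw [len_sq]; nlinarith [sq_nonneg v.2]
  have h4 : v.2 ^ 2 ≤ len v ^ 2 := by rw [len_sq]; nlinarith [sq_nonneg v.1]
  rw [h1]
  calc _ ≤ |(M.a - N.a) * v.1 ^ 2| + |2 * (M.b - N.b) * (v.1 * v.2)| + |(M.c - N.c) * v.2 ^ 2| :=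
        abs_add_three _ _ _
    _ ≤ |M.a - N.a| * len v ^ 2 + 2 * |M.b - N.b| * len v ^ 2 + |M.c - N.c| * len v ^ 2 := by
        have k1 : |(M.a - N.a) * v.1 ^ 2| = |M.a - N.a| * v.1 ^ 2 := by
          rw [abs_mul, abs_of_nonneg (sq_nonneg v.1)]
        have k2 : |2 * (M.b - N.b) * (v.1 * v.2)| = 2 * |M.b - N.b| * |v.1 * v.2| := by
          rw [abs_mul, abs_mul, abs_two]
        have k3 : |(M.c - N.c) * v.2 ^ 2| = |M.c - N.c| * v.2 ^ 2 := by
          rw [abs_mul, abs_of_nonneg (sq_nonneg v.2)]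
        rw [k1, k2, k3]
        gcongr
    _ = _ := by unfold dst; ring

lemma abs_qf_le (M : SymM) (v : ℝ × ℝ) : |M.qf v| ≤ nrm M * len v ^ 2 := by
  have h := abs_qf_sub_le M ⟨0, 0, 0⟩ v
  simpa [qf, dst, nrm] using h

lemma qf_nonneg {M : SymM} (ha : 0 < M.a) (hd : 0 ≤ M.det) (v : ℝ × ℝ) : 0 ≤ M.qf v := by
  have h : M.a * M.qf v = (M.a * v.1 + M.b * v.2) ^ 2 + M.det * v.2 ^ 2 := by
    simp [qf, det]; ring
  have : 0 ≤ M.a * M.qf v := by rw [h]; positivity
  exact nonneg_of_mul_nonneg_right this ha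

lemma abs_det_sub_le (M N : SymM) : |M.det - N.det| ≤ (nrm M + nrm N) * dst M N := by
  have h : M.det - N.det = M.a * (M.c - N.c) + (M.a - N.a) * N.c - (M.b + N.b) * (M.b - N.b) := by
    simp [det]; ring
  rw [h]
  have e1 := abs_nonneg M.a
  have e2 := abs_nonneg M.b
  have e3 := abs_nonneg M.c
  have e4 := abs_nonneg N.a
  have e5 := abs_nonneg N.b
  have e6 := abs_nonneg N.c
  have f1 := abs_nonneg (M.a - N.a)
  have f2 := abs_nonneg (M.b - N.b)
  have f3 := abs_nonneg (M.c - N.c)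
  calc _ ≤ |M.a * (M.c - N.c) + (M.a - N.a) * N.c| + |(M.b + N.b) * (M.b - N.b)| := abs_sub _ _
    _ ≤ |M.a * (M.c - N.c)| + |(M.a - N.a) * N.c| + |(M.b + N.b) * (M.b - N.b)| := by
        gcongr; exact abs_add_le _ _
    _ ≤ |M.a| * |M.c - N.c| + |M.a - N.a| * |N.c| + (|M.b| + |N.b|) * |M.b - N.b| := by
        rw [abs_mul, abs_mul, abs_mul]
        gcongr
        exact abs_add_le _ _
    _ ≤ _ := by
        unfold nrm dst
        nlinarith [mul_nonneg e1 f1, mul_nonneg e1 f2, mul_nonneg e1 f3, mul_nonneg e2 f1,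
          mul_nonneg e2 f2, mul_nonneg e2 f3, mul_nonneg e3 f1, mul_nonneg e3 f2,
          mul_nonneg e3 f3, mul_nonneg e4 f1, mul_nonneg e4 f2, mul_nonneg e4 f3,
          mul_nonneg e5 f1, mul_nonneg e5 f2, mul_nonneg e5 f3, mul_nonneg e6 f1,
          mul_nonneg e6 f2, mul_nonneg e6 f3]

lemma unit_det {M : SymM} (hd : 0 < M.det) : M.unit.det = 1 := by
  have hs : Real.sqrt M.det ≠ 0 := (Real.sqrt_pos.mpr hd).ne'
  have h2 : Real.sqrt M.det ^ 2 = M.det := Real.sq_sqrt hd.le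
  simp only [unit, det] at *
  field_simp
  nlinarith [h2]

lemma sqrt_mul_unit_qf {M : SymM} (hd : 0 < M.det) (v : ℝ × ℝ) :
    Real.sqrt M.det * M.unit.qf v = M.qf v := by
  have hs : Real.sqrt M.det ≠ 0 := (Real.sqrt_pos.mpr hd).ne'
  simp only [unit, qf]
  field_simp

lemma unit_unim {M : SymM} {B : ℝ} (ha : 0 < M.a) (hd : 0 < M.det)
    (ht : M.tr ≤ B * Real.sqrt M.det) : Unim B M.unit := by
  have hs : 0 < Real.sqrt M.det := Real.sqrt_pos.mpr hd
  refine ⟨div_pos ha hs, unit_det hd, ?_⟩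
  have : M.unit.tr = M.tr / Real.sqrt M.det := by simp [unit, tr]; ring
  rw [this, div_le_iff₀ hs]
  exact ht

end SymM

/-! ### Averages -/

section avg
variable {α β E : Type*} [Fintype α] [Fintype β] [AddCommGroup E] [Module ℝ E]

lemma avg_add (f g : α → E) : avg (fun a => f a + g a) = avg f + avg g := by
  simp [avg, Finset.sum_add_distrib, smul_add]

lemma avg_sub (f g : α → E) : avg (fun a => f a - g a) = avg f - avg g := by
  simp [avg, Finset.sum_sub_distrib, smul_sub]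

lemma avg_neg (f : α → E) : avg (fun a => - f a) = - avg f := by
  simp [avg, Finset.sum_neg_distrib, smul_neg]

lemma avg_smul (c : ℝ) (f : α → E) : avg (fun a => c • f a) = c • avg f := by
  simp only [avg, ← Finset.smul_sum, smul_comm c]

lemma avg_const_mul (c : ℝ) (f : α → ℝ) : avg (fun a => c * f a) = c * avg f := by
  simpa using avg_smul c f

lemma avg_mul_const (c : ℝ) (f : α → ℝ) : avg (fun a => f a * c) = avg f * c := by
  simpa [mul_comm] using avg_smul c f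

lemma avg_const [Nonempty α] (c : E) : avg (fun _ : α => c) = c := by
  have h : (Fintype.card α : ℝ) ≠ 0 := by exact_mod_cast Fintype.card_ne_zero
  simp only [avg, Finset.sum_const, Finset.card_univ]
  rw [← Nat.cast_smul_eq_nsmul ℝ, smul_smul, inv_mul_cancel₀ h, one_smul]

lemma avg_sum {ι : Type*} (s : Finset ι) (f : ι → α → E) :
    avg (fun a => ∑ i ∈ s, f i a) = ∑ i ∈ s, avg (f i) := by
  simp only [avg, Finset.smul_sum]
  rw [Finset.sum_comm]

lemma avg_comm (f : α → β → E) : avg (fun a => avg (f a)) = avg (fun b => avg (fun a => f a b)) := by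
  simp only [avg, ← Finset.smul_sum]
  rw [smul_comm, Finset.sum_comm]

lemma avg_mono {f g : α → ℝ} (h : ∀ a, f a ≤ g a) : avg f ≤ avg g := by
  simp only [avg, smul_eq_mul]
  gcongr with a _
  exact h a

lemma avg_nonneg {f : α → ℝ} (h : ∀ a, 0 ≤ f a) : 0 ≤ avg f := by
  simp only [avg, smul_eq_mul]
  have := Finset.sum_nonneg (fun a (_ : a ∈ Finset.univ) => h a)
  positivity

lemma abs_avg_le (f : α → ℝ) : |avg f| ≤ avg (fun a => |f a|) := by
  simp only [avg, smul_eq_mul, abs_mul, abs_inv, Nat.abs_cast]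
  gcongr
  exact Finset.abs_sum_le_sum_abs _ _

lemma avg_fst (f : α → ℝ × ℝ) : (avg f).1 = avg (fun a => (f a).1) := by
  simp [avg, Prod.fst_sum]

lemma avg_snd (f : α → ℝ × ℝ) : (avg f).2 = avg (fun a => (f a).2) := by
  simp [avg, Prod.snd_sum]

lemma len_avg_le (f : α → ℝ × ℝ) : len (avg f) ≤ avg (fun a => len (f a)) := by
  simp only [avg, len_smul, smul_eq_mul, abs_inv, Nat.abs_cast]
  gcongr
  exact len_sum_le _ _

/-- Cauchy-Schwarz. -/
lemma avg_mul_sq_le (f g : α → ℝ) :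
    avg (fun a => f a * g a) ^ 2 ≤ avg (fun a => f a ^ 2) * avg (fun a => g a ^ 2) := by
  simp only [avg, smul_eq_mul]
  have h := Finset.sum_mul_sq_le_sq_mul_sq Finset.univ f g
  calc _ = ((Fintype.card α : ℝ)⁻¹) ^ 2 * (∑ a, f a * g a) ^ 2 := by ring
    _ ≤ ((Fintype.card α : ℝ)⁻¹) ^ 2 * ((∑ a, f a ^ 2) * ∑ a, g a ^ 2) := by gcongr
    _ = _ := by ring

lemma avg_sq_le [Nonempty α] (f : α → ℝ) : avg f ^ 2 ≤ avg (fun a => f a ^ 2) := by
  have := avg_mul_sq_le (fun a => f a) (fun _ : α => (1 : ℝ))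
  simpa [avg_const] using this

lemma avg_equiv (e : α ≃ β) (f : β → E) : avg (fun a => f (e a)) = avg f := by
  simp only [avg]
  rw [Fintype.card_congr e, Equiv.sum_comp e f]

lemma avg_prod (f : α × β → E) : avg f = avg (fun a => avg (fun b => f (a, b))) := by
  simp only [avg, Fintype.card_prod, Nat.cast_mul, mul_inv, ← Finset.smul_sum, smul_smul]
  rw [Fintype.sum_prod_type]

lemma avg_congr {f g : α → E} (h : ∀ a, f a = g a) : avg f = avg g := by
  rw [funext h]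

end avg

lemma card_dig (m : ℕ) : Fintype.card (Dig m) = m ^ 2 := by
  simp [Dig, sq]

/-! ### Expectation over digits -/

section EJ
variable {m n : ℕ} [NeZero m] {J : ℕ}

lemma EJ_add (F G : Seqs m n → ℝ) : EJ J (fun ω => F ω + G ω) = EJ J F + EJ J G := avg_add _ _

lemma EJ_sub (F G : Seqs m n → ℝ) : EJ J (fun ω => F ω - G ω) = EJ J F - EJ J G := avg_sub _ _

lemma EJ_const_mul (c : ℝ) (F : Seqs m n → ℝ) : EJ J (fun ω => c * F ω) = c * EJ J F :=
  avg_const_mul _ _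

lemma EJ_mul_const (c : ℝ) (F : Seqs m n → ℝ) : EJ J (fun ω => F ω * c) = EJ J F * c :=
  avg_mul_const _ _

lemma EJ_const (c : ℝ) : EJ J (fun _ : Seqs m n => c) = c := avg_const _

lemma EJ_mono {F G : Seqs m n → ℝ} (h : ∀ ω, F ω ≤ G ω) : EJ J F ≤ EJ J G :=
  avg_mono (fun _ => h _)

lemma EJ_nonneg {F : Seqs m n → ℝ} (h : ∀ ω, 0 ≤ F ω) : 0 ≤ EJ J F := avg_nonneg (fun _ => h _)

lemma EJ_sum {ι : Type*} (s : Finset ι) (F : ι → Seqs m n → ℝ) :
    EJ J (fun ω => ∑ i ∈ s, F i ω) = ∑ i ∈ s, EJ J (F i) := avg_sum _ _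

lemma abs_EJ_le (F : Seqs m n → ℝ) : |EJ J F| ≤ EJ J (fun ω => |F ω|) := abs_avg_le _

lemma EJ_mul_sq_le (F G : Seqs m n → ℝ) :
    EJ J (fun ω => F ω * G ω) ^ 2 ≤ EJ J (fun ω => F ω ^ 2) * EJ J (fun ω => G ω ^ 2) :=
  avg_mul_sq_le _ _

lemma EJ_sq_le (F : Seqs m n → ℝ) : EJ J F ^ 2 ≤ EJ J (fun ω => F ω ^ 2) := avg_sq_le _

lemma EJ_mul_le_sqrt (F G : Seqs m n → ℝ) :
    EJ J (fun ω => F ω * G ω) ≤
      Real.sqrt (EJ J (fun ω => F ω ^ 2)) * Real.sqrt (EJ J (fun ω => G ω ^ 2)) := by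
  rw [← Real.sqrt_mul (EJ_nonneg fun ω => sq_nonneg _)]
  exact Real.le_sqrt_of_sq_le (EJ_mul_sq_le F G)

lemma EJ_congr {F G : Seqs m n → ℝ} (h : ∀ ω, F ω = G ω) : EJ J F = EJ J G := by
  rw [funext h]

/-- Exchange of the expectation and an integral. -/
lemma EJ_integral {α : Type*} [MeasurableSpace α] {μ : Measure α} (F : Seqs m n → α → ℝ)
    (hF : ∀ ω, Integrable (F ω) μ) :
    EJ J (fun ω => ∫ z, F ω z ∂μ) = ∫ z, EJ J (fun ω => F ω z) ∂μ := by
  simp only [EJ, avg, smul_eq_mul]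
  rw [integral_const_mul, integral_finsetSum]
  intro i _
  exact hF _

/-- One step formula. -/
theorem C1_basic (j : ℕ) (hj : j < J) (F : Seqs m n → ℝ) :
    EJ J F = EJ J (fun ω => avg (fun δ : Fin n → Dig m => F (Function.update ω j δ))) := by
  have hupd : ∀ (w : Fin J → Fin n → Dig m) (δ : Fin n → Dig m),
      Function.update (ext J w) j δ = ext J (Function.update w ⟨j, hj⟩ δ) := by
    intro w δ
    funext l i
    by_cases hl : l = j
    · subst hl
      simp [ext, hj]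
    · rw [Function.update_of_ne hl]
      simp only [ext]
      by_cases h : l < J
      · have : (⟨l, h⟩ : Fin J) ≠ ⟨j, hj⟩ := by simpa using hl
        simp [h, Function.update_of_ne this]
      · simp [h]
  simp only [EJ, hupd]
  set G : (Fin J → Fin n → Dig m) → ℝ := fun w => F (ext J w) with hG
  change avg G = avg (fun w => avg (fun δ => G (Function.update w ⟨j, hj⟩ δ)))
  rw [← avg_prod (fun p : (Fin J → Fin n → Dig m) × (Fin n → Dig m) =>
    G (Function.update p.1 ⟨j, hj⟩ p.2))]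
  let e : (Fin J → Fin n → Dig m) × (Fin n → Dig m) ≃ (Fin J → Fin n → Dig m) × (Fin n → Dig m) :=
    { toFun := fun p => (Function.update p.1 ⟨j, hj⟩ p.2, p.1 ⟨j, hj⟩)
      invFun := fun p => (Function.update p.1 ⟨j, hj⟩ p.2, p.1 ⟨j, hj⟩)
      left_inv := fun p => by simp
      right_inv := fun p => by simp }
  have h1 : avg (fun p : (Fin J → Fin n → Dig m) × (Fin n → Dig m) => G p.1) = avg G := by
    rw [avg_prod]
    exact avg_congr fun w => by
      show avg (fun _ : Fin n → Dig m => G w) = G w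
      exact avg_const _
  rw [← h1, ← avg_equiv e]
  rfl

end EJ

/-! ### Digits and cells -/

lemma cidx_congr {m n : ℕ} {ω ω' : Seqs m n} {j : ℕ} (h : ∀ l, l < j → ω l = ω' l) :
    cidx ω j = cidx ω' j := by
  induction j with
  | zero => rfl
  | succ j ih =>
    have e1 := ih (fun l hl => h l (by omega))
    have e2 := h j (by omega)
    funext i
    simp only [cidx, e1, e2]

lemma cidx_update {m n : ℕ} (ω : Seqs m n) {j l : ℕ} (hl : l ≤ j) (δ : Fin n → Dig m) :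
    cidx (Function.update ω j δ) l = cidx ω l :=
  cidx_congr (fun k hk => Function.update_of_ne (by omega) _ _)

lemma cidx_succ_update {m n : ℕ} (ω : Seqs m n) (j : ℕ) (δ : Fin n → Dig m) (i : Fin n) :
    cidx (Function.update ω j δ) (j + 1) i =
      (m * (cidx ω j i).1 + ((δ i).1 : ℕ), m * (cidx ω j i).2 + ((δ i).2 : ℕ)) := by
  simp [cidx, cidx_update ω (le_refl j)]

lemma inCell_congr {m n : ℕ} {ω ω' : Seqs m n} {j : ℕ} (h : ∀ l, l < j → ω l = ω' l)
    (q : ℕ × ℕ) : inCell ω j q = inCell ω' j q := by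
  simp only [inCell, cidx_congr h]

lemma inCell_update {m n : ℕ} (ω : Seqs m n) {j l : ℕ} (hl : l ≤ j) (δ : Fin n → Dig m)
    (q : ℕ × ℕ) : inCell (Function.update ω j δ) l q = inCell ω l q := by
  simp only [inCell, cidx_update ω hl]

lemma rdens_update {m n : ℕ} (ω : Seqs m n) {j l : ℕ} (hl : l ≤ j) (δ : Fin n → Dig m)
    (q : ℕ × ℕ) : rdens (Function.update ω j δ) l q = rdens ω l q := by
  simp only [rdens, inCell_update ω hl]

lemma cidx_lt {m n : ℕ} (ω : Seqs m n) (j : ℕ) (i : Fin n) :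
    (cidx ω j i).1 < m ^ j ∧ (cidx ω j i).2 < m ^ j := by
  induction j with
  | zero => simp [cidx]
  | succ j ih =>
    have h1 := (ω j i).1.isLt
    have h2 := (ω j i).2.isLt
    simp only [cidx, pow_succ]
    constructor
    · calc m * (cidx ω j i).1 + ((ω j i).1 : ℕ) < m * (cidx ω j i).1 + m := by omega
        _ = m * ((cidx ω j i).1 + 1) := by ring
        _ ≤ m * m ^ j := Nat.mul_le_mul_left _ ih.1
        _ = _ := by ring
    · calc m * (cidx ω j i).2 + ((ω j i).2 : ℕ) < m * (cidx ω j i).2 + m := by omega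
        _ = m * ((cidx ω j i).2 + 1) := by ring
        _ ≤ m * m ^ j := Nat.mul_le_mul_left _ ih.2
        _ = _ := by ring

lemma rdens_nonneg {m n : ℕ} (ω : Seqs m n) (j : ℕ) (q : ℕ × ℕ) : 0 ≤ rdens ω j q := by
  unfold rdens; positivity

lemma stp_nonneg (m n j : ℕ) : 0 ≤ stp m n j := by unfold stp; positivity

lemma stp_sq_mul_card {m n : ℕ} (hn : 2 ≤ n) (ω : Seqs m n) (j : ℕ) (q : ℕ × ℕ) :
    stp m n j ^ 2 * ((inCell ω j q).card : ℝ) = rdens ω j q / Real.log n := by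
  have hn0 : (0 : ℝ) < n := by positivity
  have hl : 0 < Real.log n := Real.log_pos (by exact_mod_cast (by omega : 1 < n))
  rw [stp, rdens, div_pow, Real.sq_sqrt (by positivity)]
  field_simp
  ring

lemma loc_mem_Sq {m j : ℕ} {z : ℝ × ℝ} (hz : z ∈ Sq) : loc m j z ∈ Sq0 := by
  have h1 : (0 : ℝ) ≤ (m : ℝ) ^ j * z.1 := mul_nonneg (by positivity) hz.1.1
  have h2 : (0 : ℝ) ≤ (m : ℝ) ^ j * z.2 := mul_nonneg (by positivity) hz.2.1
  refine ⟨⟨?_, ?_⟩, ⟨?_, ?_⟩⟩
  · simp only [loc]; linarith [Nat.floor_le h1]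
  · simp only [loc]; linarith [Nat.lt_floor_add_one ((m : ℝ) ^ j * z.1)]
  · simp only [loc]; linarith [Nat.floor_le h2]
  · simp only [loc]; linarith [Nat.lt_floor_add_one ((m : ℝ) ^ j * z.2)]

lemma Sq0_subset_Sq : Sq0 ⊆ Sq := fun _ hz => ⟨⟨hz.1.1, hz.1.2.le⟩, ⟨hz.2.1, hz.2.2.le⟩⟩

lemma emb_qidx_loc {m : ℕ} (hm : 0 < m) (j : ℕ) (z : ℝ × ℝ) :
    emb m j (qidx m j z) (loc m j z) = z := by
  have : ((m : ℝ) ^ j) ≠ 0 := by positivity
  ext
  · simp only [emb, qidx, loc]; field_simp; ring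
  · simp only [emb, qidx, loc]; field_simp; ring

lemma qidx_lt {m : ℕ} (hm : 0 < m) (j : ℕ) {z : ℝ × ℝ} (hz : z ∈ Sq0) :
    (qidx m j z).1 < m ^ j ∧ (qidx m j z).2 < m ^ j := by
  have hp : (0 : ℝ) < (m : ℝ) ^ j := by positivity
  constructor
  · simp only [qidx]
    rw [Nat.floor_lt (mul_nonneg hp.le hz.1.1)]
    push_cast
    nlinarith [hz.1.2]
  · simp only [qidx]
    rw [Nat.floor_lt (mul_nonneg hp.le hz.2.1)]
    push_cast
    nlinarith [hz.2.2]

lemma emb_mem_Sq {m : ℕ} (hm : 0 < m) {j : ℕ} {q : ℕ × ℕ} (h1 : q.1 < m ^ j) (h2 : q.2 < m ^ j)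
    {u : ℝ × ℝ} (hu : u ∈ Sq) : emb m j q u ∈ Sq := by
  have hp : (0 : ℝ) < (m : ℝ) ^ j := by positivity
  have e1 : (q.1 : ℝ) + 1 ≤ (m : ℝ) ^ j := by exact_mod_cast h1
  have e2 : (q.2 : ℝ) + 1 ≤ (m : ℝ) ^ j := by exact_mod_cast h2
  refine ⟨⟨?_, ?_⟩, ⟨?_, ?_⟩⟩
  · simp only [emb]; have := hu.1.1; positivity
  · simp only [emb]; rw [div_le_one hp]; linarith [hu.1.2]
  · simp only [emb]; have := hu.2.1; positivity
  · simp only [emb]; rw [div_le_one hp]; linarith [hu.2.2]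

lemma qidx_emb {m : ℕ} (hm : 0 < m) (j : ℕ) (q : ℕ × ℕ) {u : ℝ × ℝ} (hu : u ∈ Sq0) :
    qidx m j (emb m j q u) = q ∧ loc m j (emb m j q u) = u := by
  have hp : ((m : ℝ) ^ j) ≠ 0 := by positivity
  have e1 : (m : ℝ) ^ j * (((q.1 : ℝ) + u.1) / (m : ℝ) ^ j) = q.1 + u.1 := by field_simp
  have e2 : (m : ℝ) ^ j * (((q.2 : ℝ) + u.2) / (m : ℝ) ^ j) = q.2 + u.2 := by field_simp
  have f1 : ⌊(q.1 : ℝ) + u.1⌋₊ = q.1 := by
    rw [Nat.floor_eq_iff (add_nonneg (Nat.cast_nonneg _) hu.1.1)]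
    exact ⟨by linarith [hu.1.1], by linarith [hu.1.2]⟩
  have f2 : ⌊(q.2 : ℝ) + u.2⌋₊ = q.2 := by
    rw [Nat.floor_eq_iff (add_nonneg (Nat.cast_nonneg _) hu.2.1)]
    exact ⟨by linarith [hu.2.1], by linarith [hu.2.2]⟩
  constructor
  · simp only [qidx, emb, e1, e2, f1, f2]
  · simp only [loc, emb, e1, e2, f1, f2]
    ext <;> simp

/-! ### The unit square -/

lemma measurableSet_Sq : MeasurableSet Sq := measurableSet_Icc.prod measurableSet_Icc

lemma measurableSet_Sq0 : MeasurableSet Sq0 := measurableSet_Ico.prod measurableSet_Ico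

lemma volume_Sq : volume Sq = 1 := by
  rw [Sq, Measure.volume_eq_prod, Measure.prod_prod]
  simp

lemma volume_Sq0 : volume Sq0 = 1 := by
  rw [Sq0, Measure.volume_eq_prod, Measure.prod_prod]
  simp

instance instProbU : IsProbabilityMeasure U := ⟨by simp [U, volume_Sq]⟩

lemma U_compl_Sq : U Sqᶜ = 0 := by
  rw [U, Measure.restrict_apply measurableSet_Sq.compl]
  simp

lemma U_compl_Sq0 : U Sq0ᶜ = 0 := by
  have h : U Sq0 = 1 := by
    rw [U, Measure.restrict_apply measurableSet_Sq0,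
      inter_eq_left.mpr Sq0_subset_Sq, volume_Sq0]
  rw [prob_compl_eq_zero_iff measurableSet_Sq0]
  exact h

lemma ae_mem_Sq0 : ∀ᵐ z ∂U, z ∈ Sq0 := by
  rw [ae_iff]
  exact U_compl_Sq0

lemma ae_mem_Sq : ∀ᵐ z ∂U, z ∈ Sq := ae_mem_Sq0.mono fun _ h => Sq0_subset_Sq h

lemma integrable_of_bdd {f : ℝ × ℝ → ℝ} (hf : Measurable f) {C : ℝ}
    (hC : ∀ z ∈ Sq, |f z| ≤ C) : Integrable f U :=
  Integrable.of_bound hf.aestronglyMeasurable C
    (ae_mem_Sq.mono fun z hz => by simpa using hC z hz)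

lemma integral_mono_Sq {f g : ℝ × ℝ → ℝ} (hf : Integrable f U) (hg : Integrable g U)
    (h : ∀ z ∈ Sq0, f z ≤ g z) : ∫ z, f z ∂U ≤ ∫ z, g z ∂U :=
  integral_mono_ae hf hg (ae_mem_Sq0.mono h)

lemma integral_const_U (c : ℝ) : ∫ _, c ∂U = c := by simp

lemma measurable_qidx (m j : ℕ) : Measurable (qidx m j) := by
  unfold qidx
  fun_prop

lemma measurable_loc (m j : ℕ) : Measurable (loc m j) := by
  unfold loc
  fun_prop

end Match2D

end

section

/-!
MP_884187_pr: basic lemmas on `IsFlux` (zero, add, smul, sum, avg, congr, embedding in a cell).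
-/

open MeasureTheory Set Filter Topology

namespace Match2D

theorem flux_ii {h : ℝ → ℝ} (hm : Measurable h) {B : ℝ} (hB : ∀ t, |h t| ≤ B) (a b : ℝ) :
    IntervalIntegrable h volume a b := by
  rw [intervalIntegrable_iff]
  refine Measure.integrableOn_of_bounded (M := B) ?_ hm.aestronglyMeasurable ?_
  · simp
  · exact Filter.Eventually.of_forall (fun t => by simpa using hB t)

theorem IsFlux.zero : IsFlux (fun _ => 0) (fun _ => 0) := by
  refine ⟨fun _ => 0, fun _ => 0, 0, measurable_const, measurable_const, ?_, ?_, ?_, ?_, ?_, ?_, ?_⟩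
    <;> simp

theorem IsFlux.add {b b' : ℝ × ℝ → ℝ × ℝ} {f f' : ℝ × ℝ → ℝ} (h : IsFlux b f)
    (h' : IsFlux b' f') : IsFlux (fun z => b z + b' z) (fun z => f z + f' z) := by
  obtain ⟨g1, g2, B, m1, m2, B1, B2, p1, q1, p2, q2, hs⟩ := h
  obtain ⟨g1', g2', B', m1', m2', B1', B2', p1', q1', p2', q2', hs'⟩ := h'
  have c1 : ∀ y : ℝ, Measurable (fun s : ℝ => g1 (s, y)) := fun y => m1.comp (by fun_prop)
  have c1' : ∀ y : ℝ, Measurable (fun s : ℝ => g1' (s, y)) := fun y => m1'.comp (by fun_prop)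
  have c2 : ∀ x : ℝ, Measurable (fun s : ℝ => g2 (x, s)) := fun y => m2.comp (by fun_prop)
  have c2' : ∀ x : ℝ, Measurable (fun s : ℝ => g2' (x, s)) := fun y => m2'.comp (by fun_prop)
  refine ⟨fun z => g1 z + g1' z, fun z => g2 z + g2' z, B + B', m1.add m1', m2.add m2',
    fun z => (abs_add_le _ _).trans (add_le_add (B1 z) (B1' z)),
    fun z => (abs_add_le _ _).trans (add_le_add (B2 z) (B2' z)), ?_, ?_, ?_, ?_, ?_⟩
  · intro x hx y hy
    rw [intervalIntegral.integral_add (flux_ii (c1 y) (fun t => B1 _) _ _)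
      (flux_ii (c1' y) (fun t => B1' _) _ _), ← p1 x hx y hy, ← p1' x hx y hy]
    rfl
  · intro y hy
    rw [intervalIntegral.integral_add (flux_ii (c1 y) (fun t => B1 _) _ _)
      (flux_ii (c1' y) (fun t => B1' _) _ _), q1 y hy, q1' y hy, add_zero]
  · intro x hx y hy
    rw [intervalIntegral.integral_add (flux_ii (c2 x) (fun t => B2 _) _ _)
      (flux_ii (c2' x) (fun t => B2' _) _ _), ← p2 x hx y hy, ← p2' x hx y hy]
    rfl
  · intro x hx
    rw [intervalIntegral.integral_add (flux_ii (c2 x) (fun t => B2 _) _ _)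
      (flux_ii (c2' x) (fun t => B2' _) _ _), q2 x hx, q2' x hx, add_zero]
  · intro z hz
    have := hs z hz
    have := hs' z hz
    simp only
    linarith

theorem IsFlux.smul (c : ℝ) {b : ℝ × ℝ → ℝ × ℝ} {f : ℝ × ℝ → ℝ} (h : IsFlux b f) :
    IsFlux (fun z => c • b z) (fun z => c * f z) := by
  obtain ⟨g1, g2, B, m1, m2, B1, B2, p1, q1, p2, q2, hs⟩ := h
  refine ⟨fun z => c * g1 z, fun z => c * g2 z, |c| * B, m1.const_mul c, m2.const_mul c,
    fun z => ?_, fun z => ?_, ?_, ?_, ?_, ?_, ?_⟩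
  · rw [abs_mul]; exact mul_le_mul_of_nonneg_left (B1 z) (abs_nonneg c)
  · rw [abs_mul]; exact mul_le_mul_of_nonneg_left (B2 z) (abs_nonneg c)
  · intro x hx y hy
    rw [intervalIntegral.integral_const_mul, ← p1 x hx y hy]
    rfl
  · intro y hy
    rw [intervalIntegral.integral_const_mul, q1 y hy, mul_zero]
  · intro x hx y hy
    rw [intervalIntegral.integral_const_mul, ← p2 x hx y hy]
    rfl
  · intro x hx
    rw [intervalIntegral.integral_const_mul, q2 x hx, mul_zero]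
  · intro z hz
    have := hs z hz
    simp only
    rw [← this]; ring

/-- The most general congruence: the two components only matter on the indicated sets. -/
theorem IsFlux.congr' {b b' : ℝ × ℝ → ℝ × ℝ} {f f' : ℝ × ℝ → ℝ} (h : IsFlux b f)
    (h1 : ∀ x ∈ Icc (0 : ℝ) 1, ∀ y ∈ Ico (0 : ℝ) 1, (b' (x, y)).1 = (b (x, y)).1)
    (h2 : ∀ x ∈ Ico (0 : ℝ) 1, ∀ y ∈ Icc (0 : ℝ) 1, (b' (x, y)).2 = (b (x, y)).2)
    (hf : ∀ z ∈ Sq0, f' z = f z) : IsFlux b' f' := by
  obtain ⟨g1, g2, B, m1, m2, B1, B2, p1, q1, p2, q2, hs⟩ := h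
  exact ⟨g1, g2, B, m1, m2, B1, B2, fun x hx y hy => by rw [h1 x hx y hy, p1 x hx y hy], q1,
    fun x hx y hy => by rw [h2 x hx y hy, p2 x hx y hy], q2, fun z hz => by rw [hf z hz, hs z hz]⟩

theorem IsFlux.congr {b b' : ℝ × ℝ → ℝ × ℝ} {f f' : ℝ × ℝ → ℝ} (h : IsFlux b f)
    (hb : ∀ z ∈ Sq, b' z = b z) (hf : ∀ z ∈ Sq0, f' z = f z) : IsFlux b' f' := by
  refine h.congr' (fun x hx y hy => ?_) (fun x hx y hy => ?_) hf
  · rw [hb (x, y) ⟨hx, ⟨hy.1, hy.2.le⟩⟩]
  · rw [hb (x, y) ⟨⟨hx.1, hx.2.le⟩, hy⟩]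

theorem IsFlux.neg {b : ℝ × ℝ → ℝ × ℝ} {f : ℝ × ℝ → ℝ} (h : IsFlux b f) :
    IsFlux (fun z => - b z) (fun z => - f z) :=
  (h.smul (-1)).congr (fun z _ => by simp) (fun z _ => by ring)

theorem IsFlux.sub {b b' : ℝ × ℝ → ℝ × ℝ} {f f' : ℝ × ℝ → ℝ} (h : IsFlux b f)
    (h' : IsFlux b' f') : IsFlux (fun z => b z - b' z) (fun z => f z - f' z) :=
  (h.add h'.neg).congr (fun z _ => by rw [sub_eq_add_neg]) (fun z _ => by ring)

theorem IsFlux.sum {ι : Type*} (s : Finset ι) {b : ι → ℝ × ℝ → ℝ × ℝ} {f : ι → ℝ × ℝ → ℝ}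
    (h : ∀ i ∈ s, IsFlux (b i) (f i)) :
    IsFlux (fun z => ∑ i ∈ s, b i z) (fun z => ∑ i ∈ s, f i z) := by
  classical
  induction s using Finset.induction_on with
  | empty => simpa using IsFlux.zero
  | insert a s ha ih =>
    have h1 := h a (Finset.mem_insert_self a s)
    have h2 := ih (fun i hi => h i (Finset.mem_insert_of_mem hi))
    exact (h1.add h2).congr (fun z _ => by rw [Finset.sum_insert ha])
      (fun z _ => by rw [Finset.sum_insert ha])

theorem IsFlux.avg {ι : Type*} [Fintype ι] {b : ι → ℝ × ℝ → ℝ × ℝ} {f : ι → ℝ × ℝ → ℝ}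
    (h : ∀ i, IsFlux (b i) (f i)) :
    IsFlux (fun z => avg (fun i => b i z)) (fun z => avg (fun i => f i z)) :=
  (IsFlux.sum Finset.univ (fun i _ => h i)).smul ((Fintype.card ι : ℝ)⁻¹)

/-- A flux of zero divergence source vanishing identically is also a flux for any field that
agrees with it. -/
theorem IsFlux.of_eq {b b' : ℝ × ℝ → ℝ × ℝ} {f f' : ℝ × ℝ → ℝ} (h : IsFlux b f)
    (hb : b' = b) (hf : f' = f) : IsFlux b' f' := by subst hb hf; exact h

/-- Components of a flux vanish on the corresponding edges. -/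
theorem IsFlux.edge {b : ℝ × ℝ → ℝ × ℝ} {f : ℝ × ℝ → ℝ} (h : IsFlux b f) :
    (∀ y ∈ Ico (0 : ℝ) 1, (b (0, y)).1 = 0 ∧ (b (1, y)).1 = 0) ∧
    (∀ x ∈ Ico (0 : ℝ) 1, (b (x, 0)).2 = 0 ∧ (b (x, 1)).2 = 0) := by
  obtain ⟨g1, g2, B, m1, m2, B1, B2, p1, q1, p2, q2, hs⟩ := h
  refine ⟨fun y hy => ⟨?_, ?_⟩, fun x hx => ⟨?_, ?_⟩⟩
  · rw [p1 0 (by simp) y hy]; simp
  · rw [p1 1 (by simp) y hy]; exact q1 y hy
  · rw [p2 x hx 0 (by simp)]; simp
  · rw [p2 x hx 1 (by simp)]; exact q2 x hx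

/-- One dimensional lemma: the primitive of a rescaled density supported in a cell. -/
theorem flux_cell_prim {N : ℝ} (hN : 0 < N) (q : ℕ) {h : ℝ → ℝ} (hm : Measurable h) {B : ℝ}
    (hB : ∀ t, |h t| ≤ B) (h0 : ∫ t in (0 : ℝ)..1, h t = 0) {x : ℝ} (hx : 0 ≤ x) :
    ∫ s in (0 : ℝ)..x, (if ⌊N * s⌋₊ = q then N ^ 2 * h (N * s - q) else 0) =
      if ⌊N * x⌋₊ = q then N * ∫ t in (0 : ℝ)..(N * x - q), h t else 0 := by
  classical
  set F : ℝ → ℝ := fun s => if ⌊N * s⌋₊ = q then N ^ 2 * h (N * s - q) else 0 with hF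
  have hFm : Measurable F := by
    refine Measurable.ite ?_ ?_ measurable_const
    · exact (Nat.measurable_floor.comp (measurable_const_mul N)) (measurableSet_singleton q)
    · exact (hm.comp ((measurable_const_mul N).sub_const _)).const_mul _
  have hFB : ∀ s, |F s| ≤ N ^ 2 * B := by
    intro s
    have hB0 : 0 ≤ B := (abs_nonneg _).trans (hB 0)
    simp only [hF]
    split_ifs
    · rw [abs_mul, abs_of_nonneg (by positivity : (0 : ℝ) ≤ N ^ 2)]
      exact mul_le_mul_of_nonneg_left (hB _) (by positivity)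
    · simp; positivity
  have ii : ∀ a b, IntervalIntegrable F volume a b := fun a b => flux_ii hFm hFB a b
  have z1 : ∀ a b : ℝ, 0 ≤ a → a ≤ b → N * b ≤ q → ∫ s in a..b, F s = 0 := by
    intro a b ha hab hb
    rw [intervalIntegral.integral_of_le hab, integral_Ioc_eq_integral_Ioo]
    refine setIntegral_eq_zero_of_forall_eq_zero (fun s hs => ?_)
    have h1 : 0 ≤ N * s := mul_nonneg hN.le (ha.trans hs.1.le)
    have h2 : N * s < q := (mul_lt_mul_of_pos_left hs.2 hN).trans_le hb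
    have h3 : ⌊N * s⌋₊ < q := (Nat.floor_lt h1).2 h2
    simp only [hF]
    rw [if_neg h3.ne]
  have z2 : ∀ a b : ℝ, a ≤ b → (q : ℝ) + 1 ≤ N * a → ∫ s in a..b, F s = 0 := by
    intro a b hab ha
    rw [intervalIntegral.integral_of_le hab, integral_Ioc_eq_integral_Ioo]
    refine setIntegral_eq_zero_of_forall_eq_zero (fun s hs => ?_)
    have h2 : ((q + 1 : ℕ) : ℝ) ≤ N * s := by
      push_cast
      exact ha.trans (mul_le_mul_of_nonneg_left hs.1.le hN.le)
    have h3 : q + 1 ≤ ⌊N * s⌋₊ := Nat.le_floor h2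
    simp only [hF]
    rw [if_neg (by omega)]
  have z3 : ∀ b : ℝ, (q : ℝ) ≤ N * b → N * b ≤ q + 1 →
      ∫ s in ((q : ℝ) / N)..b, F s = N * ∫ t in (0 : ℝ)..(N * b - q), h t := by
    intro b hb1 hb2
    have hab : (q : ℝ) / N ≤ b := by rw [div_le_iff₀ hN]; linarith
    have e1 : ∫ s in ((q : ℝ) / N)..b, F s =
        ∫ s in ((q : ℝ) / N)..b, N ^ 2 * h (N * s - q) := by
      rw [intervalIntegral.integral_of_le hab, intervalIntegral.integral_of_le hab,
        integral_Ioc_eq_integral_Ioo, integral_Ioc_eq_integral_Ioo]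
      refine setIntegral_congr_fun measurableSet_Ioo (fun s hs => ?_)
      have h1 : (q : ℝ) < N * s := by
        have := hs.1
        rw [div_lt_iff₀ hN] at this
        linarith
      have h2 : N * s < q + 1 := (mul_lt_mul_of_pos_left hs.2 hN).trans_le hb2
      have h3 : ⌊N * s⌋₊ = q := by
        rw [Nat.floor_eq_iff ((Nat.cast_nonneg q).trans h1.le)]
        exact ⟨h1.le, h2⟩
      simp only [hF]
      rw [if_pos h3]
    rw [e1, intervalIntegral.integral_const_mul,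
      intervalIntegral.integral_comp_mul_sub (fun t => h t) hN.ne' (q : ℝ)]
    have e2 : N * (↑q / N) - q = 0 := by field_simp; ring
    rw [e2, smul_eq_mul]
    field_simp
  have hqN : 0 ≤ (q : ℝ) / N := by positivity
  have hNq : N * ((q : ℝ) / N) = q := by field_simp
  rcases lt_or_ge (N * x) q with h1 | h1
  · have h3 : ⌊N * x⌋₊ < q := (Nat.floor_lt (mul_nonneg hN.le hx)).2 h1
    rw [if_neg h3.ne]
    exact z1 0 x le_rfl hx h1.le
  · have hab : (q : ℝ) / N ≤ x := by rw [div_le_iff₀ hN]; linarith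
    rw [← intervalIntegral.integral_add_adjacent_intervals (ii 0 ((q : ℝ) / N)) (ii _ x),
      z1 0 _ le_rfl hqN hNq.le, zero_add]
    rcases lt_or_ge (N * x) (q + 1) with h2 | h2
    · have h3 : ⌊N * x⌋₊ = q := by
        rw [Nat.floor_eq_iff ((Nat.cast_nonneg q).trans h1)]
        exact ⟨h1, h2⟩
      rw [if_pos h3]
      exact z3 x h1 h2.le
    · have h3 : q + 1 ≤ ⌊N * x⌋₊ := Nat.le_floor (by push_cast; exact h2)
      rw [if_neg (by omega)]
      have hN1 : N * (((q : ℝ) + 1) / N) = q + 1 := by field_simp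
      have hab2 : ((q : ℝ) + 1) / N ≤ x := by rw [div_le_iff₀ hN]; linarith
      rw [← intervalIntegral.integral_add_adjacent_intervals (ii _ (((q : ℝ) + 1) / N)) (ii _ x),
        z3 _ (by rw [hN1]; linarith) hN1.le, z2 _ _ hab2 hN1.ge, add_zero, hN1]
      have : (q : ℝ) + 1 - q = 1 := by ring
      rw [this, h0, mul_zero]

theorem flux_natfloor_frac {t : ℝ} (ht : 0 ≤ t) : t - ⌊t⌋₊ ∈ Ico (0 : ℝ) 1 :=
  ⟨by have := Nat.floor_le ht; linarith, by have := Nat.lt_floor_add_one t; linarith⟩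

/-- Embedding of a flux in the cell `q` of the grid of mesh `1 / N`: general form. -/
theorem IsFlux.cellN (N : ℕ) (hN : 0 < N) (q : ℕ × ℕ) {b : ℝ × ℝ → ℝ × ℝ} {f : ℝ × ℝ → ℝ}
    (h : IsFlux b f) :
    IsFlux (fun z => if (⌊(N : ℝ) * z.1⌋₊, ⌊(N : ℝ) * z.2⌋₊) = q then
        (N : ℝ) • b ((N : ℝ) * z.1 - q.1, (N : ℝ) * z.2 - q.2) else 0)
      (fun z => if (⌊(N : ℝ) * z.1⌋₊, ⌊(N : ℝ) * z.2⌋₊) = q then
        (N : ℝ) ^ 2 * f ((N : ℝ) * z.1 - q.1, (N : ℝ) * z.2 - q.2) else 0) := by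
  classical
  obtain ⟨g1, g2, B, m1, m2, B1, B2, p1, q1, p2, q2, hs⟩ := h
  have hN' : (0 : ℝ) < N := by exact_mod_cast hN
  have hB0 : 0 ≤ B := (abs_nonneg _).trans (B1 0)
  have c1 : ∀ y : ℝ, Measurable (fun s : ℝ => g1 (s, y)) := fun y => m1.comp (by fun_prop)
  have c2 : ∀ x : ℝ, Measurable (fun s : ℝ => g2 (x, s)) := fun y => m2.comp (by fun_prop)
  obtain ⟨a, c⟩ := q
  simp only [Prod.mk.injEq]
  have hset : MeasurableSet {z : ℝ × ℝ | ⌊(N : ℝ) * z.1⌋₊ = a ∧ ⌊(N : ℝ) * z.2⌋₊ = c} := by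
    apply MeasurableSet.inter
    · exact (Nat.measurable_floor.comp (measurable_fst.const_mul (N : ℝ)))
        (measurableSet_singleton a)
    · exact (Nat.measurable_floor.comp (measurable_snd.const_mul (N : ℝ)))
        (measurableSet_singleton c)
  have key : ∀ {g : ℝ × ℝ → ℝ}, Measurable g → (∀ z, |g z| ≤ B) →
      Measurable (fun z : ℝ × ℝ => if ⌊(N : ℝ) * z.1⌋₊ = a ∧ ⌊(N : ℝ) * z.2⌋₊ = c then
        (N : ℝ) ^ 2 * g ((N : ℝ) * z.1 - a, (N : ℝ) * z.2 - c) else 0) ∧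
      ∀ z : ℝ × ℝ, |if ⌊(N : ℝ) * z.1⌋₊ = a ∧ ⌊(N : ℝ) * z.2⌋₊ = c then
        (N : ℝ) ^ 2 * g ((N : ℝ) * z.1 - a, (N : ℝ) * z.2 - c) else 0| ≤ (N : ℝ) ^ 2 * B := by
    intro g hg hgB
    constructor
    · exact Measurable.ite hset ((hg.comp (by fun_prop)).const_mul _) measurable_const
    · intro z
      split_ifs
      · rw [abs_mul, abs_of_nonneg (by positivity : (0 : ℝ) ≤ (N : ℝ) ^ 2)]
        exact mul_le_mul_of_nonneg_left (hgB _) (by positivity)
      · simp; positivity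
  refine ⟨_, _, (N : ℝ) ^ 2 * B, (key m1 B1).1, (key m2 B2).1, (key m1 B1).2, (key m2 B2).2,
    ?_, ?_, ?_, ?_, ?_⟩
  · intro x hx y hy
    by_cases hyc : ⌊(N : ℝ) * y⌋₊ = c
    · have hv : (N : ℝ) * y - c ∈ Ico (0 : ℝ) 1 := by
        rw [← hyc]; exact flux_natfloor_frac (mul_nonneg hN'.le hy.1)
      simp only [hyc, and_true]
      rw [flux_cell_prim hN' a (c1 ((N : ℝ) * y - c)) (fun t => B1 _) (q1 _ hv) hx.1]
      by_cases hxa : ⌊(N : ℝ) * x⌋₊ = a
      · have hu : (N : ℝ) * x - a ∈ Ico (0 : ℝ) 1 := by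
          rw [← hxa]; exact flux_natfloor_frac (mul_nonneg hN'.le hx.1)
        rw [if_pos hxa, if_pos hxa, ← p1 _ ⟨hu.1, hu.2.le⟩ _ hv]
        rfl
      · rw [if_neg hxa, if_neg hxa]; rfl
    · simp only [hyc, and_false, if_false]
      simp
  · intro y hy
    by_cases hyc : ⌊(N : ℝ) * y⌋₊ = c
    · have hv : (N : ℝ) * y - c ∈ Ico (0 : ℝ) 1 := by
        rw [← hyc]; exact flux_natfloor_frac (mul_nonneg hN'.le hy.1)
      simp only [hyc, and_true]
      rw [flux_cell_prim hN' a (c1 ((N : ℝ) * y - c)) (fun t => B1 _) (q1 _ hv) zero_le_one]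
      by_cases hxa : ⌊(N : ℝ) * 1⌋₊ = a
      · rw [if_pos hxa]
        have : (N : ℝ) * 1 - a = 0 := by
          rw [mul_one, Nat.floor_natCast] at hxa
          rw [← hxa]; ring
        rw [this]; simp
      · rw [if_neg hxa]
    · simp only [hyc, and_false, if_false]
      simp
  · intro x hx y hy
    by_cases hxa : ⌊(N : ℝ) * x⌋₊ = a
    · have hv : (N : ℝ) * x - a ∈ Ico (0 : ℝ) 1 := by
        rw [← hxa]; exact flux_natfloor_frac (mul_nonneg hN'.le hx.1)
      simp only [hxa, true_and]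
      rw [flux_cell_prim hN' c (c2 ((N : ℝ) * x - a)) (fun t => B2 _) (q2 _ hv) hy.1]
      by_cases hyc : ⌊(N : ℝ) * y⌋₊ = c
      · have hu : (N : ℝ) * y - c ∈ Ico (0 : ℝ) 1 := by
          rw [← hyc]; exact flux_natfloor_frac (mul_nonneg hN'.le hy.1)
        rw [if_pos hyc, if_pos hyc, ← p2 _ hv _ ⟨hu.1, hu.2.le⟩]
        rfl
      · rw [if_neg hyc, if_neg hyc]; rfl
    · simp only [hxa, false_and, if_false]
      simp
  · intro x hx
    by_cases hxa : ⌊(N : ℝ) * x⌋₊ = a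
    · have hv : (N : ℝ) * x - a ∈ Ico (0 : ℝ) 1 := by
        rw [← hxa]; exact flux_natfloor_frac (mul_nonneg hN'.le hx.1)
      simp only [hxa, true_and]
      rw [flux_cell_prim hN' c (c2 ((N : ℝ) * x - a)) (fun t => B2 _) (q2 _ hv) zero_le_one]
      by_cases hyc : ⌊(N : ℝ) * 1⌋₊ = c
      · rw [if_pos hyc]
        have : (N : ℝ) * 1 - c = 0 := by
          rw [mul_one, Nat.floor_natCast] at hyc
          rw [← hyc]; ring
        rw [this]; simp
      · rw [if_neg hyc]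
    · simp only [hxa, false_and, if_false]
      simp
  · intro z hz
    by_cases hc : ⌊(N : ℝ) * z.1⌋₊ = a ∧ ⌊(N : ℝ) * z.2⌋₊ = c
    · simp only [if_pos hc]
      have hu : ((N : ℝ) * z.1 - a, (N : ℝ) * z.2 - c) ∈ Sq0 := by
        refine ⟨?_, ?_⟩
        · have := flux_natfloor_frac (mul_nonneg hN'.le hz.1.1)
          rw [hc.1] at this; exact this
        · have := flux_natfloor_frac (mul_nonneg hN'.le hz.2.1)
          rw [hc.2] at this; exact this
      rw [← hs _ hu]; ring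
    · simp only [if_neg hc, add_zero]

/-- Embedding of a flux in the generation `j` cell `q`. -/
theorem IsFlux.cell {m : ℕ} (hm : 0 < m) (j : ℕ) (q : ℕ × ℕ) {b : ℝ × ℝ → ℝ × ℝ}
    {f : ℝ × ℝ → ℝ} (h : IsFlux b f) :
    IsFlux (fun z => if qidx m j z = q then (m : ℝ) ^ j • b (loc m j z) else 0)
      (fun z => if qidx m j z = q then (m : ℝ) ^ (2 * j) * f (loc m j z) else 0) := by
  refine (h.cellN (m ^ j) (pow_pos hm j) q).of_eq ?_ ?_
  · funext z
    have e : qidx m j z = (⌊((m ^ j : ℕ) : ℝ) * z.1⌋₊, ⌊((m ^ j : ℕ) : ℝ) * z.2⌋₊) := by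
      simp only [qidx]; push_cast; rfl
    rw [← e]
    by_cases hq : qidx m j z = q
    · rw [if_pos hq, if_pos hq, ← hq]
      simp only [qidx, loc]
      push_cast
      rfl
    · rw [if_neg hq, if_neg hq]
  · funext z
    have e : qidx m j z = (⌊((m ^ j : ℕ) : ℝ) * z.1⌋₊, ⌊((m ^ j : ℕ) : ℝ) * z.2⌋₊) := by
      simp only [qidx]; push_cast; rfl
    rw [← e]
    by_cases hq : qidx m j z = q
    · rw [if_pos hq, if_pos hq, ← hq]
      simp only [qidx, loc]
      push_cast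
      ring_nf
    · rw [if_neg hq, if_neg hq]

end Match2D

end

section

/-!
MP_884187_pr, item D2, part 1: one component of a flux and its integrals over the faces and the
cells of a grid.
-/

open MeasureTheory Set Filter Topology

namespace Match2D

/-- `β` is an `x`-primitive of the bounded measurable function `g` on the unit square. -/
structure D2_Prim (g β : ℝ × ℝ → ℝ) (B : ℝ) : Prop where
  mg : Measurable g
  mb : Measurable β
  bd : ∀ z, |g z| ≤ B
  prim : ∀ x ∈ Icc (0 : ℝ) 1, ∀ y ∈ Ico (0 : ℝ) 1, β (x, y) = ∫ s in (0 : ℝ)..x, g (s, y)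
  zero : ∀ y ∈ Ico (0 : ℝ) 1, ∫ s in (0 : ℝ)..1, g (s, y) = 0

/-- The flux through the segment `{x} × (c, d)`. -/
noncomputable def D2_Phi (β : ℝ × ℝ → ℝ) (x c d : ℝ) : ℝ := ∫ y in Ioo c d, β (x, y)

section
variable {g β : ℝ × ℝ → ℝ} {B : ℝ}

lemma D2_B_nonneg (h : D2_Prim g β B) : 0 ≤ B := (abs_nonneg _).trans (h.bd 0)

lemma D2_ii (h : D2_Prim g β B) (y a b : ℝ) :
    IntervalIntegrable (fun s => g (s, y)) volume a b := by
  refine (intervalIntegrable_const (c := B)).mono_fun ?_ ?_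
  · exact (h.mg.comp (measurable_id.prodMk measurable_const)).aestronglyMeasurable
  · refine Eventually.of_forall fun s => ?_
    simp only [Real.norm_eq_abs]
    exact (h.bd _).trans (le_abs_self _)

lemma D2_diff (h : D2_Prim g β B) {x x' y : ℝ} (hx : x ∈ Icc (0 : ℝ) 1) (hx' : x' ∈ Icc (0 : ℝ) 1)
    (hy : y ∈ Ico (0 : ℝ) 1) : β (x', y) - β (x, y) = ∫ s in x..x', g (s, y) := by
  rw [h.prim x hx y hy, h.prim x' hx' y hy]
  exact intervalIntegral.integral_interval_sub_left (D2_ii h y _ _) (D2_ii h y _ _)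

lemma D2_lip (h : D2_Prim g β B) {x x' y : ℝ} (hx : x ∈ Icc (0 : ℝ) 1) (hx' : x' ∈ Icc (0 : ℝ) 1)
    (hy : y ∈ Ico (0 : ℝ) 1) : |β (x', y) - β (x, y)| ≤ B * |x' - x| := by
  rw [D2_diff h hx hx' hy]
  have := intervalIntegral.norm_integral_le_of_norm_le_const (a := x) (b := x')
    (f := fun s => g (s, y)) (C := B) (fun s _ => h.bd _)
  simpa only [Real.norm_eq_abs] using this

lemma D2_at_zero (h : D2_Prim g β B) {y : ℝ} (hy : y ∈ Ico (0 : ℝ) 1) : β (0, y) = 0 := by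
  rw [h.prim 0 (by simp) y hy, intervalIntegral.integral_same]

lemma D2_at_one (h : D2_Prim g β B) {y : ℝ} (hy : y ∈ Ico (0 : ℝ) 1) : β (1, y) = 0 := by
  rw [h.prim 1 (by simp) y hy, h.zero y hy]

lemma D2_bd (h : D2_Prim g β B) {x y : ℝ} (hx : x ∈ Icc (0 : ℝ) 1)
    (hy : y ∈ Ico (0 : ℝ) 1) : |β (x, y)| ≤ B := by
  have h1 := D2_lip h (x := 0) (by simp) hx hy
  rw [D2_at_zero h hy, sub_zero, sub_zero] at h1
  refine h1.trans ?_
  have h2 : |x| ≤ 1 := by rw [abs_of_nonneg hx.1]; exact hx.2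
  have := mul_le_mul_of_nonneg_left h2 (D2_B_nonneg h)
  simpa using this

lemma D2_Ioo_sub {c d y : ℝ} (hc : 0 ≤ c) (hd : d ≤ 1) (hy : y ∈ Ioo c d) : y ∈ Ico (0 : ℝ) 1 :=
  ⟨hc.trans hy.1.le, hy.2.trans_le hd⟩

lemma D2_intOn (h : D2_Prim g β B) {x c d : ℝ} (hx : x ∈ Icc (0 : ℝ) 1) (hc : 0 ≤ c)
    (hd : d ≤ 1) : IntegrableOn (fun y => β (x, y)) (Ioo c d) := by
  refine Measure.integrableOn_of_bounded (M := B) (by simp) ?_ ?_
  · exact (h.mb.comp (measurable_const.prodMk measurable_id)).aestronglyMeasurable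
  · filter_upwards [ae_restrict_mem measurableSet_Ioo] with y hy
    exact D2_bd h hx (D2_Ioo_sub hc hd hy)

lemma D2_Phi_zero (h : D2_Prim g β B) {c d : ℝ} (hc : 0 ≤ c) (hd : d ≤ 1) :
    D2_Phi β 0 c d = 0 := by
  unfold D2_Phi
  rw [setIntegral_congr_fun (g := fun _ => (0 : ℝ)) measurableSet_Ioo
    (fun y hy => D2_at_zero h (D2_Ioo_sub hc hd hy))]
  simp

lemma D2_Phi_one (h : D2_Prim g β B) {c d : ℝ} (hc : 0 ≤ c) (hd : d ≤ 1) :
    D2_Phi β 1 c d = 0 := by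
  unfold D2_Phi
  rw [setIntegral_congr_fun (g := fun _ => (0 : ℝ)) measurableSet_Ioo
    (fun y hy => D2_at_one h (D2_Ioo_sub hc hd hy))]
  simp

lemma D2_Phi_bd (h : D2_Prim g β B) {x c d : ℝ} (hx : x ∈ Icc (0 : ℝ) 1) (hc : 0 ≤ c)
    (hcd : c ≤ d) (hd : d ≤ 1) : |D2_Phi β x c d| ≤ B * (d - c) := by
  unfold D2_Phi
  have := norm_setIntegral_le_of_norm_le_const (μ := volume) (s := Ioo c d) (C := B)
    (f := fun y => β (x, y)) (by simp)
    (fun y hy => by simpa using D2_bd h hx (D2_Ioo_sub hc hd hy))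
  simpa [Real.volume_real_Ioo_of_le hcd] using this

lemma D2_rect_meas (a b c d : ℝ) : MeasurableSet (Ioo a b ×ˢ Ioo c d) :=
  measurableSet_Ioo.prod measurableSet_Ioo

lemma D2_rect_vol {a b c d : ℝ} (hab : a ≤ b) (hcd : c ≤ d) :
    (volume : Measure (ℝ × ℝ)).real (Ioo a b ×ˢ Ioo c d) = (b - a) * (d - c) := by
  rw [Measure.volume_eq_prod, Measure.real, Measure.prod_prod, Real.volume_Ioo, Real.volume_Ioo,
    ENNReal.toReal_mul, ENNReal.toReal_ofReal (sub_nonneg.2 hab),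
    ENNReal.toReal_ofReal (sub_nonneg.2 hcd)]

lemma D2_rect_lt (a b c d : ℝ) : (volume : Measure (ℝ × ℝ)) (Ioo a b ×ˢ Ioo c d) < ⊤ := by
  rw [Measure.volume_eq_prod, Measure.prod_prod, Real.volume_Ioo, Real.volume_Ioo]
  exact ENNReal.mul_lt_top ENNReal.ofReal_lt_top ENNReal.ofReal_lt_top

lemma D2_int_g (h : D2_Prim g β B) (a b c d : ℝ) :
    IntegrableOn g (Ioo a b ×ˢ Ioo c d) := by
  refine Measure.integrableOn_of_bounded (M := B) (D2_rect_lt a b c d).ne ?_ ?_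
  · exact h.mg.aestronglyMeasurable
  · exact Eventually.of_forall fun z => h.bd z

lemma D2_int_b (h : D2_Prim g β B) {a b c d : ℝ} (ha : 0 ≤ a) (hb : b ≤ 1) (hc : 0 ≤ c)
    (hd : d ≤ 1) : IntegrableOn β (Ioo a b ×ˢ Ioo c d) := by
  refine Measure.integrableOn_of_bounded (M := B) (D2_rect_lt a b c d).ne ?_ ?_
  · exact h.mb.aestronglyMeasurable
  · filter_upwards [ae_restrict_mem (D2_rect_meas a b c d)] with z hz
    exact D2_bd h ⟨ha.trans hz.1.1.le, hz.1.2.le.trans hb⟩ (D2_Ioo_sub hc hd hz.2)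

/-- The difference of the fluxes through two segments is the integral of the divergence. -/
lemma D2_Phi_diff (h : D2_Prim g β B) {x x' c d : ℝ} (hx : 0 ≤ x) (hxx : x ≤ x') (hx' : x' ≤ 1)
    (hc : 0 ≤ c) (hd : d ≤ 1) :
    D2_Phi β x' c d - D2_Phi β x c d = ∫ z in Ioo x x' ×ˢ Ioo c d, g z := by
  have hxI : x ∈ Icc (0 : ℝ) 1 := ⟨hx, hxx.trans hx'⟩
  have hxI' : x' ∈ Icc (0 : ℝ) 1 := ⟨hx.trans hxx, hx'⟩
  unfold D2_Phi
  rw [← integral_sub (D2_intOn h hxI' hc hd) (D2_intOn h hxI hc hd)]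
  have h1 : ∫ z in Ioo x x' ×ˢ Ioo c d, g z =
      ∫ z in Ioo c d ×ˢ Ioo x x', g z.swap := by
    rw [Measure.volume_eq_prod]
    exact (setIntegral_prod_swap (μ := (volume : Measure ℝ)) (ν := (volume : Measure ℝ))
      (Ioo x x') (Ioo c d) g).symm
  rw [h1, Measure.volume_eq_prod, setIntegral_prod]
  · refine setIntegral_congr_fun measurableSet_Ioo fun y hy => ?_
    simp only [Prod.swap_prod_mk]
    rw [D2_diff h hxI hxI' (D2_Ioo_sub hc hd hy), intervalIntegral.integral_of_le hxx,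
      integral_Ioc_eq_integral_Ioo]
  · rw [← Measure.volume_eq_prod]
    refine Measure.integrableOn_of_bounded (M := B) (D2_rect_lt c d x x').ne ?_ ?_
    · exact (h.mg.comp measurable_swap).aestronglyMeasurable
    · exact Eventually.of_forall fun z => h.bd _

/-- The flux through a segment is close to the average of the field over a cell containing it. -/
lemma D2_Phi_near (h : D2_Prim g β B) {x x' ξ c d : ℝ} (hx : 0 ≤ x) (hx' : x' ≤ 1)
    (hξ : ξ ∈ Icc x x') (hc : 0 ≤ c) (hcd : c ≤ d) (hd : d ≤ 1) :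
    |(x' - x) * D2_Phi β ξ c d - ∫ z in Ioo x x' ×ˢ Ioo c d, β z| ≤
      B * (x' - x) ^ 2 * (d - c) := by
  have hxx : x ≤ x' := hξ.1.trans hξ.2
  have hξI : ξ ∈ Icc (0 : ℝ) 1 := ⟨hx.trans hξ.1, hξ.2.trans hx'⟩
  have hint : IntegrableOn (fun z : ℝ × ℝ => β (ξ, z.2)) (Ioo x x' ×ˢ Ioo c d) := by
    refine Measure.integrableOn_of_bounded (M := B) (D2_rect_lt x x' c d).ne ?_ ?_
    · exact (h.mb.comp (measurable_const.prodMk measurable_snd)).aestronglyMeasurable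
    · filter_upwards [ae_restrict_mem (D2_rect_meas x x' c d)] with z hz
      exact D2_bd h hξI (D2_Ioo_sub hc hd hz.2)
  have h1 : (x' - x) * D2_Phi β ξ c d = ∫ z in Ioo x x' ×ˢ Ioo c d, β (ξ, z.2) := by
    rw [Measure.volume_eq_prod, setIntegral_prod]
    · simp only [integral_const, MeasurableSet.univ, measureReal_restrict_apply, univ_inter,
        smul_eq_mul]
      rw [Real.volume_real_Ioo_of_le hxx]
      rfl
    · rw [← Measure.volume_eq_prod]; exact hint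
  rw [h1, ← integral_sub hint (D2_int_b h hx hx' hc hd)]
  have := norm_setIntegral_le_of_norm_le_const (μ := (volume : Measure (ℝ × ℝ)))
    (s := Ioo x x' ×ˢ Ioo c d) (C := B * (x' - x))
    (f := fun z => β (ξ, z.2) - β z) (D2_rect_lt x x' c d) (fun z hz => by
      have hz1 : z.1 ∈ Icc (0 : ℝ) 1 := ⟨hx.trans hz.1.1.le, hz.1.2.le.trans hx'⟩
      have h2 := D2_lip h (x := z.1) (x' := ξ) (y := z.2) hz1 hξI (D2_Ioo_sub hc hd hz.2)
      rw [Real.norm_eq_abs]
      refine h2.trans (mul_le_mul_of_nonneg_left ?_ (D2_B_nonneg h))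
      rw [abs_le]
      constructor
      · linarith [hz.1.1, hz.1.2, hξ.1, hξ.2]
      · linarith [hz.1.1, hz.1.2, hξ.1, hξ.2])
  rw [D2_rect_vol hxx hcd, Real.norm_eq_abs] at this
  refine this.trans (le_of_eq ?_)
  ring

end

end Match2D

end

section

/-!
Module G of MP_884187_pr: growth and Lipschitz bounds for the scalar functions of the profile.
-/

set_option autoImplicit false

open MeasureTheory Set Filter Topology

namespace Match2D.MG

theorem PG.of_bound {h : ℝ → ℝ} (c : ℝ) (hb : ∀ a, 0 ≤ a → |h a| ≤ c) : PG h := by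
  refine ⟨|c| + 1, 0, by positivity, fun a ha => ?_⟩
  rw [pow_zero, mul_one]
  linarith [hb a ha, le_abs_self c]

theorem PG.id : PG (fun s => s) := by
  refine ⟨1, 1, one_pos, fun a ha => ?_⟩
  rw [abs_of_nonneg ha]
  linarith

theorem PG.add {f g : ℝ → ℝ} (hf : PG f) (hg : PG g) : PG (fun s => f s + g s) := by
  obtain ⟨C, k, hC, hk⟩ := hf
  obtain ⟨C', k', hC', hk'⟩ := hg
  refine ⟨C + C', k + k', by positivity, fun a ha => ?_⟩
  have h1 : (1 : ℝ) ≤ 1 + a := by linarith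
  have h2 : (1 + a) ^ k ≤ (1 + a) ^ (k + k') := pow_le_pow_right₀ h1 (by omega)
  have h3 : (1 + a) ^ k' ≤ (1 + a) ^ (k + k') := pow_le_pow_right₀ h1 (by omega)
  calc |f a + g a| ≤ |f a| + |g a| := abs_add_le _ _
    _ ≤ C * (1 + a) ^ k + C' * (1 + a) ^ k' := add_le_add (hk a ha) (hk' a ha)
    _ ≤ C * (1 + a) ^ (k + k') + C' * (1 + a) ^ (k + k') :=
        add_le_add (mul_le_mul_of_nonneg_left h2 hC.le) (mul_le_mul_of_nonneg_left h3 hC'.le)
    _ = _ := by ring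

theorem PL.of_lip {h : ℝ → ℝ} (c : ℝ)
    (hb : ∀ a b, 0 ≤ a → 0 ≤ b → |h a - h b| ≤ c * |a - b|) : PL h := by
  refine ⟨|c| + 1, 0, by positivity, fun a b ha hb' => ?_⟩
  rw [pow_zero, mul_one]
  refine (hb a b ha hb').trans (mul_le_mul_of_nonneg_right ?_ (abs_nonneg _))
  linarith [le_abs_self c]

theorem PL.sub {f g : ℝ → ℝ} (hf : PL f) (hg : PL g) : PL (fun s => f s - g s) := by
  obtain ⟨C, k, hC, hk⟩ := hf
  obtain ⟨C', k', hC', hk'⟩ := hg
  refine ⟨C + C', k + k', by positivity, fun a b ha hb => ?_⟩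
  have h1 : (1 : ℝ) ≤ 1 + a + b := by linarith
  have h2 : (1 + a + b) ^ k ≤ (1 + a + b) ^ (k + k') := pow_le_pow_right₀ h1 (by omega)
  have h3 : (1 + a + b) ^ k' ≤ (1 + a + b) ^ (k + k') := pow_le_pow_right₀ h1 (by omega)
  have e : f a - g a - (f b - g b) = (f a - f b) - (g a - g b) := by ring
  rw [e]
  calc |(f a - f b) - (g a - g b)| ≤ |f a - f b| + |g a - g b| := abs_sub _ _
    _ ≤ C * (1 + a + b) ^ k * |a - b| + C' * (1 + a + b) ^ k' * |a - b| :=
        add_le_add (hk a b ha hb) (hk' a b ha hb)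
    _ ≤ C * (1 + a + b) ^ (k + k') * |a - b| + C' * (1 + a + b) ^ (k + k') * |a - b| := by
        gcongr
    _ = _ := by ring

theorem PL.const_mul {f : ℝ → ℝ} (hf : PL f) (c : ℝ) : PL (fun s => c * f s) := by
  obtain ⟨C, k, hC, hk⟩ := hf
  refine ⟨(|c| + 1) * C, k, by positivity, fun a b ha hb => ?_⟩
  rw [← mul_sub, abs_mul]
  calc |c| * |f a - f b| ≤ (|c| + 1) * (C * (1 + a + b) ^ k * |a - b|) := by
        gcongr
        · linarith
        · exact hk a b ha hb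
    _ = _ := by ring

section

variable {p : ℝ} {x : ℝ → ℝ} (hx : IsProf0 p x)
include hx

theorem IsProf0.two_mul_ww {s : ℝ} (hs : 0 ≤ s) : 2 * s * ww x s = x s ^ 2 - 1 := by
  rcases eq_or_lt_of_le hs with h | h
  · rw [← h, hx.neg 0 le_rfl]
    norm_num
  · unfold ww
    field_simp

theorem IsProf0.x_lip {a b : ℝ} (ha : 0 ≤ a) (hb : 0 ≤ b) :
    |x a - x b| ≤ 2 * p ^ 3 * |a - b| := by
  have hp := hx.one_le_p
  have hp3 : p ≤ p ^ 3 := by nlinarith [mul_pos hx.p_pos hx.p_pos, sq_nonneg (p - 1)]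
  have h0 : ∀ c, 0 ≤ c → |x c - 1| ≤ 2 * p ^ 3 * c := by
    intro c hc
    rcases eq_or_lt_of_le hc with h | h
    · rw [← h, hx.neg 0 le_rfl]
      simp
    · refine (hx.toIsProfile.abs_sub_one_le h).trans ?_
      have h1 : |p - 2| ≤ p := by
        rw [abs_le]; constructor <;> linarith
      nlinarith
  rcases eq_or_lt_of_le ha with h | h
  · rw [← h, hx.neg 0 le_rfl, abs_sub_comm, zero_sub, abs_neg, abs_of_nonneg hb]
    exact h0 b hb
  rcases eq_or_lt_of_le hb with h' | h'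
  · rw [← h', hx.neg 0 le_rfl, sub_zero, abs_of_nonneg ha]
    exact h0 a ha
  have h1 := (convex_Ioi (0 : ℝ)).norm_image_sub_le_of_norm_hasDerivWithin_le (f := x)
    (f' := fun r => (p - 1 - x r ^ 2) / 2 - x r * ww x r) (C := 2 * p ^ 3)
    (fun r hr => (hx.toIsProfile.hasDerivAt hr).hasDerivWithinAt)
    (fun r hr => hx.toIsProfile.abs_deriv_le hx.one_le_p hr) h' h
  exact h1

theorem IsProf0.pg_x : PG x := PG.of_bound p fun a _ => by
  rw [abs_of_pos (hx.pos' a)]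
  exact hx.le_p' a

theorem IsProf0.pl_x : PL x := PL.of_lip _ fun _ _ ha hb => hx.x_lip ha hb

variable {κ : ℝ} (hκ : 0 < κ)
include hκ

theorem IsProf0.pg_gam : PG (gam p κ x) := by
  have hc : 0 < p * κ / 2 := by have := hx.p_pos; positivity
  refine ⟨p * κ / 2, ⌈p ^ 2⌉₊, hc, fun a ha => ?_⟩
  rw [abs_of_pos (hx.gam_pos hκ a)]
  exact hx.gam_le hκ ha

theorem IsProf0.pl_gam : PL (gam p κ x) := by
  have hp := hx.p_pos
  have hc : 0 < p * κ / 2 := by positivity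
  refine ⟨p ^ 2 * (2 * (p * κ / 2)), ⌈p ^ 2⌉₊, by positivity, fun a b ha hb => ?_⟩
  refine (hx.gam_lip hκ a b).trans (mul_le_mul_of_nonneg_right ?_ (abs_nonneg _))
  have h1 := hx.gam_le hκ ha
  have h2 := hx.gam_le hκ hb
  have m1 : (1 + a) ^ ⌈p ^ 2⌉₊ ≤ (1 + a + b) ^ ⌈p ^ 2⌉₊ :=
    pow_le_pow_left₀ (by linarith) (by linarith) _
  have m2 : (1 + b) ^ ⌈p ^ 2⌉₊ ≤ (1 + a + b) ^ ⌈p ^ 2⌉₊ :=
    pow_le_pow_left₀ (by linarith) (by linarith) _
  calc p ^ 2 * (gam p κ x a + gam p κ x b)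
      ≤ p ^ 2 * (p * κ / 2 * (1 + a + b) ^ ⌈p ^ 2⌉₊ + p * κ / 2 * (1 + a + b) ^ ⌈p ^ 2⌉₊) := by
        refine mul_le_mul_of_nonneg_left (add_le_add (h1.trans ?_) (h2.trans ?_)) (by positivity)
        · exact mul_le_mul_of_nonneg_left m1 hc.le
        · exact mul_le_mul_of_nonneg_left m2 hc.le
    _ = _ := by ring

theorem IsProf0.pg_gx : PG (fun s => gam p κ x s * x s) := (hx.pg_gam hκ).mul hx.pg_x

theorem IsProf0.pl_gx : PL (fun s => gam p κ x s * x s) :=
  PL.mul (hx.pg_gam hκ) hx.pg_x (hx.pl_gam hκ) hx.pl_x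

theorem IsProf0.pg_gw : PG (fun s => gam p κ x s * ww x s) :=
  (hx.pg_gam hκ).mul (PG.of_bound (p ^ 2) fun a _ => hx.abs_ww a)

theorem IsProf0.pl_sgw : PL (fun s => s * (gam p κ x s * ww x s)) := by
  have h1 : PL (fun s => 1 / 2 * (gam p κ x s * x s * x s - gam p κ x s)) :=
    ((PL.mul (hx.pg_gx hκ) hx.pg_x (hx.pl_gx hκ) hx.pl_x).sub (hx.pl_gam hκ)).const_mul _
  obtain ⟨C, k, hC, hk⟩ := h1
  refine ⟨C, k, hC, fun a b ha hb => ?_⟩
  have e : ∀ s, 0 ≤ s → s * (gam p κ x s * ww x s)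
      = 1 / 2 * (gam p κ x s * x s * x s - gam p κ x s) := by
    intro s hs
    have := hx.two_mul_ww hs
    linear_combination (gam p κ x s / 2) * this
  beta_reduce
  rw [e a ha, e b hb]
  exact hk a b ha hb

theorem IsProf0.pg_FF : PG (FF p κ x) := by
  have hp := hx.p_pos
  have h1 : PG (fun s => gam p κ x s * (x s + s)) :=
    (hx.pg_gam hκ).mul (hx.pg_x.add PG.id)
  obtain ⟨C, k, hC, hk⟩ := h1
  refine ⟨2 / p * C, k, by positivity, fun a ha => ?_⟩
  have h2 : |gam p κ x a * (x a + a)| ≤ C * (1 + a) ^ k := hk a ha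
  rw [← hx.FF_eq ha, abs_mul, abs_of_pos (by positivity : 0 < p / 2)] at h2
  calc |FF p κ x a| = 2 / p * (p / 2 * |FF p κ x a|) := by field_simp
    _ ≤ 2 / p * (C * (1 + a) ^ k) := mul_le_mul_of_nonneg_left h2 (by positivity)
    _ = _ := by ring

/-- The key estimate for the off-centre part of the Hessian: `σ |A(σ) - A(σ')|` is small. -/
theorem IsProf0.gw_diff : ∃ (C : ℝ) (k : ℕ), 0 < C ∧ ∀ a b, 0 ≤ a → 0 ≤ b →
    a * |gam p κ x a * ww x a - gam p κ x b * ww x b| ≤ C * (1 + a + b) ^ k * |a - b| := by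
  obtain ⟨C, k, hC, hk⟩ := hx.pl_sgw hκ
  obtain ⟨C', k', hC', hk'⟩ := hx.pg_gw hκ
  refine ⟨C + C', k + k', by positivity, fun a b ha hb => ?_⟩
  have h1 : (1 : ℝ) ≤ 1 + a + b := by linarith
  have h2 : (1 + a + b) ^ k ≤ (1 + a + b) ^ (k + k') := pow_le_pow_right₀ h1 (by omega)
  have h3 : (1 + b) ^ k' ≤ (1 + a + b) ^ (k + k') :=
    (pow_le_pow_left₀ (by linarith) (by linarith) _).trans (pow_le_pow_right₀ h1 (by omega))
  have e : a * (gam p κ x a * ww x a - gam p κ x b * ww x b)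
      = (a * (gam p κ x a * ww x a) - b * (gam p κ x b * ww x b))
        + (gam p κ x b * ww x b) * (b - a) := by ring
  calc a * |gam p κ x a * ww x a - gam p κ x b * ww x b|
      = |a * (gam p κ x a * ww x a - gam p κ x b * ww x b)| := by
        rw [abs_mul, abs_of_nonneg ha]
    _ ≤ |a * (gam p κ x a * ww x a) - b * (gam p κ x b * ww x b)|
        + |(gam p κ x b * ww x b) * (b - a)| := by rw [e]; exact abs_add_le _ _
    _ ≤ C * (1 + a + b) ^ k * |a - b| + C' * (1 + b) ^ k' * |a - b| := by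
        refine add_le_add (hk a b ha hb) ?_
        rw [abs_mul, abs_sub_comm b a]
        exact mul_le_mul_of_nonneg_right (hk' b hb) (abs_nonneg _)
    _ ≤ C * (1 + a + b) ^ (k + k') * |a - b| + C' * (1 + a + b) ^ (k + k') * |a - b| := by
        gcongr
    _ = _ := by ring

end

end Match2D.MG

end

section

/-!
MP_884187_pr, item D2, part 2: the flow between the neighbouring cells of a grid.
-/

open MeasureTheory Set Filter Topology

namespace Match2D

/-- Centre of a cell. -/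
noncomputable def D2_pos (N : ℕ) (c : Fin N × Fin N) : ℝ × ℝ :=
  ((((c.1 : ℕ) : ℝ) + 1 / 2) / N, (((c.2 : ℕ) : ℝ) + 1 / 2) / N)

/-- The flow between neighbouring cells; `φ1 i j` is the flux through the vertical face with
abscissa number `i` in the row `j`, `φ2 i j` is the flux through the horizontal face with ordinate
number `j` in the column `i`. -/
noncomputable def D2_Psi (N : ℕ) (φ1 φ2 : ℕ → ℕ → ℝ) (c c' : Fin N × Fin N) : ℝ :=
  (if (c'.1 : ℕ) = c.1 + 1 ∧ c'.2 = c.2 then φ1 c'.1 c.2 else 0) +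
  (if (c.1 : ℕ) = c'.1 + 1 ∧ c'.2 = c.2 then -φ1 c.1 c.2 else 0) +
  (if c'.1 = c.1 ∧ (c'.2 : ℕ) = c.2 + 1 then φ2 c.1 c'.2 else 0) +
  (if c'.1 = c.1 ∧ (c.2 : ℕ) = c'.2 + 1 then -φ2 c.1 c.2 else 0)

lemma D2_Psi_anti (N : ℕ) (φ1 φ2 : ℕ → ℕ → ℝ) (c c' : Fin N × Fin N) :
    D2_Psi N φ1 φ2 c c' = - D2_Psi N φ1 φ2 c' c := by
  obtain ⟨i, j⟩ := c
  obtain ⟨i', j'⟩ := c'
  simp only [D2_Psi]
  by_cases hj : j' = j
  · subst hj
    by_cases hi : i' = i
    · subst hi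
      simp
    · have hi2 : i ≠ i' := fun h => hi h.symm
      simp only [hi, hi2, false_and, if_false, and_true]
      by_cases h1 : (i' : ℕ) = i + 1
      · have h2 : ¬ ((i : ℕ) = i' + 1) := by omega
        rw [if_pos h1, if_neg h2, if_neg h2, if_pos h1]
        ring
      · by_cases h2 : (i : ℕ) = i' + 1
        · rw [if_neg h1, if_pos h2, if_pos h2, if_neg h1]
          ring
        · simp [h1, h2]
  · have hj2 : j ≠ j' := fun h => hj h.symm
    simp only [hj, hj2, and_false, if_false]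
    by_cases hi : i' = i
    · subst hi
      simp only [true_and]
      by_cases h1 : (j' : ℕ) = j + 1
      · have h2 : ¬ ((j : ℕ) = j' + 1) := by omega
        rw [if_pos h1, if_neg h2, if_neg h2, if_pos h1]
        ring
      · by_cases h2 : (j : ℕ) = j' + 1
        · rw [if_neg h1, if_pos h2, if_pos h2, if_neg h1]
          ring
        · simp [h1, h2]
    · have hi2 : i ≠ i' := fun h => hi h.symm
      simp [hi, hi2]

section
variable {N : ℕ} {E : Type*} [AddCommMonoid E]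

lemma D2_sum1 (c : Fin N × Fin N) (a : E) (ha : (c.1 : ℕ) + 1 = N → a = 0) :
    ∑ c' : Fin N × Fin N, (if (c'.1 : ℕ) = c.1 + 1 ∧ c'.2 = c.2 then a else 0) = a := by
  by_cases h : (c.1 : ℕ) + 1 < N
  · rw [Finset.sum_eq_single ((⟨c.1 + 1, h⟩, c.2) : Fin N × Fin N)]
    · simp
    · intro c' _ hc'
      rw [if_neg]
      rintro ⟨h1, h2⟩
      exact hc' (Prod.ext (Fin.ext h1) h2)
    · intro h1
      exact absurd (Finset.mem_univ _) h1
  · have h2 : (c.1 : ℕ) + 1 = N := by have := c.1.2; omega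
    rw [ha h2]
    simp

lemma D2_sum2 (c : Fin N × Fin N) (a : E) (ha : (c.1 : ℕ) = 0 → a = 0) :
    ∑ c' : Fin N × Fin N, (if (c.1 : ℕ) = c'.1 + 1 ∧ c'.2 = c.2 then a else 0) = a := by
  by_cases h : 0 < (c.1 : ℕ)
  · have h3 : (c.1 : ℕ) - 1 < N := by have := c.1.2; omega
    rw [Finset.sum_eq_single ((⟨c.1 - 1, h3⟩, c.2) : Fin N × Fin N)]
    · rw [if_pos]
      refine ⟨?_, rfl⟩
      simp only
      omega
    · intro c' _ hc'
      rw [if_neg]
      rintro ⟨h1, h2⟩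
      exact hc' (Prod.ext (Fin.ext (by simp only; omega)) h2)
    · intro h1
      exact absurd (Finset.mem_univ _) h1
  · rw [ha (by omega)]
    simp

lemma D2_sum3 (c : Fin N × Fin N) (a : E) (ha : (c.2 : ℕ) + 1 = N → a = 0) :
    ∑ c' : Fin N × Fin N, (if c'.1 = c.1 ∧ (c'.2 : ℕ) = c.2 + 1 then a else 0) = a := by
  by_cases h : (c.2 : ℕ) + 1 < N
  · rw [Finset.sum_eq_single ((c.1, ⟨c.2 + 1, h⟩) : Fin N × Fin N)]
    · simp
    · intro c' _ hc'
      rw [if_neg]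
      rintro ⟨h1, h2⟩
      exact hc' (Prod.ext h1 (Fin.ext h2))
    · intro h1
      exact absurd (Finset.mem_univ _) h1
  · have h2 : (c.2 : ℕ) + 1 = N := by have := c.2.2; omega
    rw [ha h2]
    simp

lemma D2_sum4 (c : Fin N × Fin N) (a : E) (ha : (c.2 : ℕ) = 0 → a = 0) :
    ∑ c' : Fin N × Fin N, (if c'.1 = c.1 ∧ (c.2 : ℕ) = c'.2 + 1 then a else 0) = a := by
  by_cases h : 0 < (c.2 : ℕ)
  · have h3 : (c.2 : ℕ) - 1 < N := by have := c.2.2; omega
    rw [Finset.sum_eq_single ((c.1, ⟨c.2 - 1, h3⟩) : Fin N × Fin N)]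
    · rw [if_pos]
      refine ⟨rfl, ?_⟩
      simp only
      omega
    · intro c' _ hc'
      rw [if_neg]
      rintro ⟨h1, h2⟩
      exact hc' (Prod.ext h1 (Fin.ext (by simp only; omega)))
    · intro h1
      exact absurd (Finset.mem_univ _) h1
  · rw [ha (by omega)]
    simp

/-- Sums over the neighbours of a cell. -/
lemma D2_expand (hN : 0 < N) (φ1 φ2 : ℕ → ℕ → ℝ) (h10 : ∀ j, j < N → φ1 0 j = 0)
    (h1N : ∀ j, j < N → φ1 N j = 0) (h20 : ∀ i, i < N → φ2 i 0 = 0)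
    (h2N : ∀ i, i < N → φ2 i N = 0) (F : ℝ → ℝ × ℝ → E) (hF : ∀ v, F 0 v = 0)
    (c : Fin N × Fin N) :
    ∑ c', F (D2_Psi N φ1 φ2 c c') (D2_pos N c' - D2_pos N c) =
      F (φ1 (c.1 + 1) c.2) (1 / N, 0) + F (-φ1 c.1 c.2) (-(1 / N), 0) +
      F (φ2 c.1 (c.2 + 1)) (0, 1 / N) + F (-φ2 c.1 c.2) (0, -(1 / N)) := by
  have hN' : (N : ℝ) ≠ 0 := by positivity
  have key : ∀ c' : Fin N × Fin N, F (D2_Psi N φ1 φ2 c c') (D2_pos N c' - D2_pos N c) =
      (if (c'.1 : ℕ) = c.1 + 1 ∧ c'.2 = c.2 then F (φ1 (c.1 + 1) c.2) (1 / N, 0) else 0) +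
      (if (c.1 : ℕ) = c'.1 + 1 ∧ c'.2 = c.2 then F (-φ1 c.1 c.2) (-(1 / N), 0) else 0) +
      (if c'.1 = c.1 ∧ (c'.2 : ℕ) = c.2 + 1 then F (φ2 c.1 (c.2 + 1)) (0, 1 / N) else 0) +
      (if c'.1 = c.1 ∧ (c.2 : ℕ) = c'.2 + 1 then F (-φ2 c.1 c.2) (0, -(1 / N)) else 0) := by
    intro c'
    obtain ⟨i, j⟩ := c
    obtain ⟨i', j'⟩ := c'
    simp only [D2_Psi, D2_pos]
    by_cases hj : j' = j
    · subst hj
      by_cases hi : i' = i
      · subst hi
        simp [hF]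
      · simp only [hi, false_and, if_false, and_true, add_zero]
        by_cases h1 : (i' : ℕ) = i + 1
        · have h2 : ¬ ((i : ℕ) = i' + 1) := by omega
          have h3 : ((i' : ℕ) : ℝ) = ((i : ℕ) : ℝ) + 1 := by exact_mod_cast h1
          simp only [h1, if_true]
          rw [if_neg (by omega), if_neg (by omega), add_zero, add_zero]
          congr 1
          refine Prod.ext ?_ ?_
          · simp only [Prod.mk_sub_mk]
            push_cast
            field_simp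
            ring
          · simp
        · by_cases h2 : (i : ℕ) = i' + 1
          · have h3 : ((i : ℕ) : ℝ) = ((i' : ℕ) : ℝ) + 1 := by exact_mod_cast h2
            rw [if_neg h1, if_neg h1, if_pos h2, if_pos h2, zero_add, zero_add]
            congr 1
            refine Prod.ext ?_ ?_
            · simp only [Prod.mk_sub_mk]
              rw [h3]
              field_simp
              ring
            · simp
          · rw [if_neg h1, if_neg h1, if_neg h2, if_neg h2, zero_add, zero_add, hF]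
    · simp only [hj, and_false, if_false, zero_add]
      by_cases hi : i' = i
      · subst hi
        simp only [true_and]
        by_cases h1 : (j' : ℕ) = j + 1
        · simp only [h1, if_true]
          rw [if_neg (by omega), if_neg (by omega), add_zero, add_zero]
          congr 1
          refine Prod.ext ?_ ?_
          · simp
          · simp only [Prod.mk_sub_mk]
            push_cast
            field_simp
            ring
        · by_cases h2 : (j : ℕ) = j' + 1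
          · have h3 : ((j : ℕ) : ℝ) = ((j' : ℕ) : ℝ) + 1 := by exact_mod_cast h2
            rw [if_neg h1, if_neg h1, if_pos h2, if_pos h2, zero_add, zero_add]
            congr 1
            refine Prod.ext ?_ ?_
            · simp
            · simp only [Prod.mk_sub_mk]
              rw [h3]
              field_simp
              ring
          · rw [if_neg h1, if_neg h1, if_neg h2, if_neg h2, zero_add, zero_add, hF]
      · simp [hi, hF]
  simp only [key, Finset.sum_add_distrib]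
  rw [D2_sum1 c _ (fun h => by rw [h, h1N _ c.2.2, hF]),
    D2_sum2 c _ (fun h => by rw [h, h10 _ c.2.2, neg_zero, hF]),
    D2_sum3 c _ (fun h => by rw [h, h2N _ c.1.2, hF]),
    D2_sum4 c _ (fun h => by rw [h, h20 _ c.1.2, neg_zero, hF])]

end

end Match2D

end

section

/-!
MP_884187_pr, item H1, part a: elementary lemmas (matrices, averages, bounded measurable
functions on the square, cells).
-/

open MeasureTheory Set Filter Topology

namespace Match2D

/-! ### lengths and matrices -/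

theorem H1_len_smul (c : ℝ) (v : ℝ × ℝ) : len (c • v) = |c| * len v := by
  unfold len
  have : (c • v).1 ^ 2 + (c • v).2 ^ 2 = c ^ 2 * (v.1 ^ 2 + v.2 ^ 2) := by
    simp only [Prod.smul_fst, Prod.smul_snd, smul_eq_mul]
    ring
  rw [this, Real.sqrt_mul (sq_nonneg c), Real.sqrt_sq_eq_abs]

theorem H1_qf_smul (M : SymM) (c : ℝ) (v : ℝ × ℝ) : M.qf (c • v) = c ^ 2 * M.qf v := by
  simp only [SymM.qf, Prod.smul_fst, Prod.smul_snd, smul_eq_mul]
  ring

theorem H1_qf_nonneg (M : SymM) (ha : 0 < M.a) (hd : 0 < M.det) (v : ℝ × ℝ) : 0 ≤ M.qf v := by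
  have h : M.a * M.qf v = (M.a * v.1 + M.b * v.2) ^ 2 + M.det * v.2 ^ 2 := by
    simp only [SymM.qf, SymM.det]
    ring
  have h2 : 0 ≤ M.a * M.qf v := by
    rw [h]
    positivity
  exact nonneg_of_mul_nonneg_right (by simpa [mul_comm] using h2) ha

theorem H1_qf_le_dst (M N : SymM) (v : ℝ × ℝ) :
    M.qf v ≤ N.qf v + SymM.dst M N * len v ^ 2 := by
  rw [A1_len_sq]
  simp only [SymM.qf, SymM.dst]
  have h1 : (M.a - N.a) * v.1 ^ 2 ≤ |M.a - N.a| * (v.1 ^ 2 + v.2 ^ 2) := by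
    have := le_abs_self (M.a - N.a)
    have := abs_nonneg (M.a - N.a)
    nlinarith [sq_nonneg v.1, sq_nonneg v.2, mul_nonneg (abs_nonneg (M.a - N.a)) (sq_nonneg v.2),
      mul_le_mul_of_nonneg_right (le_abs_self (M.a - N.a)) (sq_nonneg v.1)]
  have h3 : (M.c - N.c) * v.2 ^ 2 ≤ |M.c - N.c| * (v.1 ^ 2 + v.2 ^ 2) := by
    nlinarith [sq_nonneg v.1, sq_nonneg v.2, mul_nonneg (abs_nonneg (M.c - N.c)) (sq_nonneg v.1),
      mul_le_mul_of_nonneg_right (le_abs_self (M.c - N.c)) (sq_nonneg v.2)]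
  have h2 : (M.b - N.b) * (v.1 * v.2) ≤ |M.b - N.b| * (v.1 ^ 2 + v.2 ^ 2) := by
    have e1 : (M.b - N.b) * (v.1 * v.2) ≤ |M.b - N.b| * |v.1 * v.2| := by
      rw [← abs_mul]
      exact le_abs_self _
    have e2 : |v.1 * v.2| ≤ v.1 ^ 2 + v.2 ^ 2 := by
      rw [abs_le]
      constructor <;> nlinarith [sq_nonneg (v.1 + v.2), sq_nonneg (v.1 - v.2)]
    exact e1.trans (mul_le_mul_of_nonneg_left e2 (abs_nonneg _))
  nlinarith [h1, h2, h3]

theorem H1_sqrt_det_pos (M : SymM) (hd : 0 < M.det) : 0 < Real.sqrt M.det := Real.sqrt_pos.2 hd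

theorem H1_unit (M : SymM) (ha : 0 < M.a) (hd : 0 < M.det) {B : ℝ}
    (ht : M.tr ≤ B * Real.sqrt M.det) : Unim B M.unit := by
  have hs := H1_sqrt_det_pos M hd
  refine ⟨div_pos ha hs, ?_, ?_⟩
  · have e : M.unit.det = M.det / Real.sqrt M.det ^ 2 := by
      simp only [SymM.det, SymM.unit]
      field_simp
    rw [e, Real.sq_sqrt hd.le, div_self hd.ne']
  · have e : M.unit.tr = M.tr / Real.sqrt M.det := by
      simp only [SymM.tr, SymM.unit]
      ring
    rw [e, div_le_iff₀ hs]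
    exact ht

theorem H1_unit_qf (M : SymM) (hd : 0 < M.det) (v : ℝ × ℝ) :
    M.qf v = Real.sqrt M.det * M.unit.qf v := by
  have hs := (H1_sqrt_det_pos M hd).ne'
  simp only [SymM.qf, SymM.unit]
  field_simp

theorem H1_nrm_nonneg (M : SymM) : 0 ≤ M.nrm := by
  unfold SymM.nrm
  positivity

theorem H1_dst_nonneg (M N : SymM) : 0 ≤ SymM.dst M N := by
  unfold SymM.dst
  positivity

theorem H1_sqrt_det_le (M : SymM) : Real.sqrt M.det ≤ M.nrm := by
  rw [Real.sqrt_le_iff]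
  refine ⟨H1_nrm_nonneg M, ?_⟩
  have h1 : M.a * M.c ≤ |M.a| * |M.c| := by
    rw [← abs_mul]
    exact le_abs_self _
  simp only [SymM.det, SymM.nrm]
  nlinarith [abs_nonneg M.a, abs_nonneg M.b, abs_nonneg M.c, sq_nonneg M.b,
    mul_nonneg (abs_nonneg M.a) (abs_nonneg M.c), mul_nonneg (abs_nonneg M.a) (abs_nonneg M.b),
    mul_nonneg (abs_nonneg M.b) (abs_nonneg M.c), sq_nonneg |M.a|, sq_nonneg |M.c|,
    sq_nonneg |M.b|]

theorem H1_det_sub (M N : SymM) : |M.det - N.det| ≤ (M.nrm + N.nrm) * SymM.dst M N := by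
  have e : M.det - N.det = (M.a - N.a) * M.c + N.a * (M.c - N.c) - (M.b - N.b) * (M.b + N.b) := by
    simp only [SymM.det]
    ring
  have h1 : |(M.a - N.a) * M.c + N.a * (M.c - N.c) - (M.b - N.b) * (M.b + N.b)| ≤
      |M.a - N.a| * |M.c| + |N.a| * |M.c - N.c| + |M.b - N.b| * (|M.b| + |N.b|) := by
    refine (abs_sub _ _).trans ?_
    refine add_le_add ((abs_add_le _ _).trans ?_) ?_
    · rw [abs_mul, abs_mul]
    · rw [abs_mul]
      exact mul_le_mul_of_nonneg_left (abs_add_le _ _) (abs_nonneg _)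
  rw [e]
  refine h1.trans ?_
  simp only [SymM.dst, SymM.nrm]
  have a1 := abs_nonneg M.a
  have a2 := abs_nonneg M.b
  have a3 := abs_nonneg M.c
  have b1 := abs_nonneg N.a
  have b2 := abs_nonneg N.b
  have b3 := abs_nonneg N.c
  have c1 := abs_nonneg (M.a - N.a)
  have c2 := abs_nonneg (M.b - N.b)
  have c3 := abs_nonneg (M.c - N.c)
  nlinarith [mul_nonneg a1 c1, mul_nonneg a1 c2, mul_nonneg a1 c3, mul_nonneg a2 c1,
    mul_nonneg a2 c2, mul_nonneg a2 c3, mul_nonneg a3 c1, mul_nonneg a3 c2, mul_nonneg a3 c3,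
    mul_nonneg b1 c1, mul_nonneg b1 c2, mul_nonneg b1 c3, mul_nonneg b2 c1,
    mul_nonneg b2 c2, mul_nonneg b2 c3, mul_nonneg b3 c1, mul_nonneg b3 c2, mul_nonneg b3 c3]

theorem H1_sqrt_sub (x y : ℝ) (hy : 0 ≤ y) : Real.sqrt x ≤ Real.sqrt y + Real.sqrt |x - y| := by
  rw [Real.sqrt_le_iff]
  refine ⟨by positivity, ?_⟩
  have h1 := Real.sq_sqrt hy
  have h2 := Real.sq_sqrt (abs_nonneg (x - y))
  have h3 := le_abs_self (x - y)
  nlinarith [mul_nonneg (Real.sqrt_nonneg y) (Real.sqrt_nonneg |x - y|)]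

/-! ### averages -/

theorem H1_avg_mono {α : Type*} [Fintype α] {f g : α → ℝ} (h : ∀ a, f a ≤ g a) :
    avg f ≤ avg g := by
  unfold avg
  simp only [smul_eq_mul]
  exact mul_le_mul_of_nonneg_left (Finset.sum_le_sum fun a _ => h a) (by positivity)

theorem H1_avg_nonneg {α : Type*} [Fintype α] {f : α → ℝ} (h : ∀ a, 0 ≤ f a) :
    0 ≤ avg f := by
  unfold avg
  simp only [smul_eq_mul]
  exact mul_nonneg (by positivity) (Finset.sum_nonneg fun a _ => h a)

theorem H1_avg_add {α : Type*} [Fintype α] (f g : α → ℝ) :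
    avg (fun a => f a + g a) = avg f + avg g := by
  unfold avg
  rw [Finset.sum_add_distrib, smul_add]

theorem H1_avg_mul {α : Type*} [Fintype α] (c : ℝ) (f : α → ℝ) :
    avg (fun a => c * f a) = c * avg f := by
  unfold avg
  simp only [smul_eq_mul]
  rw [← Finset.mul_sum]
  ring

theorem H1_avg_const {α : Type*} [Fintype α] [Nonempty α] (c : ℝ) :
    avg (fun _ : α => c) = c := C2_avg_const c

theorem H1_avg_fst {α : Type*} [Fintype α] (f : α → ℝ × ℝ) :
    (avg f).1 = avg (fun a => (f a).1) := by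
  unfold avg
  simp [Prod.fst_sum]

theorem H1_avg_snd {α : Type*} [Fintype α] (f : α → ℝ × ℝ) :
    (avg f).2 = avg (fun a => (f a).2) := by
  unfold avg
  simp [Prod.snd_sum]

theorem H1_avg_dot {α : Type*} [Fintype α] (g : ℝ × ℝ) (f : α → ℝ × ℝ) :
    avg (fun a => dot g (f a)) = dot g (avg f) := by
  unfold dot
  rw [H1_avg_add, H1_avg_mul, H1_avg_mul, H1_avg_fst, H1_avg_snd]

theorem H1_EJ_mono {m n : ℕ} [NeZero m] (J : ℕ) {F F' : Seqs m n → ℝ} (h : ∀ ω, F ω ≤ F' ω) :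
    EJ J F ≤ EJ J F' := H1_avg_mono fun _ => h _

theorem H1_EJ_add {m n : ℕ} [NeZero m] (J : ℕ) (F F' : Seqs m n → ℝ) :
    EJ J (fun ω => F ω + F' ω) = EJ J F + EJ J F' := H1_avg_add _ _

theorem H1_EJ_mul {m n : ℕ} [NeZero m] (J : ℕ) (c : ℝ) (F : Seqs m n → ℝ) :
    EJ J (fun ω => c * F ω) = c * EJ J F := H1_avg_mul _ _

theorem H1_EJ_const {m n : ℕ} [NeZero m] (J : ℕ) (c : ℝ) :
    EJ J (fun _ : Seqs m n => c) = c := H1_avg_const c

/-! ### bounded measurable functions on the square -/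

theorem H1_Sq_meas : MeasurableSet Sq := measurableSet_Icc.prod measurableSet_Icc

instance H1_U_prob : IsProbabilityMeasure U := by
  constructor
  rw [U, Measure.restrict_apply_univ, Sq, Measure.volume_eq_prod, Measure.prod_prod]
  simp

/-- Measurable, and bounded on the square. -/
def H1_BM (f : ℝ × ℝ → ℝ) : Prop := Measurable f ∧ ∃ C, ∀ z ∈ Sq, |f z| ≤ C

theorem H1_BM.integrable {f : ℝ × ℝ → ℝ} (h : H1_BM f) : Integrable f U := by
  obtain ⟨hm, C, hC⟩ := h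
  refine Integrable.of_bound hm.aestronglyMeasurable C ?_
  rw [U]
  filter_upwards [ae_restrict_mem H1_Sq_meas] with z hz
  simpa using hC z hz

theorem H1_BM.const (c : ℝ) : H1_BM (fun _ => c) := ⟨measurable_const, |c|, fun _ _ => le_rfl⟩

theorem H1_BM.add {f g : ℝ × ℝ → ℝ} (hf : H1_BM f) (hg : H1_BM g) :
    H1_BM (fun z => f z + g z) := by
  obtain ⟨hm, C, hC⟩ := hf
  obtain ⟨hm', C', hC'⟩ := hg
  exact ⟨hm.add hm', C + C', fun z hz => (abs_add_le _ _).trans (add_le_add (hC z hz) (hC' z hz))⟩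

theorem H1_BM.mul {f g : ℝ × ℝ → ℝ} (hf : H1_BM f) (hg : H1_BM g) :
    H1_BM (fun z => f z * g z) := by
  obtain ⟨hm, C, hC⟩ := hf
  obtain ⟨hm', C', hC'⟩ := hg
  refine ⟨hm.mul hm', C * C', fun z hz => ?_⟩
  rw [abs_mul]
  exact mul_le_mul (hC z hz) (hC' z hz) (abs_nonneg _) ((abs_nonneg _).trans (hC z hz))

theorem H1_BM.neg {f : ℝ × ℝ → ℝ} (hf : H1_BM f) : H1_BM (fun z => - f z) := by
  obtain ⟨hm, C, hC⟩ := hf
  exact ⟨hm.neg, C, fun z hz => by rw [abs_neg]; exact hC z hz⟩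

theorem H1_BM.sub {f g : ℝ × ℝ → ℝ} (hf : H1_BM f) (hg : H1_BM g) :
    H1_BM (fun z => f z - g z) := by
  simpa [sub_eq_add_neg] using hf.add hg.neg

theorem H1_BM.pow {f : ℝ × ℝ → ℝ} (hf : H1_BM f) (k : ℕ) : H1_BM (fun z => f z ^ k) := by
  induction k with
  | zero => simpa using H1_BM.const 1
  | succ k ih => simpa [pow_succ] using ih.mul hf

theorem H1_BM.sum {ι : Type*} (s : Finset ι) {f : ι → ℝ × ℝ → ℝ} (hf : ∀ i ∈ s, H1_BM (f i)) :
    H1_BM (fun z => ∑ i ∈ s, f i z) := by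
  classical
  induction s using Finset.induction_on with
  | empty => simpa using H1_BM.const 0
  | insert a s ha ih =>
    simp only [Finset.sum_insert ha]
    exact (hf a (Finset.mem_insert_self a s)).add
      (ih fun i hi => hf i (Finset.mem_insert_of_mem hi))

theorem H1_BM.avg {ι : Type*} [Fintype ι] {f : ι → ℝ × ℝ → ℝ} (hf : ∀ i, H1_BM (f i)) :
    H1_BM (fun z => Match2D.avg (fun i => f i z)) := by
  unfold Match2D.avg
  simp only [smul_eq_mul]
  exact (H1_BM.const _).mul (H1_BM.sum _ fun i _ => hf i)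

theorem H1_coord_le (v : ℝ × ℝ) : |v.1| ≤ len v ∧ |v.2| ≤ len v := by
  unfold len
  constructor <;> refine Real.abs_le_sqrt ?_ <;> nlinarith [sq_nonneg v.1, sq_nonneg v.2]

/-- Composition of a bounded measurable field with a continuous function. -/
theorem H1_BM.comp {S : ℝ × ℝ → ℝ × ℝ} (hS : Measurable S) (hb : ∃ C, ∀ z ∈ Sq, len (S z) ≤ C)
    {φ : ℝ × ℝ → ℝ} (hφ : Continuous φ) : H1_BM (fun z => φ (S z)) := by
  refine ⟨hφ.measurable.comp hS, ?_⟩
  obtain ⟨C, hC⟩ := hb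
  have hK : IsCompact (Icc (-C) C ×ˢ Icc (-C) C) := isCompact_Icc.prod isCompact_Icc
  obtain ⟨D, hD⟩ := hK.exists_bound_of_continuousOn hφ.continuousOn
  refine ⟨D, fun z hz => ?_⟩
  have h := hC z hz
  have h1 := H1_coord_le (S z)
  have := hD (S z) ⟨abs_le.1 (h1.1.trans h), abs_le.1 (h1.2.trans h)⟩
  simpa using this

theorem H1_integral_avg {ι : Type*} [Fintype ι] {f : ι → ℝ × ℝ → ℝ} (hf : ∀ i, H1_BM (f i)) :
    ∫ z, Match2D.avg (fun i => f i z) ∂U = Match2D.avg (fun i => ∫ z, f i z ∂U) := by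
  unfold Match2D.avg
  simp only [smul_eq_mul]
  rw [integral_const_mul, integral_finset_sum _ fun i _ => (hf i).integrable]

theorem H1_integral_mono {f g : ℝ × ℝ → ℝ} (hf : H1_BM f) (hg : H1_BM g)
    (h : ∀ z ∈ Sq0, f z ≤ g z) : ∫ z, f z ∂U ≤ ∫ z, g z ∂U := by
  refine integral_mono_ae hf.integrable hg.integrable ?_
  filter_upwards [A5_ae_Sq0] with z hz
  exact h z hz

theorem H1_integral_le {f : ℝ × ℝ → ℝ} (hf : H1_BM f) {c : ℝ}
    (h : ∀ z ∈ Sq0, f z ≤ c) : ∫ z, f z ∂U ≤ c := by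
  have := H1_integral_mono hf (H1_BM.const c) h
  simpa using this

/-! ### cells -/

theorem H1_qidx_meas (m j : ℕ) : Measurable (qidx m j) := by
  unfold qidx
  fun_prop

theorem H1_loc_meas (m j : ℕ) : Measurable (loc m j) := by
  unfold loc
  fun_prop

theorem H1_loc_mem (m j : ℕ) (z : ℝ × ℝ) (hz : z ∈ Sq) : loc m j z ∈ Sq := by
  obtain ⟨⟨h1, -⟩, ⟨h2, -⟩⟩ := hz
  have k1 : 0 ≤ (m : ℝ) ^ j * z.1 := by positivity
  have k2 : 0 ≤ (m : ℝ) ^ j * z.2 := by positivity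
  have a1 := Nat.floor_le k1
  have a2 := Nat.floor_le k2
  have b1 := (Nat.lt_floor_add_one ((m : ℝ) ^ j * z.1)).le
  have b2 := (Nat.lt_floor_add_one ((m : ℝ) ^ j * z.2)).le
  simp only [loc, Sq, mem_prod, mem_Icc]
  refine ⟨⟨by linarith, by linarith⟩, ⟨by linarith, by linarith⟩⟩

theorem H1_qidx_le (m j : ℕ) (z : ℝ × ℝ) (hz : z ∈ Sq) :
    (qidx m j z).1 < m ^ j + 1 ∧ (qidx m j z).2 < m ^ j + 1 := by
  obtain ⟨⟨h1, h1'⟩, ⟨h2, h2'⟩⟩ := hz
  simp only [qidx]
  have hm : 0 ≤ (m : ℝ) ^ j := by positivity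
  constructor <;> refine Nat.lt_succ_of_le ?_ <;> refine Nat.floor_le_of_le ?_ <;> push_cast
  · nlinarith
  · nlinarith

theorem H1_qidx_lt (m j : ℕ) (hm : 0 < m) (z : ℝ × ℝ) (hz : z ∈ Sq0) :
    (qidx m j z).1 < m ^ j ∧ (qidx m j z).2 < m ^ j := by
  obtain ⟨⟨h1, h1'⟩, ⟨h2, h2'⟩⟩ := hz
  simp only [qidx]
  have hm : 0 < (m : ℝ) ^ j := by positivity
  constructor
  · rw [Nat.floor_lt (by positivity)]
    push_cast
    nlinarith
  · rw [Nat.floor_lt (by positivity)]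
    push_cast
    nlinarith

theorem H1_BM.cells (m j : ℕ) {G : ℕ × ℕ → ℝ × ℝ → ℝ} (hG : ∀ q, H1_BM (G q)) :
    H1_BM (fun z => G (qidx m j z) z) := by
  constructor
  · have h : Measurable (fun x : (ℝ × ℝ) × (ℕ × ℕ) => G x.2 x.1) :=
      measurable_from_prod_countable_left fun q => (hG q).1
    exact h.comp (measurable_id.prodMk (H1_qidx_meas m j))
  · choose C hC using fun q => (hG q).2
    refine ⟨∑ q ∈ Finset.range (m ^ j + 1) ×ˢ Finset.range (m ^ j + 1), |C q|, fun z hz => ?_⟩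
    have h1 := H1_qidx_le m j z hz
    have h2 : qidx m j z ∈ Finset.range (m ^ j + 1) ×ˢ Finset.range (m ^ j + 1) := by
      simp [h1.1, h1.2]
    have h3 := Finset.single_le_sum (f := fun q => |C q|) (fun q _ => abs_nonneg _) h2
    exact ((hC _ z hz).trans (le_abs_self _)).trans h3

theorem H1_BM.comp_loc (m j : ℕ) {f : ℝ × ℝ → ℝ} (hf : H1_BM f) :
    H1_BM (fun z => f (loc m j z)) := by
  obtain ⟨hm, C, hC⟩ := hf
  exact ⟨hm.comp (H1_loc_meas m j), C, fun z hz => hC _ (H1_loc_mem m j z hz)⟩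

theorem H1_BM.ofq (m j : ℕ) (g : ℕ × ℕ → ℝ) : H1_BM (fun z => g (qidx m j z)) :=
  H1_BM.cells m j (G := fun q _ => g q) fun q => H1_BM.const _

/-- The cell decomposition, for a family which is bounded in each cell. -/
theorem H1_cells (hC5 : StmtC5) (m j : ℕ) (hm : 0 < m) (G : ℕ × ℕ → ℝ × ℝ → ℝ)
    (hG : ∀ q, H1_BM (G q)) :
    ∫ z, G (qidx m j z) (loc m j z) ∂U =
    ((m : ℝ) ^ (2 * j))⁻¹ * ∑ q ∈ Finset.range (m ^ j) ×ˢ Finset.range (m ^ j),
      ∫ y, G q y ∂U := by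
  classical
  set s := Finset.range (m ^ j) ×ˢ Finset.range (m ^ j) with hs
  set F : ℕ × ℕ → ℝ × ℝ → ℝ := fun q y => if q ∈ s then G q y else 0 with hF
  have h1 : ∫ z, G (qidx m j z) (loc m j z) ∂U = ∫ z, F (qidx m j z) (loc m j z) ∂U := by
    refine integral_congr_ae ?_
    filter_upwards [A5_ae_Sq0] with z hz
    have h2 := H1_qidx_lt m j hm z hz
    have : qidx m j z ∈ s := by simp [hs, h2.1, h2.2]
    simp only [hF, if_pos this]
  rw [h1, hC5 m j hm F ?_ ?_]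
  · congr 1
    refine Finset.sum_congr rfl fun q hq => ?_
    simp only [hF, if_pos hq]
  · intro q
    by_cases hq : q ∈ s
    · simp only [hF, if_pos hq]
      exact (hG q).1
    · simp only [hF, if_neg hq]
      exact measurable_const
  · choose C hC using fun q => (hG q).2
    refine ⟨∑ q ∈ s, |C q|, fun q y hy => ?_⟩
    by_cases hq : q ∈ s
    · simp only [hF, if_pos hq]
      exact ((hC q y hy).trans (le_abs_self _)).trans
        (Finset.single_le_sum (f := fun q => |C q|) (fun q _ => abs_nonneg _) hq)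
    · simp only [hF, if_neg hq, abs_zero]
      exact Finset.sum_nonneg fun q _ => abs_nonneg _

end Match2D

end

section

/-!
MP_884187_pr, item L3, part a: averages, expectations, matrices.
-/

open MeasureTheory Set Filter Topology

namespace Match2D

/-! ### Averages -/

section Avg

variable {α : Type*} [Fintype α]

theorem L3_avg_eq (f : α → ℝ) : avg f = (Fintype.card α : ℝ)⁻¹ * ∑ a, f a := by
  unfold avg
  rw [smul_eq_mul]

theorem L3_avg_mono {f g : α → ℝ} (h : ∀ a, f a ≤ g a) : avg f ≤ avg g := by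
  rw [L3_avg_eq, L3_avg_eq]
  exact mul_le_mul_of_nonneg_left (Finset.sum_le_sum fun a _ => h a) (by positivity)

theorem L3_avg_nonneg {f : α → ℝ} (h : ∀ a, 0 ≤ f a) : 0 ≤ avg f := by
  rw [L3_avg_eq]
  exact mul_nonneg (by positivity) (Finset.sum_nonneg fun a _ => h a)

theorem L3_avg_add {E : Type*} [AddCommGroup E] [Module ℝ E] (f g : α → E) :
    avg (fun a => f a + g a) = avg f + avg g := by
  unfold avg
  rw [Finset.sum_add_distrib, smul_add]

theorem L3_avg_sub {E : Type*} [AddCommGroup E] [Module ℝ E] (f g : α → E) :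
    avg (fun a => f a - g a) = avg f - avg g := by
  unfold avg
  rw [Finset.sum_sub_distrib, smul_sub]

theorem L3_avg_smul {E : Type*} [AddCommGroup E] [Module ℝ E] (c : ℝ) (f : α → E) :
    avg (fun a => c • f a) = c • avg f := by
  unfold avg
  rw [← Finset.smul_sum, smul_comm]

theorem L3_avg_mul (c : ℝ) (f : α → ℝ) : avg (fun a => c * f a) = c * avg f :=
  L3_avg_smul c f

theorem L3_avg_fst (f : α → ℝ × ℝ) : (avg f).1 = avg fun a => (f a).1 := by
  unfold avg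
  rw [Prod.smul_fst, Prod.fst_sum]

theorem L3_avg_snd (f : α → ℝ × ℝ) : (avg f).2 = avg fun a => (f a).2 := by
  unfold avg
  rw [Prod.smul_snd, Prod.snd_sum]

theorem L3_dot_avg (v : ℝ × ℝ) (f : α → ℝ × ℝ) : dot v (avg f) = avg fun a => dot v (f a) := by
  unfold dot
  rw [L3_avg_fst, L3_avg_snd, L3_avg_add, L3_avg_mul, L3_avg_mul]

theorem L3_len_smul (c : ℝ) (v : ℝ × ℝ) : len (c • v) = |c| * len v := by
  unfold len
  simp only [Prod.smul_fst, Prod.smul_snd, smul_eq_mul]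
  rw [show (c * v.1) ^ 2 + (c * v.2) ^ 2 = c ^ 2 * (v.1 ^ 2 + v.2 ^ 2) by ring,
    Real.sqrt_mul (sq_nonneg c), Real.sqrt_sq_eq_abs]

theorem L3_len_sum {ι : Type*} (s : Finset ι) (f : ι → ℝ × ℝ) :
    len (∑ i ∈ s, f i) ≤ ∑ i ∈ s, len (f i) := by
  classical
  induction s using Finset.induction_on with
  | empty => simp [A1_len_zero]
  | insert a s ha ih =>
    rw [Finset.sum_insert ha, Finset.sum_insert ha]
    exact (A1_len_add_le _ _).trans (by linarith)

theorem L3_len_avg (f : α → ℝ × ℝ) : len (avg f) ≤ avg fun a => len (f a) := by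
  rw [L3_avg_eq]
  unfold avg
  rw [L3_len_smul, abs_of_nonneg (by positivity)]
  exact mul_le_mul_of_nonneg_left (L3_len_sum _ _) (by positivity)

theorem L3_avg_integral (μ : Measure (ℝ × ℝ)) (F : α → ℝ × ℝ → ℝ)
    (hF : ∀ a, Integrable (F a) μ) :
    avg (fun a => ∫ z, F a z ∂μ) = ∫ z, avg (fun a => F a z) ∂μ := by
  simp only [L3_avg_eq]
  rw [integral_const_mul, integral_finsetSum _ (fun a _ => hF a)]

theorem L3_avg_integrable (μ : Measure (ℝ × ℝ)) (F : α → ℝ × ℝ → ℝ)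
    (hF : ∀ a, Integrable (F a) μ) : Integrable (fun z => avg (fun a => F a z)) μ := by
  simp only [L3_avg_eq]
  exact (integrable_finsetSum _ (fun a _ => hF a)).const_mul _

end Avg

/-! ### Expectations -/

section Expect

variable {m n : ℕ} [NeZero m] (J : ℕ)

theorem L3_EJ_mono {F G : Seqs m n → ℝ} (h : ∀ ω, F ω ≤ G ω) : EJ J F ≤ EJ J G :=
  L3_avg_mono fun _ => h _

theorem L3_EJ_nonneg {F : Seqs m n → ℝ} (h : ∀ ω, 0 ≤ F ω) : 0 ≤ EJ J F :=
  L3_avg_nonneg fun _ => h _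

theorem L3_EJ_add (F G : Seqs m n → ℝ) : EJ J (fun ω => F ω + G ω) = EJ J F + EJ J G :=
  L3_avg_add _ _

theorem L3_EJ_sub (F G : Seqs m n → ℝ) : EJ J (fun ω => F ω - G ω) = EJ J F - EJ J G :=
  L3_avg_sub _ _

theorem L3_EJ_mul (c : ℝ) (F : Seqs m n → ℝ) : EJ J (fun ω => c * F ω) = c * EJ J F :=
  L3_avg_mul _ _

theorem L3_EJ_sum {ι : Type*} (s : Finset ι) (F : ι → Seqs m n → ℝ) :
    EJ J (fun ω => ∑ i ∈ s, F i ω) = ∑ i ∈ s, EJ J (F i) := by
  classical
  induction s using Finset.induction_on with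
  | empty => simp only [Finset.sum_empty]; exact C2_EJ_const J 0
  | insert a s ha ih =>
    simp only [Finset.sum_insert ha]
    rw [L3_EJ_add, ih]

theorem L3_EJ_integral (F : Seqs m n → ℝ × ℝ → ℝ) (hF : ∀ ω, Integrable (F ω) U) :
    EJ J (fun ω => ∫ z, F ω z ∂U) = ∫ z, EJ J (fun ω => F ω z) ∂U :=
  L3_avg_integral U _ fun _ => hF _

theorem L3_EJ_integrable (F : Seqs m n → ℝ × ℝ → ℝ) (hF : ∀ ω, Integrable (F ω) U) :
    Integrable (fun z => EJ J (fun ω => F ω z)) U :=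
  L3_avg_integrable U _ fun _ => hF _

end Expect

/-! ### Measures -/

theorem L3_ae_Sq : ∀ᵐ z ∂U, z ∈ Sq := A5_ae_Sq0.mono fun _ h => A5_Sq0_sub h

theorem L3_integrable {F : ℝ × ℝ → ℝ} (hF : Measurable F) {C : ℝ} (hC : ∀ z ∈ Sq, |F z| ≤ C) :
    Integrable F U := by
  refine Integrable.of_bound hF.aestronglyMeasurable C ?_
  filter_upwards [L3_ae_Sq] with z hz
  exact hC z hz

theorem L3_integral_mono {F G : ℝ × ℝ → ℝ} (hF : Integrable F U) (hG : Integrable G U)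
    (h : ∀ z ∈ Sq0, F z ≤ G z) : ∫ z, F z ∂U ≤ ∫ z, G z ∂U := by
  refine integral_mono_ae hF hG ?_
  filter_upwards [A5_ae_Sq0] with z hz
  exact h z hz

theorem L3_integral_const (c : ℝ) : ∫ _z, c ∂U = c := by
  rw [integral_const]
  simp

/-! ### Matrices -/

theorem L3_abs_mul_le (v : ℝ × ℝ) : |v.1 * v.2| ≤ len v ^ 2 := by
  rw [A1_len_sq, abs_le]
  constructor <;> nlinarith [sq_nonneg (v.1 + v.2), sq_nonneg (v.1 - v.2), sq_nonneg v.1, sq_nonneg v.2]

theorem L3_qf_sub (M N : SymM) (v : ℝ × ℝ) : M.qf v - N.qf v ≤ M.dst N * len v ^ 2 := by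
  have h1 : v.1 ^ 2 ≤ len v ^ 2 := by rw [A1_len_sq]; nlinarith [sq_nonneg v.2]
  have h2 : v.2 ^ 2 ≤ len v ^ 2 := by rw [A1_len_sq]; nlinarith [sq_nonneg v.1]
  have h3 := L3_abs_mul_le v
  have e : M.qf v - N.qf v = (M.a - N.a) * v.1 ^ 2 + 2 * ((M.b - N.b) * (v.1 * v.2)) +
      (M.c - N.c) * v.2 ^ 2 := by
    unfold SymM.qf
    ring
  have k1 : (M.a - N.a) * v.1 ^ 2 ≤ |M.a - N.a| * len v ^ 2 :=
    mul_le_mul (le_abs_self _) h1 (sq_nonneg _) (abs_nonneg _)
  have k2 : (M.c - N.c) * v.2 ^ 2 ≤ |M.c - N.c| * len v ^ 2 :=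
    mul_le_mul (le_abs_self _) h2 (sq_nonneg _) (abs_nonneg _)
  have k3 : (M.b - N.b) * (v.1 * v.2) ≤ |M.b - N.b| * len v ^ 2 := by
    refine (le_abs_self _).trans ?_
    rw [abs_mul]
    exact mul_le_mul_of_nonneg_left h3 (abs_nonneg _)
  rw [e]
  unfold SymM.dst
  nlinarith

theorem L3_dst_comm (M N : SymM) : M.dst N = N.dst M := by
  unfold SymM.dst
  rw [abs_sub_comm M.a, abs_sub_comm M.b, abs_sub_comm M.c]

theorem L3_dst_adj (M N : SymM) : M.adj.dst N.adj = M.dst N := by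
  unfold SymM.dst SymM.adj
  simp only
  rw [show -M.b - -N.b = -(M.b - N.b) by ring, abs_neg]
  ring

theorem L3_dst_nonneg (M N : SymM) : 0 ≤ M.dst N := by
  unfold SymM.dst
  positivity

theorem L3_nrm_nonneg (M : SymM) : 0 ≤ M.nrm := by
  unfold SymM.nrm
  positivity

theorem L3_qf_le (M : SymM) (v : ℝ × ℝ) : |M.qf v| ≤ M.nrm * len v ^ 2 := by
  have h0 := L3_qf_sub M ⟨0, 0, 0⟩ v
  have h1 := L3_qf_sub ⟨0, 0, 0⟩ M v
  unfold SymM.qf SymM.dst at h0 h1
  unfold SymM.qf SymM.nrm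
  simp only [sub_zero, zero_sub, abs_neg, zero_mul, mul_zero, add_zero] at h0 h1
  rw [abs_le]
  constructor <;> linarith

theorem L3_nrm_adj (M : SymM) : M.adj.nrm = M.nrm := by
  unfold SymM.nrm SymM.adj
  simp only [abs_neg]
  ring

theorem L3_det_sub (M N : SymM) : |M.det - N.det| ≤ (M.nrm + N.nrm) * M.dst N := by
  have e : M.det - N.det = (M.a - N.a) * M.c + N.a * (M.c - N.c) - (M.b - N.b) * (M.b + N.b) := by
    unfold SymM.det
    ring
  have t : |M.det - N.det| ≤ |M.a - N.a| * |M.c| + |N.a| * |M.c - N.c| +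
      |M.b - N.b| * (|M.b| + |N.b|) := by
    rw [e]
    refine (abs_sub _ _).trans ?_
    refine add_le_add ((abs_add_le _ _).trans ?_) ?_
    · rw [abs_mul, abs_mul]
    · rw [abs_mul]
      exact mul_le_mul_of_nonneg_left (abs_add_le _ _) (abs_nonneg _)
  refine t.trans ?_
  unfold SymM.nrm SymM.dst
  have a1 := abs_nonneg (M.a - N.a)
  have a2 := abs_nonneg (M.b - N.b)
  have a3 := abs_nonneg (M.c - N.c)
  have b1 := abs_nonneg M.a
  have b2 := abs_nonneg M.b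
  have b3 := abs_nonneg M.c
  have c1 := abs_nonneg N.a
  have c2 := abs_nonneg N.b
  have c3 := abs_nonneg N.c
  have d : (|M.a| + 2 * |M.b| + |M.c| + (|N.a| + 2 * |N.b| + |N.c|)) *
      (|M.a - N.a| + 2 * |M.b - N.b| + |M.c - N.c|) -
      (|M.a - N.a| * |M.c| + |N.a| * |M.c - N.c| + |M.b - N.b| * (|M.b| + |N.b|)) =
      |M.a - N.a| * (|M.a| + 2 * |M.b| + (|N.a| + 2 * |N.b| + |N.c|)) +
      |M.c - N.c| * (|M.a| + 2 * |M.b| + |M.c| + (2 * |N.b| + |N.c|)) +
      |M.b - N.b| * (2 * (|M.a| + |M.c| + |N.a| + |N.c|) + 3 * |M.b| + 3 * |N.b|) := by ring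
  have : 0 ≤ |M.a - N.a| * (|M.a| + 2 * |M.b| + (|N.a| + 2 * |N.b| + |N.c|)) +
      |M.c - N.c| * (|M.a| + 2 * |M.b| + |M.c| + (2 * |N.b| + |N.c|)) +
      |M.b - N.b| * (2 * (|M.a| + |M.c| + |N.a| + |N.c|) + 3 * |M.b| + 3 * |N.b|) := by
    positivity
  linarith

theorem L3_det_le (M : SymM) : M.det ≤ M.nrm ^ 2 := by
  have b1 := abs_nonneg M.a
  have b2 := abs_nonneg M.b
  have b3 := abs_nonneg M.c
  have h : M.a * M.c ≤ |M.a| * |M.c| := (le_abs_self _).trans (abs_mul _ _).le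
  unfold SymM.det SymM.nrm
  nlinarith [mul_nonneg b1 b3, mul_nonneg b1 b2, mul_nonneg b2 b3, sq_nonneg M.b, sq_nonneg |M.a|,
    sq_nonneg |M.b|, sq_nonneg |M.c|]

theorem L3_sqrt_sub (a b : ℝ) (ha : 0 ≤ a) (hb : 0 ≤ b) :
    Real.sqrt a ≤ Real.sqrt b + Real.sqrt |a - b| := by
  rw [Real.sqrt_le_iff]
  refine ⟨by positivity, ?_⟩
  have h1 := Real.sq_sqrt hb
  have h2 := Real.sq_sqrt (abs_nonneg (a - b))
  have h3 := le_abs_self (a - b)
  nlinarith [mul_nonneg (Real.sqrt_nonneg b) (Real.sqrt_nonneg |a - b|)]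

theorem L3_second (H K : SymM) (C e : ℝ) (hC : 1 ≤ C) (hH : H.nrm ≤ C) (hK : K.nrm ≤ C)
    (hH' : 1 ≤ C * H.det) (hK' : 1 ≤ C * K.det) (he : H.dst K ≤ e) (v : ℝ × ℝ) :
    H.adj.qf v / (2 * H.det) ≤ K.adj.qf v / (2 * K.det) + 2 * C ^ 4 * e * len v ^ 2 := by
  have hC0 : 0 < C := by linarith
  have dH : 0 < H.det := by
    by_contra h
    push Not at h
    nlinarith
  have dK : 0 < K.det := by
    by_contra h
    push Not at h
    nlinarith
  have he0 : 0 ≤ e := (L3_dst_nonneg _ _).trans he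
  have iH : 1 / H.det ≤ C := by
    rw [div_le_iff₀ dH]
    exact hH'
  have iK : 1 / K.det ≤ C := by
    rw [div_le_iff₀ dK]
    exact hK'
  have s0 : 0 ≤ len v ^ 2 := sq_nonneg _
  have e1 : H.adj.qf v / (2 * H.det) - K.adj.qf v / (2 * K.det) =
      (1 / 2) * ((H.adj.qf v - K.adj.qf v) * (1 / H.det)) +
      (1 / 2) * (K.adj.qf v * ((K.det - H.det) * ((1 / H.det) * (1 / K.det)))) := by
    field_simp
    ring
  have k1 : (H.adj.qf v - K.adj.qf v) * (1 / H.det) ≤ e * len v ^ 2 * C := by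
    have h1 := L3_qf_sub H.adj K.adj v
    rw [L3_dst_adj] at h1
    have h2 : H.adj.qf v - K.adj.qf v ≤ e * len v ^ 2 :=
      h1.trans (mul_le_mul_of_nonneg_right he s0)
    calc (H.adj.qf v - K.adj.qf v) * (1 / H.det) ≤ e * len v ^ 2 * (1 / H.det) :=
          mul_le_mul_of_nonneg_right h2 (by positivity)
      _ ≤ e * len v ^ 2 * C := mul_le_mul_of_nonneg_left iH (by positivity)
  have k2 : K.adj.qf v * ((K.det - H.det) * ((1 / H.det) * (1 / K.det))) ≤
      (C * len v ^ 2) * ((2 * C * e) * (C * C)) := by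
    refine (le_abs_self _).trans ?_
    rw [abs_mul, abs_mul]
    have h1 : |K.adj.qf v| ≤ C * len v ^ 2 := by
      refine (L3_qf_le _ _).trans ?_
      rw [L3_nrm_adj]
      exact mul_le_mul_of_nonneg_right hK s0
    have h2 : |K.det - H.det| ≤ 2 * C * e := by
      rw [abs_sub_comm]
      refine (L3_det_sub _ _).trans ?_
      exact mul_le_mul (by linarith) he (L3_dst_nonneg _ _) (by positivity)
    have h3 : |1 / H.det * (1 / K.det)| ≤ C * C := by
      rw [abs_of_pos (by positivity)]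
      exact mul_le_mul iH iK (by positivity) hC0.le
    exact mul_le_mul h1 (mul_le_mul h2 h3 (abs_nonneg _) (by positivity)) (by positivity)
      (by positivity)
  have k3 : e * len v ^ 2 * C ≤ 2 * C ^ 4 * e * len v ^ 2 := by
    have : C ≤ C ^ 4 := by
      calc C = C * 1 := by ring
        _ ≤ C * C ^ 3 := mul_le_mul_of_nonneg_left (one_le_pow₀ hC) hC0.le
        _ = C ^ 4 := by ring
    have h5 : 0 ≤ e * len v ^ 2 := by positivity
    nlinarith
  nlinarith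

/-- The facts on the normalised matrix. -/
theorem L3_unit (H : SymM) (ha : 0 < H.a) (hd : 0 < H.det) :
    0 < H.unit.a ∧ H.unit.det = 1 ∧ H.unit.tr * Real.sqrt H.det = H.tr ∧
    (∀ v, Real.sqrt H.det * H.unit.adj.qf v = H.adj.qf v) ∧
    (∀ v, H.adj.qf (Real.sqrt H.det • v) / (2 * H.det) =
      Real.sqrt H.det / 2 * H.unit.adj.qf v) := by
  have hs : 0 < Real.sqrt H.det := Real.sqrt_pos.2 hd
  have hs2 := Real.sq_sqrt hd.le
  have h4 : ∀ v, Real.sqrt H.det * H.unit.adj.qf v = H.adj.qf v := by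
    intro v
    unfold SymM.unit SymM.adj SymM.qf
    simp only
    field_simp
  refine ⟨?_, ?_, ?_, h4, ?_⟩
  · unfold SymM.unit
    exact div_pos ha hs
  · have : H.unit.det = H.det / Real.sqrt H.det ^ 2 := by
      unfold SymM.unit SymM.det
      simp only
      field_simp
    rw [this, hs2, div_self hd.ne']
  · unfold SymM.unit SymM.tr
    simp only
    field_simp
  · intro v
    have e : H.adj.qf (Real.sqrt H.det • v) = H.det * H.adj.qf v := by
      unfold SymM.adj SymM.qf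
      simp only [Prod.smul_fst, Prod.smul_snd, smul_eq_mul]
      rw [show H.c * (√H.det * v.1) ^ 2 + 2 * -H.b * (√H.det * v.1) * (√H.det * v.2) +
        H.a * (√H.det * v.2) ^ 2 = √H.det ^ 2 * (H.c * v.1 ^ 2 + 2 * -H.b * v.1 * v.2 +
          H.a * v.2 ^ 2) by ring, hs2]
    rw [e, ← h4 v]
    field_simp

theorem L3_adj_sq (M : SymM) (hd : M.det = 1) (v : ℝ × ℝ) :
    len v ^ 2 ≤ M.tr * M.adj.qf v := by
  rw [A1_len_sq]
  unfold SymM.det at hd
  unfold SymM.tr SymM.adj SymM.qf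
  simp only
  have e : (M.a + M.c) * (M.c * v.1 ^ 2 + 2 * -M.b * v.1 * v.2 + M.a * v.2 ^ 2) -
      (v.1 ^ 2 + v.2 ^ 2) = (M.c * v.1 - M.b * v.2) ^ 2 + (M.b * v.1 - M.a * v.2) ^ 2 +
      (M.a * M.c - M.b ^ 2 - 1) * (v.1 ^ 2 + v.2 ^ 2) := by ring
  rw [hd] at e
  nlinarith [sq_nonneg (M.c * v.1 - M.b * v.2), sq_nonneg (M.b * v.1 - M.a * v.2)]

theorem L3_adj_nonneg (M : SymM) (ha : 0 < M.a) (hd : M.det = 1) (v : ℝ × ℝ) :
    0 ≤ M.adj.qf v := by
  have hc : 0 < M.c := by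
    unfold SymM.det at hd
    by_contra h
    push Not at h
    nlinarith [sq_nonneg M.b]
  have h := L3_adj_sq M hd v
  have h1 : 0 < M.tr := by
    unfold SymM.tr
    linarith
  by_contra h2
  push Not at h2
  nlinarith [sq_nonneg (len v)]

theorem L3_tr_pos (M : SymM) (ha : 0 < M.a) (hd : M.det = 1) : 0 < M.tr := by
  unfold SymM.det at hd
  unfold SymM.tr
  have hc : 0 < M.c := by
    by_contra h
    push Not at h
    nlinarith [sq_nonneg M.b]
  linarith

theorem L3_dot_le (v w : ℝ × ℝ) : dot v w ≤ len v * len w := by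
  have h1 := A1_len_sq v
  have h2 := A1_len_sq w
  have h3 := A1_len_nonneg v
  have h4 := A1_len_nonneg w
  unfold dot
  refine le_of_abs_le (abs_le_of_sq_le_sq ?_ (mul_nonneg h3 h4))
  rw [mul_pow, h1, h2]
  nlinarith [sq_nonneg (v.1 * w.2 - v.2 * w.1)]

end Match2D

end

section

/-!
MP_884187_pr, item D2, part 3: Jensen inequality on a cell, and the drift of a cell.
-/

open MeasureTheory Set Filter Topology

namespace Match2D

/-- Jensen inequality for the length of the integral of a bounded field over a set of finite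
positive volume. -/
lemma D2_jensen {p : ℝ} (hp : 1 ≤ p) (b : ℝ × ℝ → ℝ × ℝ) (hb : Measurable b) (Q : Set (ℝ × ℝ))
    (hQ : MeasurableSet Q) (hQ0 : 0 < (volume : Measure (ℝ × ℝ)).real Q)
    (B : ℝ) (hB : ∀ z ∈ Q, len (b z) ≤ B) :
    len (∫ z in Q, (b z).1, ∫ z in Q, (b z).2) ^ p ≤
      (volume : Measure (ℝ × ℝ)).real Q ^ (p - 1) * ∫ z in Q, len (b z) ^ p := by
  have hQt : (volume : Measure (ℝ × ℝ)) Q ≠ ⊤ := by
    intro h
    rw [Measure.real, h] at hQ0
    simp at hQ0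
  have hQn : (volume : Measure (ℝ × ℝ)) Q ≠ 0 := by
    intro h
    rw [Measure.real, h] at hQ0
    simp at hQ0
  set v := (volume : Measure (ℝ × ℝ)).real Q with hv
  have hp0 : (0 : ℝ) < p := by linarith
  have i1 : IntegrableOn (fun z => (b z).1) Q := by
    refine Measure.integrableOn_of_bounded (M := B) hQt ?_ ?_
    · exact hb.fst.aestronglyMeasurable
    · filter_upwards [ae_restrict_mem hQ] with z hz
      exact (abs_fst_le_len _).trans (hB z hz)
  have i2 : IntegrableOn (fun z => (b z).2) Q := by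
    refine Measure.integrableOn_of_bounded (M := B) hQt ?_ ?_
    · exact hb.snd.aestronglyMeasurable
    · filter_upwards [ae_restrict_mem hQ] with z hz
      exact (abs_snd_le_len _).trans (hB z hz)
  have i3 : IntegrableOn (fun z => len (b z)) Q := by
    refine Measure.integrableOn_of_bounded (M := B) hQt ?_ ?_
    · exact (measurable_len.comp hb).aestronglyMeasurable
    · filter_upwards [ae_restrict_mem hQ] with z hz
      rw [Real.norm_eq_abs, abs_of_nonneg (len_nonneg _)]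
      exact hB z hz
  have i4 : IntegrableOn (fun z => len (b z) ^ p) Q := by
    refine Measure.integrableOn_of_bounded (M := B ^ p) hQt ?_ ?_
    · exact ((measurable_len.comp hb).pow_const p).aestronglyMeasurable
    · filter_upwards [ae_restrict_mem hQ] with z hz
      rw [Real.norm_eq_abs, abs_of_nonneg (Real.rpow_nonneg (len_nonneg _) _)]
      exact Real.rpow_le_rpow (len_nonneg _) (hB z hz) hp0.le
  -- the length of the integral is at most the integral of the length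
  have h1 : len (∫ z in Q, (b z).1, ∫ z in Q, (b z).2) ≤ ∫ z in Q, len (b z) := by
    set V : ℝ × ℝ := (∫ z in Q, (b z).1, ∫ z in Q, (b z).2) with hV
    have h2 : len V ^ 2 = ∫ z in Q, dot V (b z) := by
      have : ∀ z, dot V (b z) = V.1 * (b z).1 + V.2 * (b z).2 := fun z => rfl
      simp only [this]
      rw [integral_add (i1.const_mul _) (i2.const_mul _), integral_const_mul, integral_const_mul,
        len_sq]
      simp only [hV]
      ring
    have h3 : ∫ z in Q, dot V (b z) ≤ ∫ z in Q, len V * len (b z) := by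
      refine setIntegral_mono ?_ (i3.const_mul _) ?_
      · exact (i1.const_mul V.1).add (i2.const_mul V.2)
      · intro z
        exact (le_abs_self _).trans (abs_dot_le _ _)
    rw [integral_const_mul, ← h2] at h3
    by_contra hlt
    push Not at hlt
    have hpos : 0 < len V :=
      lt_of_le_of_lt (integral_nonneg fun z => len_nonneg _) hlt
    nlinarith
  have h4 : 0 ≤ ∫ z in Q, len (b z) := integral_nonneg fun z => len_nonneg _
  have h5 := (convexOn_rpow hp).map_set_average_le (μ := (volume : Measure (ℝ × ℝ))) (t := Q)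
    (f := fun z => len (b z)) (Real.continuous_rpow_const hp0.le).continuousOn isClosed_Ici
    hQn hQt (Eventually.of_forall fun z => len_nonneg _) i3 i4
  rw [setAverage_eq, setAverage_eq, smul_eq_mul, smul_eq_mul, ← hv,
    Real.mul_rpow (inv_nonneg.2 hQ0.le) h4] at h5
  have h6 : len (∫ z in Q, (b z).1, ∫ z in Q, (b z).2) ^ p ≤ (∫ z in Q, len (b z)) ^ p :=
    Real.rpow_le_rpow (len_nonneg _) h1 hp0.le
  refine h6.trans ?_
  have h7 : v ^ p * (v⁻¹ ^ p * (∫ z in Q, len (b z)) ^ p) = (∫ z in Q, len (b z)) ^ p := by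
    rw [← mul_assoc, ← Real.mul_rpow hQ0.le (inv_nonneg.2 hQ0.le), mul_inv_cancel₀ hQ0.ne',
      Real.one_rpow, one_mul]
  rw [← h7]
  refine (mul_le_mul_of_nonneg_left h5 (Real.rpow_nonneg hQ0.le _)).trans (le_of_eq ?_)
  rw [Real.rpow_sub hQ0, Real.rpow_one]
  ring

/-- The drift of one component. -/
lemma D2_drift {h a b X e : ℝ} (hh : 0 ≤ h) (h1 : |h * a - X| ≤ e) (h2 : |h * b - X| ≤ e) :
    |h * (max a 0 - max (-b) 0) - X| ≤ 2 * e := by
  have e1 : h * max a 0 = max (h * a) 0 := by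
    rw [mul_max_of_nonneg _ _ hh, mul_zero]
  have e2 : h * max (-b) 0 = max (-(h * b)) 0 := by
    rw [mul_max_of_nonneg _ _ hh, mul_zero, mul_neg]
  rw [mul_sub, e1, e2]
  have h3 : |max (h * a) 0 - max X 0| ≤ |h * a - X| := abs_max_sub_max_le_abs _ _ _
  have h4 : |max (-(h * b)) 0 - max (-X) 0| ≤ |-(h * b) - -X| := abs_max_sub_max_le_abs _ _ _
  have h5 : |-(h * b) - -X| = |h * b - X| := by rw [← abs_neg]; congr 1; ring
  rw [h5] at h4
  have h6 : X = max X 0 - max (-X) 0 := by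
    rcases le_total X 0 with h | h
    · rw [max_eq_right h, max_eq_left (by linarith)]; ring
    · rw [max_eq_left h, max_eq_right (by linarith)]; ring
  have h7 : max (h * a) 0 - max (-(h * b)) 0 - X =
      (max (h * a) 0 - max X 0) - (max (-(h * b)) 0 - max (-X) 0) := by
    linarith
  rw [h7]
  refine (abs_sub _ _).trans ?_
  linarith

end Match2D

end

section

/-!
MP_884187_pr, item H1, part b: dependence on the past, the one step formula, the averaged
Taylor expansion.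
-/

open MeasureTheory Set Filter Topology

namespace Match2D

theorem H1_inCell_congr {m n : ℕ} (j : ℕ) (ω ω' : Seqs m n) (h : ∀ l, l < j → ω l = ω' l)
    (q : ℕ × ℕ) : inCell ω j q = inCell ω' j q := by
  unfold inCell
  simp only [C2_cidx_congr j ω ω' h]

theorem H1_rdens_congr {m n : ℕ} (j : ℕ) (ω ω' : Seqs m n) (h : ∀ l, l < j → ω l = ω' l)
    (q : ℕ × ℕ) : rdens ω j q = rdens ω' j q := by
  unfold rdens
  rw [H1_inCell_congr j ω ω' h]

theorem H1_Sm_congr {m n : ℕ} {Θ : Type} (β : Θ → Dig m → ℝ × ℝ → ℝ × ℝ)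
    (ch : ℕ → ℝ × ℝ → Θ) : ∀ (j : ℕ) (ω ω' : Seqs m n), (∀ l, l < j → ω l = ω' l) →
    Sm β ch j ω = Sm β ch j ω' := by
  intro j
  induction j with
  | zero => intro ω ω' _; rfl
  | succ j ih =>
    intro ω ω' h
    have h' : ∀ l, l < j → ω l = ω' l := fun l hl => h l (Nat.lt_succ_of_lt hl)
    funext x
    simp only [Sm]
    rw [ih ω ω' h', H1_inCell_congr j ω ω' h', h j (Nat.lt_succ_self j)]

theorem H1_update_lt {m n : ℕ} (ω : Seqs m n) (j : ℕ) (δ : Fin n → Dig m) :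
    ∀ l, l < j → Function.update ω j δ l = ω l := fun l hl =>
  Function.update_of_ne (Nat.ne_of_lt hl) _ _

/-- The one step formula. -/
theorem H1_Sm_step {m n : ℕ} {Θ : Type} (β : Θ → Dig m → ℝ × ℝ → ℝ × ℝ)
    (ch : ℕ → ℝ × ℝ → Θ) (j : ℕ) (ω : Seqs m n) (δ : Fin n → Dig m) (x : ℝ × ℝ) :
    Sm β ch (j + 1) (Function.update ω j δ) x = Sm β ch j ω x +
      stp m n j • ∑ i ∈ inCell ω j (qidx m j x),
        (β (ch j (Sm β ch j ω (corner m j (qidx m j x)))) (δ i) (loc m j x) -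
          avg (fun d => β (ch j (Sm β ch j ω (corner m j (qidx m j x)))) d (loc m j x))) := by
  simp only [Sm]
  rw [H1_Sm_congr β ch j _ ω (H1_update_lt ω j δ),
    H1_inCell_congr j _ ω (H1_update_lt ω j δ), Function.update_self]

theorem H1_stp_sq (m n j : ℕ) (hn : 1 ≤ Real.log n) (c : ℝ) :
    stp m n j ^ 2 * c = ((m : ℝ) ^ (2 * j) * c / n) / Real.log n := by
  unfold stp
  have hn0 : (0 : ℝ) ≤ n := Nat.cast_nonneg n
  rw [div_pow, Real.sq_sqrt (by positivity), ← pow_mul, mul_comm j 2]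
  rw [div_mul_eq_mul_div, div_div]

theorem H1_avg_smul_X {m n : ℕ} (c : ℝ) (g : ℝ × ℝ) (X : (Fin n → Dig m) → ℝ × ℝ)
    (h : avg X = 0) : avg (fun δ => dot g (c • X δ)) = 0 := by
  have e : (fun δ => dot g (c • X δ)) = fun δ => c * dot g (X δ) := by
    funext δ
    simp only [dot, Prod.smul_fst, Prod.smul_snd, smul_eq_mul]
    ring
  rw [e, H1_avg_mul, H1_avg_dot, h]
  simp [dot]

/-- `(1 + w)^(2 K) ≤ 4^K (1 + w^(2 K))`. -/
theorem H1_one_add_pow (w : ℝ) (hw : 0 ≤ w) (K : ℕ) :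
    (1 + w) ^ (2 * K) ≤ 4 ^ K * (1 + w ^ (2 * K)) := by
  have e : (4 : ℝ) ^ K = 2 ^ (2 * K) := by
    rw [pow_mul]; norm_num
  rcases le_total w 1 with h | h
  · have h1 : (1 + w) ^ (2 * K) ≤ 2 ^ (2 * K) := pow_le_pow_left₀ (by linarith) (by linarith) _
    have h2 : 0 ≤ w ^ (2 * K) := by positivity
    rw [e]
    nlinarith [pow_pos (show (0 : ℝ) < 2 by norm_num) (2 * K)]
  · have h1 : (1 + w) ^ (2 * K) ≤ (2 * w) ^ (2 * K) :=
      pow_le_pow_left₀ (by linarith) (by linarith) _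
    rw [e]
    rw [mul_pow] at h1
    nlinarith [pow_pos (show (0 : ℝ) < 2 by norm_num) (2 * K)]

/-- The third order error term. -/
theorem H1_third (a x sL : ℝ) (k : ℕ) (ha : 0 ≤ a) (hx : 0 ≤ x) (hsL : 1 ≤ sL) :
    (1 + a + x) ^ k * x ^ 3 ≤
      (1 + a) ^ k * (4 ^ (k + 3) * (1 + sL ^ (2 * (k + 3)) * x ^ (2 * (k + 3)))) / sL ^ 3 := by
  have h0 : 0 < sL := by linarith
  have hw : 0 ≤ sL * x := by positivity
  have hxw : x ≤ sL * x := by nlinarith
  have h1 : (1 + a + x) ^ k ≤ (1 + a) ^ k * (1 + sL * x) ^ k := by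
    rw [← mul_pow]
    refine pow_le_pow_left₀ (by linarith) ?_ k
    nlinarith [mul_nonneg ha hw]
  have h2 : (sL * x) ^ 3 ≤ (1 + sL * x) ^ 3 := pow_le_pow_left₀ hw (by linarith) 3
  have h3 : (1 + sL * x) ^ (k + 3) ≤ (1 + sL * x) ^ (2 * (k + 3)) :=
    pow_le_pow_right₀ (by linarith) (by omega)
  have h4 := H1_one_add_pow (sL * x) hw (k + 3)
  rw [le_div_iff₀ (by positivity)]
  calc (1 + a + x) ^ k * x ^ 3 * sL ^ 3 = (1 + a + x) ^ k * (sL * x) ^ 3 := by ring
    _ ≤ ((1 + a) ^ k * (1 + sL * x) ^ k) * (1 + sL * x) ^ 3 :=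
        mul_le_mul h1 h2 (by positivity) (by positivity)
    _ = (1 + a) ^ k * (1 + sL * x) ^ (k + 3) := by ring
    _ ≤ (1 + a) ^ k * (4 ^ (k + 3) * (1 + (sL * x) ^ (2 * (k + 3)))) :=
        mul_le_mul_of_nonneg_left (h3.trans h4) (by positivity)
    _ = _ := by rw [mul_pow]

end Match2D

end

section

/-!
MP_884187_pr, item L3, part b: the pointwise estimates of one step.
-/

open MeasureTheory Set Filter Topology

namespace Match2D

/-- The facts on the Legendre dual which are used, with common constants. -/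
structure L3P (W : ℝ → ℝ × ℝ → ℝ) (S : ℝ → ℝ × ℝ → ℝ × ℝ) (HI : ℝ → ℝ × ℝ → SymM)
    (τ T R' R₀ R e C Cg : ℝ) : Prop where
  hτ : 0 < τ
  hR' : 0 < R'
  hR₀ : R' < R₀
  hR : R₀ < R
  he : 0 ≤ e
  hC : 1 ≤ C
  hCg : 0 < Cg
  measW : ∀ t ∈ Icc τ T, Measurable (W t)
  pos : ∀ t ∈ Icc τ T, ∀ g, len g ≤ R → 0 < (HI t g).a ∧ 0 < (HI t g).det
  bW : ∀ t ∈ Icc τ T, ∀ g, len g ≤ R → |W t g| ≤ C
  bS : ∀ t ∈ Icc τ T, ∀ g, len g ≤ R → len (S t g) ≤ C
  bH : ∀ t ∈ Icc τ T, ∀ g, len g ≤ R → (HI t g).nrm ≤ C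
  bD : ∀ t ∈ Icc τ T, ∀ g, len g ≤ R → 1 ≤ C * (HI t g).det
  taylor : ∀ t ∈ Icc τ T, ∀ g Δ, len g ≤ R → len (g + Δ) ≤ R →
    W t (g + Δ) ≤ W t g + dot (S t g) Δ + (HI t g).adj.qf Δ / (2 * (HI t g).det) + C * len Δ ^ 3
  hlip : ∀ t ∈ Icc τ T, ∀ g g', len g ≤ R → len g' ≤ R →
    SymM.dst (HI t g) (HI t g') ≤ C * len (g - g')
  time : ∀ t ∈ Icc τ T, ∀ t' ∈ Icc τ t, ∀ g, len g ≤ R →
    W t' g ≤ W t g + (t - t') * Real.sqrt (HI t' g).det + C * (t - t') ^ 2
  grow : ∀ t ∈ Icc τ T, ∀ g, len g ≤ R →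
    (HI t g).tr * Real.sqrt (HI t g).det ≤ Cg * (1 + len g ^ 2)
  loss : ∀ t ∈ Icc τ T, ∀ g, len g ≤ R → R' ≤ len g →
    Real.sqrt (HI t g).det ≤ e * (1 + len g ^ 2)

theorem L3_exists_P {p κ : ℝ} {V W S HI} (hW : WFacts p κ V W S HI) {τ T : ℝ} (hτ : 0 < τ)
    (hT : τ ≤ T) : ∃ Cg, 0 < Cg ∧ ∀ e, 0 < e → ∃ R' R₀ R C, (p = 1 → R < 1) ∧
      L3P W S HI τ T R' R₀ R e C Cg := by
  obtain ⟨Cg, hCg, hgrow⟩ := hW.grow τ T hτ hT
  refine ⟨Cg, hCg, fun e he => ?_⟩
  obtain ⟨R', hR', hR'1, hloss⟩ := hW.loss τ T e hτ hT he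
  obtain ⟨R₀, R, h0, h1, h2⟩ : ∃ R₀ R : ℝ, R' < R₀ ∧ R₀ < R ∧ (p = 1 → R < 1) := by
    by_cases hp : p = 1
    · have := hR'1 hp
      exact ⟨(2 * R' + 1) / 3, (R' + 2) / 3, by linarith, by linarith, fun _ => by linarith⟩
    · exact ⟨R' + 1, R' + 2, by linarith, by linarith, fun h => absurd h hp⟩
  have hR : 0 < R := by linarith
  obtain ⟨C1, hC1, hb⟩ := hW.bounds τ T R hτ hT hR h2
  obtain ⟨C2, hC2, ht⟩ := hW.taylor τ T R hτ hT hR h2
  obtain ⟨C3, hC3, hl⟩ := hW.hlip τ T R hτ hT hR h2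
  obtain ⟨C4, hC4, hti⟩ := hW.time τ T R hτ hT hR h2
  have hdom : ∀ g, len g ≤ R → Dom p g := fun g hg hp => lt_of_le_of_lt hg (h2 hp)
  refine ⟨R', R₀, R, 1 + C1 + C2 + C3 + C4, h2, ?_⟩
  have k1 : C1 ≤ 1 + C1 + C2 + C3 + C4 := by linarith
  have k2 : C2 ≤ 1 + C1 + C2 + C3 + C4 := by linarith
  have k3 : C3 ≤ 1 + C1 + C2 + C3 + C4 := by linarith
  have k4 : C4 ≤ 1 + C1 + C2 + C3 + C4 := by linarith
  have hpos : ∀ t ∈ Icc τ T, ∀ g, len g ≤ R → 0 < (HI t g).a ∧ 0 < (HI t g).det :=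
    fun t ht g hg => hW.posdef t (lt_of_lt_of_le hτ ht.1) g (hdom g hg)
  refine ⟨hτ, hR', h0, h1, he.le, by linarith, hCg,
    fun t ht => (hW.meas t (lt_of_lt_of_le hτ ht.1)).1, hpos,
    fun t ht g hg => (hb t ht g hg).1.trans k1, fun t ht g hg => (hb t ht g hg).2.1.trans k1,
    fun t ht g hg => (hb t ht g hg).2.2.1.trans k1, fun t ht g hg => ?_,
    fun t htt g Δ hg hg' => ?_, fun t ht g g' hg hg' => ?_, fun t htt t' ht' g hg => ?_,
    fun t ht g hg => hgrow t ht g (hdom g hg), fun t ht g hg hg' => hloss t ht g (hdom g hg) hg'⟩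
  · exact (hb t ht g hg).2.2.2.trans (mul_le_mul_of_nonneg_right k1 (hpos t ht g hg).2.le)
  · have h5 := ht t htt g Δ hg hg'
    have h6 : C2 * len Δ ^ 3 ≤ (1 + C1 + C2 + C3 + C4) * len Δ ^ 3 :=
      mul_le_mul_of_nonneg_right k2 (pow_nonneg (A1_len_nonneg _) _)
    linarith
  · exact (hl t ht g g' hg hg').trans (mul_le_mul_of_nonneg_right k3 (A1_len_nonneg _))
  · have h5 := hti t htt t' ht' g hg
    have h6 : C4 * (t - t') ^ 2 ≤ (1 + C1 + C2 + C3 + C4) * (t - t') ^ 2 :=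
      mul_le_mul_of_nonneg_right k4 (sq_nonneg _)
    linarith

/-! ### The increments -/

section Inc

variable {m n : ℕ}

theorem L3_xi_sum [NeZero m] (I : Finset (Fin n)) (δ : Fin n → Dig m) (v : Dig m → ℝ × ℝ) :
    ∑ d, xi I δ d • v d = ∑ i ∈ I, (v (δ i) - avg v) := by
  classical
  have h1 : ∀ d, xi I δ d • v d = (∑ i ∈ I, if δ i = d then v d else 0) -
      ((I.card : ℝ) / (m : ℝ) ^ 2) • v d := by
    intro d
    unfold xi
    rw [sub_smul]
    congr 1
    rw [← Finset.sum_filter, Finset.sum_const, ← Nat.cast_smul_eq_nsmul ℝ]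
  simp_rw [h1]
  rw [Finset.sum_sub_distrib, Finset.sum_comm, Finset.sum_sub_distrib, ← Finset.smul_sum]
  congr 1
  · refine Finset.sum_congr rfl fun i _ => ?_
    rw [Finset.sum_ite_eq]
    simp
  · rw [Finset.sum_const, ← Nat.cast_smul_eq_nsmul ℝ]
    unfold avg
    rw [smul_smul]
    congr 1
    rw [Fintype.card_prod, Fintype.card_fin]
    push_cast
    rw [div_eq_mul_inv]
    congr 2
    ring

/-- The sum of the absolute values of the centred counts. -/
noncomputable def L3_X (I : Finset (Fin n)) (δ : Fin n → Dig m) : ℝ := ∑ d, |xi I δ d|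

open Classical in
/-- The increment. -/
noncomputable def L3_inc (s θ : ℝ) (I : Finset (Fin n)) (v : Dig m → ℝ × ℝ)
    (δ : Fin n → Dig m) : ℝ × ℝ :=
  if s * L3_X I δ ≤ θ then s • ∑ d, xi I δ d • v d else 0

theorem L3_X_nonneg (I : Finset (Fin n)) (δ : Fin n → Dig m) : 0 ≤ L3_X I δ :=
  Finset.sum_nonneg fun _ _ => abs_nonneg _

theorem L3_full_len (I : Finset (Fin n)) (v : Dig m → ℝ × ℝ) (δ : Fin n → Dig m) {C₀ s : ℝ}
    (hs : 0 ≤ s) (hv : ∀ d, len (v d) ≤ C₀) :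
    len (s • ∑ d, xi I δ d • v d) ≤ C₀ * (s * L3_X I δ) := by
  rw [L3_len_smul, abs_of_nonneg hs]
  have h : len (∑ d, xi I δ d • v d) ≤ C₀ * L3_X I δ := by
    refine (L3_len_sum _ _).trans ?_
    unfold L3_X
    rw [Finset.mul_sum]
    refine Finset.sum_le_sum fun d _ => ?_
    rw [L3_len_smul, mul_comm C₀]
    exact mul_le_mul_of_nonneg_left (hv d) (abs_nonneg _)
  calc s * len (∑ d, xi I δ d • v d) ≤ s * (C₀ * L3_X I δ) := mul_le_mul_of_nonneg_left h hs
    _ = C₀ * (s * L3_X I δ) := by ring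

variable [NeZero m]

/-- The first moment of the increment. -/
theorem L3_first (hC3 : StmtC3') (I : Finset (Fin n)) (v : Dig m → ℝ × ℝ) {C₀ s θ c : ℝ}
    (hs : 0 ≤ s) (hθ : 0 < θ) (hC₀ : 0 ≤ C₀) (hv : ∀ d, len (v d) ≤ C₀)
    (hX : avg (fun δ : Fin n → Dig m => L3_X I δ ^ 4) ≤ c * (I.card : ℝ) ^ 2) :
    len (avg (L3_inc s θ I v)) ≤ C₀ * θ⁻¹ ^ 3 * c * (s ^ 2 * I.card) ^ 2 := by
  classical
  have h0 : avg (fun δ : Fin n → Dig m => s • ∑ d, xi I δ d • v d) = 0 := by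
    rw [L3_avg_smul]
    simp_rw [L3_xi_sum]
    rw [(hC3 m n I v).1, smul_zero]
  have h1 : avg (L3_inc s θ I v) = - avg (fun δ : Fin n → Dig m =>
      (s • ∑ d, xi I δ d • v d) - L3_inc s θ I v δ) := by
    rw [L3_avg_sub, h0]
    simp
  rw [h1, A1_len_neg]
  refine (L3_len_avg _).trans ?_
  have h2 : ∀ δ : Fin n → Dig m, len ((s • ∑ d, xi I δ d • v d) - L3_inc s θ I v δ) ≤
      (C₀ * θ⁻¹ ^ 3 * s ^ 4) * L3_X I δ ^ 4 := by
    intro δ
    have hX0 := L3_X_nonneg I δ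
    unfold L3_inc
    split_ifs with h
    · rw [sub_self, A1_len_zero]
      positivity
    · push Not at h
      rw [sub_zero]
      refine (L3_full_len I v δ hs hv).trans ?_
      have h3 : 1 ≤ (θ⁻¹ * (s * L3_X I δ)) ^ 3 := by
        apply one_le_pow₀
        rw [← div_eq_inv_mul, one_le_div hθ]
        exact h.le
      have h4 : 0 ≤ C₀ * (s * L3_X I δ) := by positivity
      calc C₀ * (s * L3_X I δ) = C₀ * (s * L3_X I δ) * 1 := by ring
        _ ≤ C₀ * (s * L3_X I δ) * (θ⁻¹ * (s * L3_X I δ)) ^ 3 := mul_le_mul_of_nonneg_left h3 h4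
        _ = (C₀ * θ⁻¹ ^ 3 * s ^ 4) * L3_X I δ ^ 4 := by ring
  refine (L3_avg_mono h2).trans ?_
  rw [L3_avg_mul]
  calc (C₀ * θ⁻¹ ^ 3 * s ^ 4) * avg (fun δ : Fin n → Dig m => L3_X I δ ^ 4) ≤
      (C₀ * θ⁻¹ ^ 3 * s ^ 4) * (c * (I.card : ℝ) ^ 2) :=
        mul_le_mul_of_nonneg_left hX (by positivity)
    _ = _ := by ring

/-- The second moment of the increment. -/
theorem L3_sq (I : Finset (Fin n)) (v : Dig m → ℝ × ℝ) {C₀ s θ c L : ℝ}
    (hs : 0 ≤ s) (hL : 0 < L) (hC₀ : 0 ≤ C₀) (hv : ∀ d, len (v d) ≤ C₀)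
    (hX : avg (fun δ : Fin n → Dig m => L3_X I δ ^ 4) ≤ c * (I.card : ℝ) ^ 2) :
    avg (fun δ => len (L3_inc s θ I v δ) ^ 2) ≤
      C₀ ^ 2 * (1 / (2 * L) + L / 2 * (c * (s ^ 2 * I.card) ^ 2)) := by
  classical
  have h2 : ∀ δ : Fin n → Dig m, len (L3_inc s θ I v δ) ^ 2 ≤
      C₀ ^ 2 * (1 / (2 * L)) + (C₀ ^ 2 * (L / 2) * s ^ 4) * L3_X I δ ^ 4 := by
    intro δ
    have hX0 := L3_X_nonneg I δ
    have h3 : len (L3_inc s θ I v δ) ≤ C₀ * (s * L3_X I δ) := by
      unfold L3_inc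
      split_ifs with h
      · exact L3_full_len I v δ hs hv
      · rw [A1_len_zero]
        positivity
    have h4 : (s * L3_X I δ) ^ 2 ≤ 1 / (2 * L) + L / 2 * (s * L3_X I δ) ^ 4 := by
      have e : 1 / (2 * L) + L / 2 * (s * L3_X I δ) ^ 4 - (s * L3_X I δ) ^ 2 =
          (1 / (2 * L)) * (1 - L * (s * L3_X I δ) ^ 2) ^ 2 := by
        field_simp
        ring
      have : 0 ≤ (1 / (2 * L)) * (1 - L * (s * L3_X I δ) ^ 2) ^ 2 := by positivity
      linarith
    calc len (L3_inc s θ I v δ) ^ 2 ≤ (C₀ * (s * L3_X I δ)) ^ 2 :=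
          pow_le_pow_left₀ (A1_len_nonneg _) h3 2
      _ = C₀ ^ 2 * (s * L3_X I δ) ^ 2 := by ring
      _ ≤ C₀ ^ 2 * (1 / (2 * L) + L / 2 * (s * L3_X I δ) ^ 4) :=
          mul_le_mul_of_nonneg_left h4 (by positivity)
      _ = _ := by ring
  refine (L3_avg_mono h2).trans ?_
  have hne : Nonempty (Fin n → Dig m) := ⟨fun _ => (0, 0)⟩
  rw [L3_avg_add, C2_avg_const, L3_avg_mul]
  have : (C₀ ^ 2 * (L / 2) * s ^ 4) * avg (fun δ : Fin n → Dig m => L3_X I δ ^ 4) ≤
      (C₀ ^ 2 * (L / 2) * s ^ 4) * (c * (I.card : ℝ) ^ 2) :=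
    mul_le_mul_of_nonneg_left hX (by positivity)
  have e : C₀ ^ 2 * (1 / (2 * L) + L / 2 * (c * (s ^ 2 * I.card) ^ 2)) =
      C₀ ^ 2 * (1 / (2 * L)) + (C₀ ^ 2 * (L / 2) * s ^ 4) * (c * (I.card : ℝ) ^ 2) := by ring
  rw [e]
  linarith

/-- The quadratic form of the increment. -/
theorem L3_qf_inc (hC3 : StmtC3') (I : Finset (Fin n)) (v : Dig m → ℝ × ℝ) {s θ : ℝ}
    (N : SymM) (hN : ∀ u, 0 ≤ N.qf u) :
    avg (fun δ => N.qf (L3_inc s θ I v δ)) ≤ s ^ 2 * I.card * avg (fun d => N.qf (v d)) := by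
  classical
  have hsm : ∀ w : ℝ × ℝ, N.qf (s • w) = s ^ 2 * N.qf w := by
    intro w
    unfold SymM.qf
    simp only [Prod.smul_fst, Prod.smul_snd, smul_eq_mul]
    ring
  have h2 : ∀ δ : Fin n → Dig m, N.qf (L3_inc s θ I v δ) ≤
      s ^ 2 * N.qf (∑ i ∈ I, (v (δ i) - avg v)) := by
    intro δ
    rw [← L3_xi_sum]
    unfold L3_inc
    split_ifs with h
    · rw [hsm]
    · have : N.qf 0 = 0 := by
        unfold SymM.qf
        simp
      rw [this]
      exact mul_nonneg (sq_nonneg _) (hN _)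
  refine (L3_avg_mono h2).trans ?_
  rw [L3_avg_mul, mul_assoc]
  exact mul_le_mul_of_nonneg_left ((hC3 m n I v).2 N hN) (sq_nonneg _)

end Inc

/-! ### One step at a point -/

section Point

variable {m n : ℕ} [NeZero m] {W : ℝ → ℝ × ℝ → ℝ} {S : ℝ → ℝ × ℝ → ℝ × ℝ}
  {HI : ℝ → ℝ × ℝ → SymM} {τ T R' R₀ R e C Cg : ℝ}

theorem L3_cs_le (hP : L3P W S HI τ T R' R₀ R e C Cg) {t : ℝ} (ht : t ∈ Icc τ T) {g : ℝ × ℝ}
    (hg : len g ≤ R) : Real.sqrt (HI t g).det ≤ C := by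
  rw [Real.sqrt_le_iff]
  have hC : 0 < C := by linarith [hP.hC]
  refine ⟨hC.le, (L3_det_le _).trans ?_⟩
  exact pow_le_pow_left₀ (L3_nrm_nonneg _) (hP.bH t ht g hg) 2

/-- The value after one step, active cell. -/
theorem L3_value (hP : L3P W S HI τ T R' R₀ R e C Cg) (hC3 : StmtC3') (I : Finset (Fin n))
    (v : Dig m → ℝ × ℝ) {C₀ s θ c L r η c₁ : ℝ} (hs : 0 ≤ s) (hθ : 0 < θ) (hC₀ : 0 ≤ C₀)
    (hv : ∀ d, len (v d) ≤ C₀) (hc : 0 ≤ c)
    (hX : avg (fun δ : Fin n → Dig m => L3_X I δ ^ 4) ≤ c * (I.card : ℝ) ^ 2)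
    (hL : 0 < L) (hr : s ^ 2 * I.card = r / L) (hη : θ ≤ η) (hη' : θ⁻¹ ^ 3 / L ≤ η)
    (hc₁ : 0 ≤ c₁) {t : ℝ} (ht : t ∈ Icc τ T) {g gQ : ℝ × ℝ} (hg : len g ≤ R)
    (hgQ : len gQ ≤ R₀) (hgg : len (g - gQ) ≤ c₁ * θ)
    (hin : ∀ δ, len (g + Real.sqrt (HI t gQ).det • L3_inc s θ I v δ) ≤ R)
    (hin' : ∀ δ, len (Real.sqrt (HI t gQ).det • L3_inc s θ I v δ) ≤ c₁ * θ) :
    avg (fun δ => W t (g + Real.sqrt (HI t gQ).det • L3_inc s θ I v δ)) ≤ W t g +
      Real.sqrt (HI t gQ).det / 2 * (r / L * avg (fun d => (HI t gQ).unit.adj.qf (v d))) +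
      (C ^ 2 * C₀ * c + 3 * C ^ 7 * c₁ * C₀ ^ 2 * (1 + c)) / L * η * (1 + r ^ 2) := by
  classical
  have hC := hP.hC
  have hC0 : 0 < C := by linarith
  have hgQ' : len gQ ≤ R := hgQ.trans hP.hR.le
  have hcs := L3_cs_le hP ht hgQ'
  set H := HI t gQ with hH
  set cs := Real.sqrt H.det with hcsd
  have hcs0 : 0 ≤ cs := Real.sqrt_nonneg _
  obtain ⟨ha, hd⟩ := hP.pos t ht gQ hgQ'
  obtain ⟨u1, u2, u3, u4, u5⟩ := L3_unit H ha hd
  have hη0 : 0 < η := hθ.trans_le hη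
  -- pointwise
  have h1 : ∀ δ : Fin n → Dig m, W t (g + cs • L3_inc s θ I v δ) ≤ W t g +
      dot (S t g) (cs • L3_inc s θ I v δ) + cs / 2 * H.unit.adj.qf (L3_inc s θ I v δ) +
      3 * C ^ 5 * c₁ * θ * (C ^ 2 * len (L3_inc s θ I v δ) ^ 2) := by
    intro δ
    set Δ := cs • L3_inc s θ I v δ with hΔ
    have h2 := hP.taylor t ht g Δ hg (hin δ)
    have h3 := L3_second (HI t g) H C (C * (c₁ * θ)) hC (hP.bH t ht g hg) (hP.bH t ht gQ hgQ')
      (hP.bD t ht g hg) (hP.bD t ht gQ hgQ')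
      ((hP.hlip t ht g gQ hg hgQ').trans (mul_le_mul_of_nonneg_left hgg hC0.le)) Δ
    have h4 : H.adj.qf Δ / (2 * H.det) = cs / 2 * H.unit.adj.qf (L3_inc s θ I v δ) := u5 _
    have h5 : C * len Δ ^ 3 ≤ C ^ 5 * c₁ * θ * len Δ ^ 2 := by
      have h6 : len Δ ^ 3 ≤ c₁ * θ * len Δ ^ 2 := by
        rw [pow_succ, mul_comm]
        exact mul_le_mul_of_nonneg_right (hin' δ) (sq_nonneg _)
      have h7 : C ≤ C ^ 5 := by
        calc C = C * 1 := by ring
          _ ≤ C * C ^ 4 := mul_le_mul_of_nonneg_left (one_le_pow₀ hC) hC0.le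
          _ = C ^ 5 := by ring
      calc C * len Δ ^ 3 ≤ C * (c₁ * θ * len Δ ^ 2) := mul_le_mul_of_nonneg_left h6 hC0.le
        _ ≤ C ^ 5 * (c₁ * θ * len Δ ^ 2) := mul_le_mul_of_nonneg_right h7 (by positivity)
        _ = _ := by ring
    have h8 : len Δ ^ 2 ≤ C ^ 2 * len (L3_inc s θ I v δ) ^ 2 := by
      rw [hΔ, L3_len_smul, abs_of_nonneg hcs0, mul_pow]
      exact mul_le_mul_of_nonneg_right (pow_le_pow_left₀ hcs0 hcs 2) (sq_nonneg _)
    have h9 : 3 * C ^ 5 * c₁ * θ * len Δ ^ 2 ≤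
        3 * C ^ 5 * c₁ * θ * (C ^ 2 * len (L3_inc s θ I v δ) ^ 2) :=
      mul_le_mul_of_nonneg_left h8 (by positivity)
    have e1 : 2 * C ^ 4 * (C * (c₁ * θ)) * len Δ ^ 2 + C ^ 5 * c₁ * θ * len Δ ^ 2 =
        3 * C ^ 5 * c₁ * θ * len Δ ^ 2 := by ring
    linarith
  refine (L3_avg_mono h1).trans ?_
  have hne : Nonempty (Fin n → Dig m) := ⟨fun _ => (0, 0)⟩
  rw [L3_avg_add, L3_avg_add, L3_avg_add, C2_avg_const, ← L3_dot_avg, L3_avg_mul, L3_avg_mul,
    L3_avg_mul, L3_avg_smul]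
  -- first order
  have f1 := L3_first hC3 I v hs hθ hC₀ hv hX
  rw [hr] at f1
  have g1 : dot (S t g) (cs • avg (L3_inc s θ I v)) ≤ C ^ 2 * C₀ * c / L * η * r ^ 2 := by
    refine (L3_dot_le _ _).trans ?_
    rw [L3_len_smul, abs_of_nonneg hcs0]
    calc len (S t g) * (cs * len (avg (L3_inc s θ I v))) ≤
        C * (C * (C₀ * θ⁻¹ ^ 3 * c * (r / L) ^ 2)) := by
          refine mul_le_mul (hP.bS t ht g hg) ?_ ?_ hC0.le
          · exact mul_le_mul hcs f1 (A1_len_nonneg _) hC0.le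
          · exact mul_nonneg hcs0 (A1_len_nonneg _)
      _ = C ^ 2 * C₀ * c / L * (θ⁻¹ ^ 3 / L) * r ^ 2 := by
          field_simp
      _ ≤ C ^ 2 * C₀ * c / L * η * r ^ 2 := by
          refine mul_le_mul_of_nonneg_right ?_ (sq_nonneg _)
          exact mul_le_mul_of_nonneg_left hη' (by positivity)
  -- second order
  have g2 : cs / 2 * avg (fun a => H.unit.adj.qf (L3_inc s θ I v a)) ≤
      cs / 2 * (r / L * avg (fun d => H.unit.adj.qf (v d))) := by
    refine mul_le_mul_of_nonneg_left ?_ (by positivity)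
    have := L3_qf_inc hC3 I v (s := s) (θ := θ) H.unit.adj (L3_adj_nonneg _ u1 u2)
    rwa [hr] at this
  -- remainder
  have f3 := L3_sq I v (θ := θ) hs hL hC₀ hv hX
  rw [hr] at f3
  have g3 : 3 * C ^ 5 * c₁ * θ * (C ^ 2 * avg (fun a => len (L3_inc s θ I v a) ^ 2)) ≤
      3 * C ^ 7 * c₁ * C₀ ^ 2 * (1 + c) / L * η * (1 + r ^ 2) := by
    calc 3 * C ^ 5 * c₁ * θ * (C ^ 2 * avg (fun a => len (L3_inc s θ I v a) ^ 2)) ≤
        3 * C ^ 5 * c₁ * θ * (C ^ 2 * (C₀ ^ 2 * (1 / (2 * L) + L / 2 * (c * (r / L) ^ 2)))) := by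
          refine mul_le_mul_of_nonneg_left ?_ (by positivity)
          exact mul_le_mul_of_nonneg_left f3 (by positivity)
      _ = 3 * C ^ 7 * c₁ * C₀ ^ 2 / L * θ * ((1 + c * r ^ 2) / 2) := by
          field_simp
      _ ≤ 3 * C ^ 7 * c₁ * C₀ ^ 2 / L * η * ((1 + c) * (1 + r ^ 2)) := by
          refine mul_le_mul ?_ ?_ (by positivity) (by positivity)
          · exact mul_le_mul_of_nonneg_left hη (by positivity)
          · nlinarith [sq_nonneg r, mul_nonneg hc (sq_nonneg r)]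
      _ = _ := by ring
  have g4 : C ^ 2 * C₀ * c / L * η * r ^ 2 ≤ C ^ 2 * C₀ * c / L * η * (1 + r ^ 2) := by
    refine mul_le_mul_of_nonneg_left (by linarith) (by positivity)
  have e2 : (C ^ 2 * C₀ * c + 3 * C ^ 7 * c₁ * C₀ ^ 2 * (1 + c)) / L * η * (1 + r ^ 2) =
      C ^ 2 * C₀ * c / L * η * (1 + r ^ 2) +
      3 * C ^ 7 * c₁ * C₀ ^ 2 * (1 + c) / L * η * (1 + r ^ 2) := by ring
  rw [e2]
  linarith

/-- The second moment after one step, active cell. -/
theorem L3_moment (hP : L3P W S HI τ T R' R₀ R e C Cg) (hC3 : StmtC3') (I : Finset (Fin n))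
    (v : Dig m → ℝ × ℝ) {C₀ s θ c L r η : ℝ} (hs : 0 ≤ s) (hθ : 0 < θ) (hC₀ : 0 ≤ C₀)
    (hv : ∀ d, len (v d) ≤ C₀) (hc : 0 ≤ c)
    (hX : avg (fun δ : Fin n → Dig m => L3_X I δ ^ 4) ≤ c * (I.card : ℝ) ^ 2)
    (hL : 0 < L) (hr : s ^ 2 * I.card = r / L) (hη' : θ⁻¹ ^ 3 / L ≤ η)
    {t : ℝ} (ht : t ∈ Icc τ T) {g gQ : ℝ × ℝ} (hg : len g ≤ R) (hgQ : len gQ ≤ R₀) :
    avg (fun δ => len (g + Real.sqrt (HI t gQ).det • L3_inc s θ I v δ) ^ 2) ≤ len g ^ 2 +
      Cg * (1 + len gQ ^ 2) * (r / L * avg (fun d => (HI t gQ).unit.adj.qf (v d))) +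
      2 * R * C * C₀ * c / L * η * (1 + r ^ 2) := by
  classical
  have hC := hP.hC
  have hC0 : 0 < C := by linarith
  have hR0 : 0 < R := by linarith [hP.hR, hP.hR₀, hP.hR']
  have hgQ' : len gQ ≤ R := hgQ.trans hP.hR.le
  have hcs := L3_cs_le hP ht hgQ'
  have hgrow := hP.grow t ht gQ hgQ'
  set H := HI t gQ with hH
  set cs := Real.sqrt H.det with hcsd
  have hcs0 : 0 ≤ cs := Real.sqrt_nonneg _
  obtain ⟨ha, hd⟩ := hP.pos t ht gQ hgQ'
  obtain ⟨u1, u2, u3, u4, u5⟩ := L3_unit H ha hd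
  have hη0 : 0 ≤ η := le_trans (by positivity) hη'
  have hN := L3_adj_nonneg H.unit u1 u2
  have h1 : ∀ δ : Fin n → Dig m, len (g + cs • L3_inc s θ I v δ) ^ 2 ≤ len g ^ 2 +
      2 * dot g (cs • L3_inc s θ I v δ) +
      Cg * (1 + len gQ ^ 2) * H.unit.adj.qf (L3_inc s θ I v δ) := by
    intro δ
    set w := L3_inc s θ I v δ with hw
    have e1 : len (g + cs • w) ^ 2 = len g ^ 2 + 2 * dot g (cs • w) + cs ^ 2 * len w ^ 2 := by
      rw [A1_len_sq, A1_len_sq, A1_len_sq]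
      unfold dot
      simp only [Prod.fst_add, Prod.snd_add, Prod.smul_fst, Prod.smul_snd, smul_eq_mul]
      ring
    have h2 := L3_adj_sq H.unit u2 w
    have h3 : cs ^ 2 * len w ^ 2 ≤ (H.tr * cs) * H.unit.adj.qf w := by
      calc cs ^ 2 * len w ^ 2 ≤ cs ^ 2 * (H.unit.tr * H.unit.adj.qf w) :=
            mul_le_mul_of_nonneg_left h2 (sq_nonneg _)
        _ = (H.unit.tr * cs) * cs * H.unit.adj.qf w := by ring
        _ = _ := by rw [u3]
    have h4 : (H.tr * cs) * H.unit.adj.qf w ≤ Cg * (1 + len gQ ^ 2) * H.unit.adj.qf w :=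
      mul_le_mul_of_nonneg_right hgrow (hN w)
    linarith
  refine (L3_avg_mono h1).trans ?_
  have hne : Nonempty (Fin n → Dig m) := ⟨fun _ => (0, 0)⟩
  rw [L3_avg_add, L3_avg_add, C2_avg_const, L3_avg_mul, ← L3_dot_avg, L3_avg_mul, L3_avg_smul]
  have f1 := L3_first hC3 I v hs hθ hC₀ hv hX
  rw [hr] at f1
  have g1 : dot g (cs • avg (L3_inc s θ I v)) ≤ R * C * C₀ * c / L * η * (1 + r ^ 2) := by
    refine (L3_dot_le _ _).trans ?_
    rw [L3_len_smul, abs_of_nonneg hcs0]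
    calc len g * (cs * len (avg (L3_inc s θ I v))) ≤
        R * (C * (C₀ * θ⁻¹ ^ 3 * c * (r / L) ^ 2)) := by
          refine mul_le_mul hg ?_ ?_ hR0.le
          · exact mul_le_mul hcs f1 (A1_len_nonneg _) hC0.le
          · exact mul_nonneg hcs0 (A1_len_nonneg _)
      _ = R * C * C₀ * c / L * (θ⁻¹ ^ 3 / L) * r ^ 2 := by
          field_simp
      _ ≤ R * C * C₀ * c / L * η * (1 + r ^ 2) := by
          refine mul_le_mul ?_ (by linarith) (sq_nonneg _) (by positivity)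
          exact mul_le_mul_of_nonneg_left hη' (by positivity)
  have g2 : Cg * (1 + len gQ ^ 2) * avg (fun a => H.unit.adj.qf (L3_inc s θ I v a)) ≤
      Cg * (1 + len gQ ^ 2) * (r / L * avg (fun d => H.unit.adj.qf (v d))) := by
    have := hP.hCg
    refine mul_le_mul_of_nonneg_left ?_ (by positivity)
    have := L3_qf_inc hC3 I v (s := s) (θ := θ) H.unit.adj hN
    rwa [hr] at this
  have e2 : 2 * R * C * C₀ * c / L * η * (1 + r ^ 2) =
    2 * (R * C * C₀ * c / L * η * (1 + r ^ 2)) := by ring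
  rw [e2]
  linarith

end Point

end Match2D

end
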