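import Pool.Agent.Work.MP_884187_pr.Val
import Pool.Agent.Work.MP_884187_pr.Bd.B01
import Pool.Agent.Work.MP_884187_pr.L1

/-! Bundle of small proof modules (one section per former module). -/

section

/-!
Module G of MP_884187_pr: the facts `VFacts` for the value function.
-/

set_option autoImplicit false

open MeasureTheory Set Filter Topology

namespace Match2D.MG

theorem hasDerivAt_sgm_line (t : ℝ) (s Δ : ℝ × ℝ) (u : ℝ) :
    HasDerivAt (fun u => sgm t (s + u • Δ)) (dot (s + u • Δ) Δ / t) u := by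
  have h1 : HasDerivAt (fun u : ℝ => s.1 + u * Δ.1) (1 * Δ.1) u :=
    ((hasDerivAt_id u).mul_const Δ.1).const_add s.1
  have h2 : HasDerivAt (fun u : ℝ => s.2 + u * Δ.2) (1 * Δ.2) u :=
    ((hasDerivAt_id u).mul_const Δ.2).const_add s.2
  have h3 := ((h1.mul h1).add (h2.mul h2)).div_const (2 * t)
  have e : (fun u => sgm t (s + u • Δ)) = fun u =>
      ((s.1 + u * Δ.1) * (s.1 + u * Δ.1) + (s.2 + u * Δ.2) * (s.2 + u * Δ.2)) / (2 * t) := by
    funext v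
    simp only [sgm, Prod.fst_add, Prod.smul_fst, smul_eq_mul, Prod.snd_add, Prod.smul_snd]
    ring
  rw [e]
  refine h3.congr_deriv ?_
  simp only [dot, Prod.fst_add, Prod.smul_fst, smul_eq_mul, Prod.snd_add, Prod.smul_snd]
  rw [div_eq_div_iff_comm]
  by_cases ht : t = 0
  · subst ht
    simp
  · field_simp
    ring

theorem hasDerivAt_dot_line (s Δ : ℝ × ℝ) (u : ℝ) :
    HasDerivAt (fun u => dot (s + u • Δ) Δ) (len Δ ^ 2) u := by
  have h1 : HasDerivAt (fun u : ℝ => (s.1 + u * Δ.1) * Δ.1) (1 * Δ.1 * Δ.1) u :=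
    (((hasDerivAt_id u).mul_const Δ.1).const_add s.1).mul_const Δ.1
  have h2 : HasDerivAt (fun u : ℝ => (s.2 + u * Δ.2) * Δ.2) (1 * Δ.2 * Δ.2) u :=
    (((hasDerivAt_id u).mul_const Δ.2).const_add s.2).mul_const Δ.2
  have h3 := h1.add h2
  refine h3.congr_deriv ?_
  rw [len_sq]
  ring

section

variable {p : ℝ} {x : ℝ → ℝ} (hx : IsProf0 p x)
include hx

omit hx in
theorem rpow_split' {t : ℝ} (ht : 0 < t) (b : ℝ) : t ^ b = t ^ (b - 1) * t := by
  rw [Real.rpow_sub_one ht.ne']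
  field_simp

theorem IsProf0.line_one {κ t : ℝ} (ht : 0 < t) (s Δ : ℝ × ℝ) (u : ℝ) :
    HasDerivAt (fun u => VV p κ x t (s + u • Δ)) (dot (GG p κ x t (s + u • Δ)) Δ) u := by
  have h := ((hx.hasDerivAt_FF (κ := κ) (sgm t (s + u • Δ))).comp u
    (hasDerivAt_sgm_line t s Δ u)).const_mul (t ^ (p / 2))
  refine h.congr_deriv ?_
  have e : dot (GG p κ x t (s + u • Δ)) Δ = t ^ (p / 2 - 1) * gam p κ x (sgm t (s + u • Δ)) *
      dot (s + u • Δ) Δ := by
    simp only [GG, dot, Prod.smul_fst, Prod.smul_snd, smul_eq_mul, Prod.fst_add, Prod.snd_add]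
    ring
  rw [e, rpow_split' ht (p / 2)]
  field_simp

theorem IsProf0.line_two {κ t : ℝ} (ht : 0 < t) (s Δ : ℝ × ℝ) (u : ℝ) :
    HasDerivAt (fun u => dot (GG p κ x t (s + u • Δ)) Δ) ((HH p κ x t (s + u • Δ)).qf Δ) u := by
  have e : (fun u : ℝ => dot (GG p κ x t (s + u • Δ)) Δ) = fun u : ℝ =>
      (t ^ (p / 2 - 1) * gam p κ x (sgm t (s + u • Δ))) * dot (s + u • Δ) Δ := by
    funext v
    simp only [GG, dot, Prod.smul_fst, Prod.smul_snd, smul_eq_mul, Prod.fst_add, Prod.snd_add]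
    ring
  have e2 : (HH p κ x t (s + u • Δ)).qf Δ = t ^ (p / 2 - 1) * (gam p κ x (sgm t (s + u • Δ)) *
      len Δ ^ 2 + gam p κ x (sgm t (s + u • Δ)) * ww x (sgm t (s + u • Δ)) *
      ((dot (s + u • Δ) Δ) ^ 2 / t)) := by
    rw [len_sq]
    simp only [HH, SymM.qf, dot]
    ring
  rw [e, e2]
  have h2 := hasDerivAt_dot_line s Δ u
  rcases eq_or_lt_of_le (sgm_nonneg ht (s + u • Δ)) with h | h
  · have h0 : s + u • Δ = 0 := by
      rw [sgm_eq, eq_comm, div_eq_zero_iff] at h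
      rcases h with h | h
      · rw [len_sq] at h
        have b1 := sq_nonneg ((s + u • Δ).1)
        have b2 := sq_nonneg ((s + u • Δ).2)
        have a1 : (s + u • Δ).1 ^ 2 = 0 := by linarith
        have a2 : (s + u • Δ).2 ^ 2 = 0 := by linarith
        exact Prod.ext (by simpa using a1) (by simpa using a2)
      · linarith
    have hd0 : dot (s + u • Δ) Δ = 0 := by
      rw [h0]
      simp [dot]
    have hc : ContinuousAt (fun u : ℝ => t ^ (p / 2 - 1) * gam p κ x (sgm t (s + u • Δ))) u :=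
      continuousAt_const.mul (hx.continuous_gam.continuousAt.comp
        (hasDerivAt_sgm_line t s Δ u).continuousAt)
    have h3 := hasDerivAt_mul_zero (f := fun u : ℝ => t ^ (p / 2 - 1) *
      gam p κ x (sgm t (s + u • Δ))) (g := fun u : ℝ => dot (s + u • Δ) Δ) hc hd0 h2
    refine h3.congr_deriv ?_
    rw [hd0]
    ring
  · have h1 := ((hx.hasDerivAt_gam (κ := κ) h).comp u
      (hasDerivAt_sgm_line t s Δ u)).const_mul (t ^ (p / 2 - 1))
    have h3 := h1.mul h2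
    refine h3.congr_deriv ?_
    simp only [Function.comp]
    ring

variable {κ : ℝ} (hκ : 0 < κ)
include hκ

theorem IsProf0.taylor2 {τ T : ℝ} (hτ : 0 < τ) : ∃ (C : ℝ) (k : ℕ), 0 < C ∧
    ∀ t ∈ Icc τ T, ∀ s Δ, |VV p κ x t (s + Δ) - VV p κ x t s - dot (GG p κ x t s) Δ
      - (HH p κ x t s).qf Δ / 2| ≤ C * (1 + len s + len Δ) ^ k * len Δ ^ 3 := by
  obtain ⟨C, k, hC, hk⟩ := hx.hlip_HH hκ (T := T) hτ
  refine ⟨C * 2 ^ k, k, by positivity, fun t ht s Δ => ?_⟩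
  have ht0 : 0 < t := hτ.trans_le ht.1
  have h := taylor_one (fun u _ => hx.line_one (κ := κ) ht0 s Δ u)
    (fun u _ => hx.line_two (κ := κ) ht0 s Δ u)
    (K := C * 2 ^ k * (1 + len s + len Δ) ^ k * len Δ ^ 3) ?_
  · simpa only [one_smul, zero_smul, add_zero] using h
  · intro u hu
    have hs0 := len_nonneg s
    have hd0 := len_nonneg Δ
    have h1 := qf_sub_le (HH p κ x t (s + u • Δ)) (HH p κ x t (s + (0 : ℝ) • Δ)) Δ
    have h2 := hk t ht (s + u • Δ) (s + (0 : ℝ) • Δ)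
    rw [zero_smul, add_zero] at h1 h2 ⊢
    have e : s + u • Δ - s = u • Δ := by abel
    rw [e, len_smul, abs_of_nonneg hu.1] at h2
    have h3 : len (s + u • Δ) ≤ len s + len Δ := by
      refine (len_add_le _ _).trans ?_
      rw [len_smul, abs_of_nonneg hu.1]
      nlinarith [hu.2]
    have h4 : (1 + len (s + u • Δ) + len s) ^ k ≤ (2 * (1 + len s + len Δ)) ^ k := by
      refine pow_le_pow_left₀ ?_ (by linarith) _
      have := len_nonneg (s + u • Δ)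
      linarith
    rw [mul_pow] at h4
    calc _ ≤ _ := h1
      _ ≤ C * (1 + len (s + u • Δ) + len s) ^ k * (u * len Δ) * len Δ ^ 2 :=
          mul_le_mul_of_nonneg_right h2 (by positivity)
      _ ≤ C * (2 ^ k * (1 + len s + len Δ) ^ k) * (1 * len Δ) * len Δ ^ 2 := by
          have := hu.2
          have := hu.1
          gcongr
      _ = _ := by ring

/-! ### Dependence on time -/

theorem IsProf0.time_deriv {t : ℝ} (ht : 0 < t) (s : ℝ × ℝ) :
    HasDerivAt (fun t => VV p κ x t s) (Real.sqrt (HH p κ x t s).det) t := by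
  rw [hx.sqrt_det_HH hκ ht]
  have h1 : HasDerivAt (fun t => sgm t s) (-(sgm t s) / t) t := by
    have h2 := ((hasDerivAt_inv ht.ne').const_mul ((s.1 ^ 2 + s.2 ^ 2) / 2))
    have e : (fun t => sgm t s) = fun t => (s.1 ^ 2 + s.2 ^ 2) / 2 * t⁻¹ := by
      funext v
      unfold sgm
      by_cases hv : v = 0
      · subst hv; simp
      · field_simp
    rw [e]
    refine h2.congr_deriv ?_
    unfold sgm
    field_simp
  have h2 := (Real.hasDerivAt_rpow_const (p := p / 2) (Or.inl ht.ne')).mul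
    ((hx.hasDerivAt_FF (κ := κ) (sgm t s)).comp t h1)
  refine h2.congr_deriv ?_
  have h3 := hx.FF_eq (κ := κ) (sgm_nonneg ht s)
  simp only [Function.comp]
  rw [rpow_split' ht (p / 2)]
  have e : t ^ (p / 2 - 1) * t * (gam p κ x (sgm t s) * (-sgm t s / t))
      = -(t ^ (p / 2 - 1) * gam p κ x (sgm t s) * sgm t s) := by
    field_simp
  rw [e]
  linear_combination (t ^ (p / 2 - 1)) * h3

omit hx hκ in
theorem rpow_lip {τ T : ℝ} (hτ : 0 < τ) (b : ℝ) : ∃ B : ℝ, 0 < B ∧ ∀ t ∈ Icc τ T, ∀ t' ∈ Icc τ T,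
    |t ^ b - t' ^ b| ≤ B * |t - t'| := by
  have hc : ContinuousOn (fun t : ℝ => b * t ^ (b - 1)) (Icc τ T) := fun t ht =>
    (continuousAt_const.mul (Real.continuousAt_rpow_const t _
      (Or.inl (hτ.trans_le ht.1).ne'))).continuousWithinAt
  obtain ⟨C, hC⟩ := isCompact_Icc.exists_bound_of_continuousOn hc
  refine ⟨|C| + 1, by positivity, fun t ht t' ht' => ?_⟩
  have h := (convex_Icc τ T).norm_image_sub_le_of_norm_hasDerivWithin_le
    (f := fun t : ℝ => t ^ b) (f' := fun t => b * t ^ (b - 1)) (C := |C| + 1)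
    (fun r hr => (Real.hasDerivAt_rpow_const
      (Or.inl (hτ.trans_le hr.1).ne')).hasDerivWithinAt)
    (fun r hr => (hC r hr).trans (by linarith [le_abs_self C])) ht' ht
  exact h

theorem IsProf0.time2 {τ T : ℝ} (hτ : 0 < τ) : ∃ (C : ℝ) (k : ℕ), 0 < C ∧
    ∀ t ∈ Icc τ T, ∀ t' ∈ Icc τ T, ∀ s, |VV p κ x t s - VV p κ x t' s
      - (t - t') * Real.sqrt (HH p κ x t' s).det| ≤ C * (1 + len s) ^ k * (t - t') ^ 2 := by
  obtain ⟨C1, k1, hC1, h1⟩ := hx.pl_gx hκ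
  obtain ⟨C2, k2, hC2, h2⟩ := hx.pg_gx hκ
  obtain ⟨B, hB, hB'⟩ := rpow_lip (T := T) hτ (p / 2 - 1)
  obtain ⟨C0, k0, hC0, h0⟩ := pb_rpow (T := T) hτ (p / 2 - 1)
  -- bound for the second derivative in time
  have hm : ∀ i ∈ (univ : Set (ℝ × ℝ)), 0 ≤ len i := fun i _ => len_nonneg i
  have hl : PB univ len len := PB.self hm
  set Φ : ℝ × ℝ → ℝ := fun s => C0 * ((C1 * (1 + len s ^ 2 * τ⁻¹) ^ k1) *
    (len s ^ 2 * (τ⁻¹ * τ⁻¹ * 2⁻¹))) + B * (C2 * (1 + len s ^ 2 * τ⁻¹) ^ k2) with hΦdef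
  have hq : PB univ len (fun s => len s ^ 2 * τ⁻¹) := (hl.pow hm 2).mul (PB.const hm _)
  have hΦ : PB univ len Φ :=
    (((((((PB.const hm 1).add hm hq).pow hm k1).const_mul hm C1).mul
      ((hl.pow hm 2).mul (PB.const hm _))).const_mul hm C0)).add hm
      ((((((PB.const hm 1).add hm hq).pow hm k2).const_mul hm C2)).const_mul hm B)
  obtain ⟨C, k, hC, hk⟩ := hΦ
  refine ⟨C, k, hC, fun t ht t' ht' s => ?_⟩
  have hpos : ∀ u ∈ Icc τ T, 0 < u := fun u hu => hτ.trans_le hu.1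
  have hΦ0 : 0 ≤ Φ s := by
    have := len_nonneg s
    simp only [hΦdef]
    positivity
  have hsg : ∀ u ∈ Icc τ T, sgm u s ≤ len s ^ 2 * τ⁻¹ / 2 := by
    intro u hu
    have hu0 := hpos u hu
    rw [sgm_eq, div_le_iff₀ (by positivity)]
    have h3 : τ⁻¹ * u ≥ 1 := by
      rw [ge_iff_le, ← mul_inv_cancel₀ hτ.ne', mul_comm τ]
      exact mul_le_mul_of_nonneg_left hu.1 (by positivity)
    have := sq_nonneg (len s)
    nlinarith
  have hinvle : ∀ u ∈ Icc τ T, u⁻¹ ≤ τ⁻¹ := fun u hu =>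
    (inv_le_inv₀ (hpos u hu) hτ).mpr hu.1
  -- Lipschitz bound for the time derivative
  have hlip : ∀ u ∈ Icc τ T, |Real.sqrt (HH p κ x u s).det - Real.sqrt (HH p κ x t' s).det|
      ≤ Φ s * |u - t'| := by
    intro u hu
    have hu0 := hpos u hu
    have ht0 := hpos t' ht'
    rw [hx.sqrt_det_HH hκ hu0, hx.sqrt_det_HH hκ ht0]
    have e : u ^ (p / 2 - 1) * gam p κ x (sgm u s) * x (sgm u s)
        - t' ^ (p / 2 - 1) * gam p κ x (sgm t' s) * x (sgm t' s)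
        = u ^ (p / 2 - 1) * (gam p κ x (sgm u s) * x (sgm u s)
          - gam p κ x (sgm t' s) * x (sgm t' s))
          + (u ^ (p / 2 - 1) - t' ^ (p / 2 - 1)) * (gam p κ x (sgm t' s) * x (sgm t' s)) := by
      ring
    have a1 : |u ^ (p / 2 - 1)| ≤ C0 := by
      have := h0 (u, 0, 0) hu
      have e0 : mm ((u, 0, 0) : ℝ × (ℝ × ℝ) × (ℝ × ℝ)) = 0 := by
        simp [mm, len_zero]
      rw [e0] at this
      simpa using this
    have a2 : |gam p κ x (sgm u s) * x (sgm u s) - gam p κ x (sgm t' s) * x (sgm t' s)|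
        ≤ (C1 * (1 + len s ^ 2 * τ⁻¹) ^ k1) * (len s ^ 2 * (τ⁻¹ * τ⁻¹ * 2⁻¹) * |u - t'|) := by
      refine (h1 _ _ (sgm_nonneg hu0 s) (sgm_nonneg ht0 s)).trans ?_
      have b1 : (1 + sgm u s + sgm t' s) ^ k1 ≤ (1 + len s ^ 2 * τ⁻¹) ^ k1 := by
        refine pow_le_pow_left₀ ?_ (by linarith [hsg u hu, hsg t' ht']) _
        have := sgm_nonneg hu0 s
        have := sgm_nonneg ht0 s
        linarith
      have b2 : |sgm u s - sgm t' s| ≤ len s ^ 2 * (τ⁻¹ * τ⁻¹ * 2⁻¹) * |u - t'| := by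
        have e3 : sgm u s - sgm t' s = len s ^ 2 * (u⁻¹ * t'⁻¹ * 2⁻¹) * (t' - u) := by
          rw [sgm_eq, sgm_eq]
          field_simp
        rw [e3, abs_mul, abs_of_nonneg (by positivity), abs_sub_comm]
        have c1 := hinvle u hu
        have c2 := hinvle t' ht'
        gcongr
      gcongr
    have a3 : |u ^ (p / 2 - 1) - t' ^ (p / 2 - 1)| ≤ B * |u - t'| := hB' u hu t' ht'
    have a4 : |gam p κ x (sgm t' s) * x (sgm t' s)| ≤ C2 * (1 + len s ^ 2 * τ⁻¹) ^ k2 := by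
      refine (h2 _ (sgm_nonneg ht0 s)).trans ?_
      refine mul_le_mul_of_nonneg_left (pow_le_pow_left₀ ?_ ?_ _) hC2.le
      · have := sgm_nonneg ht0 s
        linarith
      · have h5 := hsg t' ht'
        have h6 : 0 ≤ len s ^ 2 * τ⁻¹ := by positivity
        linarith
    rw [e]
    refine (abs_add_le _ _).trans ?_
    rw [abs_mul, abs_mul]
    have f1 := mul_le_mul a1 a2 (abs_nonneg _) hC0.le
    have f2 := mul_le_mul a3 a4 (abs_nonneg _) (by positivity)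
    refine (add_le_add f1 f2).trans (le_of_eq ?_)
    simp only [hΦdef]
    ring
  -- mean value
  have hsub : uIcc t' t ⊆ Icc τ T := by
    exact uIcc_subset_Icc ht' ht
  have hmv := (convex_uIcc t' t).norm_image_sub_le_of_norm_hasDerivWithin_le
    (f := fun u => VV p κ x u s - u * Real.sqrt (HH p κ x t' s).det)
    (f' := fun u => Real.sqrt (HH p κ x u s).det - 1 * Real.sqrt (HH p κ x t' s).det)
    (C := Φ s * |t - t'|)
    (fun u hu => ((hx.time_deriv hκ (hpos u (hsub hu)) s).sub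
      ((hasDerivAt_id u).mul_const _)).hasDerivWithinAt)
    (fun u hu => by
      rw [one_mul, Real.norm_eq_abs]
      refine (hlip u (hsub hu)).trans (mul_le_mul_of_nonneg_left ?_ hΦ0)
      have := abs_sub_left_of_mem_uIcc hu
      exact this) left_mem_uIcc right_mem_uIcc
  rw [Real.norm_eq_abs, Real.norm_eq_abs] at hmv
  have e : VV p κ x t s - VV p κ x t' s - (t - t') * Real.sqrt (HH p κ x t' s).det
      = (VV p κ x t s - t * Real.sqrt (HH p κ x t' s).det)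
        - (VV p κ x t' s - t' * Real.sqrt (HH p κ x t' s).det) := by ring
  rw [e]
  refine hmv.trans ?_
  rw [mul_assoc, ← sq, sq_abs]
  refine mul_le_mul_of_nonneg_right ?_ (sq_nonneg _)
  exact (le_abs_self _).trans (hk s (mem_univ s))

end

end Match2D.MG

end

section

/-!
MP_884187_pr, item D2, part 4: the data of a flux on a grid refining the grid of the densities.
-/

open MeasureTheory Set Filter Topology

namespace Match2D

/-- The open cell `c` of the grid of mesh `1/N`. -/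
def D2_Q (N : ℕ) (c : Fin N × Fin N) : Set (ℝ × ℝ) :=
  Ioo (((c.1 : ℕ) : ℝ) / N) ((((c.1 : ℕ) : ℝ) + 1) / N) ×ˢ
    Ioo (((c.2 : ℕ) : ℝ) / N) ((((c.2 : ℕ) : ℝ) + 1) / N)

/-- The fluxes through the vertical faces. -/
noncomputable def D2_f1 (b : ℝ × ℝ → ℝ × ℝ) (N i j : ℕ) : ℝ :=
  D2_Phi (fun z => (b z).1) ((i : ℝ) / N) ((j : ℝ) / N) (((j : ℝ) + 1) / N)

/-- The fluxes through the horizontal faces. -/
noncomputable def D2_f2 (b : ℝ × ℝ → ℝ × ℝ) (N i j : ℕ) : ℝ :=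
  D2_Phi (fun z => (b z.swap).2) ((j : ℝ) / N) ((i : ℝ) / N) (((i : ℝ) + 1) / N)

/-- The data of a flux and of two cellwise constant densities. -/
structure D2_Data (p : ℝ) (R : ℕ) (b : ℝ × ℝ → ℝ × ℝ) (ρ w g1 g2 : ℝ × ℝ → ℝ) (B ω : ℝ)
    (r q : ℕ × ℕ → ℝ) : Prop where
  hp : 1 ≤ p
  hR : 0 < R
  mb : Measurable b
  mw : Measurable w
  P1 : D2_Prim g1 (fun z => (b z).1) B
  P2 : D2_Prim (fun z => g2 z.swap) (fun z => (b z.swap).2) B
  div : ∀ z ∈ Sq0, g1 z + g2 z = ρ z - 1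
  cρ : ∀ z ∈ Sq0, ρ z = r (⌊(R : ℝ) * z.1⌋₊, ⌊(R : ℝ) * z.2⌋₊)
  cw : ∀ z ∈ Sq0, w z = q (⌊(R : ℝ) * z.1⌋₊, ⌊(R : ℝ) * z.2⌋₊)
  hw : ∀ z ∈ Sq0, ω ≤ w z ∧ w z ≤ ρ z ∧ w z ≤ 1
  hω : 0 < ω

lemma D2_fin {N : ℕ} (i : Fin N) : 0 ≤ ((i : ℕ) : ℝ) / N ∧
    ((i : ℕ) : ℝ) / N ≤ (((i : ℕ) : ℝ) + 1) / N ∧ (((i : ℕ) : ℝ) + 1) / N ≤ 1 ∧
    (((i : ℕ) : ℝ) + 1) / N - ((i : ℕ) : ℝ) / N = 1 / N := by
  have hN : 0 < N := lt_of_le_of_lt (Nat.zero_le _) i.2
  have hN' : (0 : ℝ) < N := by exact_mod_cast hN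
  have h1 : ((i : ℕ) : ℝ) + 1 ≤ N := by exact_mod_cast i.2
  refine ⟨by positivity, ?_, ?_, ?_⟩
  · gcongr
    linarith
  · rw [div_le_one hN']
    exact h1
  · rw [← sub_div]
    congr 1
    ring

lemma D2_swap (a b c d : ℝ) (f : ℝ × ℝ → ℝ) :
    ∫ z in Ioo a b ×ˢ Ioo c d, f z.swap = ∫ z in Ioo c d ×ˢ Ioo a b, f z := by
  rw [Measure.volume_eq_prod]
  exact setIntegral_prod_swap (μ := (volume : Measure ℝ)) (ν := (volume : Measure ℝ))
      (Ioo c d) (Ioo a b) f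

lemma D2_Q_meas (N : ℕ) (c : Fin N × Fin N) : MeasurableSet (D2_Q N c) := D2_rect_meas _ _ _ _

lemma D2_Q_vol {N : ℕ} (c : Fin N × Fin N) :
    (volume : Measure (ℝ × ℝ)).real (D2_Q N c) = (1 / N) ^ 2 := by
  obtain ⟨-, h1, -, h2⟩ := D2_fin c.1
  obtain ⟨-, h3, -, h4⟩ := D2_fin c.2
  unfold D2_Q
  rw [D2_rect_vol h1 h3, h2, h4]
  ring

lemma D2_Q_sub {N : ℕ} (c : Fin N × Fin N) : D2_Q N c ⊆ Sq0 := by
  rintro z ⟨⟨h1, h2⟩, h3, h4⟩
  obtain ⟨a1, -, a2, -⟩ := D2_fin c.1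
  obtain ⟨b1, -, b2, -⟩ := D2_fin c.2
  exact ⟨⟨a1.trans h1.le, h2.trans_le a2⟩, ⟨b1.trans h3.le, h4.trans_le b2⟩⟩

lemma D2_floor1 {N : ℕ} (i : Fin N) {x : ℝ} (h1 : ((i : ℕ) : ℝ) / N ≤ x)
    (h2 : x < (((i : ℕ) : ℝ) + 1) / N) : ⌊(N : ℝ) * x⌋₊ = (i : ℕ) := by
  have hN : 0 < N := lt_of_le_of_lt (Nat.zero_le _) i.2
  have hN' : (0 : ℝ) < N := by exact_mod_cast hN
  rw [div_le_iff₀ hN'] at h1
  rw [lt_div_iff₀ hN'] at h2
  rw [Nat.floor_eq_iff (by
    have : (0 : ℝ) ≤ ((i : ℕ) : ℝ) := Nat.cast_nonneg _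
    nlinarith)]
  constructor <;> nlinarith

lemma D2_Q_floor {N : ℕ} (c : Fin N × Fin N) {z : ℝ × ℝ} (hz : z ∈ D2_Q N c) :
    (⌊(N : ℝ) * z.1⌋₊, ⌊(N : ℝ) * z.2⌋₊) = ((c.1 : ℕ), (c.2 : ℕ)) := by
  rw [D2_floor1 c.1 hz.1.1.le hz.1.2, D2_floor1 c.2 hz.2.1.le hz.2.2]

lemma D2_pos_Q {N : ℕ} (c : Fin N × Fin N) : D2_pos N c ∈ D2_Q N c := by
  have hN : 0 < N := lt_of_le_of_lt (Nat.zero_le _) c.1.2
  have hN' : (0 : ℝ) < N := by exact_mod_cast hN
  refine ⟨⟨?_, ?_⟩, ⟨?_, ?_⟩⟩ <;> simp only [D2_pos] <;>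
    refine div_lt_div_of_pos_right (by linarith) hN'

lemma D2_Q_disj {N : ℕ} {c c' : Fin N × Fin N} (h : c ≠ c') : Disjoint (D2_Q N c) (D2_Q N c') := by
  rw [Set.disjoint_left]
  intro z hz hz'
  have e := (D2_Q_floor c hz).symm.trans (D2_Q_floor c' hz')
  rw [Prod.mk.injEq] at e
  exact h (Prod.ext (Fin.ext e.1) (Fin.ext e.2))

section
variable {p : ℝ} {R : ℕ} {b : ℝ × ℝ → ℝ × ℝ} {ρ w g1 g2 : ℝ × ℝ → ℝ} {B ω : ℝ}
    {r q : ℕ × ℕ → ℝ} {k : ℕ}

lemma D2_floorR (hk : 0 < k) (c : Fin (R * k) × Fin (R * k))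
    {z : ℝ × ℝ} (hz : (⌊((R * k : ℕ) : ℝ) * z.1⌋₊, ⌊((R * k : ℕ) : ℝ) * z.2⌋₊) =
      ((c.1 : ℕ), (c.2 : ℕ))) :
    (⌊(R : ℝ) * z.1⌋₊, ⌊(R : ℝ) * z.2⌋₊) = ((c.1 : ℕ) / k, (c.2 : ℕ) / k) := by
  have hk' : (k : ℝ) ≠ 0 := by positivity
  have key : ∀ x : ℝ, ⌊(R : ℝ) * x⌋₊ = ⌊((R * k : ℕ) : ℝ) * x⌋₊ / k := by
    intro x
    rw [← Nat.floor_div_natCast]
    congr 1
    push_cast
    field_simp
  rw [Prod.mk.injEq] at hz
  rw [key, key, hz.1, hz.2]

lemma D2_const (h : D2_Data p R b ρ w g1 g2 B ω r q) (hk : 0 < k) (c : Fin (R * k) × Fin (R * k))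
    {z : ℝ × ℝ} (hz0 : z ∈ Sq0)
    (hz : (⌊((R * k : ℕ) : ℝ) * z.1⌋₊, ⌊((R * k : ℕ) : ℝ) * z.2⌋₊) =
      ((c.1 : ℕ), (c.2 : ℕ))) :
    ρ z = ρ (D2_pos (R * k) c) ∧ w z = w (D2_pos (R * k) c) := by
  have h1 := D2_floorR hk c hz
  have h2 := D2_floorR hk c (D2_Q_floor c (D2_pos_Q c))
  have h3 := D2_Q_sub c (D2_pos_Q c)
  rw [h.cρ z hz0, h.cρ _ h3, h.cw z hz0, h.cw _ h3, h1, h2]
  exact ⟨rfl, rfl⟩

lemma D2_B0 (h : D2_Data p R b ρ w g1 g2 B ω r q) : 0 ≤ B := D2_B_nonneg h.P1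

lemma D2_f1_bd (h : D2_Data p R b ρ w g1 g2 B ω r q) {N : ℕ} (c : Fin N × Fin N) :
    |D2_f1 b N c.1 c.2| ≤ B * (1 / N) ∧ |D2_f1 b N (c.1 + 1) c.2| ≤ B * (1 / N) := by
  obtain ⟨a1, a2, a3, a4⟩ := D2_fin c.1
  obtain ⟨b1, b2, b3, b4⟩ := D2_fin c.2
  constructor
  · have := D2_Phi_bd h.P1 (x := ((c.1 : ℕ) : ℝ) / N) ⟨a1, a2.trans a3⟩ b1 b2 b3
    rwa [b4] at this
  · have := D2_Phi_bd h.P1 (x := (((c.1 : ℕ) : ℝ) + 1) / N) ⟨a1.trans a2, a3⟩ b1 b2 b3
    rw [b4] at this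
    unfold D2_f1
    push_cast
    exact this

lemma D2_f2_bd (h : D2_Data p R b ρ w g1 g2 B ω r q) {N : ℕ} (c : Fin N × Fin N) :
    |D2_f2 b N c.1 c.2| ≤ B * (1 / N) ∧ |D2_f2 b N c.1 (c.2 + 1)| ≤ B * (1 / N) := by
  obtain ⟨a1, a2, a3, a4⟩ := D2_fin c.2
  obtain ⟨b1, b2, b3, b4⟩ := D2_fin c.1
  constructor
  · have := D2_Phi_bd h.P2 (x := ((c.2 : ℕ) : ℝ) / N) ⟨a1, a2.trans a3⟩ b1 b2 b3
    rwa [b4] at this
  · have := D2_Phi_bd h.P2 (x := (((c.2 : ℕ) : ℝ) + 1) / N) ⟨a1.trans a2, a3⟩ b1 b2 b3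
    rw [b4] at this
    unfold D2_f2
    push_cast
    exact this

lemma D2_f1_zero (h : D2_Data p R b ρ w g1 g2 B ω r q) {N : ℕ} (j : ℕ) (hj : j < N) :
    D2_f1 b N 0 j = 0 ∧ D2_f1 b N N j = 0 := by
  obtain ⟨b1, b2, b3, b4⟩ := D2_fin (⟨j, hj⟩ : Fin N)
  have hN' : (N : ℝ) ≠ 0 := by
    have : 0 < N := by omega
    positivity
  constructor
  · have := D2_Phi_zero h.P1 b1 b3
    unfold D2_f1
    simpa using this
  · have := D2_Phi_one h.P1 b1 b3
    unfold D2_f1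
    rw [div_self hN']
    exact this

lemma D2_f2_zero (h : D2_Data p R b ρ w g1 g2 B ω r q) {N : ℕ} (j : ℕ) (hj : j < N) :
    D2_f2 b N j 0 = 0 ∧ D2_f2 b N j N = 0 := by
  obtain ⟨b1, b2, b3, b4⟩ := D2_fin (⟨j, hj⟩ : Fin N)
  have hN' : (N : ℝ) ≠ 0 := by
    have : 0 < N := by omega
    positivity
  constructor
  · have := D2_Phi_zero h.P2 b1 b3
    unfold D2_f2
    simpa using this
  · have := D2_Phi_one h.P2 b1 b3
    unfold D2_f2
    rw [div_self hN']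
    exact this

lemma D2_near (h : D2_Data p R b ρ w g1 g2 B ω r q) {N : ℕ} (c : Fin N × Fin N) :
    |1 / N * D2_f1 b N c.1 c.2 - ∫ z in D2_Q N c, (b z).1| ≤ B * (1 / N) ^ 3 ∧
    |1 / N * D2_f1 b N (c.1 + 1) c.2 - ∫ z in D2_Q N c, (b z).1| ≤ B * (1 / N) ^ 3 ∧
    |1 / N * D2_f2 b N c.1 c.2 - ∫ z in D2_Q N c, (b z).2| ≤ B * (1 / N) ^ 3 ∧
    |1 / N * D2_f2 b N c.1 (c.2 + 1) - ∫ z in D2_Q N c, (b z).2| ≤ B * (1 / N) ^ 3 := by
  obtain ⟨a1, a2, a3, a4⟩ := D2_fin c.1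
  obtain ⟨b1, b2, b3, b4⟩ := D2_fin c.2
  have e3 : ∀ x : ℝ, B * x ^ 2 * x = B * x ^ 3 := fun x => by ring
  have hs := D2_swap (((c.2 : ℕ) : ℝ) / N) ((((c.2 : ℕ) : ℝ) + 1) / N) (((c.1 : ℕ) : ℝ) / N)
    ((((c.1 : ℕ) : ℝ) + 1) / N) (fun z => (b z).2)
  refine ⟨?_, ?_, ?_, ?_⟩
  · have := D2_Phi_near h.P1 a1 a3 (ξ := ((c.1 : ℕ) : ℝ) / N) ⟨le_refl _, a2⟩ b1 b2 b3
    rw [a4, b4, e3] at this
    exact this
  · have := D2_Phi_near h.P1 a1 a3 (ξ := (((c.1 : ℕ) : ℝ) + 1) / N) ⟨a2, le_refl _⟩ b1 b2 b3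
    rw [a4, b4, e3] at this
    unfold D2_f1
    push_cast
    exact this
  · have := D2_Phi_near h.P2 b1 b3 (ξ := ((c.2 : ℕ) : ℝ) / N) ⟨le_refl _, b2⟩ a1 a2 a3
    rw [a4, b4, e3, hs] at this
    exact this
  · have := D2_Phi_near h.P2 b1 b3 (ξ := (((c.2 : ℕ) : ℝ) + 1) / N) ⟨b2, le_refl _⟩ a1 a2 a3
    rw [a4, b4, e3, hs] at this
    unfold D2_f2
    push_cast
    exact this

lemma D2_net (h : D2_Data p R b ρ w g1 g2 B ω r q) (hk : 0 < k) (c : Fin (R * k) × Fin (R * k)) :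
    D2_f1 b (R * k) (c.1 + 1) c.2 + -D2_f1 b (R * k) c.1 c.2 +
      D2_f2 b (R * k) c.1 (c.2 + 1) + -D2_f2 b (R * k) c.1 c.2 =
      (1 / ((R * k : ℕ) : ℝ)) ^ 2 * ρ (D2_pos (R * k) c) - (1 / ((R * k : ℕ) : ℝ)) ^ 2 := by
  obtain ⟨a1, a2, a3, a4⟩ := D2_fin c.1
  obtain ⟨b1, b2, b3, b4⟩ := D2_fin c.2
  have h1 := D2_Phi_diff h.P1 a1 a2 a3 b1 b3
  have h2 := D2_Phi_diff h.P2 b1 b2 b3 a1 a3
  rw [D2_swap _ _ _ _ g2] at h2
  have e1 : D2_f1 b (R * k) (c.1 + 1) c.2 = D2_Phi (fun z => (b z).1)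
      ((((c.1 : ℕ) : ℝ) + 1) / ((R * k : ℕ) : ℝ)) (((c.2 : ℕ) : ℝ) / ((R * k : ℕ) : ℝ))
      ((((c.2 : ℕ) : ℝ) + 1) / ((R * k : ℕ) : ℝ)) := by
    unfold D2_f1
    push_cast
    rfl
  have e2 : D2_f2 b (R * k) c.1 (c.2 + 1) = D2_Phi (fun z => (b z.swap).2)
      ((((c.2 : ℕ) : ℝ) + 1) / ((R * k : ℕ) : ℝ)) (((c.1 : ℕ) : ℝ) / ((R * k : ℕ) : ℝ))
      ((((c.1 : ℕ) : ℝ) + 1) / ((R * k : ℕ) : ℝ)) := by
    unfold D2_f2
    push_cast
    rfl
  have mg2 : Measurable g2 := by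
    have := h.P2.mg.comp measurable_swap
    exact this
  have i1 : IntegrableOn g1 (D2_Q (R * k) c) := D2_int_g h.P1 _ _ _ _
  have i2 : IntegrableOn g2 (D2_Q (R * k) c) := by
    refine Measure.integrableOn_of_bounded (M := B) (D2_rect_lt _ _ _ _).ne ?_ ?_
    · exact mg2.aestronglyMeasurable
    · exact Eventually.of_forall fun z => h.P2.bd z.swap
  have h3 : (∫ z in D2_Q (R * k) c, g1 z) + ∫ z in D2_Q (R * k) c, g2 z =
      (1 / ((R * k : ℕ) : ℝ)) ^ 2 * ρ (D2_pos (R * k) c) - (1 / ((R * k : ℕ) : ℝ)) ^ 2 := by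
    rw [← integral_add i1 i2]
    have h4 : ∀ z ∈ D2_Q (R * k) c, g1 z + g2 z = ρ (D2_pos (R * k) c) - 1 := by
      intro z hz
      rw [h.div z (D2_Q_sub c hz), (D2_const h hk c (D2_Q_sub c hz) (D2_Q_floor c hz)).1]
    rw [setIntegral_congr_fun (D2_Q_meas _ c) h4, setIntegral_const, D2_Q_vol, smul_eq_mul]
    ring
  rw [← h3, e1, e2]
  have h1' : D2_Phi (fun z => (b z).1) ((((c.1 : ℕ) : ℝ) + 1) / ((R * k : ℕ) : ℝ))
      (((c.2 : ℕ) : ℝ) / ((R * k : ℕ) : ℝ)) ((((c.2 : ℕ) : ℝ) + 1) / ((R * k : ℕ) : ℝ)) -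
      D2_f1 b (R * k) c.1 c.2 = ∫ z in D2_Q (R * k) c, g1 z := h1
  have h2' : D2_Phi (fun z => (b z.swap).2) ((((c.2 : ℕ) : ℝ) + 1) / ((R * k : ℕ) : ℝ))
      (((c.1 : ℕ) : ℝ) / ((R * k : ℕ) : ℝ)) ((((c.1 : ℕ) : ℝ) + 1) / ((R * k : ℕ) : ℝ)) -
      D2_f2 b (R * k) c.1 c.2 = ∫ z in D2_Q (R * k) c, g2 z := h2
  rw [← h1', ← h2']
  ring

end

end Match2D

end

section

/-!
MP_884187_pr, item H1, part c: the averaged Taylor expansion and the time step.
-/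

open MeasureTheory Set Filter Topology

namespace Match2D

theorem H1_stp_nonneg (m n j : ℕ) : 0 ≤ stp m n j := by
  unfold stp
  positivity

/-- Averaged Taylor expansion. -/
theorem H1_taylor (hC3 : StmtC3) (hC3' : StmtC3') {p κ : ℝ} {V : ℝ → ℝ × ℝ → ℝ}
    {G : ℝ → ℝ × ℝ → ℝ × ℝ} {H : ℝ → ℝ × ℝ → SymM} (hV : VFacts p κ V G H)
    (τ T : ℝ) (hτ : 0 < τ) (hT : τ ≤ T) : ∃ K : ℕ, ∀ C₀ : ℝ, 0 ≤ C₀ → ∃ C : ℝ, 0 < C ∧
    ∀ t ∈ Icc τ T, ∀ (m n j : ℕ) [NeZero m], 1 ≤ Real.log n →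
    ∀ (I : Finset (Fin n)) (b : Dig m → ℝ × ℝ), (∀ d, len (b d) ≤ C₀) →
    ∀ (s sQ : ℝ × ℝ) (M : SymM), 0 < M.a → 0 < M.det →
    (∀ v, (H t sQ).qf v ≤ M.qf v) →
    avg (fun δ : Fin n → Dig m => V t (s + stp m n j • ∑ i ∈ I, (b (δ i) - avg b))) ≤
      V t s + 1 / 2 * (Real.sqrt M.det * ((m : ℝ) ^ (2 * j) * I.card / n / Real.log n) *
        avg (fun d => M.unit.qf (b d))) +
      C * (1 + len s + len sQ + (m : ℝ) ^ (2 * j) * I.card / n) ^ K *
        (len (s - sQ) / Real.log n + 1 / (Real.log n * Real.sqrt (Real.log n))) := by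
  obtain ⟨CT, k, hCT, hTay⟩ := hV.taylor τ T hτ hT
  obtain ⟨CH, kH, hCH, hH⟩ := hV.hlip τ T hτ hT
  obtain ⟨c1, hc1, h1⟩ := hC3 1
  obtain ⟨cK, hcK, hK⟩ := hC3 (k + 3)
  refine ⟨kH + 1 + k + (k + 3), fun C₀ hC₀ => ⟨1 / 2 * CH * c1 * C₀ ^ 2 +
    CT * 4 ^ (k + 3) * (1 + cK * C₀ ^ (2 * (k + 3))) + 1, by positivity, ?_⟩⟩
  intro t ht m n j _ hL I b hb s sQ M hMa hMd hM
  set L := Real.log n with hLdef
  set r := (m : ℝ) ^ (2 * j) * I.card / n with hr
  set st := stp m n j with hst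
  set sL := Real.sqrt L with hsL
  have hL0 : 0 < L := by linarith
  have hst0 : 0 ≤ st := H1_stp_nonneg m n j
  have hsL1 : 1 ≤ sL := by rw [hsL]; exact Real.one_le_sqrt.2 hL
  have hsL2 : sL ^ 2 = L := Real.sq_sqrt hL0.le
  have hr0 : 0 ≤ r := by positivity
  have hstr : st ^ 2 * (I.card : ℝ) = r / L := H1_stp_sq m n j hL _
  have ha : 0 ≤ len s := A1_len_nonneg s
  have hbQ : 0 ≤ len sQ := A1_len_nonneg sQ
  have hℓ : 0 ≤ len (s - sQ) := A1_len_nonneg _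
  set X : (Fin n → Dig m) → ℝ × ℝ := fun δ => ∑ i ∈ I, (b (δ i) - avg b) with hX
  set ds := SymM.dst (H t s) (H t sQ) with hds
  have hds0 : 0 ≤ ds := H1_dst_nonneg _ _
  have hdsle : ds ≤ CH * (1 + len s + len sQ) ^ kH * len (s - sQ) := hH t ht s sQ
  set A := CT * ((1 + len s) ^ k * 4 ^ (k + 3)) / sL ^ 3 with hA
  have hA0 : 0 ≤ A := by positivity
  -- pointwise bound
  have hpt : ∀ δ : Fin n → Dig m, V t (s + st • X δ) ≤
      (V t s + A) + dot (G t s) (st • X δ) +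
      (1 / 2 * Real.sqrt M.det * st ^ 2) * M.unit.qf (X δ) +
      (1 / 2 * ds * st ^ 2) * len (X δ) ^ (2 * 1) +
      (A * sL ^ (2 * (k + 3)) * st ^ (2 * (k + 3))) * len (X δ) ^ (2 * (k + 3)) := by
    intro δ
    have e0 := hTay t ht s (st • X δ)
    have elen : len (st • X δ) = st * len (X δ) := by
      rw [H1_len_smul, abs_of_nonneg hst0]
    have e1 : (H t s).qf (st • X δ) ≤ Real.sqrt M.det * st ^ 2 * M.unit.qf (X δ) +
        ds * (st ^ 2 * len (X δ) ^ 2) := by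
      have e2 := H1_qf_le_dst (H t s) (H t sQ) (st • X δ)
      have e3 := hM (st • X δ)
      have e4 := H1_unit_qf M hMd (st • X δ)
      have e5 := H1_qf_smul M.unit st (X δ)
      rw [elen, mul_pow] at e2
      rw [e4, e5] at e3
      linarith [e2, e3]
    have e6 := H1_third (len s) (len (st • X δ)) sL k ha (A1_len_nonneg _) hsL1
    have e7 : CT * (1 + len s + len (st • X δ)) ^ k * len (st • X δ) ^ 3 ≤
        A + (A * sL ^ (2 * (k + 3)) * st ^ (2 * (k + 3))) * len (X δ) ^ (2 * (k + 3)) := by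
      calc CT * (1 + len s + len (st • X δ)) ^ k * len (st • X δ) ^ 3
          = CT * ((1 + len s + len (st • X δ)) ^ k * len (st • X δ) ^ 3) := by ring
        _ ≤ CT * ((1 + len s) ^ k * (4 ^ (k + 3) * (1 + sL ^ (2 * (k + 3)) *
              len (st • X δ) ^ (2 * (k + 3)))) / sL ^ 3) :=
            mul_le_mul_of_nonneg_left e6 hCT.le
        _ = _ := by
            rw [elen, mul_pow, hA]
            field_simp
    have e8 : len (X δ) ^ (2 * 1) = len (X δ) ^ 2 := by norm_num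
    rw [e8]
    linarith [e0, e1, e7]
  have havX : avg X = 0 := (hC3' m n I b).1
  have hQ := (hC3' m n I b).2 M.unit (fun u => H1_qf_nonneg M.unit
    (H1_unit M hMa hMd (B := M.tr / Real.sqrt M.det)
      (by rw [div_mul_cancel₀ _ (H1_sqrt_det_pos M hMd).ne'])).1
    (by rw [(H1_unit M hMa hMd (B := M.tr / Real.sqrt M.det)
      (by rw [div_mul_cancel₀ _ (H1_sqrt_det_pos M hMd).ne'])).2.1]; exact one_pos) u)
  have h1' := h1 m n I b C₀ hb
  have hK' := hK m n I b C₀ hb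
  have h2 := H1_avg_mono hpt
  rw [H1_avg_add, H1_avg_add, H1_avg_add, H1_avg_add, H1_avg_mul, H1_avg_mul, H1_avg_mul,
    H1_avg_smul_X st (G t s) X havX, H1_avg_const] at h2
  have hs0 : 0 < Real.sqrt M.det := H1_sqrt_det_pos M hMd
  -- the three terms
  have t1 : (1 / 2 * Real.sqrt M.det * st ^ 2) * avg (fun δ => M.unit.qf (X δ)) ≤
      1 / 2 * (Real.sqrt M.det * (r / L) * avg (fun d => M.unit.qf (b d))) := by
    calc (1 / 2 * Real.sqrt M.det * st ^ 2) * avg (fun δ => M.unit.qf (X δ))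
        ≤ (1 / 2 * Real.sqrt M.det * st ^ 2) * (I.card * avg (fun d => M.unit.qf (b d))) :=
          mul_le_mul_of_nonneg_left hQ (by positivity)
      _ = 1 / 2 * (Real.sqrt M.det * (st ^ 2 * I.card) * avg (fun d => M.unit.qf (b d))) := by
          ring
      _ = _ := by rw [hstr]
  have t2 : (1 / 2 * ds * st ^ 2) * avg (fun δ => len (X δ) ^ (2 * 1)) ≤
      1 / 2 * (CH * (1 + len s + len sQ) ^ kH * len (s - sQ)) * c1 * C₀ ^ 2 * (r / L) := by
    calc (1 / 2 * ds * st ^ 2) * avg (fun δ => len (X δ) ^ (2 * 1))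
        ≤ (1 / 2 * ds * st ^ 2) * (c1 * (C₀ ^ 2 * I.card) ^ 1) :=
          mul_le_mul_of_nonneg_left h1' (by positivity)
      _ = 1 / 2 * ds * c1 * C₀ ^ 2 * (st ^ 2 * I.card) := by ring
      _ = 1 / 2 * ds * c1 * C₀ ^ 2 * (r / L) := by rw [hstr]
      _ ≤ _ := by gcongr
  have t3 : (A * sL ^ (2 * (k + 3)) * st ^ (2 * (k + 3))) *
      avg (fun δ => len (X δ) ^ (2 * (k + 3))) ≤ A * (cK * C₀ ^ (2 * (k + 3)) * r ^ (k + 3)) := by
    calc (A * sL ^ (2 * (k + 3)) * st ^ (2 * (k + 3))) *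
          avg (fun δ => len (X δ) ^ (2 * (k + 3)))
        ≤ (A * sL ^ (2 * (k + 3)) * st ^ (2 * (k + 3))) * (cK * (C₀ ^ 2 * I.card) ^ (k + 3)) :=
          mul_le_mul_of_nonneg_left hK' (by positivity)
      _ = A * (cK * C₀ ^ (2 * (k + 3)) * (sL ^ 2 * (st ^ 2 * I.card)) ^ (k + 3)) := by
          rw [pow_mul, pow_mul, pow_mul, mul_pow, mul_pow, mul_pow]
          ring
      _ = _ := by rw [hstr, hsL2, mul_div_cancel₀ _ hL0.ne']
  set Y := 1 + len s + len sQ + r with hY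
  have hY1 : 1 ≤ Y := by linarith
  have b1 : (1 + len s + len sQ) ^ kH * r ≤ Y ^ (kH + 1 + k + (k + 3)) := by
    calc (1 + len s + len sQ) ^ kH * r ≤ Y ^ kH * Y :=
          mul_le_mul (pow_le_pow_left₀ (by linarith) (by linarith) _) (by linarith) hr0
            (by positivity)
      _ = Y ^ (kH + 1) := by ring
      _ ≤ _ := pow_le_pow_right₀ hY1 (by omega)
  have b2 : (1 + len s) ^ k * (1 + cK * C₀ ^ (2 * (k + 3)) * r ^ (k + 3)) ≤
      (1 + cK * C₀ ^ (2 * (k + 3))) * Y ^ (kH + 1 + k + (k + 3)) := by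
    have c1' : (1 + len s) ^ k ≤ Y ^ k := pow_le_pow_left₀ (by linarith) (by linarith) _
    have c2' : r ^ (k + 3) ≤ Y ^ (k + 3) := pow_le_pow_left₀ hr0 (by linarith) _
    have c3' : 1 ≤ Y ^ (k + 3) := one_le_pow₀ hY1
    have c4' : (1 : ℝ) + cK * C₀ ^ (2 * (k + 3)) * r ^ (k + 3) ≤
        (1 + cK * C₀ ^ (2 * (k + 3))) * Y ^ (k + 3) := by
      have : cK * C₀ ^ (2 * (k + 3)) * r ^ (k + 3) ≤ cK * C₀ ^ (2 * (k + 3)) * Y ^ (k + 3) :=
        mul_le_mul_of_nonneg_left c2' (by positivity)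
      have e : (1 + cK * C₀ ^ (2 * (k + 3))) * Y ^ (k + 3) =
        Y ^ (k + 3) + cK * C₀ ^ (2 * (k + 3)) * Y ^ (k + 3) := by ring
      rw [e]
      linarith
    calc (1 + len s) ^ k * (1 + cK * C₀ ^ (2 * (k + 3)) * r ^ (k + 3))
        ≤ Y ^ k * ((1 + cK * C₀ ^ (2 * (k + 3))) * Y ^ (k + 3)) :=
          mul_le_mul c1' c4' (by positivity) (by positivity)
      _ = (1 + cK * C₀ ^ (2 * (k + 3))) * Y ^ (k + (k + 3)) := by ring
      _ ≤ _ := mul_le_mul_of_nonneg_left (pow_le_pow_right₀ hY1 (by omega)) (by positivity)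
  have esL : sL ^ 3 = L * sL := by rw [pow_succ, hsL2]
  set YK := Y ^ (kH + 1 + k + (k + 3)) with hYK
  have hYK0 : 0 ≤ YK := by positivity
  have f1 : 1 / 2 * (CH * (1 + len s + len sQ) ^ kH * len (s - sQ)) * c1 * C₀ ^ 2 * (r / L) ≤
      (1 / 2 * CH * c1 * C₀ ^ 2) * YK * (len (s - sQ) / L) := by
    calc 1 / 2 * (CH * (1 + len s + len sQ) ^ kH * len (s - sQ)) * c1 * C₀ ^ 2 * (r / L)
        = (1 / 2 * CH * c1 * C₀ ^ 2) * ((1 + len s + len sQ) ^ kH * r) * (len (s - sQ) / L) := by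
          ring
      _ ≤ _ := by gcongr
  have f2 : A + A * (cK * C₀ ^ (2 * (k + 3)) * r ^ (k + 3)) ≤
      (CT * 4 ^ (k + 3) * (1 + cK * C₀ ^ (2 * (k + 3)))) * YK * (1 / (L * sL)) := by
    calc A + A * (cK * C₀ ^ (2 * (k + 3)) * r ^ (k + 3))
        = CT * 4 ^ (k + 3) * ((1 + len s) ^ k * (1 + cK * C₀ ^ (2 * (k + 3)) * r ^ (k + 3))) *
            (1 / (L * sL)) := by
          rw [hA, esL]; ring
      _ ≤ CT * 4 ^ (k + 3) * ((1 + cK * C₀ ^ (2 * (k + 3))) * YK) * (1 / (L * sL)) := by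
          gcongr
      _ = _ := by ring
  have g1 : 0 ≤ len (s - sQ) / L := by positivity
  have g2 : 0 ≤ 1 / (L * sL) := by positivity
  have g3 : 0 ≤ (CT * 4 ^ (k + 3) * (1 + cK * C₀ ^ (2 * (k + 3)))) * YK * (len (s - sQ) / L) := by
    positivity
  have g4 : 0 ≤ (1 / 2 * CH * c1 * C₀ ^ 2) * YK * (1 / (L * sL)) := by positivity
  have g5 : 0 ≤ YK * (len (s - sQ) / L + 1 / (L * sL)) := by positivity
  have hfin : (1 / 2 * CH * c1 * C₀ ^ 2 + CT * 4 ^ (k + 3) * (1 + cK * C₀ ^ (2 * (k + 3))) + 1) *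
      YK * (len (s - sQ) / L + 1 / (L * sL)) =
      (1 / 2 * CH * c1 * C₀ ^ 2) * YK * (len (s - sQ) / L) +
      (1 / 2 * CH * c1 * C₀ ^ 2) * YK * (1 / (L * sL)) +
      (CT * 4 ^ (k + 3) * (1 + cK * C₀ ^ (2 * (k + 3)))) * YK * (len (s - sQ) / L) +
      (CT * 4 ^ (k + 3) * (1 + cK * C₀ ^ (2 * (k + 3)))) * YK * (1 / (L * sL)) +
      YK * (len (s - sQ) / L + 1 / (L * sL)) := by ring
  rw [hfin]
  linarith [h2, t1, t2, t3, f1, f2, g3, g4, g5]

/-- Time step and comparison of the determinants. -/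
theorem H1_time {p κ : ℝ} {V : ℝ → ℝ × ℝ → ℝ}
    {G : ℝ → ℝ × ℝ → ℝ × ℝ} {H : ℝ → ℝ × ℝ → SymM} (hV : VFacts p κ V G H)
    (τ T ε₁ : ℝ) (hτ : 0 < τ) (hT : τ ≤ T) (hε : 0 < ε₁) : ∃ K : ℕ, ∃ C : ℝ, 0 < C ∧
    ∀ t ∈ Icc τ T, ∀ lam : ℝ, 0 ≤ lam → t + lam ∈ Icc τ T →
    ∀ (s sQ : ℝ × ℝ) (M : SymM) (r : ℝ), 0 ≤ r →
    Real.sqrt M.det ≤ Real.sqrt (H t sQ).det + ε₁ →
    V t s + lam * r * Real.sqrt M.det ≤ V (t + lam) s + lam * ε₁ +
      C * (1 + len s + len sQ + r) ^ K *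
        (lam * |r - 1| + lam * Real.sqrt (len (s - sQ)) + lam ^ 2) := by
  obtain ⟨CB, kB, hCB, hB⟩ := hV.bounds τ T hτ hT
  obtain ⟨CH, kH, hCH, hH⟩ := hV.hlip τ T hτ hT
  obtain ⟨Ct, kt, hCt, ht'⟩ := hV.time τ T hτ hT
  refine ⟨kB + kH + kt, Ct + (CB + ε₁) + (2 * CB * CH + 1), by positivity, ?_⟩
  intro t ht lam hlam htl s sQ M r hr hM
  have ha : 0 ≤ len s := A1_len_nonneg s
  have hb : 0 ≤ len sQ := A1_len_nonneg sQ
  have hℓ : 0 ≤ len (s - sQ) := A1_len_nonneg _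
  set Y := 1 + len s + len sQ + r with hY
  have hY1 : 1 ≤ Y := by linarith
  set YK := Y ^ (kB + kH + kt) with hYK
  have hYK1 : 1 ≤ YK := one_le_pow₀ hY1
  -- time
  have e1 := ht' (t + lam) htl t ⟨ht.1, by linarith⟩ s
  have e1' : t + lam - t = lam := by ring
  rw [e1'] at e1
  have e2 : (1 + len s) ^ kt ≤ YK :=
    (pow_le_pow_left₀ (by linarith) (by linarith) _).trans (pow_le_pow_right₀ hY1 (by omega))
  -- determinants
  have e3 : Real.sqrt (H t sQ).det ≤ CB * YK := by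
    refine (H1_sqrt_det_le _).trans ((hB t ht sQ).2.2.trans ?_)
    exact mul_le_mul_of_nonneg_left
      ((pow_le_pow_left₀ (by linarith) (by linarith) _).trans (pow_le_pow_right₀ hY1 (by omega)))
      hCB.le
  have e4 : Real.sqrt (H t sQ).det ≤ Real.sqrt (H t s).det +
      (2 * CB * CH + 1) * YK * Real.sqrt (len (s - sQ)) := by
    have f1 := H1_sqrt_sub (H t sQ).det (H t s).det (hV.posdef t (by linarith [ht.1]) s).2.le
    refine f1.trans (add_le_add le_rfl ?_)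
    have f2 := H1_det_sub (H t sQ) (H t s)
    have n1 := (hB t ht sQ).2.2
    have n2 := (hB t ht s).2.2
    have n3 := hH t ht sQ s
    have m1 : (1 + len sQ) ^ kB ≤ Y ^ kB := pow_le_pow_left₀ (by linarith) (by linarith) _
    have m2 : (1 + len s) ^ kB ≤ Y ^ kB := pow_le_pow_left₀ (by linarith) (by linarith) _
    have m3 : (1 + len sQ + len s) ^ kH ≤ Y ^ kH := pow_le_pow_left₀ (by linarith) (by linarith) _
    have m4 : len (sQ - s) = len (s - sQ) := A1_len_sub_comm _ _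
    have f3 : |(H t sQ).det - (H t s).det| ≤ 2 * CB * CH * Y ^ (kB + kH) * len (s - sQ) := by
      refine f2.trans ?_
      have g1 : (H t sQ).nrm + (H t s).nrm ≤ 2 * CB * Y ^ kB := by
        have := mul_le_mul_of_nonneg_left m1 hCB.le
        have := mul_le_mul_of_nonneg_left m2 hCB.le
        linarith
      have g2 : SymM.dst (H t sQ) (H t s) ≤ CH * Y ^ kH * len (s - sQ) := by
        rw [m4] at n3
        refine n3.trans ?_
        gcongr
      calc ((H t sQ).nrm + (H t s).nrm) * SymM.dst (H t sQ) (H t s)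
          ≤ (2 * CB * Y ^ kB) * (CH * Y ^ kH * len (s - sQ)) :=
            mul_le_mul g1 g2 (H1_dst_nonneg _ _) (by positivity)
        _ = _ := by rw [pow_add]; ring
    have f4 : Real.sqrt |(H t sQ).det - (H t s).det| ≤
        Real.sqrt ((2 * CB * CH + 1) ^ 2 * YK ^ 2 * len (s - sQ)) := by
      refine Real.sqrt_le_sqrt (f3.trans ?_)
      refine mul_le_mul_of_nonneg_right ?_ hℓ
      have g1 : Y ^ (kB + kH) ≤ YK := pow_le_pow_right₀ hY1 (by omega)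
      have g2 : YK ≤ YK ^ 2 := le_self_pow₀ hYK1 two_ne_zero
      have g3 : 2 * CB * CH ≤ (2 * CB * CH + 1) ^ 2 := by
        have hz : 0 ≤ 2 * CB * CH := by positivity
        generalize 2 * CB * CH = z at hz
        nlinarith
      exact mul_le_mul g3 (g1.trans g2) (by positivity) (by positivity)
    refine f4.trans (le_of_eq ?_)
    rw [Real.sqrt_mul (by positivity), ← mul_pow, Real.sqrt_sq (by positivity)]
  -- combination
  have hs0 : 0 ≤ Real.sqrt M.det := Real.sqrt_nonneg _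
  have hr1 : r ≤ 1 + |r - 1| := by linarith [le_abs_self (r - 1)]
  have k1 : r * Real.sqrt M.det ≤ Real.sqrt M.det + |r - 1| * Real.sqrt M.det := by
    have := mul_le_mul_of_nonneg_right hr1 hs0
    linarith
  have k2 : |r - 1| * Real.sqrt M.det ≤ |r - 1| * ((CB + ε₁) * YK) := by
    refine mul_le_mul_of_nonneg_left ?_ (abs_nonneg _)
    have := le_mul_of_one_le_right hε.le hYK1
    linarith
  have k3 : r * Real.sqrt M.det ≤ Real.sqrt (H t s).det + ε₁ +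
      (2 * CB * CH + 1) * YK * Real.sqrt (len (s - sQ)) + |r - 1| * ((CB + ε₁) * YK) := by
    linarith
  have k4 := mul_le_mul_of_nonneg_left k3 hlam
  have k5 : Ct * (1 + len s) ^ kt * lam ^ 2 ≤ Ct * YK * lam ^ 2 := by gcongr
  have p1 : 0 ≤ lam * |r - 1| := by positivity
  have p2 : 0 ≤ lam * Real.sqrt (len (s - sQ)) := by positivity
  have p3 : 0 ≤ lam ^ 2 := by positivity
  have q1 : 0 ≤ YK * (lam * |r - 1|) := by positivity
  have q2 : 0 ≤ YK * (lam * Real.sqrt (len (s - sQ))) := by positivity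
  have q3 : 0 ≤ YK * lam ^ 2 := by positivity
  have w1 : 0 ≤ Ct * (YK * (lam * |r - 1|)) := by positivity
  have w2 : 0 ≤ Ct * (YK * (lam * Real.sqrt (len (s - sQ)))) := by positivity
  have w3 : 0 ≤ (CB + ε₁) * (YK * (lam * Real.sqrt (len (s - sQ)))) := by positivity
  have w4 : 0 ≤ (CB + ε₁) * (YK * lam ^ 2) := by positivity
  have w5 : 0 ≤ (2 * CB * CH + 1) * (YK * (lam * |r - 1|)) := by positivity
  have w6 : 0 ≤ (2 * CB * CH + 1) * (YK * lam ^ 2) := by positivity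
  calc V t s + lam * r * Real.sqrt M.det = V t s + lam * (r * Real.sqrt M.det) := by ring
    _ ≤ (V (t + lam) s - lam * Real.sqrt (H t s).det + Ct * YK * lam ^ 2) +
        lam * (Real.sqrt (H t s).det + ε₁ +
      (2 * CB * CH + 1) * YK * Real.sqrt (len (s - sQ)) + |r - 1| * ((CB + ε₁) * YK)) := by
        linarith
    _ = V (t + lam) s + lam * ε₁ + (Ct * (YK * lam ^ 2) +
        (2 * CB * CH + 1) * (YK * (lam * Real.sqrt (len (s - sQ)))) +
        (CB + ε₁) * (YK * (lam * |r - 1|))) := by ring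
    _ ≤ V (t + lam) s + lam * ε₁ + (Ct + (CB + ε₁) + (2 * CB * CH + 1)) * YK *
        (lam * |r - 1| + lam * Real.sqrt (len (s - sQ)) + lam ^ 2) := by
        linarith

end Match2D

end

section

/-!
MP_884187_pr, item L3, part c: one step at a point, for the actual process.
-/

open MeasureTheory Set Filter Topology

namespace Match2D

/-- The data of the verification for one `n`. -/
structure L3Q {B : ℝ} (W : ℝ → ℝ × ℝ → ℝ) (S : ℝ → ℝ × ℝ → ℝ × ℝ) (HI : ℝ → ℝ × ℝ → SymM)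
    (τ T R' R₀ R e C Cg : ℝ) (m n J : ℕ) (C₀ δ C₁ c lam Λ η θ : ℝ)
    (ζ : UM B → Dig m → ℝ × ℝ → ℝ) (dζ : UM B → Dig m → ℝ × ℝ → ℝ × ℝ)
    (cM : ℕ → ℝ × ℝ → UM B) (cs : ℕ → ℝ × ℝ → ℝ) : Prop where
  hP : L3P W S HI τ T R' R₀ R e C Cg
  hK : KerL B m C₀ δ ζ dζ
  hm : 2 ≤ m
  hn : 2 ≤ n
  hX : ∀ I : Finset (Fin n), avg (fun δ : Fin n → Dig m => L3_X I δ ^ 4) ≤ c * (I.card : ℝ) ^ 2
  hc : 0 ≤ c
  hθ : 0 < θ
  hη1 : η ≤ 1
  hη2 : θ ≤ η ^ 2
  hη3 : θ⁻¹ ^ 3 / Real.log n ≤ η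
  hη4 : 1 / Real.log n ≤ η
  hη0 : 0 < η
  hC₁ : 0 < C₁
  hlam : 0 ≤ lam
  hΛ : 0 ≤ Λ
  hlam' : lam ≤ Λ / Real.log n
  hT : τ + lam * J ≤ T
  hR1 : R₀ + C₁ * θ ≤ R
  hR2 : R' + C₁ * θ ≤ R₀
  meas : ∀ (j : ℕ) (ω : Seqs m n), Measurable (Gr θ dζ cM cs j ω)
  bG : ∀ (j : ℕ) (ω : Seqs m n), ∀ x ∈ Sq, len (Gr θ dζ cM cs j ω x) ≤ R
  dG : ∀ (j : ℕ) (ω : Seqs m n), ∀ x ∈ Sq,
    len (Gr θ dζ cM cs (j + 1) ω x - Gr θ dζ cM cs j ω x) ≤ C₁ * θ
  cG : ∀ (j : ℕ) (ω : Seqs m n), ∀ x ∈ Sq0,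
    len (Gr θ dζ cM cs j ω x - Gr θ dζ cM cs j ω (corner m j (qidx m j x))) ≤ C₁ * θ
  ad : ∀ (j : ℕ) (ω : Seqs m n) (d : Fin n → Dig m),
    Gr θ dζ cM cs j (Function.update ω j d) = Gr θ dζ cM cs j ω
  cs0 : ∀ j g, 0 ≤ cs j g ∧ cs j g ≤ C
  cs1 : ∀ j g, R₀ < len g → cs j g = 0
  cs2 : ∀ j, j < J → ∀ g, len g ≤ R₀ →
    cs j g = Real.sqrt (HI (τ + lam * (J - (j + 1))) g).det ∧
    (cM j g).1 = (HI (τ + lam * (J - (j + 1))) g).unit

section Point2

variable {B : ℝ} {W : ℝ → ℝ × ℝ → ℝ} {S : ℝ → ℝ × ℝ → ℝ × ℝ} {HI : ℝ → ℝ × ℝ → SymM}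
  {τ T R' R₀ R e C Cg : ℝ} {m n J : ℕ} [NeZero m] {C₀ δ C₁ c lam Λ η θ : ℝ}
  {ζ : UM B → Dig m → ℝ × ℝ → ℝ} {dζ : UM B → Dig m → ℝ × ℝ → ℝ × ℝ}
  {cM : ℕ → ℝ × ℝ → UM B} {cs : ℕ → ℝ × ℝ → ℝ}

theorem L3_corner_mem {m : ℕ} (hm : 0 < m) (j : ℕ) {x : ℝ × ℝ} (hx : x ∈ Sq0) :
    corner m j (qidx m j x) ∈ Sq :=
  emb_mem_Sq hm (qidx_lt hm j hx).1 (qidx_lt hm j hx).2
    ⟨⟨le_refl _, zero_le_one⟩, ⟨le_refl _, zero_le_one⟩⟩

/-- The average of the energy densities of the kernels in the cell `q`. -/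
noncomputable def L3_K (θ : ℝ) (dζ : UM B → Dig m → ℝ × ℝ → ℝ × ℝ) (cM : ℕ → ℝ × ℝ → UM B)
    (cs : ℕ → ℝ × ℝ → ℝ) (j : ℕ) (ω : Seqs m n) (q : ℕ × ℕ) (y : ℝ × ℝ) : ℝ :=
  avg (fun d => (cM j (Gr θ dζ cM cs j ω (corner m j q))).1.adj.qf
    (dζ (cM j (Gr θ dζ cM cs j ω (corner m j q))) d y))

theorem L3_K_nonneg (θ : ℝ) (dζ : UM B → Dig m → ℝ × ℝ → ℝ × ℝ) (cM : ℕ → ℝ × ℝ → UM B)
    (cs : ℕ → ℝ × ℝ → ℝ) (j : ℕ) (ω : Seqs m n) (q : ℕ × ℕ) (y : ℝ × ℝ) :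
    0 ≤ L3_K θ dζ cM cs j ω q y :=
  L3_avg_nonneg fun _ => L3_adj_nonneg _ (cM j _).2.1 (cM j _).2.2.1 _

theorem L3_pt_inc (h : L3Q W S HI τ T R' R₀ R e C Cg m n J C₀ δ C₁ c lam Λ η θ ζ dζ cM cs)
    (j : ℕ) (ω : Seqs m n) (d : Fin n → Dig m) (x : ℝ × ℝ) :
    Gr θ dζ cM cs (j + 1) (Function.update ω j d) x = Gr θ dζ cM cs j ω x +
      cs j (Gr θ dζ cM cs j ω (corner m j (qidx m j x))) •
        L3_inc (stp m n j) θ (inCell ω j (qidx m j x))
          (fun a => dζ (cM j (Gr θ dζ cM cs j ω (corner m j (qidx m j x)))) a (loc m j x)) d := by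
  rw [L1_Gr_succ, h.ad]
  congr 1
  unfold L1_E
  rw [h.ad, inCell_update ω le_rfl, Function.update_self]
  by_cases hg : stp m n j * L3_X (inCell ω j (qidx m j x)) d ≤ θ
  · have hg' : Good θ (Function.update ω j d) j (qidx m j x) := by
      unfold Good
      rw [inCell_update ω le_rfl, Function.update_self]
      exact hg
    unfold L3_inc
    rw [if_pos hg', if_pos hg, smul_smul]
    rfl
  · have hg' : ¬ Good θ (Function.update ω j d) j (qidx m j x) := by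
      unfold Good
      rw [inCell_update ω le_rfl, Function.update_self]
      exact hg
    unfold L3_inc
    rw [if_neg hg', if_neg hg, smul_zero]

theorem L3_pt_value (h : L3Q W S HI τ T R' R₀ R e C Cg m n J C₀ δ C₁ c lam Λ η θ ζ dζ cM cs)
    (hC3 : StmtC3') {j : ℕ} (hj : j < J) (ω : Seqs m n) {z : ℝ × ℝ} (hz : z ∈ Sq0) :
    avg (fun d => W (τ + lam * (J - (j + 1)))
      (Gr θ dζ cM cs (j + 1) (Function.update ω j d) z)) ≤
      W (τ + lam * (J - j)) (Gr θ dζ cM cs j ω z) +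
      lam * cs j (Gr θ dζ cM cs j ω (corner m j (qidx m j z))) +
      lam * e * (1 + len (Gr θ dζ cM cs j ω z) ^ 2) +
      cs j (Gr θ dζ cM cs j ω (corner m j (qidx m j z))) / 2 *
        (rdens ω j (qidx m j z) / Real.log n) *
        L3_K θ dζ cM cs j ω (qidx m j z) (loc m j z) +
      (C ^ 2 * C₀ * c + 3 * C ^ 7 * C₁ * C₀ ^ 2 * (1 + c) + 2 * C * (1 + C₁) * Λ + C * Λ ^ 2) /
        Real.log n * η * (1 + rdens ω j (qidx m j z) ^ 2) := by
  classical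
  have hm0 : 0 < m := by linarith [h.hm]
  have hC := h.hP.hC
  have hC0 : 0 < C := by linarith
  have hθ := h.hθ
  have hη0 := h.hη0
  have hC₁ := h.hC₁
  have hΛ := h.hΛ
  have hc := h.hc
  have hC₀ := h.hK.pos
  have hlam := h.hlam
  have hL : 0 < Real.log n := Real.log_pos (by exact_mod_cast (by linarith [h.hn] : 1 < n))
  have hzS : z ∈ Sq := Sq0_subset_Sq hz
  set L := Real.log n with hLd
  set t' := τ + lam * (J - (j + 1)) with ht'
  set t := τ + lam * (J - j) with ht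
  set g := Gr θ dζ cM cs j ω z with hg
  set Q := qidx m j z with hQ
  set gQ := Gr θ dζ cM cs j ω (corner m j Q) with hgQ
  set r := rdens ω j Q with hr
  have hj' : ((j : ℝ) + 1) ≤ J := by exact_mod_cast hj
  have ht'1 : t' ∈ Icc τ T := by
    refine ⟨?_, ?_⟩
    · rw [ht']
      nlinarith
    · rw [ht']
      have : lam * (J - (j + 1)) ≤ lam * J := by
        apply mul_le_mul_of_nonneg_left _ hlam
        have : (0 : ℝ) ≤ j := Nat.cast_nonneg _
        linarith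
      linarith [h.hT]
  have ht1 : t ∈ Icc τ T := by
    refine ⟨?_, ?_⟩
    · rw [ht]
      nlinarith
    · rw [ht]
      have : lam * (J - j) ≤ lam * J := by
        apply mul_le_mul_of_nonneg_left _ hlam
        have : (0 : ℝ) ≤ j := Nat.cast_nonneg _
        linarith
      linarith [h.hT]
  have htt : t - t' = lam := by
    rw [ht, ht']
    ring
  have ht't : t' ∈ Icc τ t := ⟨ht'1.1, by linarith⟩
  have hgR : len g ≤ R := h.bG j ω z hzS
  have hgQR : len gQ ≤ R := h.bG j ω _ (L3_corner_mem hm0 j hz)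
  have hgg : len (g - gQ) ≤ C₁ * θ := h.cG j ω z hz
  have hr0 : 0 ≤ r := rdens_nonneg _ _ _
  have hK0 := L3_K_nonneg θ dζ cM cs j ω Q (loc m j z)
  have htime := h.hP.time t ht1 t' ht't g hgR
  rw [htt] at htime
  have hcs0 : 0 ≤ cs j gQ := (h.cs0 j gQ).1
  -- error in the time step
  have hlam2 : C * lam ^ 2 ≤ C * Λ ^ 2 / L * η := by
    have h1 : lam ^ 2 ≤ (Λ / L) ^ 2 := pow_le_pow_left₀ hlam h.hlam' 2
    calc C * lam ^ 2 ≤ C * (Λ / L) ^ 2 := mul_le_mul_of_nonneg_left h1 hC0.le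
      _ = C * Λ ^ 2 / L * (1 / L) := by
        field_simp
      _ ≤ C * Λ ^ 2 / L * η := mul_le_mul_of_nonneg_left h.hη4 (by positivity)
  have hone : (1 : ℝ) ≤ 1 + r ^ 2 := by nlinarith [sq_nonneg r]
  have hlamη : lam * (2 * C * (1 + C₁) * η) ≤ 2 * C * (1 + C₁) * Λ / L * η := by
    calc lam * (2 * C * (1 + C₁) * η) ≤ (Λ / L) * (2 * C * (1 + C₁) * η) :=
          mul_le_mul_of_nonneg_right h.hlam' (by positivity)
      _ = 2 * C * (1 + C₁) * Λ / L * η := by ring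
  -- the step of the field
  have hvalue : avg (fun d => W t' (Gr θ dζ cM cs (j + 1) (Function.update ω j d) z)) ≤ W t' g +
      cs j gQ / 2 * (r / L) * L3_K θ dζ cM cs j ω Q (loc m j z) +
      (C ^ 2 * C₀ * c + 3 * C ^ 7 * C₁ * C₀ ^ 2 * (1 + c)) / L * η * (1 + r ^ 2) := by
    by_cases hact : len gQ ≤ R₀
    · obtain ⟨c1, c2⟩ := h.cs2 j hj gQ hact
      have hinc := fun d => L3_pt_inc h j ω d z
      rw [← hQ, ← hgQ, ← hg] at hinc
      have hv : ∀ d, len (dζ (cM j gQ) d (loc m j z)) ≤ C₀ := fun d => (h.hK.bdd _ d _).2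
      have hθη : θ ≤ η := h.hη2.trans (by nlinarith [h.hη1])
      have key := L3_value h.hP hC3 (inCell ω j Q) (fun a => dζ (cM j gQ) a (loc m j z))
        (C₀ := C₀) (s := stp m n j) (θ := θ) (c := c) (L := L) (r := r) (η := η) (c₁ := C₁)
        (stp_nonneg _ _ _) hθ hC₀.le hv hc (h.hX _) hL (stp_sq_mul_card h.hn ω j Q) hθη h.hη3
        hC₁.le ht'1 hgR hact hgg
      rw [← c1, ← c2] at key
      have key2 := key (fun d => by
        rw [← hinc d]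
        exact h.bG _ _ z hzS) (fun d => by
        have h5 := h.dG j (Function.update ω j d) z hzS
        rw [h.ad, hinc d, ← hg, add_sub_cancel_left] at h5
        exact h5)
      have e1 : (fun d => W t' (Gr θ dζ cM cs (j + 1) (Function.update ω j d) z)) =
          fun d => W t' (g + cs j gQ • L3_inc (stp m n j) θ (inCell ω j Q)
            (fun a => dζ (cM j gQ) a (loc m j z)) d) := by
        funext d
        rw [hinc d]
      rw [e1]
      refine key2.trans (le_of_eq ?_)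
      unfold L3_K
      rw [← hgQ]
      ring
    · push Not at hact
      have hcz := h.cs1 j gQ hact
      have e1 : (fun d => W t' (Gr θ dζ cM cs (j + 1) (Function.update ω j d) z)) =
          fun _ : Fin n → Dig m => W t' g := by
        funext d
        rw [L3_pt_inc h, ← hQ, ← hgQ, hcz, zero_smul, add_zero]
      have hne : Nonempty (Fin n → Dig m) := ⟨fun _ => (0, 0)⟩
      rw [e1, C2_avg_const, hcz]
      have : 0 ≤ (C ^ 2 * C₀ * c + 3 * C ^ 7 * C₁ * C₀ ^ 2 * (1 + c)) / L * η * (1 + r ^ 2) := by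
        positivity
      linarith [this]
  -- the determinant
  have hdet : Real.sqrt (HI t' g).det ≤ cs j gQ + 2 * C * (1 + C₁) * η +
      e * (1 + len g ^ 2) := by
    have he := h.hP.he
    by_cases hact : len gQ ≤ R₀
    · obtain ⟨c1, c2⟩ := h.cs2 j hj gQ hact
      have d1 := (h.hP.pos t' ht'1 g hgR).2
      have d2 := (h.hP.pos t' ht'1 gQ hgQR).2
      have h1 := L3_sqrt_sub _ _ d1.le d2.le
      have h2 : |(HI t' g).det - (HI t' gQ).det| ≤ (2 * C * (1 + C₁) * η) ^ 2 := by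
        refine (L3_det_sub _ _).trans ?_
        have h3 : SymM.dst (HI t' g) (HI t' gQ) ≤ C * (C₁ * θ) :=
          (h.hP.hlip t' ht'1 g gQ hgR hgQR).trans (mul_le_mul_of_nonneg_left hgg hC0.le)
        calc ((HI t' g).nrm + (HI t' gQ).nrm) * SymM.dst (HI t' g) (HI t' gQ) ≤
            (C + C) * (C * (C₁ * θ)) := by
              refine mul_le_mul (add_le_add (h.hP.bH t' ht'1 g hgR) (h.hP.bH t' ht'1 gQ hgQR)) h3
                (L3_dst_nonneg _ _) (by positivity)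
          _ ≤ (C + C) * (C * (C₁ * η ^ 2)) := by
              have := h.hη2
              gcongr
          _ ≤ (2 * C * (1 + C₁) * η) ^ 2 := by
              have h6 : C₁ * η ^ 2 ≤ 2 * (1 + C₁) ^ 2 * η ^ 2 :=
                mul_le_mul_of_nonneg_right (by nlinarith) (sq_nonneg _)
              have h7 : 2 * C ^ 2 * (C₁ * η ^ 2) ≤ 2 * C ^ 2 * (2 * (1 + C₁) ^ 2 * η ^ 2) :=
                mul_le_mul_of_nonneg_left h6 (by positivity)
              calc (C + C) * (C * (C₁ * η ^ 2)) = 2 * C ^ 2 * (C₁ * η ^ 2) := by ring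
                _ ≤ 2 * C ^ 2 * (2 * (1 + C₁) ^ 2 * η ^ 2) := h7
                _ = _ := by ring
      have h4 : Real.sqrt |(HI t' g).det - (HI t' gQ).det| ≤ 2 * C * (1 + C₁) * η := by
        rw [Real.sqrt_le_iff]
        exact ⟨by positivity, h2⟩
      rw [c1]
      have h5 : 0 ≤ e * (1 + len g ^ 2) := by positivity
      linarith
    · push Not at hact
      have h1 : R' ≤ len g := by
        have h2 : len gQ ≤ len g + len (g - gQ) := by
          have := A1_len_add_le g (gQ - g)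
          rw [add_sub_cancel, A1_len_sub_comm gQ g] at this
          exact this
        have h3 := h.hR2
        linarith
      have h2 := h.hP.loss t' ht'1 g hgR h1
      have h3 : 0 ≤ 2 * C * (1 + C₁) * η := by positivity
      linarith
  have hdet2 : lam * Real.sqrt (HI t' g).det ≤ lam * cs j gQ + lam * (2 * C * (1 + C₁) * η) +
      lam * e * (1 + len g ^ 2) := by
    have := mul_le_mul_of_nonneg_left hdet hlam
    linarith [this]
  have e3 : (C ^ 2 * C₀ * c + 3 * C ^ 7 * C₁ * C₀ ^ 2 * (1 + c) + 2 * C * (1 + C₁) * Λ +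
      C * Λ ^ 2) / L * η * (1 + r ^ 2) =
      (C ^ 2 * C₀ * c + 3 * C ^ 7 * C₁ * C₀ ^ 2 * (1 + c)) / L * η * (1 + r ^ 2) +
      (2 * C * (1 + C₁) * Λ / L * η + C * Λ ^ 2 / L * η) * (1 + r ^ 2) := by ring
  have e4 : 2 * C * (1 + C₁) * Λ / L * η + C * Λ ^ 2 / L * η ≤
      (2 * C * (1 + C₁) * Λ / L * η + C * Λ ^ 2 / L * η) * (1 + r ^ 2) :=
    le_mul_of_one_le_right (by positivity) hone
  rw [e3]
  linarith

open Classical in
theorem L3_pt_moment (h : L3Q W S HI τ T R' R₀ R e C Cg m n J C₀ δ C₁ c lam Λ η θ ζ dζ cM cs)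
    (hC3 : StmtC3') {j : ℕ} (hj : j < J) (ω : Seqs m n) {z : ℝ × ℝ} (hz : z ∈ Sq0) :
    avg (fun d => len (Gr θ dζ cM cs (j + 1) (Function.update ω j d) z) ^ 2) ≤
      len (Gr θ dζ cM cs j ω z) ^ 2 +
      (if len (Gr θ dζ cM cs j ω (corner m j (qidx m j z))) ≤ R₀ then
        Cg * (1 + len (Gr θ dζ cM cs j ω (corner m j (qidx m j z))) ^ 2) *
        (rdens ω j (qidx m j z) / Real.log n) else 0) *
        L3_K θ dζ cM cs j ω (qidx m j z) (loc m j z) +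
      2 * R * C * C₀ * c / Real.log n * η * (1 + rdens ω j (qidx m j z) ^ 2) := by
  have hm0 : 0 < m := by linarith [h.hm]
  have hC := h.hP.hC
  have hC0 : 0 < C := by linarith
  have hθ := h.hθ
  have hη0 := h.hη0
  have hc := h.hc
  have hC₀ := h.hK.pos
  have hlam := h.hlam
  have hR0 : 0 < R := by linarith [h.hP.hR, h.hP.hR₀, h.hP.hR']
  have hL : 0 < Real.log n := Real.log_pos (by exact_mod_cast (by linarith [h.hn] : 1 < n))
  have hzS : z ∈ Sq := Sq0_subset_Sq hz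
  set L := Real.log n with hLd
  set t' := τ + lam * (J - (j + 1)) with ht'
  set g := Gr θ dζ cM cs j ω z with hg
  set Q := qidx m j z with hQ
  set gQ := Gr θ dζ cM cs j ω (corner m j Q) with hgQ
  set r := rdens ω j Q with hr
  have hj' : ((j : ℝ) + 1) ≤ J := by exact_mod_cast hj
  have ht'1 : t' ∈ Icc τ T := by
    refine ⟨?_, ?_⟩
    · rw [ht']
      nlinarith
    · rw [ht']
      have : lam * (J - (j + 1)) ≤ lam * J := by
        apply mul_le_mul_of_nonneg_left _ hlam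
        have : (0 : ℝ) ≤ j := Nat.cast_nonneg _
        linarith
      linarith [h.hT]
  have hgR : len g ≤ R := h.bG j ω z hzS
  by_cases hact : len gQ ≤ R₀
  · obtain ⟨c1, c2⟩ := h.cs2 j hj gQ hact
    have hinc := fun d => L3_pt_inc h j ω d z
    rw [← hQ, ← hgQ, ← hg] at hinc
    have hv : ∀ d, len (dζ (cM j gQ) d (loc m j z)) ≤ C₀ := fun d => (h.hK.bdd _ d _).2
    have key := L3_moment h.hP hC3 (inCell ω j Q) (fun a => dζ (cM j gQ) a (loc m j z))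
      (C₀ := C₀) (s := stp m n j) (θ := θ) (c := c) (L := L) (r := r) (η := η)
      (stp_nonneg _ _ _) hθ hC₀.le hv hc (h.hX _) hL (stp_sq_mul_card h.hn ω j Q) h.hη3
      ht'1 hgR hact
    rw [← c1, ← c2] at key
    have e1 : (fun d => len (Gr θ dζ cM cs (j + 1) (Function.update ω j d) z) ^ 2) =
        fun d => len (g + cs j gQ • L3_inc (stp m n j) θ (inCell ω j Q)
          (fun a => dζ (cM j gQ) a (loc m j z)) d) ^ 2 := by
      funext d
      rw [hinc d]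
    rw [e1, if_pos hact]
    refine key.trans (le_of_eq ?_)
    unfold L3_K
    rw [← hgQ]
    ring
  · rw [if_neg hact]
    push Not at hact
    have hcz := h.cs1 j gQ hact
    have e1 : (fun d => len (Gr θ dζ cM cs (j + 1) (Function.update ω j d) z) ^ 2) =
        fun _ : Fin n → Dig m => len g ^ 2 := by
      funext d
      rw [L3_pt_inc h, ← hQ, ← hgQ, hcz, zero_smul, add_zero]
    have hne : Nonempty (Fin n → Dig m) := ⟨fun _ => (0, 0)⟩
    rw [e1, C2_avg_const]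
    have : 0 ≤ 2 * R * C * C₀ * c / L * η * (1 + r ^ 2) := by positivity
    linarith

end Point2

end Match2D

end

section

/-!
Module G of MP_884187_pr: assembly of `VFacts`.
-/

set_option autoImplicit false

open MeasureTheory Set Filter Topology

namespace Match2D.MG

section

variable {p : ℝ} {x : ℝ → ℝ} (hx : IsProf0 p x)
include hx

theorem IsProf0.continuous_FF {κ : ℝ} : Continuous (FF p κ x) :=
  continuous_iff_continuousAt.mpr fun y => (hx.hasDerivAt_FF y).continuousAt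

omit hx in
theorem IsProf0.VV_zero {κ t : ℝ} : VV p κ x t 0 = κ * t ^ (p / 2) := by
  unfold VV
  rw [sgm_zero, FF_zero, mul_comm]

theorem IsProf0.VV_lower {t : ℝ} (ht : 0 < t) (s : ℝ × ℝ) : len s ^ p ≤ VV p (kap p x) x t s := by
  have h1 := hx.FF_lower (sgm_nonneg ht s)
  have h2 : len s ^ p = t ^ (p / 2) * (2 * sgm t s) ^ (p / 2) := by
    rw [← Real.mul_rpow ht.le (by have := sgm_nonneg ht s; positivity)]
    have e : t * (2 * sgm t s) = len s ^ 2 := by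
      rw [sgm_eq]
      field_simp
    rw [e, ← Real.rpow_natCast, ← Real.rpow_mul (len_nonneg s)]
    congr 1
    push_cast
    ring
  rw [h2]
  exact mul_le_mul_of_nonneg_left h1 (by positivity)

theorem IsProf0.VV_upper {δ : ℝ} (hδ : 0 < δ) : ∃ C, 0 < C ∧ ∀ t, 0 < t → ∀ s,
    VV p (kap p x) x t s ≤ (1 + δ) * len s ^ p + C * t ^ (p / 2) := by
  obtain ⟨C, hC, hC'⟩ := hx.FF_upper hδ
  refine ⟨C, hC, fun t ht s => ?_⟩
  have h1 := hC' _ (sgm_nonneg ht s)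
  have h2 : len s ^ p = t ^ (p / 2) * (2 * sgm t s) ^ (p / 2) := by
    rw [← Real.mul_rpow ht.le (by have := sgm_nonneg ht s; positivity)]
    have e : t * (2 * sgm t s) = len s ^ 2 := by
      rw [sgm_eq]
      field_simp
    rw [e, ← Real.rpow_natCast, ← Real.rpow_mul (len_nonneg s)]
    congr 1
    push_cast
    ring
  rw [h2]
  have h3 : 0 < t ^ (p / 2) := Real.rpow_pos_of_pos ht _
  calc VV p (kap p x) x t s ≤ t ^ (p / 2) * ((1 + δ) * (2 * sgm t s) ^ (p / 2) + C) :=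
        mul_le_mul_of_nonneg_left h1 h3.le
    _ = _ := by ring

variable {κ : ℝ} (hκ : 0 < κ)
include hκ

theorem IsProf0.cont_HH {t : ℝ} (ht : 0 < t) : Continuous (fun s => (HH p κ x t s).a) ∧
    Continuous (fun s => (HH p κ x t s).b) ∧ Continuous (fun s => (HH p κ x t s).c) := by
  obtain ⟨C, k, hC, hk⟩ := hx.hlip_HH hκ (T := t) ht
  have key : ∀ f : ℝ × ℝ → ℝ, (∀ s s', |f s - f s'| ≤ SymM.dst (HH p κ x t s) (HH p κ x t s')) →
      Continuous f := by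
    intro f hf
    rw [continuous_iff_continuousAt]
    intro s'
    rw [ContinuousAt, tendsto_iff_norm_sub_tendsto_zero]
    have hlim : Tendsto (fun s => C * (1 + len s + len s') ^ k * len (s - s')) (𝓝 s')
        (𝓝 (C * (1 + len s' + len s') ^ k * len (s' - s'))) := by
      have hc : Continuous (fun s => C * (1 + len s + len s') ^ k * len (s - s')) := by
        have h1 := continuous_len
        have h2 : Continuous (fun s => len (s - s')) :=
          continuous_len.comp (continuous_id.sub continuous_const)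
        fun_prop
      exact hc.tendsto s'
    rw [sub_self, len_zero, mul_zero] at hlim
    refine squeeze_zero (fun s => norm_nonneg _) (fun s => ?_) hlim
    exact (hf s s').trans (hk t ⟨le_rfl, le_rfl⟩ s s')
  refine ⟨key _ fun s s' => ?_, key _ fun s s' => ?_, key _ fun s s' => ?_⟩ <;>
  · unfold SymM.dst
    have h1 := abs_nonneg ((HH p κ x t s).a - (HH p κ x t s').a)
    have h2 := abs_nonneg ((HH p κ x t s).b - (HH p κ x t s').b)
    have h3 := abs_nonneg ((HH p κ x t s).c - (HH p κ x t s').c)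
    linarith

theorem IsProf0.VV_bounds {τ T : ℝ} (hτ : 0 < τ) : ∃ (C : ℝ) (k : ℕ), 0 < C ∧ ∀ t ∈ Icc τ T,
    ∀ s, |VV p κ x t s| ≤ C * (1 + len s) ^ k ∧ len (GG p κ x t s) ≤ C * (1 + len s) ^ k ∧
    (HH p κ x t s).nrm ≤ C * (1 + len s) ^ k := by
  have hm := mm_nonneg τ T
  have hs1 := pb_sg1 (T := T) hτ
  have hs0 : ∀ i ∈ DD τ T, 0 ≤ sgm i.1 i.2.1 := fun i hi => sgm_nonneg (hτ.trans_le hi.1) _
  have hg : PB (DD τ T) mm (fun i => gam p κ x (sgm i.1 i.2.1)) :=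
    (hx.pg_gam hκ).comp hm hs1 hs0
  have hgw : PB (DD τ T) mm (fun i => gam p κ x (sgm i.1 i.2.1) * ww x (sgm i.1 i.2.1)) :=
    (hx.pg_gw hκ).comp hm hs1 hs0
  have hF : PB (DD τ T) mm (fun i => FF p κ x (sgm i.1 i.2.1)) :=
    (hx.pg_FF hκ).comp hm hs1 hs0
  have b1 : PB (DD τ T) mm (fun i => |i.1 ^ (p / 2) * FF p κ x (sgm i.1 i.2.1)|) :=
    ((pb_rpow hτ _).mul hF).abs
  have b2 : PB (DD τ T) mm (fun i => |i.1 ^ (p / 2 - 1) * gam p κ x (sgm i.1 i.2.1)|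
      * len i.2.1) := ((pb_rpow hτ _).mul hg).abs.mul pb_len1
  have b3 : PB (DD τ T) mm (fun i => 4 * (|i.1 ^ (p / 2 - 1)| * (|gam p κ x (sgm i.1 i.2.1)| +
      |gam p κ x (sgm i.1 i.2.1) * ww x (sgm i.1 i.2.1)| * (len i.2.1 ^ 2 * i.1⁻¹)))) :=
    ((pb_rpow hτ _).abs.mul (hg.abs.add hm (hgw.abs.mul
      ((pb_len1.pow hm 2).mul (pb_inv hτ))))).const_mul hm 4
  have b2' : ∀ i : ℝ × (ℝ × ℝ) × (ℝ × ℝ), i ∈ DD τ T → 0 ≤ |i.1 ^ (p / 2 - 1) *
      gam p κ x (sgm i.1 i.2.1)| * len i.2.1 := fun i _ => mul_nonneg (abs_nonneg _) (len_nonneg _)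
  obtain ⟨C, k, hC, hk⟩ := ((b1.add hm b2).add hm b3)
  refine ⟨C, k, hC, fun t ht s => ?_⟩
  have ht0 : 0 < t := hτ.trans_le ht.1
  have hk' := (le_abs_self _).trans (hk (t, s, 0) ht)
  have e0 : mm ((t, s, 0) : ℝ × (ℝ × ℝ) × (ℝ × ℝ)) = len s := by
    simp [mm, len_zero]
  rw [e0] at hk'
  simp only at hk'
  set g := gam p κ x (sgm t s) with hgdef
  set w := ww x (sgm t s) with hwdef
  set P := t ^ (p / 2 - 1) with hP
  have n1 : 0 ≤ |t ^ (p / 2) * FF p κ x (sgm t s)| := abs_nonneg _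
  have n2 : 0 ≤ |P * g| * len s := mul_nonneg (abs_nonneg _) (len_nonneg _)
  have hti : 0 < t⁻¹ := inv_pos.mpr ht0
  have n3 : 0 ≤ 4 * (|P| * (|g| + |g * w| * (len s ^ 2 * t⁻¹))) := by positivity
  have entry : ∀ a b : ℝ, |a| ≤ len s → |b| ≤ len s → |g * w * (a * b / t)|
      ≤ |g * w| * (len s ^ 2 * t⁻¹) := by
    intro a b ha hb
    rw [abs_mul]
    refine mul_le_mul_of_nonneg_left ?_ (abs_nonneg _)
    rw [div_eq_mul_inv, abs_mul, abs_of_pos hti, abs_mul, sq]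
    exact mul_le_mul_of_nonneg_right (mul_le_mul ha hb (abs_nonneg _) (len_nonneg _)) hti.le
  refine ⟨?_, ?_, ?_⟩
  · have : |VV p κ x t s| = |t ^ (p / 2) * FF p κ x (sgm t s)| := rfl
    rw [this]
    linarith
  · have : len (GG p κ x t s) = |P * g| * len s := len_smul _ _
    rw [this]
    linarith
  · have ea : |(HH p κ x t s).a| ≤ |P| * (|g| + |g * w| * (len s ^ 2 * t⁻¹)) := by
      have e : (HH p κ x t s).a = P * (g + g * w * (s.1 * s.1 / t)) := by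
        simp only [HH, g, w, P]
        ring
      rw [e, abs_mul]
      exact mul_le_mul_of_nonneg_left ((abs_add_le _ _).trans
        (add_le_add le_rfl (entry _ _ (abs_fst_le s) (abs_fst_le s)))) (abs_nonneg _)
    have ec : |(HH p κ x t s).c| ≤ |P| * (|g| + |g * w| * (len s ^ 2 * t⁻¹)) := by
      have e : (HH p κ x t s).c = P * (g + g * w * (s.2 * s.2 / t)) := by
        simp only [HH, g, w, P]
        ring
      rw [e, abs_mul]
      exact mul_le_mul_of_nonneg_left ((abs_add_le _ _).trans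
        (add_le_add le_rfl (entry _ _ (abs_snd_le s) (abs_snd_le s)))) (abs_nonneg _)
    have eb : |(HH p κ x t s).b| ≤ |P| * (|g| + |g * w| * (len s ^ 2 * t⁻¹)) := by
      have e : (HH p κ x t s).b = P * (g * w * (s.1 * s.2 / t)) := by
        simp only [HH, g, w, P]
      rw [e, abs_mul]
      refine mul_le_mul_of_nonneg_left ?_ (abs_nonneg _)
      have := entry _ _ (abs_fst_le s) (abs_snd_le s)
      linarith [abs_nonneg g]
    unfold SymM.nrm
    linarith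

omit hκ in
theorem IsProf0.tr_HH {t : ℝ} (ht : 0 < t) (s : ℝ × ℝ) :
    (HH p κ x t s).tr = t ^ (p / 2 - 1) * gam p κ x (sgm t s) * (1 + x (sgm t s) ^ 2) := by
  have h1 := hx.two_mul_ww (sgm_nonneg ht s)
  have h2 : 2 * sgm t s = s.1 ^ 2 / t + s.2 ^ 2 / t := by
    unfold sgm
    field_simp
  rw [h2] at h1
  simp only [HH, SymM.tr]
  linear_combination (t ^ (p / 2 - 1)) * (gam p κ x (sgm t s)) * h1

theorem IsProf0.HH_cond {τ T : ℝ} (hτ : 0 < τ) {ε : ℝ} (hε : 0 < ε) : ∃ B, 2 ≤ B ∧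
    ∀ t ∈ Icc τ T, ∀ s, ∃ M : SymM,
    0 < M.a ∧ 0 < M.det ∧ M.tr ≤ B * Real.sqrt M.det ∧ (∀ v, (HH p κ x t s).qf v ≤ M.qf v) ∧
    Real.sqrt M.det ≤ Real.sqrt (HH p κ x t s).det + ε := by
  have hp1 := hx.one_le_p
  rcases le_total 2 p with hp | hp
  · refine ⟨1 + p, by linarith, fun t ht s => ⟨HH p κ x t s, ?_, ?_, ?_, fun v => le_rfl, by
      linarith⟩⟩
    · exact hx.a_HH_pos hκ (hτ.trans_le ht.1) s
    · exact hx.det_HH_pos hκ (hτ.trans_le ht.1) s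
    · have ht0 : 0 < t := hτ.trans_le ht.1
      rw [hx.tr_HH ht0, hx.sqrt_det_HH hκ ht0]
      have hg := hx.gam_pos hκ (sgm t s)
      have htp : 0 < t ^ (p / 2 - 1) := Real.rpow_pos_of_pos ht0 _
      have hxp := hx.le_p' (sgm t s)
      have hx1 : 1 ≤ x (sgm t s) := by
        rcases le_or_gt (sgm t s) 0 with h | h
        · rw [hx.neg _ h]
        · exact hx.toIsProfile.one_le hp h
      have h1 : 1 + x (sgm t s) ^ 2 ≤ (1 + p) * x (sgm t s) := by nlinarith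
      calc t ^ (p / 2 - 1) * gam p κ x (sgm t s) * (1 + x (sgm t s) ^ 2)
          ≤ t ^ (p / 2 - 1) * gam p κ x (sgm t s) * ((1 + p) * x (sgm t s)) :=
            mul_le_mul_of_nonneg_left h1 (by positivity)
        _ = _ := by ring
  · obtain ⟨C0, hC0⟩ : ∃ C0 : ℝ, ∀ t ∈ Icc τ T, t ^ (p / 2 - 1) ≤ C0 := by
      obtain ⟨C, k, hC, hk⟩ := pb_rpow (T := T) hτ (p / 2 - 1)
      refine ⟨C, fun t ht => ?_⟩
      have h := hk (t, 0, 0) ht
      have e0 : mm ((t, 0, 0) : ℝ × (ℝ × ℝ) × (ℝ × ℝ)) = 0 := by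
        simp [mm, len_zero]
      rw [e0] at h
      exact (le_abs_self _).trans (by simpa using h)
    set Λ : ℝ := |C0| * (p * κ / 2) with hΛ
    have hΛ0 : 0 ≤ Λ := by
      have := hx.p_pos
      positivity
    have hx1 : ∀ r, x r ≤ 1 := by
      intro r
      rcases le_or_gt r 0 with h | h
      · rw [hx.neg _ h]
      · exact hx.toIsProfile.le_one hp h
    have hgle : ∀ r, 0 ≤ r → gam p κ x r ≤ p * κ / 2 := by
      intro r hr
      have hl : lam x r ≤ 0 := by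
        unfold lam
        have h := intervalIntegral.integral_nonneg (f := fun r => - ww x r) hr (μ := volume)
          (fun u hu => by
            have h1 : ww x u ≤ 0 := by
              have h2 := hx.two_mul_ww hu.1
              have h3 := hx1 u
              have h4 := hx.pos' u
              rcases eq_or_lt_of_le hu.1 with h5 | h5
              · rw [← h5, hx.ww_neg le_rfl]
              · have h6 : x u ^ 2 ≤ 1 := by nlinarith
                exact div_nonpos_of_nonpos_of_nonneg (by linarith) (by linarith)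
            linarith)
        rw [intervalIntegral.integral_neg] at h
        linarith
      have hc : 0 ≤ p * κ / 2 := by
        have := hx.p_pos
        positivity
      unfold gam
      have := Real.exp_le_one_iff.mpr hl
      nlinarith
    set δ : ℝ := min 1 (ε ^ 2 / (2 * Λ + 1)) with hδ
    have hδ0 : 0 < δ := lt_min one_pos (by positivity)
    have hδ1 : δ ≤ 1 := min_le_left _ _
    have hδ2 : (2 * Λ + 1) * δ ≤ ε ^ 2 := by
      have := min_le_right 1 (ε ^ 2 / (2 * Λ + 1))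
      rw [← hδ, le_div_iff₀ (by positivity)] at this
      linarith
    refine ⟨max 2 ((2 * Λ + 2) / δ), le_max_left _ _, fun t ht s => ?_⟩
    have ht0 : 0 < t := hτ.trans_le ht.1
    have htp : 0 < t ^ (p / 2 - 1) := Real.rpow_pos_of_pos ht0 _
    have hg := hx.gam_pos hκ (sgm t s)
    have htr : (HH p κ x t s).tr ≤ 2 * Λ := by
      rw [hx.tr_HH ht0]
      have h1 : t ^ (p / 2 - 1) * gam p κ x (sgm t s) ≤ Λ :=
        mul_le_mul ((hC0 t ht).trans (le_abs_self _)) (hgle _ (sgm_nonneg ht0 s)) hg.le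
          (abs_nonneg _)
      have h2 : 1 + x (sgm t s) ^ 2 ≤ 2 := by
        have := hx1 (sgm t s)
        have := hx.pos' (sgm t s)
        nlinarith
      have h3 : 0 < t ^ (p / 2 - 1) * gam p κ x (sgm t s) := by positivity
      nlinarith
    have hdet := hx.det_HH_pos hκ ht0 s
    have ha := hx.a_HH_pos hκ ht0 s
    have htr0 : 0 ≤ (HH p κ x t s).tr := by
      rw [hx.tr_HH ht0]
      positivity
    set H := HH p κ x t s with hH
    have hMdet : (⟨H.a + δ, H.b, H.c + δ⟩ : SymM).det = H.det + δ * H.tr + δ ^ 2 := by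
      simp only [SymM.det, SymM.tr]
      ring
    refine ⟨⟨H.a + δ, H.b, H.c + δ⟩, by simp only; linarith, ?_, ?_, ?_, ?_⟩
    · rw [hMdet]
      positivity
    · have h1 : δ ≤ Real.sqrt (⟨H.a + δ, H.b, H.c + δ⟩ : SymM).det := by
        rw [hMdet]
        refine Real.le_sqrt_of_sq_le ?_
        have : 0 ≤ δ * H.tr := by positivity
        linarith
      have h2 : (⟨H.a + δ, H.b, H.c + δ⟩ : SymM).tr = H.tr + 2 * δ := by
        simp only [SymM.tr]
        ring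
      rw [h2]
      have h3 : H.tr + 2 * δ ≤ 2 * Λ + 2 := by linarith
      have h4 : 2 * Λ + 2 = (2 * Λ + 2) / δ * δ := by field_simp
      calc H.tr + 2 * δ ≤ (2 * Λ + 2) / δ * δ := by rw [← h4]; exact h3
        _ ≤ (2 * Λ + 2) / δ * Real.sqrt (⟨H.a + δ, H.b, H.c + δ⟩ : SymM).det :=
            mul_le_mul_of_nonneg_left h1 (by positivity)
        _ ≤ _ := mul_le_mul_of_nonneg_right (le_max_right _ _) (Real.sqrt_nonneg _)
    · intro v
      have e : (⟨H.a + δ, H.b, H.c + δ⟩ : SymM).qf v = H.qf v + δ * (v.1 ^ 2 + v.2 ^ 2) := by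
        simp only [SymM.qf]
        ring
      rw [e]
      have : 0 ≤ δ * (v.1 ^ 2 + v.2 ^ 2) := by positivity
      linarith
    · rw [hMdet]
      rw [Real.sqrt_le_left (by positivity)]
      have h1 := Real.sq_sqrt hdet.le
      have h2 := Real.sqrt_nonneg H.det
      have h3 : δ * H.tr + δ ^ 2 ≤ ε ^ 2 := by
        have : δ * H.tr ≤ δ * (2 * Λ) := mul_le_mul_of_nonneg_left htr hδ0.le
        nlinarith
      nlinarith

omit hκ in
theorem IsProf0.vfacts : VFacts p (kap p x) (VV p (kap p x) x) (GG p (kap p x) x)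
    (HH p (kap p x) x) := by
  have hκ := kap_pos p x
  exact
    { zero := fun t _ => IsProf0.VV_zero
      cont := fun t _ => continuous_const.mul (hx.continuous_FF.comp (continuous_sgm t))
      contG := fun t _ => (continuous_const.mul (hx.continuous_gam.comp
        (continuous_sgm t))).smul continuous_id
      contH := fun t ht => hx.cont_HH hκ ht
      lower := fun t ht s => hx.VV_lower ht s
      upper := fun δ hδ => hx.VV_upper hδ
      posdef := fun t ht s => ⟨hx.a_HH_pos hκ ht s, hx.det_HH_pos hκ ht s⟩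
      bounds := by
        intro τ T hτ _
        obtain ⟨C, k, hC, hk⟩ := hx.VV_bounds hκ (T := T) hτ
        exact ⟨C, k, hC, fun t ht s => ⟨(le_abs_self _).trans (hk t ht s).1, (hk t ht s).2⟩⟩
      taylor := by
        intro τ T hτ _
        obtain ⟨C, k, hC, hk⟩ := hx.taylor2 hκ (T := T) hτ
        refine ⟨C, k, hC, fun t ht s Δ => ?_⟩
        have := (abs_le.mp (hk t ht s Δ)).2
        linarith
      hlip := fun τ T hτ _ => hx.hlip_HH hκ hτ
      time := by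
        intro τ T hτ _
        obtain ⟨C, k, hC, hk⟩ := hx.time2 hκ (T := T) hτ
        refine ⟨C, k, hC, fun t ht t' ht' s => ?_⟩
        have := (abs_le.mp (hk t ht t' ⟨ht'.1, ht'.2.trans ht.2⟩ s)).1
        linarith
      cond := fun τ T ε hτ _ hε => hx.HH_cond hκ hτ hε }

end

/-- Every profile may be changed to be `1` on the negative half line. -/
theorem exists_prof0 {p : ℝ} {x : ℝ → ℝ} (hp : 1 ≤ p) (hx : IsProfile p x) :
    ∃ y, IsProf0 p y ∧ kap p y = kap p x := by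
  refine ⟨fun r => if r ≤ 0 then 1 else x r, ⟨⟨?_, ?_, ?_⟩, hp, ?_⟩, ?_⟩
  · intro r hr
    simp only [not_le.mpr hr, if_false]
    exact hx.pos r hr
  · intro r hr
    have h := hx.ode r hr
    have hev : (fun r => if r ≤ 0 then (1 : ℝ) else x r) =ᶠ[𝓝 r] x := by
      filter_upwards [Ioi_mem_nhds hr] with y hy
      exact if_neg (not_le.mpr hy)
    have h2 := h.congr_of_eventuallyEq hev
    simp only [not_le.mpr hr, if_false]
    exact h2
  · have hev : x =ᶠ[𝓝[>] 0] (fun r => if r ≤ 0 then (1 : ℝ) else x r) := by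
      filter_upwards [self_mem_nhdsWithin] with y hy
      exact (if_neg (not_le.mpr hy)).symm
    exact hx.lim.congr' hev
  · intro r hr
    simp only [hr, if_true]
  · have e1 : (∫ r in Ioc (0 : ℝ) 1, (1 - (if r ≤ 0 then (1 : ℝ) else x r) ^ 2) / r)
        = ∫ r in Ioc (0 : ℝ) 1, (1 - x r ^ 2) / r := by
      refine setIntegral_congr_fun measurableSet_Ioc fun r hr => ?_
      simp only [not_le.mpr hr.1, if_false]
    have e2 : (∫ r in Ioi (1 : ℝ), (p - 1 - (if r ≤ 0 then (1 : ℝ) else x r) ^ 2) / r)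
        = ∫ r in Ioi (1 : ℝ), (p - 1 - x r ^ 2) / r := by
      refine setIntegral_congr_fun measurableSet_Ioi fun r hr => ?_
      have h1 : (1 : ℝ) < r := hr
      simp only [not_le.mpr (one_pos.trans h1), if_false]
    unfold kap
    rw [e1, e2]

end Match2D.MG

end

section

/-!
MP_884187_pr, item H1, part d: the integrated one step inequality.
-/

open MeasureTheory Set Filter Topology

namespace Match2D

@[fun_prop] theorem H1_cont_len : Continuous len := A1_continuous_len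

/-- The choice of the matrices used by the control. -/
def H1_IsChoice (τ T ε₁ B : ℝ) (H : ℝ → ℝ × ℝ → SymM) (Mc : ℝ → ℝ × ℝ → SymM) : Prop :=
  (∀ t s, 0 < (Mc t s).a ∧ 0 < (Mc t s).det ∧
    (Mc t s).tr ≤ B * Real.sqrt (Mc t s).det) ∧
  ∀ t ∈ Icc τ T, ∀ s, (∀ v, (H t s).qf v ≤ (Mc t s).qf v) ∧
    Real.sqrt (Mc t s).det ≤ Real.sqrt (H t s).det + ε₁

theorem H1_choice {p κ : ℝ} {V : ℝ → ℝ × ℝ → ℝ}
    {G : ℝ → ℝ × ℝ → ℝ × ℝ} {H : ℝ → ℝ × ℝ → SymM} (hV : VFacts p κ V G H)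
    (τ T ε₁ : ℝ) (hτ : 0 < τ) (hT : τ ≤ T) (hε : 0 < ε₁) :
    ∃ B, 2 ≤ B ∧ ∃ Mc, H1_IsChoice τ T ε₁ B H Mc := by
  classical
  obtain ⟨B, hB, h⟩ := hV.cond τ T ε₁ hτ hT hε
  refine ⟨B, hB, ?_⟩
  choose f hf using h
  refine ⟨fun t s => if ht : t ∈ Icc τ T then f t ht s else ⟨1, 0, 1⟩, ?_, ?_⟩
  · intro t s
    by_cases ht : t ∈ Icc τ T
    · simp only [dif_pos ht]
      exact ⟨(hf t ht s).1, (hf t ht s).2.1, (hf t ht s).2.2.1⟩
    · simp only [dif_neg ht]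
      refine ⟨one_pos, by simp [SymM.det], ?_⟩
      simp only [SymM.det, SymM.tr]
      norm_num
      linarith
  · intro t ht s
    simp only [dif_pos ht]
    exact ⟨(hf t ht s).2.2.2.1, (hf t ht s).2.2.2.2⟩

/-- The error term. -/
noncomputable def H1_err (h : ℝ) (K : ℕ) (a b ℓ r : ℝ) : ℝ :=
  5 * h * (1 + a + b + r) ^ (2 * K) + (r - 1) ^ 2 / h + 2 * ℓ ^ 2 / h ^ 3 + h

theorem H1_am (h x y : ℝ) (hh : 0 < h) : x * y ≤ h * x ^ 2 + y ^ 2 / h := by
  have e : h * x ^ 2 + y ^ 2 / h - x * y = ((h * x - y / 2) ^ 2 + 3 / 4 * y ^ 2) / h := by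
    field_simp
    ring
  have : 0 ≤ ((h * x - y / 2) ^ 2 + 3 / 4 * y ^ 2) / h := by positivity
  linarith

theorem H1_amgm (h Λ a b ℓ r : ℝ) (K : ℕ) (hh : 0 < h) (h1 : h ≤ 1) (ha : 0 ≤ a) (hb : 0 ≤ b)
    (hℓ : 0 ≤ ℓ) (hr : 0 ≤ r) (hΛ : 0 ≤ Λ) :
    (1 + a + b + r) ^ K * (ℓ * h ^ 4 + h ^ 6 +
      (Λ * h ^ 4 * |r - 1| + Λ * h ^ 4 * Real.sqrt ℓ + (Λ * h ^ 4) ^ 2)) ≤
    (1 + Λ) ^ 2 * h ^ 4 * H1_err h K a b ℓ r := by
  have hY1 : 1 ≤ 1 + a + b + r := by linarith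
  set y := (1 + a + b + r) ^ K with hy
  have hy1 : 1 ≤ y := one_le_pow₀ hY1
  have ey : (1 + a + b + r) ^ (2 * K) = y ^ 2 := by rw [hy, mul_comm, pow_mul]
  have hyy : y ≤ y ^ 2 := le_self_pow₀ hy1 two_ne_zero
  have hpow3 : h ^ 3 ≤ h := by nlinarith [mul_nonneg hh.le hh.le, mul_pos hh (mul_pos hh hh)]
  have hpow2 : h ^ 2 ≤ h := by nlinarith
  have hpow4 : h ^ 4 ≤ h := by nlinarith [mul_pos hh hh, pow_pos hh 3]
  have hℓ3 : ℓ ^ 2 / h ≤ ℓ ^ 2 / h ^ 3 :=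
    div_le_div_of_nonneg_left (sq_nonneg ℓ) (pow_pos hh 3) hpow3
  have T1 : y * ℓ ≤ h * y ^ 2 + ℓ ^ 2 / h ^ 3 := (H1_am h y ℓ hh).trans (by linarith)
  have T2 : y * h ^ 2 ≤ h * y ^ 2 := by
    calc y * h ^ 2 ≤ y ^ 2 * h := mul_le_mul hyy hpow2 (by positivity) (by positivity)
      _ = _ := by ring
  have T3 : y * |r - 1| ≤ h * y ^ 2 + (r - 1) ^ 2 / h := by
    have := H1_am h y |r - 1| hh
    rwa [sq_abs] at this
  have hs : Real.sqrt ℓ ^ 2 = ℓ := Real.sq_sqrt hℓ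
  have T4 : y * Real.sqrt ℓ ≤ h * y ^ 2 + (h + ℓ ^ 2 / h ^ 3) := by
    have e1 := H1_am h y (Real.sqrt ℓ) hh
    rw [hs] at e1
    have e2 := H1_am h 1 (ℓ / h) hh
    have e3 : (ℓ / h) ^ 2 / h = ℓ ^ 2 / h ^ 3 := by field_simp
    rw [e3] at e2
    linarith
  have T5 : y * h ^ 4 ≤ h * y ^ 2 := by
    calc y * h ^ 4 ≤ y ^ 2 * h := mul_le_mul hyy hpow4 (by positivity) (by positivity)
      _ = _ := by ring
  have c1 : (1 : ℝ) ≤ (1 + Λ) ^ 2 := by nlinarith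
  have c2 : Λ ≤ (1 + Λ) ^ 2 := by nlinarith
  have c3 : Λ ^ 2 ≤ (1 + Λ) ^ 2 := by nlinarith
  have n0 : 0 ≤ h * y ^ 2 := by positivity
  have n1 : 0 ≤ ℓ ^ 2 / h ^ 3 := by positivity
  have n2 : 0 ≤ (r - 1) ^ 2 / h := by positivity
  have S1 : y * ℓ ≤ (1 + Λ) ^ 2 * (h * y ^ 2 + ℓ ^ 2 / h ^ 3) :=
    T1.trans (le_mul_of_one_le_left (by positivity) c1)
  have S2 : y * h ^ 2 ≤ (1 + Λ) ^ 2 * (h * y ^ 2) := T2.trans (le_mul_of_one_le_left n0 c1)
  have S3 : Λ * (y * |r - 1|) ≤ (1 + Λ) ^ 2 * (h * y ^ 2 + (r - 1) ^ 2 / h) :=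
    mul_le_mul c2 T3 (by positivity) (by positivity)
  have S4 : Λ * (y * Real.sqrt ℓ) ≤ (1 + Λ) ^ 2 * (h * y ^ 2 + (h + ℓ ^ 2 / h ^ 3)) :=
    mul_le_mul c2 T4 (by positivity) (by positivity)
  have S5 : Λ ^ 2 * (y * h ^ 4) ≤ (1 + Λ) ^ 2 * (h * y ^ 2) :=
    mul_le_mul c3 T5 (by positivity) (by positivity)
  have hsum : y * (ℓ + h ^ 2 + (Λ * |r - 1| + Λ * Real.sqrt ℓ + Λ ^ 2 * h ^ 4)) ≤
      (1 + Λ) ^ 2 * H1_err h K a b ℓ r := by
    have e : (1 + Λ) ^ 2 * H1_err h K a b ℓ r = (1 + Λ) ^ 2 * (h * y ^ 2 + ℓ ^ 2 / h ^ 3) +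
        (1 + Λ) ^ 2 * (h * y ^ 2) + (1 + Λ) ^ 2 * (h * y ^ 2 + (r - 1) ^ 2 / h) +
        (1 + Λ) ^ 2 * (h * y ^ 2 + (h + ℓ ^ 2 / h ^ 3)) + (1 + Λ) ^ 2 * (h * y ^ 2) := by
      rw [H1_err, ey]
      ring
    rw [e]
    have e' : y * (ℓ + h ^ 2 + (Λ * |r - 1| + Λ * Real.sqrt ℓ + Λ ^ 2 * h ^ 4)) =
        y * ℓ + y * h ^ 2 + Λ * (y * |r - 1|) + Λ * (y * Real.sqrt ℓ) + Λ ^ 2 * (y * h ^ 4) := by
      ring
    rw [e']
    linarith
  calc y * (ℓ * h ^ 4 + h ^ 6 +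
      (Λ * h ^ 4 * |r - 1| + Λ * h ^ 4 * Real.sqrt ℓ + (Λ * h ^ 4) ^ 2))
      = h ^ 4 * (y * (ℓ + h ^ 2 + (Λ * |r - 1| + Λ * Real.sqrt ℓ + Λ ^ 2 * h ^ 4))) := by ring
    _ ≤ h ^ 4 * ((1 + Λ) ^ 2 * H1_err h K a b ℓ r) :=
        mul_le_mul_of_nonneg_left hsum (by positivity)
    _ = _ := by ring

theorem H1_cont_qf (M : SymM) : Continuous (fun v => M.qf v) := by
  unfold SymM.qf
  fun_prop

theorem H1_qf_BM (M : SymM) (f : ℝ × ℝ → ℝ × ℝ) (hf : Measurable f) {C : ℝ}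
    (hb : ∀ y ∈ Sq, len (f y) ≤ C) : H1_BM (fun y => M.qf (f y)) :=
  H1_BM.comp hf ⟨C, hb⟩ (H1_cont_qf M)

/-- The integrated one step inequality, for a fixed past. -/
theorem H1_step (hC3 : StmtC3) (hC3' : StmtC3') (hC5 : StmtC5) (hC8 : StmtC8)
    {p κ : ℝ} {V : ℝ → ℝ × ℝ → ℝ} {G : ℝ → ℝ × ℝ → ℝ × ℝ} {H : ℝ → ℝ × ℝ → SymM}
    (hV : VFacts p κ V G H) (τ T ε₁ B : ℝ) (hτ : 0 < τ) (hT : τ ≤ T) (hε : 0 < ε₁)
    (Mc : ℝ → ℝ × ℝ → SymM) (hMc : H1_IsChoice τ T ε₁ B H Mc) :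
    ∃ K : ℕ, ∀ (m : ℕ) [NeZero m] (C₀ : ℝ) (β : UM B → Dig m → ℝ × ℝ → ℝ × ℝ), 2 ≤ m → 0 ≤ C₀ →
    KerM B m C₀ β → ∃ C : ℝ, 0 < C ∧
    ∀ (n : ℕ) (h : ℝ), 1 ≤ Real.log n → 0 < h → h ≤ 1 → h ^ 4 * Real.log n = 1 →
    ∀ (t lam : ℝ), lam = (Real.log m + 1) / (4 * Real.pi * Real.log n) → t ∈ Icc τ T →
    t + lam ∈ Icc τ T → ∀ (ch : ℕ → ℝ × ℝ → UM B) (j : ℕ),
    (∀ s, (ch j s).1 = (Mc t s).unit) → ∀ ω : Seqs m n,
    avg (fun δ : Fin n → Dig m =>
      ∫ z, V t (Sm β ch (j + 1) (Function.update ω j δ) z) ∂U) ≤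
    ∫ z, V (t + lam) (Sm β ch j ω z) ∂U + lam * ε₁ +
      C * h ^ 4 * ∫ z, H1_err h K (len (Sm β ch j ω z))
        (len (Sm β ch j ω (corner m j (qidx m j z))))
        (len (Sm β ch j ω z - Sm β ch j ω (corner m j (qidx m j z))))
        (rdens ω j (qidx m j z)) ∂U := by
  obtain ⟨K1, hK1⟩ := H1_taylor hC3 hC3' hV τ T hτ hT
  obtain ⟨K2, C2, hC2, hK2⟩ := H1_time hV τ T ε₁ hτ hT hε
  refine ⟨K1 + K2, ?_⟩
  intro m _ C₀ β hm hC₀ hβ
  obtain ⟨C1, hC1, hTay⟩ := hK1 C₀ hC₀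
  have hm1 : (2 : ℝ) ≤ m := by exact_mod_cast hm
  have hlm : 0 < Real.log m := Real.log_pos (by linarith)
  set Λ := (Real.log m + 1) / (4 * Real.pi) with hΛ
  have hΛ0 : 0 ≤ Λ := by positivity
  refine ⟨(C1 + C2) * (1 + Λ) ^ 2, by positivity, ?_⟩
  intro n h hL hh hh1 hhL t lam hlam ht htl ch j hch ω
  set L := Real.log n with hLd
  have hL0 : 0 < L := by linarith
  have hlam' : lam = Λ * h ^ 4 := by
    have : h ^ 4 = 1 / L := by field_simp; linarith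
    rw [hlam, hΛ, this]
    field_simp
  have hlam0 : 0 ≤ lam := by rw [hlam']; positivity
  have hsL : Real.sqrt L = 1 / h ^ 2 := by
    have : L = (1 / h ^ 2) ^ 2 := by
      field_simp
      linarith
    rw [this, Real.sqrt_sq (by positivity)]
  have hinvL : 1 / L = h ^ 4 := by field_simp; linarith
  -- measurability
  have hproc := hC8 m n (UM B) β
  have hSmeas : ∀ j (ω : Seqs m n), Measurable (Sm β ch j ω) := fun j ω => by
    rw [(hproc.2.2.2 ch).2 j ω]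
    exact hproc.1 _ j ω hβ.meas
  have hSbdd : ∀ j (ω : Seqs m n), ∃ C, ∀ z ∈ Sq, len (Sm β ch j ω z) ≤ C := fun j ω => by
    obtain ⟨C, hC⟩ := hproc.2.1 (clCtl β ch) j C₀ hβ.bdd
    refine ⟨C, fun z hz => ?_⟩
    rw [(hproc.2.2.2 ch).2 j ω]
    exact hC ω z hz
  set S := Sm β ch j ω with hS
  set sQ : ℕ × ℕ → ℝ × ℝ := fun q => S (corner m j q) with hsQ
  set Mq : ℕ × ℕ → SymM := fun q => Mc t (sQ q) with hMq
  set r : ℕ × ℕ → ℝ := fun q => rdens ω j q with hr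
  have hr0 : ∀ q, 0 ≤ r q := fun q => by
    simp only [hr, rdens]
    positivity
  have ht0 : 0 < t := by linarith [ht.1]
  have htl0 : 0 < t + lam := by linarith
  -- the functions
  set G1 : ℕ × ℕ → ℝ × ℝ → ℝ := fun q y => 1 / 2 * (Real.sqrt (Mq q).det * (r q / L) *
    avg (fun d => (Mq q).unit.qf (β (ch j (sQ q)) d y))) with hG1
  have hG1BM : ∀ q, H1_BM (G1 q) := fun q => by
    refine (H1_BM.const _).mul ((H1_BM.const _).mul (H1_BM.avg fun d => ?_))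
    exact H1_qf_BM _ _ (hβ.meas _ d) (hβ.bdd _ d)
  set fA : ℝ × ℝ → ℝ := fun z => V t (S z) with hfA
  have hfA' : H1_BM fA := H1_BM.comp (hSmeas j ω) (hSbdd j ω) (hV.cont t ht0)
  set fV : ℝ × ℝ → ℝ := fun z => V (t + lam) (S z) with hfV
  have hfV' : H1_BM fV := H1_BM.comp (hSmeas j ω) (hSbdd j ω) (hV.cont _ htl0)
  set fB : ℝ × ℝ → ℝ := fun z => G1 (qidx m j z) (loc m j z) with hfB
  have hfB' : H1_BM fB :=
    H1_BM.cells m j (G := fun q z => G1 q (loc m j z)) fun q => (hG1BM q).comp_loc m j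
  set fR : ℝ × ℝ → ℝ := fun z => lam * r (qidx m j z) * Real.sqrt (Mq (qidx m j z)).det with hfR
  have hfR' : H1_BM fR := H1_BM.ofq m j fun q => lam * r q * Real.sqrt (Mq q).det
  set fE : ℝ × ℝ → ℝ := fun z => H1_err h (K1 + K2) (len (S z)) (len (sQ (qidx m j z)))
    (len (S z - sQ (qidx m j z))) (r (qidx m j z)) with hfE
  have hfE' : H1_BM fE := by
    refine H1_BM.cells m j (G := fun q z => H1_err h (K1 + K2) (len (S z)) (len (sQ q))
      (len (S z - sQ q)) (r q)) fun q => ?_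
    refine H1_BM.comp (hSmeas j ω) (hSbdd j ω)
      (φ := fun v => H1_err h (K1 + K2) (len v) (len (sQ q)) (len (v - sQ q)) (r q)) ?_
    unfold H1_err
    fun_prop
  -- the left hand side
  have hLHS : ∀ δ : Fin n → Dig m, H1_BM (fun z =>
      V t (Sm β ch (j + 1) (Function.update ω j δ) z)) := fun δ =>
    H1_BM.comp (hSmeas _ _) (hSbdd _ _) (hV.cont t ht0)
  rw [← H1_integral_avg hLHS]
  -- pointwise bound of the averaged value
  have hamgm : ∀ z, (1 + len (S z) + len (sQ (qidx m j z)) + r (qidx m j z)) ^ (K1 + K2) *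
      (len (S z - sQ (qidx m j z)) * h ^ 4 + h ^ 6 +
      (Λ * h ^ 4 * |r (qidx m j z) - 1| + Λ * h ^ 4 * Real.sqrt (len (S z - sQ (qidx m j z))) +
        (Λ * h ^ 4) ^ 2)) ≤ (1 + Λ) ^ 2 * h ^ 4 * fE z := fun z =>
    H1_amgm h Λ _ _ _ _ (K1 + K2) hh hh1 (A1_len_nonneg _) (A1_len_nonneg _) (A1_len_nonneg _)
      (hr0 _) hΛ0
  have hpt1 : ∀ z ∈ Sq0, avg (fun δ : Fin n → Dig m =>
      V t (Sm β ch (j + 1) (Function.update ω j δ) z)) ≤
      fA z + fB z + C1 * (1 + Λ) ^ 2 * h ^ 4 * fE z := by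
    intro z hz
    have hzS : z ∈ Sq := A5_Sq0_sub hz
    set q := qidx m j z with hq
    have e1 := hTay t ht m n j hL (inCell ω j q) (fun d => β (ch j (sQ q)) d (loc m j z))
      (fun d => hβ.bdd _ d _ (H1_loc_mem m j z hzS)) (S z) (sQ q) (Mq q) (hMc.1 t (sQ q)).1
      (hMc.1 t (sQ q)).2.1 (hMc.2 t ht (sQ q)).1
    have e2 : (fun δ : Fin n → Dig m => V t (Sm β ch (j + 1) (Function.update ω j δ) z)) =
        fun δ => V t (S z + stp m n j • ∑ i ∈ inCell ω j q,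
          (β (ch j (sQ q)) (δ i) (loc m j z) -
            avg (fun d => β (ch j (sQ q)) d (loc m j z)))) := by
      funext δ
      rw [H1_Sm_step]
    rw [e2]
    refine e1.trans ?_
    have e3 : (m : ℝ) ^ (2 * j) * (inCell ω j q).card / n = r q := rfl
    rw [e3]
    have e4 : len (S z - sQ q) / L + 1 / (L * Real.sqrt L) =
        len (S z - sQ q) * h ^ 4 + h ^ 6 := by
      have hLh : L = 1 / h ^ 4 := by
        field_simp
        linarith
      rw [hsL, hLh]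
      field_simp
    have e5 := hamgm z
    rw [← hq] at e5
    have hY1 : 1 ≤ 1 + len (S z) + len (sQ q) + r q := by
      linarith [A1_len_nonneg (S z), A1_len_nonneg (sQ q), hr0 q]
    have e6 : (1 + len (S z) + len (sQ q) + r q) ^ K1 ≤
        (1 + len (S z) + len (sQ q) + r q) ^ (K1 + K2) := pow_le_pow_right₀ hY1 (by omega)
    have hℓ := A1_len_nonneg (S z - sQ q)
    have e7 : C1 * (1 + len (S z) + len (sQ q) + r q) ^ K1 *
        (len (S z - sQ q) / L + 1 / (L * Real.sqrt L)) ≤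
        C1 * ((1 + Λ) ^ 2 * h ^ 4 * fE z) := by
      rw [e4, mul_assoc]
      refine mul_le_mul_of_nonneg_left (le_trans ?_ e5) hC1.le
      refine mul_le_mul e6 ?_ (by positivity) (by positivity)
      have : 0 ≤ Λ * h ^ 4 * |r q - 1| + Λ * h ^ 4 * Real.sqrt (len (S z - sQ q)) +
        (Λ * h ^ 4) ^ 2 := by positivity
      linarith
    have e8 : fB z = 1 / 2 * (Real.sqrt (Mq q).det * (r q / L) *
        avg (fun d => (Mq q).unit.qf (β (ch j (sQ q)) d (loc m j z)))) := rfl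
    have e9 : fA z = V t (S z) := rfl
    rw [e8, e9]
    linarith
  have hpt2 : ∀ z ∈ Sq0, fA z + fR z ≤ fV z + lam * ε₁ + C2 * (1 + Λ) ^ 2 * h ^ 4 * fE z := by
    intro z hz
    set q := qidx m j z with hq
    have e1 := hK2 t ht lam hlam0 htl (S z) (sQ q) (Mq q) (r q) (hr0 q)
      (hMc.2 t ht (sQ q)).2
    have e5 := hamgm z
    rw [← hq] at e5
    have hY1 : 1 ≤ 1 + len (S z) + len (sQ q) + r q := by
      linarith [A1_len_nonneg (S z), A1_len_nonneg (sQ q), hr0 q]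
    have e6 : (1 + len (S z) + len (sQ q) + r q) ^ K2 ≤
        (1 + len (S z) + len (sQ q) + r q) ^ (K1 + K2) := pow_le_pow_right₀ hY1 (by omega)
    have hℓ := A1_len_nonneg (S z - sQ q)
    have e7 : C2 * (1 + len (S z) + len (sQ q) + r q) ^ K2 *
        (lam * |r q - 1| + lam * Real.sqrt (len (S z - sQ q)) + lam ^ 2) ≤
        C2 * ((1 + Λ) ^ 2 * h ^ 4 * fE z) := by
      rw [mul_assoc]
      refine mul_le_mul_of_nonneg_left (le_trans ?_ e5) hC2.le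
      rw [← hlam']
      refine mul_le_mul e6 ?_ (by positivity) (by positivity)
      have : 0 ≤ len (S z - sQ q) * h ^ 4 + h ^ 6 := by positivity
      linarith
    have e8 : fR z = lam * r q * Real.sqrt (Mq q).det := rfl
    have e9 : fA z = V t (S z) := rfl
    have e10 : fV z = V (t + lam) (S z) := rfl
    rw [e8, e9, e10]
    linarith
  -- the energy
  have hen : ∫ z, fB z ∂U ≤ ∫ z, fR z ∂U := by
    have hm0 : 0 < m := by omega
    have e1 := H1_cells hC5 m j hm0 G1 hG1BM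
    have e2 := H1_cells hC5 m j hm0 (fun q _ => lam * r q * Real.sqrt (Mq q).det)
      (fun q => H1_BM.const _)
    have e3 : ∫ z, fB z ∂U = ∫ z, G1 (qidx m j z) (loc m j z) ∂U := rfl
    have e4 : ∫ z, fR z ∂U = ∫ z, lam * r (qidx m j z) * Real.sqrt (Mq (qidx m j z)).det ∂U := rfl
    rw [e3, e4, e1, e2]
    refine mul_le_mul_of_nonneg_left (Finset.sum_le_sum fun q _ => ?_) (by positivity)
    have hBM : ∀ d, H1_BM (fun y => (Mq q).unit.qf (β (ch j (sQ q)) d y)) := fun d =>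
      H1_qf_BM _ _ (hβ.meas _ d) (hβ.bdd _ d)
    have e5 : ∫ y, G1 q y ∂U = 1 / 2 * (Real.sqrt (Mq q).det * (r q / L) *
        avg (fun d => ∫ y, (Mq q).unit.qf (β (ch j (sQ q)) d y) ∂U)) := by
      rw [← H1_integral_avg hBM, ← integral_const_mul, ← integral_const_mul]
    have e6 := hβ.energy (ch j (sQ q))
    rw [hch (sQ q)] at e6
    have e7 : ∫ _y : ℝ × ℝ, lam * r q * Real.sqrt (Mq q).det ∂U =
        lam * r q * Real.sqrt (Mq q).det := by simp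
    rw [e5, e7]
    have hs0 : 0 ≤ Real.sqrt (Mq q).det := Real.sqrt_nonneg _
    have hrq := hr0 q
    calc 1 / 2 * (Real.sqrt (Mq q).det * (r q / L) *
        avg (fun d => ∫ y, (Mq q).unit.qf (β (ch j (sQ q)) d y) ∂U))
        ≤ 1 / 2 * (Real.sqrt (Mq q).det * (r q / L) *
          (1 / (2 * Real.pi) * (Real.log m + 1))) := by
          refine mul_le_mul_of_nonneg_left (mul_le_mul_of_nonneg_left e6 (by positivity))
            (by norm_num)
      _ = lam * r q * Real.sqrt (Mq q).det := by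
          rw [hlam]
          field_simp
          ring
  -- integration
  have i1 : ∫ z, avg (fun δ : Fin n → Dig m =>
      V t (Sm β ch (j + 1) (Function.update ω j δ) z)) ∂U ≤
      ∫ z, (fA z + fB z + C1 * (1 + Λ) ^ 2 * h ^ 4 * fE z) ∂U :=
    H1_integral_mono (H1_BM.avg hLHS) ((hfA'.add hfB').add ((H1_BM.const _).mul hfE')) hpt1
  have i2 : ∫ z, (fA z + fB z + C1 * (1 + Λ) ^ 2 * h ^ 4 * fE z) ∂U =
      ∫ z, fA z ∂U + ∫ z, fB z ∂U + C1 * (1 + Λ) ^ 2 * h ^ 4 * ∫ z, fE z ∂U := by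
    rw [integral_add (hfA'.add hfB').integrable ((H1_BM.const _).mul hfE').integrable,
      integral_add hfA'.integrable hfB'.integrable,
      integral_const_mul (C1 * (1 + Λ) ^ 2 * h ^ 4) fE]
  have i3 : ∫ z, (fA z + fR z) ∂U ≤
      ∫ z, (fV z + lam * ε₁ + C2 * (1 + Λ) ^ 2 * h ^ 4 * fE z) ∂U :=
    H1_integral_mono (hfA'.add hfR') ((hfV'.add (H1_BM.const _)).add ((H1_BM.const _).mul hfE'))
      hpt2
  have i4 : ∫ z, (fA z + fR z) ∂U = ∫ z, fA z ∂U + ∫ z, fR z ∂U :=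
    integral_add hfA'.integrable hfR'.integrable
  have i5 : ∫ z, (fV z + lam * ε₁ + C2 * (1 + Λ) ^ 2 * h ^ 4 * fE z) ∂U =
      ∫ z, fV z ∂U + lam * ε₁ + C2 * (1 + Λ) ^ 2 * h ^ 4 * ∫ z, fE z ∂U := by
    rw [integral_add (hfV'.add (H1_BM.const _)).integrable ((H1_BM.const _).mul hfE').integrable,
      integral_add hfV'.integrable (H1_BM.const _).integrable,
      integral_const_mul (C2 * (1 + Λ) ^ 2 * h ^ 4) fE]
    simp
  have hgoal : (C1 + C2) * (1 + Λ) ^ 2 * h ^ 4 * ∫ z, fE z ∂U =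
      C1 * (1 + Λ) ^ 2 * h ^ 4 * ∫ z, fE z ∂U + C2 * (1 + Λ) ^ 2 * h ^ 4 * ∫ z, fE z ∂U := by
    ring
  have hE1 : ∫ z, H1_err h (K1 + K2) (len (S z)) (len (S (corner m j (qidx m j z))))
        (len (S z - S (corner m j (qidx m j z)))) (rdens ω j (qidx m j z)) ∂U =
      ∫ z, fE z ∂U := rfl
  rw [hE1, hgoal]
  linarith

end Match2D

end

section

/-!
MP_884187_pr, item L3, part d: one step, integrated.
-/

open MeasureTheory Set Filter Topology

namespace Match2D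

theorem L3_cellfun (m j : ℕ) (G : ℕ × ℕ → ℝ) {b : ℝ} (hb : ∀ q, |G q| ≤ b) :
    Integrable (fun z => G (qidx m j z)) U :=
  integrable_of_bdd ((measurable_of_countable G).comp (measurable_qidx m j)) fun _ _ => hb _

theorem L3_cellfun2 {m j : ℕ} (K : ℕ × ℕ → ℝ × ℝ → ℝ) (hK : ∀ q, Measurable (K q))
    {b : ℝ} (hb : ∀ q, ∀ y ∈ Sq, |K q y| ≤ b) :
    Integrable (fun z => K (qidx m j z) (loc m j z)) U := by
  have h1 : Measurable (fun p : (ℕ × ℕ) × (ℝ × ℝ) => K p.1 p.2) :=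
    measurable_from_prod_countable_right (fun q => hK q)
  exact integrable_of_bdd (h1.comp ((measurable_qidx m j).prodMk (measurable_loc m j)))
    fun z hz => hb _ _ (Sq0_subset_Sq (loc_mem_Sq hz))

theorem L3_C5 (hC5 : StmtC5) {m : ℕ} (hm : 0 < m) (j : ℕ) (G : ℕ × ℕ → ℝ) (hG0 : ∀ q, 0 ≤ G q)
    {b : ℝ} (hb : ∀ q, G q ≤ b) (K : ℕ × ℕ → ℝ × ℝ → ℝ) (hK : ∀ q, Measurable (K q)) {b' : ℝ}
    (hb' : ∀ q, ∀ y ∈ Sq, |K q y| ≤ b') {E₀ : ℝ} (hE : ∀ q, ∫ y, K q y ∂U ≤ E₀) :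
    ∫ z, G (qidx m j z) * K (qidx m j z) (loc m j z) ∂U ≤ E₀ * ∫ z, G (qidx m j z) ∂U := by
  have hb0 : 0 ≤ b := (hG0 (0, 0)).trans (hb _)
  have h1 := hC5 m j hm (fun q y => G q * K q y) (fun q => (hK q).const_mul _)
    ⟨b * b', fun q y hy => by
      rw [abs_mul, abs_of_nonneg (hG0 q)]
      exact mul_le_mul (hb q) (hb' q y hy) (abs_nonneg _) hb0⟩
  have h2 := hC5 m j hm (fun q _ => G q) (fun q => measurable_const)
    ⟨b, fun q y _ => by
      rw [abs_of_nonneg (hG0 q)]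
      exact hb q⟩
  rw [h1, h2]
  have h3 : ∀ q, ∫ y, G q * K q y ∂U ≤ E₀ * ∫ _y, G q ∂U := by
    intro q
    rw [integral_const_mul, L3_integral_const, mul_comm E₀]
    exact mul_le_mul_of_nonneg_left (hE q) (hG0 q)
  calc ((m : ℝ) ^ (2 * j))⁻¹ * ∑ q ∈ Finset.range (m ^ j) ×ˢ Finset.range (m ^ j),
        ∫ y, G q * K q y ∂U ≤
      ((m : ℝ) ^ (2 * j))⁻¹ * ∑ q ∈ Finset.range (m ^ j) ×ˢ Finset.range (m ^ j),
        E₀ * ∫ _y, G q ∂U := by
        refine mul_le_mul_of_nonneg_left (Finset.sum_le_sum fun q _ => h3 q) (by positivity)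
    _ = _ := by
        rw [← Finset.mul_sum]
        ring

theorem L3_int_lin {f1 f2 f3 f4 f5 : ℝ × ℝ → ℝ} (i1 : Integrable f1 U) (i2 : Integrable f2 U)
    (i3 : Integrable f3 U) (i4 : Integrable f4 U) (i5 : Integrable f5 U) (a b c : ℝ) :
    Integrable (fun z => f1 z + a * f2 z + b * (1 + f3 z) + f4 z + c * (1 + f5 z)) U ∧
    ∫ z, (f1 z + a * f2 z + b * (1 + f3 z) + f4 z + c * (1 + f5 z)) ∂U =
      ∫ z, f1 z ∂U + a * ∫ z, f2 z ∂U + b * (1 + ∫ z, f3 z ∂U) + ∫ z, f4 z ∂U +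
        c * (1 + ∫ z, f5 z ∂U) := by
  have i0 : Integrable (fun _ : ℝ × ℝ => (1 : ℝ)) U := integrable_const _
  have j2 : Integrable (fun z => a * f2 z) U := i2.const_mul a
  have k3 : Integrable (fun z => 1 + f3 z) U := i0.add i3
  have k5 : Integrable (fun z => 1 + f5 z) U := i0.add i5
  have j3 : Integrable (fun z => b * (1 + f3 z)) U := k3.const_mul b
  have j5 : Integrable (fun z => c * (1 + f5 z)) U := k5.const_mul c
  have l1 : Integrable (fun z => f1 z + a * f2 z) U := i1.add j2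
  have l2 : Integrable (fun z => f1 z + a * f2 z + b * (1 + f3 z)) U := l1.add j3
  have l3 : Integrable (fun z => f1 z + a * f2 z + b * (1 + f3 z) + f4 z) U := l2.add i4
  refine ⟨l3.add j5, ?_⟩
  rw [integral_add l3 j5, integral_add l2 i4, integral_add l1 j3, integral_add i1 j2,
    integral_const_mul, integral_const_mul, integral_const_mul, integral_add i0 i3,
    integral_add i0 i5, L3_integral_const]

theorem L3_rdens_le {m n : ℕ} (hn : 2 ≤ n) (ω : Seqs m n) (j : ℕ) (q : ℕ × ℕ) :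
    rdens ω j q ≤ (m : ℝ) ^ (2 * j) := by
  unfold rdens
  have hn0 : (0 : ℝ) < n := by positivity
  rw [div_le_iff₀ hn0]
  have h : ((inCell ω j q).card : ℝ) ≤ n := by
    have := Finset.card_le_univ (inCell ω j q)
    rw [Fintype.card_fin] at this
    exact_mod_cast this
  exact mul_le_mul_of_nonneg_left h (by positivity)

section Int

variable {B : ℝ} {W : ℝ → ℝ × ℝ → ℝ} {S : ℝ → ℝ × ℝ → ℝ × ℝ} {HI : ℝ → ℝ × ℝ → SymM}
  {τ T R' R₀ R e C Cg : ℝ} {m n J : ℕ} [NeZero m] {C₀ δ C₁ c lam Λ η θ : ℝ}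
  {ζ : UM B → Dig m → ℝ × ℝ → ℝ} {dζ : UM B → Dig m → ℝ × ℝ → ℝ × ℝ}
  {cM : ℕ → ℝ × ℝ → UM B} {cs : ℕ → ℝ × ℝ → ℝ}

theorem L3_K_meas (h : L3Q W S HI τ T R' R₀ R e C Cg m n J C₀ δ C₁ c lam Λ η θ ζ dζ cM cs)
    (j : ℕ) (ω : Seqs m n) (q : ℕ × ℕ) : Measurable (L3_K θ dζ cM cs j ω q) := by
  unfold L3_K
  simp only [L3_avg_eq]
  refine Measurable.const_mul (Finset.measurable_sum _ (fun d _ => ?_)) _
  have h1 := L1_meas_dζ h.hK (cM j (Gr θ dζ cM cs j ω (corner m j q))) d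
  unfold SymM.qf
  exact (((h1.fst.pow_const 2).const_mul _).add ((h1.fst.const_mul _).mul h1.snd)).add
    ((h1.snd.pow_const 2).const_mul _)

/-- A bound for the matrices of `UM B`. -/
theorem L3_nrm_UM {B : ℝ} (M : UM B) : M.1.nrm ≤ 3 * B := by
  obtain ⟨h1, h2, h3⟩ := M.2
  unfold SymM.det at h2
  unfold SymM.tr at h3
  have hc : 0 < M.1.c := by
    by_contra h
    push Not at h
    nlinarith [sq_nonneg M.1.b]
  unfold SymM.nrm
  rw [abs_of_pos h1, abs_of_pos hc]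
  have hb : |M.1.b| ≤ B := by
    apply abs_le_of_sq_le_sq _ (by linarith)
    nlinarith
  linarith

theorem L3_K_bdd (h : L3Q W S HI τ T R' R₀ R e C Cg m n J C₀ δ C₁ c lam Λ η θ ζ dζ cM cs)
    (j : ℕ) (ω : Seqs m n) (q : ℕ × ℕ) (y : ℝ × ℝ) :
    |L3_K θ dζ cM cs j ω q y| ≤ 3 * B * C₀ ^ 2 := by
  rw [abs_of_nonneg (L3_K_nonneg _ _ _ _ _ _ _ _)]
  unfold L3_K
  have hne : Nonempty (Dig m) := ⟨(0, 0)⟩
  rw [← C2_avg_const (α := Dig m) (3 * B * C₀ ^ 2)]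
  refine L3_avg_mono fun d => ?_
  refine (le_abs_self _).trans ((L3_qf_le _ _).trans ?_)
  rw [L3_nrm_adj]
  have h1 := L3_nrm_UM (cM j (Gr θ dζ cM cs j ω (corner m j q)))
  exact mul_le_mul h1 (pow_le_pow_left₀ (A1_len_nonneg _) (h.hK.bdd _ d y).2 2) (sq_nonneg _)
    ((L3_nrm_nonneg _).trans h1)

theorem L3_K_int (h : L3Q W S HI τ T R' R₀ R e C Cg m n J C₀ δ C₁ c lam Λ η θ ζ dζ cM cs)
    (j : ℕ) (ω : Seqs m n) (q : ℕ × ℕ) :
    ∫ y, L3_K θ dζ cM cs j ω q y ∂U ≤ 1 / (2 * Real.pi) * (Real.log m + 1) := by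
  refine le_trans (le_of_eq ?_) (h.hK.energy (cM j (Gr θ dζ cM cs j ω (corner m j q))))
  unfold L3_K
  rw [L3_avg_integral]
  intro d
  have h1 := L1_meas_dζ h.hK (cM j (Gr θ dζ cM cs j ω (corner m j q))) d
  refine integrable_of_bdd (C := 3 * B * C₀ ^ 2) ?_ ?_
  · unfold SymM.qf
    exact (((h1.fst.pow_const 2).const_mul _).add ((h1.fst.const_mul _).mul h1.snd)).add
      ((h1.snd.pow_const 2).const_mul _)
  · intro y _
    refine (L3_qf_le _ _).trans ?_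
    rw [L3_nrm_adj]
    have h2 := L3_nrm_UM (cM j (Gr θ dζ cM cs j ω (corner m j q)))
    exact mul_le_mul h2 (pow_le_pow_left₀ (A1_len_nonneg _) (h.hK.bdd _ d y).2 2) (sq_nonneg _)
      ((L3_nrm_nonneg _).trans h2)

theorem L3_int_W (h : L3Q W S HI τ T R' R₀ R e C Cg m n J C₀ δ C₁ c lam Λ η θ ζ dζ cM cs)
    {t : ℝ} (ht : t ∈ Icc τ T) (j : ℕ) (ω : Seqs m n) :
    Integrable (fun z => W t (Gr θ dζ cM cs j ω z)) U :=
  integrable_of_bdd ((h.hP.measW t ht).comp (h.meas j ω)) fun z hz => h.hP.bW t ht _ (h.bG j ω z hz)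

theorem L3_int_len (h : L3Q W S HI τ T R' R₀ R e C Cg m n J C₀ δ C₁ c lam Λ η θ ζ dζ cM cs)
    (j : ℕ) (ω : Seqs m n) : Integrable (fun z => len (Gr θ dζ cM cs j ω z) ^ 2) U :=
  integrable_of_bdd (C := R ^ 2) ((measurable_len.comp (h.meas j ω)).pow_const 2) fun z hz => by
    rw [abs_of_nonneg (sq_nonneg _)]
    exact pow_le_pow_left₀ (A1_len_nonneg _) (h.bG j ω z hz) 2

theorem L3_int_cs (h : L3Q W S HI τ T R' R₀ R e C Cg m n J C₀ δ C₁ c lam Λ η θ ζ dζ cM cs)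
    (j : ℕ) (ω : Seqs m n) :
    Integrable (fun z => cs j (Gr θ dζ cM cs j ω (corner m j (qidx m j z)))) U :=
  L3_cellfun m j (fun q => cs j (Gr θ dζ cM cs j ω (corner m j q))) (b := C) fun q => by
    rw [abs_of_nonneg (h.cs0 _ _).1]
    exact (h.cs0 _ _).2

theorem L3_int_rcs (h : L3Q W S HI τ T R' R₀ R e C Cg m n J C₀ δ C₁ c lam Λ η θ ζ dζ cM cs)
    (j : ℕ) (ω : Seqs m n) :
    Integrable (fun z => rdens ω j (qidx m j z) *
      cs j (Gr θ dζ cM cs j ω (corner m j (qidx m j z)))) U :=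
  L3_cellfun m j (fun q => rdens ω j q * cs j (Gr θ dζ cM cs j ω (corner m j q)))
    (b := (m : ℝ) ^ (2 * j) * C) fun q => by
    rw [abs_of_nonneg (mul_nonneg (rdens_nonneg _ _ _) (h.cs0 _ _).1)]
    exact mul_le_mul (L3_rdens_le h.hn ω j q) (h.cs0 _ _).2 (h.cs0 _ _).1 (by positivity)

theorem L3_int_r2 {m n : ℕ} (hn : 2 ≤ n) (j : ℕ) (ω : Seqs m n) :
    Integrable (fun z => rdens ω j (qidx m j z) ^ 2) U :=
  L3_cellfun m j (fun q => rdens ω j q ^ 2) (b := ((m : ℝ) ^ (2 * j)) ^ 2) fun q => by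
    rw [abs_of_nonneg (sq_nonneg _)]
    exact pow_le_pow_left₀ (rdens_nonneg _ _ _) (L3_rdens_le hn ω j q) 2

theorem L3_int_r1 {m n : ℕ} (hn : 2 ≤ n) (j : ℕ) (ω : Seqs m n) :
    Integrable (fun z => |rdens ω j (qidx m j z) - 1|) U :=
  L3_cellfun m j (fun q => |rdens ω j q - 1|) (b := (m : ℝ) ^ (2 * j) + 1) fun q => by
    rw [abs_abs]
    have h1 := L3_rdens_le hn ω j q
    have h2 := rdens_nonneg ω j q
    rw [abs_le]
    constructor <;> linarith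

/-- The value, integrated over the square. -/
theorem L3_om_value (h : L3Q W S HI τ T R' R₀ R e C Cg m n J C₀ δ C₁ c lam Λ η θ ζ dζ cM cs)
    (hC3 : StmtC3') (hC5 : StmtC5) {j : ℕ} (hj : j < J) (ω : Seqs m n) :
    avg (fun d => ∫ z, W (τ + lam * (J - (j + 1)))
      (Gr θ dζ cM cs (j + 1) (Function.update ω j d) z) ∂U) ≤
      ∫ z, W (τ + lam * (J - j)) (Gr θ dζ cM cs j ω z) ∂U +
      lam * ∫ z, cs j (Gr θ dζ cM cs j ω (corner m j (qidx m j z))) ∂U +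
      lam * e * (1 + ∫ z, len (Gr θ dζ cM cs j ω z) ^ 2 ∂U) +
      (Real.log m + 1) / (4 * Real.pi * Real.log n) * ∫ z, rdens ω j (qidx m j z) *
        cs j (Gr θ dζ cM cs j ω (corner m j (qidx m j z))) ∂U +
      (C ^ 2 * C₀ * c + 3 * C ^ 7 * C₁ * C₀ ^ 2 * (1 + c) + 2 * C * (1 + C₁) * Λ + C * Λ ^ 2) /
        Real.log n * η * (1 + ∫ z, rdens ω j (qidx m j z) ^ 2 ∂U) := by
  have hm0 : 0 < m := by linarith [h.hm]
  have hC0 : 0 < C := by linarith [h.hP.hC]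
  have hL : 0 < Real.log n := Real.log_pos (by exact_mod_cast (by linarith [h.hn] : 1 < n))
  have hlam := h.hlam
  have hj' : ((j : ℝ) + 1) ≤ J := by exact_mod_cast hj
  have hj0 : (0 : ℝ) ≤ j := Nat.cast_nonneg _
  have ht'1 : τ + lam * ((J : ℝ) - (j + 1)) ∈ Icc τ T := by
    refine ⟨by nlinarith, ?_⟩
    have : lam * ((J : ℝ) - (j + 1)) ≤ lam * J :=
      mul_le_mul_of_nonneg_left (by linarith) hlam
    linarith [h.hT]
  have ht1 : τ + lam * ((J : ℝ) - j) ∈ Icc τ T := by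
    refine ⟨by nlinarith, ?_⟩
    have : lam * ((J : ℝ) - j) ≤ lam * J := mul_le_mul_of_nonneg_left (by linarith) hlam
    linarith [h.hT]
  rw [L3_avg_integral U _ fun d => L3_int_W h ht'1 (j + 1) _]
  -- the kernel term
  set G : ℕ × ℕ → ℝ := fun q => cs j (Gr θ dζ cM cs j ω (corner m j q)) / 2 *
    (rdens ω j q / Real.log n) with hG
  have hG0 : ∀ q, 0 ≤ G q := fun q => by
    have := (h.cs0 j (Gr θ dζ cM cs j ω (corner m j q))).1
    have := rdens_nonneg ω j q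
    rw [hG]
    positivity
  have hGb : ∀ q, G q ≤ C / 2 * ((m : ℝ) ^ (2 * j) / Real.log n) := fun q => by
    have h1 := (h.cs0 j (Gr θ dζ cM cs j ω (corner m j q))).2
    have h2 := L3_rdens_le h.hn ω j q
    have h3 := rdens_nonneg ω j q
    rw [hG]
    refine mul_le_mul (by linarith) ?_ (by positivity) (by positivity)
    exact div_le_div_of_nonneg_right h2 hL.le
  have hker := L3_C5 hC5 hm0 j G hG0 hGb (L3_K θ dζ cM cs j ω) (L3_K_meas h j ω)
    (fun q y _ => L3_K_bdd h j ω q y) (L3_K_int h j ω)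
  have i4 : Integrable (fun z => G (qidx m j z) *
      L3_K θ dζ cM cs j ω (qidx m j z) (loc m j z)) U := by
    refine L3_cellfun2 (fun q y => G q * L3_K θ dζ cM cs j ω q y)
      (fun q => (L3_K_meas h j ω q).const_mul _)
      (b := C / 2 * ((m : ℝ) ^ (2 * j) / Real.log n) * (3 * B * C₀ ^ 2)) fun q y _ => ?_
    rw [abs_mul, abs_of_nonneg (hG0 q)]
    exact mul_le_mul (hGb q) (L3_K_bdd h j ω q y) (abs_nonneg _) ((hG0 q).trans (hGb q))
  obtain ⟨hI, hE⟩ := L3_int_lin (L3_int_W h ht1 j ω) (L3_int_cs h j ω) (L3_int_len h j ω) i4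
    (L3_int_r2 h.hn j ω) lam (lam * e)
    ((C ^ 2 * C₀ * c + 3 * C ^ 7 * C₁ * C₀ ^ 2 * (1 + c) + 2 * C * (1 + C₁) * Λ + C * Λ ^ 2) /
        Real.log n * η)
  have hmono := L3_integral_mono (L3_avg_integrable U _ fun d => L3_int_W h ht'1 (j + 1)
    (Function.update ω j d)) hI (fun z hz => L3_pt_value h hC3 hj ω hz)
  refine hmono.trans ?_
  rw [hE]
  have e4 : 1 / (2 * Real.pi) * (Real.log m + 1) * ∫ z, G (qidx m j z) ∂U =
      (Real.log m + 1) / (4 * Real.pi * Real.log n) * ∫ z, rdens ω j (qidx m j z) *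
        cs j (Gr θ dζ cM cs j ω (corner m j (qidx m j z))) ∂U := by
    rw [← integral_const_mul, ← integral_const_mul]
    congr 1
    funext z
    rw [hG]
    have hpi := Real.pi_ne_zero
    field_simp
    ring
  rw [e4] at hker
  linarith

/-- The second moment, integrated over the square. -/
theorem L3_om_moment (h : L3Q W S HI τ T R' R₀ R e C Cg m n J C₀ δ C₁ c lam Λ η θ ζ dζ cM cs)
    (hC3 : StmtC3') (hC5 : StmtC5) {j : ℕ} (hj : j < J) (ω : Seqs m n) :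
    avg (fun d => ∫ z, len (Gr θ dζ cM cs (j + 1) (Function.update ω j d) z) ^ 2 ∂U) ≤
      ∫ z, len (Gr θ dζ cM cs j ω z) ^ 2 ∂U +
      (Real.log m + 1) * Cg / (2 * Real.pi * Real.log n) *
        (1 + ∫ z, len (Gr θ dζ cM cs j ω z) ^ 2 ∂U + 2 * R * C₁ * η +
          (1 + R ^ 2) * ∫ z, |rdens ω j (qidx m j z) - 1| ∂U) +
      2 * R * C * C₀ * c / Real.log n * η * (1 + ∫ z, rdens ω j (qidx m j z) ^ 2 ∂U) := by
  classical
  have hm0 : 0 < m := by linarith [h.hm]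
  have hC0 : 0 < C := by linarith [h.hP.hC]
  have hCg := h.hP.hCg
  have hR0 : 0 < R := by linarith [h.hP.hR, h.hP.hR₀, h.hP.hR']
  have hR₀0 : 0 < R₀ := by linarith [h.hP.hR₀, h.hP.hR']
  have hC₁ := h.hC₁
  have hL : 0 < Real.log n := Real.log_pos (by exact_mod_cast (by linarith [h.hn] : 1 < n))
  rw [L3_avg_integral U _ fun d => L3_int_len h (j + 1) _]
  set G : ℕ × ℕ → ℝ := fun q => (if len (Gr θ dζ cM cs j ω (corner m j q)) ≤ R₀ then
        Cg * (1 + len (Gr θ dζ cM cs j ω (corner m j q)) ^ 2) *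
        (rdens ω j q / Real.log n) else 0) with hG
  have hG0 : ∀ q, 0 ≤ G q := fun q => by
    have := rdens_nonneg ω j q
    rw [hG]
    simp only
    split_ifs
    · positivity
    · exact le_refl _
  have hGb : ∀ q, G q ≤ Cg * (1 + R₀ ^ 2) * ((m : ℝ) ^ (2 * j) / Real.log n) := fun q => by
    have h2 := L3_rdens_le h.hn ω j q
    have h3 := rdens_nonneg ω j q
    rw [hG]
    simp only
    split_ifs with h4
    · refine mul_le_mul ?_ (div_le_div_of_nonneg_right h2 hL.le) (by positivity) (by positivity)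
      refine mul_le_mul_of_nonneg_left ?_ hCg.le
      have := pow_le_pow_left₀ (A1_len_nonneg _) h4 2
      linarith
    · positivity
  have hker := L3_C5 hC5 hm0 j G hG0 hGb (L3_K θ dζ cM cs j ω) (L3_K_meas h j ω)
    (fun q y _ => L3_K_bdd h j ω q y) (L3_K_int h j ω)
  have i4 : Integrable (fun z => G (qidx m j z) *
      L3_K θ dζ cM cs j ω (qidx m j z) (loc m j z)) U := by
    refine L3_cellfun2 (fun q y => G q * L3_K θ dζ cM cs j ω q y)
      (fun q => (L3_K_meas h j ω q).const_mul _)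
      (b := Cg * (1 + R₀ ^ 2) * ((m : ℝ) ^ (2 * j) / Real.log n) * (3 * B * C₀ ^ 2))
      fun q y _ => ?_
    rw [abs_mul, abs_of_nonneg (hG0 q)]
    exact mul_le_mul (hGb q) (L3_K_bdd h j ω q y) (abs_nonneg _) ((hG0 q).trans (hGb q))
  have i0 : Integrable (fun _ : ℝ × ℝ => (0 : ℝ)) U := integrable_const _
  obtain ⟨hI, hE⟩ := L3_int_lin (L3_int_len h j ω) i0 i0 i4
    (L3_int_r2 h.hn j ω) 0 0 (2 * R * C * C₀ * c / Real.log n * η)
  have hmono := L3_integral_mono (L3_avg_integrable U _ fun d => L3_int_len h (j + 1)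
    (Function.update ω j d)) hI (fun z hz => by
      have := L3_pt_moment h hC3 hj ω hz
      simp only [zero_mul, add_zero]
      exact this)
  refine hmono.trans ?_
  rw [hE]
  -- the weight
  have iL := L3_int_len h j ω
  have i1 := L3_int_r1 h.hn j ω
  have i9 : Integrable (fun _ : ℝ × ℝ => 1 + 2 * R * C₁ * η) U := integrable_const _
  have hG2 : ∫ z, G (qidx m j z) ∂U ≤ Cg / Real.log n *
      (1 + ∫ z, len (Gr θ dζ cM cs j ω z) ^ 2 ∂U + 2 * R * C₁ * η +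
          (1 + R ^ 2) * ∫ z, |rdens ω j (qidx m j z) - 1| ∂U) := by
    have e1 : Cg / Real.log n *
      (1 + ∫ z, len (Gr θ dζ cM cs j ω z) ^ 2 ∂U + 2 * R * C₁ * η +
          (1 + R ^ 2) * ∫ z, |rdens ω j (qidx m j z) - 1| ∂U) =
        ∫ z, Cg / Real.log n * ((1 + 2 * R * C₁ * η) + len (Gr θ dζ cM cs j ω z) ^ 2 +
          (1 + R ^ 2) * |rdens ω j (qidx m j z) - 1|) ∂U := by
      have m1 : Integrable (fun z => 1 + 2 * R * C₁ * η + len (Gr θ dζ cM cs j ω z) ^ 2) U :=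
        i9.add iL
      have m2 : Integrable (fun z => (1 + R ^ 2) * |rdens ω j (qidx m j z) - 1|) U :=
        i1.const_mul _
      rw [integral_const_mul, integral_add m1 m2, integral_add i9 iL,
        L3_integral_const, integral_const_mul]
      ring
    rw [e1]
    refine L3_integral_mono (L3_cellfun m j G (b := Cg * (1 + R₀ ^ 2) *
      ((m : ℝ) ^ (2 * j) / Real.log n)) fun q => by
        rw [abs_of_nonneg (hG0 q)]
        exact hGb q) (((i9.add iL).add (i1.const_mul _)).const_mul _) ?_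
    intro z hz
    have hzS : z ∈ Sq := Sq0_subset_Sq hz
    have hgR := h.bG j ω z hzS
    have hgQR := h.bG j ω _ (L3_corner_mem hm0 j hz)
    have hgg := h.cG j ω z hz
    have hr0 := rdens_nonneg ω j (qidx m j z)
    have hη0 := h.hη0
    set g := Gr θ dζ cM cs j ω z with hg
    set gQ := Gr θ dζ cM cs j ω (corner m j (qidx m j z)) with hgQ
    set r := rdens ω j (qidx m j z) with hr
    have hg0 := A1_len_nonneg g
    have hgQ0 := A1_len_nonneg gQ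
    have h1 : G (qidx m j z) ≤ Cg * (1 + len gQ ^ 2) * (r / Real.log n) := by
      rw [hG]
      simp only
      split_ifs
      · exact le_refl _
      · positivity
    refine h1.trans ?_
    have h2 : (1 + len gQ ^ 2) * r ≤ (1 + 2 * R * C₁ * η) + len g ^ 2 + (1 + R ^ 2) * |r - 1| := by
      have h3 : len gQ ≤ len g + C₁ * θ := by
        have h5 := A1_len_add_le g (gQ - g)
        rw [add_sub_cancel, A1_len_sub_comm gQ g] at h5
        linarith
      have hθη : θ ≤ η := h.hη2.trans (by nlinarith [h.hη1])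
      have h4 : len gQ ^ 2 ≤ len g ^ 2 + 2 * R * C₁ * η := by
        have h5 : (len gQ - len g) * (len gQ + len g) ≤ (C₁ * η) * (2 * R) := by
          by_cases h6 : len gQ ≤ len g
          · have : (len gQ - len g) * (len gQ + len g) ≤ 0 :=
              mul_nonpos_of_nonpos_of_nonneg (by linarith) (by linarith)
            have : 0 ≤ (C₁ * η) * (2 * R) := by positivity
            linarith
          · push Not at h6
            refine mul_le_mul ?_ (by linarith) (by linarith) (by positivity)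
            have : C₁ * θ ≤ C₁ * η := mul_le_mul_of_nonneg_left hθη hC₁.le
            linarith
        nlinarith
      have h7 : (1 + len gQ ^ 2) * (r - 1) ≤ (1 + R ^ 2) * |r - 1| := by
        refine (le_abs_self _).trans ?_
        rw [abs_mul, abs_of_nonneg (by positivity : (0 : ℝ) ≤ 1 + len gQ ^ 2)]
        refine mul_le_mul_of_nonneg_right ?_ (abs_nonneg _)
        have := pow_le_pow_left₀ hgQ0 hgQR 2
        linarith
      nlinarith
    calc Cg * (1 + len gQ ^ 2) * (r / Real.log n) = Cg / Real.log n * ((1 + len gQ ^ 2) * r) := by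
          ring
      _ ≤ _ := mul_le_mul_of_nonneg_left h2 (by positivity)
  have hlm : 0 ≤ Real.log m := Real.log_nonneg (by exact_mod_cast (by linarith [h.hm] : 1 ≤ m))
  have h8 : 1 / (2 * Real.pi) * (Real.log m + 1) * ∫ z, G (qidx m j z) ∂U ≤
      1 / (2 * Real.pi) * (Real.log m + 1) * (Cg / Real.log n *
      (1 + ∫ z, len (Gr θ dζ cM cs j ω z) ^ 2 ∂U + 2 * R * C₁ * η +
          (1 + R ^ 2) * ∫ z, |rdens ω j (qidx m j z) - 1| ∂U)) :=
    mul_le_mul_of_nonneg_left hG2 (by positivity)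
  have e8 : 1 / (2 * Real.pi) * (Real.log m + 1) * (Cg / Real.log n *
      (1 + ∫ z, len (Gr θ dζ cM cs j ω z) ^ 2 ∂U + 2 * R * C₁ * η +
          (1 + R ^ 2) * ∫ z, |rdens ω j (qidx m j z) - 1| ∂U)) =
      (Real.log m + 1) * Cg / (2 * Real.pi * Real.log n) *
      (1 + ∫ z, len (Gr θ dζ cM cs j ω z) ^ 2 ∂U + 2 * R * C₁ * η +
          (1 + R ^ 2) * ∫ z, |rdens ω j (qidx m j z) - 1| ∂U) := by
    field_simp
  rw [e8] at h8
  linarith

end Int

end Match2D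

end
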