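import Pool.Agent.Work.MP_884187_pr.Dual
import Pool.Agent.Work.MP_884187_pr.Bd.B02

/-! Bundle of small proof modules (one section per former module). -/

section

/-!
Module G of MP_884187_pr: assembly of `WFacts`.
-/

set_option autoImplicit false

open MeasureTheory Set Filter Topology

namespace Match2D.MG

/-- Completing the square. -/
theorem qf_dual (H : SymM) (ha : 0 < H.a) (hd : 0 < H.det) (Δ δ : ℝ × ℝ) :
    dot Δ δ - H.qf δ / 2 ≤ H.adj.qf Δ / (2 * H.det) := by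
  have hc : 0 < H.c := by
    unfold SymM.det at hd
    by_contra h
    rw [not_lt] at h
    nlinarith [sq_nonneg H.b]
  set u : ℝ × ℝ := (H.a * δ.1 + H.b * δ.2 - Δ.1, H.b * δ.1 + H.c * δ.2 - Δ.2) with hu
  have h0 : 0 ≤ H.adj.qf u := by
    have h1 : H.c * H.adj.qf u = (H.c * u.1 - H.b * u.2) ^ 2 + H.det * u.2 ^ 2 := by
      simp only [SymM.adj, SymM.qf, SymM.det]
      ring
    have h2 : 0 ≤ H.c * H.adj.qf u := by
      rw [h1]
      positivity
    exact (mul_nonneg_iff_of_pos_left hc).mp h2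
  have h1 : H.adj.qf u = H.det * (H.qf δ - 2 * dot Δ δ) + H.adj.qf Δ := by
    simp only [SymM.adj, SymM.qf, SymM.det, dot, u]
    ring
  rw [le_div_iff₀ (by positivity)]
  rw [h1] at h0
  linarith

theorem isOpen_dom (p : ℝ) : IsOpen {g : ℝ × ℝ | Dom p g} := by
  by_cases hp : p = 1
  · have : {g : ℝ × ℝ | Dom p g} = {g | len g < 1} := by
      ext g
      simp [Dom, hp]
    rw [this]
    exact isOpen_lt continuous_len continuous_const
  · have : {g : ℝ × ℝ | Dom p g} = univ := by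
      ext g
      simp [Dom, hp]
    rw [this]
    exact isOpen_univ

section

variable {p : ℝ} {x : ℝ → ℝ} (hx : IsProf0 p x)
include hx

/-- The inverse gradient is bounded on balls. -/
theorem IsProf0.SS_bdd {τ T R : ℝ} (hτ : 0 < τ) (hR0 : 0 < R) (hR : p = 1 → R < 1) :
    ∃ ρ, 0 < ρ ∧ ∀ t ∈ Icc τ T, ∀ g, len g ≤ R → len (SS p (kap p x) x t g) ≤ ρ := by
  have hκ := kap_pos p x
  have hτp : 0 < τ ^ (p - 1) := Real.rpow_pos_of_pos hτ _
  obtain ⟨Z, hZ0, hZ⟩ := hx.ee_exceed (y := R ^ 2 / τ ^ (p - 1)) (by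
    intro hp
    rw [hp]
    have := hR hp
    simp only [sub_self, Real.rpow_zero, div_one]
    nlinarith)
  refine ⟨Real.sqrt (2 * |T| * Z) + 1, by positivity, fun t ht g hg => ?_⟩
  have ht0 : 0 < t := hτ.trans_le ht.1
  have hdom : Dom p g := fun hp => hg.trans_lt (hR hp)
  obtain ⟨h1, h2⟩ := hx.sgg_spec ht0 hdom
  have h3 : sgg p (kap p x) x t g < Z := by
    by_contra hcon
    rw [not_lt] at hcon
    have h4 := (hx.ee_strictMono hκ).monotoneOn (show (0 : ℝ) ≤ Z from hZ0.le)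
      (show (0 : ℝ) ≤ sgg p (kap p x) x t g from h1) hcon
    have h5 : R ^ 2 / τ ^ (p - 1) < ee p (kap p x) x (sgg p (kap p x) x t g) := hZ.trans_le h4
    have h6 : τ ^ (p - 1) ≤ t ^ (p - 1) :=
      Real.rpow_le_rpow hτ.le ht.1 (by linarith [hx.one_le_p])
    have h7 : R ^ 2 < len g ^ 2 := by
      rw [div_lt_iff₀ hτp] at h5
      rw [← h2]
      calc R ^ 2 < ee p (kap p x) x (sgg p (kap p x) x t g) * τ ^ (p - 1) := h5
        _ ≤ ee p (kap p x) x (sgg p (kap p x) x t g) * t ^ (p - 1) :=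
            mul_le_mul_of_nonneg_left h6 (hx.ee_nonneg hκ h1)
        _ = _ := mul_comm _ _
    have h8 : len g ^ 2 ≤ R ^ 2 := pow_le_pow_left₀ (len_nonneg g) hg 2
    linarith
  have h4 := hx.sgm_SS ht0 hdom
  rw [sgm_eq] at h4
  have h5 : len (SS p (kap p x) x t g) ^ 2 ≤ 2 * |T| * Z := by
    have e : len (SS p (kap p x) x t g) ^ 2 = 2 * t * sgg p (kap p x) x t g := by
      rw [← h4]
      field_simp
    rw [e]
    have hT : t ≤ |T| := ht.2.trans (le_abs_self T)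
    have : 2 * t ≤ 2 * |T| := by linarith
    exact mul_le_mul this h3.le h1 (by positivity)
  have h6 := Real.le_sqrt_of_sq_le h5
  linarith

/-- The inverse gradient is Lipschitz on balls. -/
theorem IsProf0.SS_lip {τ T R : ℝ} (hτ : 0 < τ) (hR0 : 0 < R) (hR : p = 1 → R < 1) :
    ∃ l, 0 < l ∧ ∀ t ∈ Icc τ T, ∀ g g', len g ≤ R → len g' ≤ R →
      len (SS p (kap p x) x t g' - SS p (kap p x) x t g) ≤ l * len (g' - g) := by
  obtain ⟨ρ, hρ0, hρ⟩ := hx.SS_bdd (T := T) hτ hR0 hR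
  obtain ⟨l, hl0, hl⟩ := hx.coer (kap_pos p x) (T := T) hτ ρ
  refine ⟨l⁻¹, inv_pos.mpr hl0, fun t ht g g' hg hg' => ?_⟩
  have ht0 : 0 < t := hτ.trans_le ht.1
  have hd : Dom p g := fun hp => hg.trans_lt (hR hp)
  have hd' : Dom p g' := fun hp => hg'.trans_lt (hR hp)
  have h1 := hx.GG_mono ht0 (fun s hs => (hl t ht s hs).1) (hρ t ht g hg) (hρ t ht g' hg')
  rw [hx.GG_SS ht0 hd, hx.GG_SS ht0 hd'] at h1
  set δ := SS p (kap p x) x t g' - SS p (kap p x) x t g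
  have h2 := (le_abs_self _).trans (abs_dot_le (g' - g) δ)
  have h3 := len_nonneg δ
  rcases eq_or_lt_of_le h3 with h | h
  · rw [← h]
    have := len_nonneg (g' - g)
    positivity
  · have h4 : l * len δ ≤ len (g' - g) := by
      have h5 : l * len δ * len δ ≤ len (g' - g) * len δ := by nlinarith
      exact le_of_mul_le_mul_right h5 h
    rw [inv_mul_eq_div, le_div_iff₀ hl0]
    linarith

theorem IsProf0.SS_contOn {t : ℝ} (ht : 0 < t) :
    ContinuousOn (SS p (kap p x) x t) {g | Dom p g} := by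
  intro g hg
  have hR : ∃ R, len g < R ∧ (p = 1 → R < 1) := by
    by_cases hp : p = 1
    · obtain ⟨R, hR1, hR2⟩ := exists_between (hg hp)
      exact ⟨R, hR1, fun _ => hR2⟩
    · exact ⟨len g + 1, by linarith, fun h => absurd h hp⟩
  obtain ⟨R, hR1, hR2⟩ := hR
  have hR0 : 0 < R := (len_nonneg g).trans_lt hR1
  obtain ⟨l, hl0, hl⟩ := hx.SS_lip (T := t) ht hR0 hR2
  refine ContinuousAt.continuousWithinAt ?_
  rw [ContinuousAt, tendsto_iff_norm_sub_tendsto_zero]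
  have hlim : Tendsto (fun g' => l * len (g' - g)) (𝓝 g) (𝓝 (l * len (g - g))) := by
    have hc : Continuous (fun g' => l * len (g' - g)) :=
      continuous_const.mul (continuous_len.comp (continuous_id.sub continuous_const))
    exact hc.tendsto g
  rw [sub_self, len_zero, mul_zero] at hlim
  refine squeeze_zero' (Filter.Eventually.of_forall fun _ => norm_nonneg _) ?_ hlim
  have hnear : ∀ᶠ g' in 𝓝 g, len g' < R :=
    (continuous_len.tendsto g).eventually (gt_mem_nhds hR1)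
  filter_upwards [hnear] with g' hg'
  refine le_trans ?_ (hl t ⟨le_rfl, le_rfl⟩ g g' hR1.le hg'.le)
  rw [Prod.norm_def]
  exact max_le (abs_fst_le _) (abs_snd_le _)

theorem IsProf0.meas_SS {t : ℝ} (ht : 0 < t) : Measurable (SS p (kap p x) x t) := by
  classical
  have h := (hx.SS_contOn ht).measurable_piecewise (g := fun _ => (0 : ℝ × ℝ))
    continuousOn_const (isOpen_dom p).measurableSet
  have e : {g | Dom p g}.piecewise (SS p (kap p x) x t) (fun _ => (0 : ℝ × ℝ))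
      = SS p (kap p x) x t := by
    funext g
    by_cases hg : Dom p g
    · rw [piecewise_eq_of_mem _ _ _ (show g ∈ {g | Dom p g} from hg)]
    · rw [piecewise_eq_of_notMem _ _ _ (show g ∉ {g | Dom p g} from hg)]
      unfold SS
      rw [if_neg hg]
  rw [← e]
  exact h

theorem IsProf0.WW_fenchel {t : ℝ} (ht : 0 < t) {g : ℝ × ℝ} (hg : Dom p g) (s : ℝ × ℝ) :
    dot g s ≤ VV p (kap p x) x t s + WW p (kap p x) x t g := by
  have h := hx.VV_convex (kap_pos p x) ht (SS p (kap p x) x t g) s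
  rw [hx.GG_SS ht hg] at h
  unfold WW
  rw [if_pos hg]
  have e : dot g (s - SS p (kap p x) x t g) = dot g s - dot g (SS p (kap p x) x t g) := by
    simp only [dot, Prod.fst_sub, Prod.snd_sub]
    ring
  rw [e] at h
  linarith

theorem IsProf0.wfacts : WFacts p (kap p x) (VV p (kap p x) x) (WW p (kap p x) x)
    (SS p (kap p x) x) (HI p (kap p x) x) := by
  have hκ := kap_pos p x
  have hp1 := hx.one_le_p
  refine ⟨?_, ?_, ?_, ?_, ?_, ?_, ?_, ?_, ?_, ?_⟩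
  · -- zero
    intro t ht
    have hd : Dom p (0 : ℝ × ℝ) := fun _ => by rw [len_zero]; exact one_pos
    have h0 : SS p (kap p x) x t 0 = 0 := by
      unfold SS
      rw [if_pos hd, smul_zero]
    unfold WW
    rw [if_pos hd, h0, IsProf0.VV_zero]
    simp [dot]
  · -- fenchel
    intro t ht g hg s
    exact hx.WW_fenchel ht hg s
  · -- measurability
    intro t ht
    have hS := hx.meas_SS ht
    obtain ⟨ha, hb, hc⟩ := hx.cont_HH hκ ht
    refine ⟨?_, hS, ha.measurable.comp hS, hb.measurable.comp hS, hc.measurable.comp hS⟩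
    unfold WW
    refine Measurable.ite (isOpen_dom p).measurableSet ?_ measurable_const
    refine Measurable.sub ?_ ?_
    · unfold dot
      exact (measurable_fst.mul (measurable_fst.comp hS)).add
        (measurable_snd.mul (measurable_snd.comp hS))
    · have hV : Continuous (VV p (kap p x) x t) :=
        continuous_const.mul (hx.continuous_FF.comp (continuous_sgm t))
      exact hV.measurable.comp hS
  · -- posdef
    intro t ht g _
    exact ⟨hx.a_HH_pos hκ ht _, hx.det_HH_pos hκ ht _⟩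
  · -- bounds
    intro τ T R hτ _ hR0 hR
    obtain ⟨ρ, hρ0, hρ⟩ := hx.SS_bdd (T := T) hτ hR0 hR
    obtain ⟨C, k, hC, hk⟩ := hx.VV_bounds hκ (T := T) hτ
    obtain ⟨l, hl0, hl⟩ := hx.coer hκ (T := T) hτ ρ
    set A := C * (1 + ρ) ^ k with hA
    have hA0 : 0 < A := by positivity
    refine ⟨R * ρ + A + ρ + (l ^ 2)⁻¹, by positivity, fun t ht g hg => ?_⟩
    have ht0 : 0 < t := hτ.trans_le ht.1
    have hd : Dom p g := fun hp => hg.trans_lt (hR hp)
    have hS := hρ t ht g hg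
    obtain ⟨k1, k2, k3⟩ := hk t ht (SS p (kap p x) x t g)
    have hS0 := len_nonneg (SS p (kap p x) x t g)
    have hpow : C * (1 + len (SS p (kap p x) x t g)) ^ k ≤ A := by
      rw [hA]
      gcongr
    have hli : 0 < (l ^ 2)⁻¹ := by positivity
    have hRρ : 0 < R * ρ := by positivity
    refine ⟨?_, ?_, ?_, ?_⟩
    · unfold WW
      rw [if_pos hd]
      have h1 := abs_dot_le g (SS p (kap p x) x t g)
      have h2 : len g * len (SS p (kap p x) x t g) ≤ R * ρ := mul_le_mul hg hS hS0 hR0.le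
      calc _ ≤ |dot g (SS p (kap p x) x t g)| + |VV p (kap p x) x t (SS p (kap p x) x t g)| :=
            abs_sub _ _
        _ ≤ _ := by linarith
    · linarith
    · have : (HI p (kap p x) x t g).nrm ≤ A := k3.trans hpow
      linarith
    · have h1 := (hl t ht _ hS).2
      have h2 : 1 = (l ^ 2)⁻¹ * l ^ 2 := by field_simp
      have h3 := hx.det_HH_pos hκ ht0 (SS p (kap p x) x t g)
      calc (1 : ℝ) = (l ^ 2)⁻¹ * l ^ 2 := h2
        _ ≤ (l ^ 2)⁻¹ * (HI p (kap p x) x t g).det := mul_le_mul_of_nonneg_left h1 hli.le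
        _ ≤ _ := mul_le_mul_of_nonneg_right (by linarith) h3.le
  · -- taylor
    intro τ T R hτ _ hR0 hR
    obtain ⟨ρ, hρ0, hρ⟩ := hx.SS_bdd (T := T) hτ hR0 hR
    obtain ⟨C, k, hC, hk⟩ := hx.taylor2 hκ (T := T) hτ
    obtain ⟨l, hl0, hl⟩ := hx.SS_lip (T := T) hτ hR0 hR
    refine ⟨C * (1 + 3 * ρ) ^ k * l ^ 3, by positivity, fun t ht g Δ hg hgΔ => ?_⟩
    have ht0 : 0 < t := hτ.trans_le ht.1
    have hd : Dom p g := fun hp => hg.trans_lt (hR hp)
    have hd' : Dom p (g + Δ) := fun hp => hgΔ.trans_lt (hR hp)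
    have hS := hρ t ht g hg
    have hS' := hρ t ht (g + Δ) hgΔ
    have hlip := hl t ht g (g + Δ) hg hgΔ
    rw [add_sub_cancel_left] at hlip
    have hG := hx.GG_SS ht0 hd
    have hsq := qf_dual (HI p (kap p x) x t g) (hx.a_HH_pos hκ ht0 _) (hx.det_HH_pos hκ ht0 _) Δ
      (SS p (kap p x) x t (g + Δ) - SS p (kap p x) x t g)
    have htay := hk t ht (SS p (kap p x) x t g)
      (SS p (kap p x) x t (g + Δ) - SS p (kap p x) x t g)
    rw [add_sub_cancel, hG] at htay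
    set s := SS p (kap p x) x t g with hs
    set s' := SS p (kap p x) x t (g + Δ) with hs'
    have hHI : HI p (kap p x) x t g = HH p (kap p x) x t s := rfl
    rw [hHI] at hsq ⊢
    have hδ : len (s' - s) ≤ 2 * ρ := (len_sub_le _ _).trans (by linarith)
    have hs0 := len_nonneg s
    have hδ0 := len_nonneg (s' - s)
    have hΔ0 := len_nonneg Δ
    have hrem : C * (1 + len s + len (s' - s)) ^ k * len (s' - s) ^ 3
        ≤ C * (1 + 3 * ρ) ^ k * l ^ 3 * len Δ ^ 3 := by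
      have h1 : (1 + len s + len (s' - s)) ^ k ≤ (1 + 3 * ρ) ^ k :=
        pow_le_pow_left₀ (by linarith) (by linarith) _
      have h2 : len (s' - s) ^ 3 ≤ (l * len Δ) ^ 3 := pow_le_pow_left₀ hδ0 hlip 3
      calc _ ≤ C * (1 + 3 * ρ) ^ k * (l * len Δ) ^ 3 := by gcongr
        _ = _ := by ring
    unfold WW
    rw [if_pos hd, if_pos hd', ← hs, ← hs']
    have e1 : dot (g + Δ) s' = dot g s + dot g (s' - s) + dot s Δ + dot Δ (s' - s) := by
      simp only [dot, Prod.fst_sub, Prod.snd_sub, Prod.fst_add, Prod.snd_add]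
      ring
    have h3 := (abs_le.mp htay).1
    linarith
  · -- hlip
    intro τ T R hτ _ hR0 hR
    obtain ⟨ρ, hρ0, hρ⟩ := hx.SS_bdd (T := T) hτ hR0 hR
    obtain ⟨C, k, hC, hk⟩ := hx.hlip_HH hκ (T := T) hτ
    obtain ⟨l, hl0, hl⟩ := hx.SS_lip (T := T) hτ hR0 hR
    refine ⟨C * (1 + 2 * ρ) ^ k * l, by positivity, fun t ht g g' hg hg' => ?_⟩
    have hS := hρ t ht g hg
    have hS' := hρ t ht g' hg'
    have hlip := hl t ht g' g hg' hg
    have h1 := hk t ht (SS p (kap p x) x t g) (SS p (kap p x) x t g')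
    have h2 : (1 + len (SS p (kap p x) x t g) + len (SS p (kap p x) x t g')) ^ k
        ≤ (1 + 2 * ρ) ^ k := by
      refine pow_le_pow_left₀ ?_ (by linarith) _
      have := len_nonneg (SS p (kap p x) x t g)
      have := len_nonneg (SS p (kap p x) x t g')
      linarith
    have h3 := len_nonneg (SS p (kap p x) x t g - SS p (kap p x) x t g')
    refine h1.trans ?_
    calc _ ≤ C * (1 + 2 * ρ) ^ k * (l * len (g - g')) := by gcongr
      _ = _ := by ring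
  · -- time
    intro τ T R hτ _ hR0 hR
    obtain ⟨ρ, hρ0, hρ⟩ := hx.SS_bdd (T := T) hτ hR0 hR
    obtain ⟨C, k, hC, hk⟩ := hx.time2 hκ (T := T) hτ
    refine ⟨C * (1 + ρ) ^ k, by positivity, fun t ht t' ht' g hg => ?_⟩
    have ht0 : 0 < t := hτ.trans_le ht.1
    have ht'0 : 0 < t' := hτ.trans_le ht'.1
    have ht'' : t' ∈ Icc τ T := ⟨ht'.1, ht'.2.trans ht.2⟩
    have hd : Dom p g := fun hp => hg.trans_lt (hR hp)
    have hS := hρ t' ht'' g hg
    have h1 := hx.WW_fenchel ht0 hd (SS p (kap p x) x t' g)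
    have h2 := (abs_le.mp (hk t ht t' ht'' (SS p (kap p x) x t' g))).2
    have h3 : WW p (kap p x) x t' g = dot g (SS p (kap p x) x t' g)
        - VV p (kap p x) x t' (SS p (kap p x) x t' g) := by
      unfold WW
      rw [if_pos hd]
    have h4 : C * (1 + len (SS p (kap p x) x t' g)) ^ k * (t - t') ^ 2
        ≤ C * (1 + ρ) ^ k * (t - t') ^ 2 := by
      have := len_nonneg (SS p (kap p x) x t' g)
      gcongr
    rw [h3]
    have h5 : HI p (kap p x) x t' g = HH p (kap p x) x t' (SS p (kap p x) x t' g) := rfl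
    rw [h5]
    linarith
  · -- grow
    intro τ T hτ _
    obtain ⟨C2, k2, hC2, h2⟩ := pb_rpow (T := T) hτ (p - 2)
    have hb2 : ∀ t ∈ Icc τ T, t ^ (p - 2) ≤ C2 := by
      intro t ht
      have h := h2 (t, 0, 0) ht
      have e0 : mm ((t, 0, 0) : ℝ × (ℝ × ℝ) × (ℝ × ℝ)) = 0 := by
        simp [mm, len_zero]
      rw [e0] at h
      exact (le_abs_self _).trans (by simpa using h)
    obtain ⟨C1, k1, hC1, h1⟩ := hx.pg_gam hκ
    set A := C1 * (1 + 1) ^ k1 with hA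
    refine ⟨(1 + p ^ 2) * p * (C2 * A ^ 2 + τ⁻¹), by positivity, fun t ht g hg => ?_⟩
    have ht0 : 0 < t := hτ.trans_le ht.1
    obtain ⟨hσ0, hσ⟩ := hx.sgg_spec ht0 hg
    have e1 := hx.tr_HH (κ := kap p x) ht0 (SS p (kap p x) x t g)
    have e2 := hx.sqrt_det_HH hκ ht0 (SS p (kap p x) x t g)
    rw [hx.sgm_SS ht0 hg] at e1 e2
    have e3 : (HI p (kap p x) x t g).tr = (HH p (kap p x) x t (SS p (kap p x) x t g)).tr := rfl
    have e4 : (HI p (kap p x) x t g).det = (HH p (kap p x) x t (SS p (kap p x) x t g)).det := rfl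
    rw [e3, e4, e1, e2]
    set σ := sgg p (kap p x) x t g with hσdef
    have hγ := hx.gam_pos hκ σ
    have hX := hx.pos' σ
    have hXp := hx.le_p' σ
    set γ := gam p (kap p x) x σ with hγdef
    have htp : 0 < t ^ (p / 2 - 1) := Real.rpow_pos_of_pos ht0 _
    have ht2 : (t ^ (p / 2 - 1)) ^ 2 = t ^ (p - 2) := by
      rw [← Real.rpow_natCast, ← Real.rpow_mul ht0.le]
      congr 1
      push_cast
      ring
    have ht3 : t ^ (p - 1) = t ^ (p - 2) * t := by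
      rw [← Real.rpow_add_one ht0.ne']
      congr 1
      ring
    have htp2 : 0 < t ^ (p - 2) := Real.rpow_pos_of_pos ht0 _
    have hmain : t ^ (p - 2) * γ ^ 2 ≤ C2 * A ^ 2 + τ⁻¹ * len g ^ 2 := by
      have hlg : 0 ≤ len g ^ 2 := sq_nonneg _
      have hτi : 0 < τ⁻¹ := inv_pos.mpr hτ
      rcases le_total σ 1 with h | h
      · have h3 : γ ≤ A := by
          have h4 := (le_abs_self _).trans (h1 σ hσ0)
          refine h4.trans ?_
          rw [hA]
          gcongr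
        have h5 : t ^ (p - 2) * γ ^ 2 ≤ C2 * A ^ 2 :=
          mul_le_mul (hb2 t ht) (pow_le_pow_left₀ hγ.le h3 2) (by positivity) hC2.le
        have : 0 ≤ τ⁻¹ * len g ^ 2 := by positivity
        linarith
      · have h3 : t ^ (p - 2) * γ ^ 2 ≤ t⁻¹ * len g ^ 2 := by
          rw [← hσ, ht3]
          unfold ee
          rw [← hγdef]
          have : t⁻¹ * (t ^ (p - 2) * t * (2 * σ * γ ^ 2)) = t ^ (p - 2) * γ ^ 2 * (2 * σ) := by
            field_simp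
          rw [this]
          have h4 : 0 < t ^ (p - 2) * γ ^ 2 := by positivity
          nlinarith
        have h5 : t⁻¹ ≤ τ⁻¹ := (inv_le_inv₀ ht0 hτ).mpr ht.1
        have h6 : t⁻¹ * len g ^ 2 ≤ τ⁻¹ * len g ^ 2 := mul_le_mul_of_nonneg_right h5 hlg
        have : 0 ≤ C2 * A ^ 2 := by positivity
        linarith
    have hX1 : (1 + x σ ^ 2) * x σ ≤ (1 + p ^ 2) * p := by
      have : x σ ^ 2 ≤ p ^ 2 := pow_le_pow_left₀ hX.le hXp 2
      exact mul_le_mul (by linarith) hXp hX.le (by positivity)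
    calc t ^ (p / 2 - 1) * γ * (1 + x σ ^ 2) * (t ^ (p / 2 - 1) * γ * x σ)
        = (t ^ (p / 2 - 1)) ^ 2 * γ ^ 2 * ((1 + x σ ^ 2) * x σ) := by ring
      _ = t ^ (p - 2) * γ ^ 2 * ((1 + x σ ^ 2) * x σ) := by rw [ht2]
      _ ≤ (C2 * A ^ 2 + τ⁻¹ * len g ^ 2) * ((1 + p ^ 2) * p) :=
          mul_le_mul hmain hX1 (by positivity) (by positivity)
      _ ≤ (1 + p ^ 2) * p * (C2 * A ^ 2 + τ⁻¹) * (1 + len g ^ 2) := by
          have h5 : 0 ≤ len g ^ 2 := sq_nonneg _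
          have h6 : 0 ≤ C2 * A ^ 2 := by positivity
          have h7 : 0 ≤ τ⁻¹ := (inv_pos.mpr hτ).le
          have h8 : C2 * A ^ 2 + τ⁻¹ * len g ^ 2 ≤ (C2 * A ^ 2 + τ⁻¹) * (1 + len g ^ 2) := by
            nlinarith [mul_nonneg h6 h5]
          calc _ ≤ ((C2 * A ^ 2 + τ⁻¹) * (1 + len g ^ 2)) * ((1 + p ^ 2) * p) :=
                mul_le_mul_of_nonneg_right h8 (by positivity)
            _ = _ := by ring
  · -- loss
    intro τ T ε hτ hτT hε
    have hT0 : 0 < T := hτ.trans_le hτT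
    set Z := p ^ 2 / (8 * τ * ε ^ 2) with hZ
    have hp0 := hx.p_pos
    have hZ0 : 0 < Z := by positivity
    have hTp : 0 < T ^ (p - 1) := Real.rpow_pos_of_pos hT0 _
    have heZ : 0 < ee p (kap p x) x Z := by
      have h := hx.ee_strictMono hκ (show (0 : ℝ) ≤ 0 from le_rfl) (show (0 : ℝ) ≤ Z from hZ0.le) hZ0
      rwa [ee_zero] at h
    refine ⟨Real.sqrt (T ^ (p - 1) * ee p (kap p x) x Z), by positivity, ?_, ?_⟩
    · intro hp
      rw [Real.sqrt_lt' one_pos, one_pow]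
      have := hx.ee_lt_one hp hZ0.le
      rw [show T ^ (p - 1) = 1 by rw [hp]; simp, one_mul]
      exact this
    · intro t ht g hg hR
      have ht0 : 0 < t := hτ.trans_le ht.1
      obtain ⟨hσ0, hσ⟩ := hx.sgg_spec ht0 hg
      have e2 := hx.sqrt_det_HH hκ ht0 (SS p (kap p x) x t g)
      rw [hx.sgm_SS ht0 hg] at e2
      have e4 : (HI p (kap p x) x t g).det = (HH p (kap p x) x t (SS p (kap p x) x t g)).det := rfl
      rw [e4, e2]
      set σ := sgg p (kap p x) x t g with hσdef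
      have hγ := hx.gam_pos hκ σ
      have hX := hx.pos' σ
      have hXp := hx.le_p' σ
      set γ := gam p (kap p x) x σ with hγdef
      have hZσ : Z ≤ σ := by
        by_contra hcon
        rw [not_le] at hcon
        have h1 := hx.ee_strictMono hκ (show (0 : ℝ) ≤ σ from hσ0) (show (0 : ℝ) ≤ Z from hZ0.le) hcon
        have h2 : t ^ (p - 1) ≤ T ^ (p - 1) := Real.rpow_le_rpow ht0.le ht.2 (by linarith)
        have h3 : len g ^ 2 < T ^ (p - 1) * ee p (kap p x) x Z := by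
          rw [← hσ]
          calc t ^ (p - 1) * ee p (kap p x) x σ ≤ T ^ (p - 1) * ee p (kap p x) x σ :=
                mul_le_mul_of_nonneg_right h2 (hx.ee_nonneg hκ hσ0)
            _ < _ := mul_lt_mul_of_pos_left h1 hTp
        have h4 : T ^ (p - 1) * ee p (kap p x) x Z ≤ len g ^ 2 := by
          have := Real.sqrt_le_left (len_nonneg g) |>.mp hR
          exact this
        linarith
      -- `sqrt det = t^(p/2-1) γ x ≤ ε (2 |g|) ≤ ε (1 + |g|^2)`
      have htp : 0 < t ^ (p / 2 - 1) := Real.rpow_pos_of_pos ht0 _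
      have hlen : len g ^ 2 = (t ^ (p / 2 - 1) * γ) ^ 2 * (2 * t * σ) := by
        rw [← hσ]
        unfold ee
        have ht2 : (t ^ (p / 2 - 1)) ^ 2 * t = t ^ (p - 1) := by
          rw [← Real.rpow_natCast, ← Real.rpow_mul ht0.le, ← Real.rpow_add_one ht0.ne']
          congr 1
          push_cast
          ring
        rw [← ht2, ← hγdef]
        ring
      have h1 : p ^ 2 ≤ (2 * ε) ^ 2 * (2 * t * σ) := by
        have h2 : 8 * τ * ε ^ 2 * Z = p ^ 2 := by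
          rw [hZ]
          field_simp
        rw [← h2]
        have h3 : τ * Z ≤ t * σ := mul_le_mul ht.1 hZσ hZ0.le ht0.le
        nlinarith [sq_nonneg ε]
      have h2 : (t ^ (p / 2 - 1) * γ * x σ) ^ 2 ≤ (2 * ε * len g) ^ 2 := by
        have h3 : (2 * ε * len g) ^ 2 = (t ^ (p / 2 - 1) * γ) ^ 2 * ((2 * ε) ^ 2 * (2 * t * σ)) := by
          rw [mul_pow (2 * ε), hlen]
          ring
        rw [h3, mul_pow]
        refine mul_le_mul_of_nonneg_left ?_ (sq_nonneg _)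
        exact (pow_le_pow_left₀ hX.le hXp 2).trans h1
      have h3 : t ^ (p / 2 - 1) * γ * x σ ≤ 2 * ε * len g := by
        refine le_of_sq_le_sq ?_ ?_
        · exact h2
        · have := len_nonneg g
          positivity
      refine h3.trans ?_
      nlinarith [sq_nonneg (len g - 1)]

end

end Match2D.MG

end

section

/-!
MP_884187_pr, item L3, part e: expectations and summation over the generations.
-/

open MeasureTheory Set Filter Topology

namespace Match2D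

section Dens

variable {m n J : ℕ} [NeZero m]

theorem L3_ratio {j : ℕ} (hm : 2 ≤ m) (hn : 2 ≤ n) (hj : j ≤ J)
    (hJ : (m : ℝ) ^ (2 * J) * Real.log n ^ 2 ≤ n) (h1 : 1 ≤ Real.log n) :
    m ^ (2 * j) ≤ n ∧ (m : ℝ) ^ (2 * j) / n ≤ (1 / Real.log n) ^ 2 ∧ (m : ℝ) ^ (2 * J) ≤ n := by
  have hn0 : (0 : ℝ) < n := by positivity
  have hm1 : (1 : ℝ) ≤ m := by exact_mod_cast (by omega : 1 ≤ m)
  have hL0 : 0 < Real.log n := by linarith
  have h2 : (m : ℝ) ^ (2 * j) ≤ (m : ℝ) ^ (2 * J) := pow_le_pow_right₀ hm1 (by omega)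
  have hJ1 : (m : ℝ) ^ (2 * J) ≤ n := by
    have : (m : ℝ) ^ (2 * J) * 1 ≤ (m : ℝ) ^ (2 * J) * Real.log n ^ 2 :=
      mul_le_mul_of_nonneg_left (one_le_pow₀ h1) (by positivity)
    linarith
  refine ⟨?_, ?_, hJ1⟩
  · have : (m : ℝ) ^ (2 * j) ≤ n := h2.trans hJ1
    exact_mod_cast this
  · rw [div_le_iff₀ hn0, div_pow, one_pow, div_mul_eq_mul_div, one_mul,
      le_div_iff₀ (by positivity)]
    exact (mul_le_mul_of_nonneg_right h2 (by positivity)).trans hJ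

theorem L3_Er2 (hC2 : StmtC2) {j : ℕ} (hm : 2 ≤ m) (hn : 2 ≤ n) (hj : j ≤ J)
    (hJ : m ^ (2 * j) ≤ n) :
    EJ J (fun ω : Seqs m n => ∫ z, rdens ω j (qidx m j z) ^ 2 ∂U) ≤ 2 := by
  rw [L3_EJ_integral J _ fun ω => L3_int_r2 hn j ω]
  have h2 : (2 : ℝ) = ∫ _z : ℝ × ℝ, (2 : ℝ) ∂U := by rw [L3_integral_const]
  conv_rhs => rw [h2]
  refine L3_integral_mono (L3_EJ_integrable J _ fun ω => L3_int_r2 hn j ω) (integrable_const _) ?_
  intro z hz
  have hq := qidx_lt (m := m) (by omega) j hz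
  obtain ⟨a1, a2, -⟩ := hC2 m n J j hm (by omega) hj hJ (qidx m j z) hq.1 hq.2
  have hn0 : (0 : ℝ) < n := by positivity
  have h3 : (m : ℝ) ^ (2 * j) / n ≤ 1 := by
    rw [div_le_one hn0]
    exact_mod_cast hJ
  have e : (fun ω : Seqs m n => rdens ω j (qidx m j z) ^ 2) = fun ω =>
      ((rdens ω j (qidx m j z) - 1) ^ 2 + 2 * rdens ω j (qidx m j z)) - 1 := by
    funext ω
    ring
  rw [e, L3_EJ_sub, L3_EJ_add, L3_EJ_mul, a1, C2_EJ_const]
  linarith

theorem L3_Er1 (hC2 : StmtC2) {j : ℕ} {η : ℝ} (hm : 2 ≤ m) (hn : 2 ≤ n) (hj : j ≤ J)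
    (hJ : m ^ (2 * j) ≤ n) (hη : 0 < η) (hr : (m : ℝ) ^ (2 * j) / n ≤ η ^ 2) :
    EJ J (fun ω : Seqs m n => ∫ z, |rdens ω j (qidx m j z) - 1| ∂U) ≤ η := by
  rw [L3_EJ_integral J _ fun ω => L3_int_r1 hn j ω]
  have h2 : η = ∫ _z : ℝ × ℝ, η ∂U := by rw [L3_integral_const]
  conv_rhs => rw [h2]
  refine L3_integral_mono (L3_EJ_integrable J _ fun ω => L3_int_r1 hn j ω) (integrable_const _) ?_
  intro z hz
  have hq := qidx_lt (m := m) (by omega) j hz
  obtain ⟨a1, a2, -⟩ := hC2 m n J j hm (by omega) hj hJ (qidx m j z) hq.1 hq.2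
  have h3 : ∀ ω : Seqs m n, |rdens ω j (qidx m j z) - 1| ≤
      η / 2 + (1 / (2 * η)) * (rdens ω j (qidx m j z) - 1) ^ 2 := by
    intro ω
    set x := rdens ω j (qidx m j z) - 1 with hx
    have e : η / 2 + (1 / (2 * η)) * x ^ 2 - |x| = (1 / (2 * η)) * (η - |x|) ^ 2 := by
      have : x ^ 2 = |x| ^ 2 := (sq_abs x).symm
      rw [this]
      field_simp
      ring
    have : 0 ≤ (1 / (2 * η)) * (η - |x|) ^ 2 := by positivity
    linarith
  refine (L3_EJ_mono J h3).trans ?_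
  rw [L3_EJ_add, L3_EJ_mul, C2_EJ_const]
  have h4 : (1 / (2 * η)) * EJ J (fun ω : Seqs m n => (rdens ω j (qidx m j z) - 1) ^ 2) ≤
      (1 / (2 * η)) * η ^ 2 := mul_le_mul_of_nonneg_left (a2.trans hr) (by positivity)
  have e5 : (1 / (2 * η)) * η ^ 2 = η / 2 := by
    field_simp
  linarith

end Dens

section Sum

variable {B : ℝ} {W : ℝ → ℝ × ℝ → ℝ} {S : ℝ → ℝ × ℝ → ℝ × ℝ} {HI : ℝ → ℝ × ℝ → SymM}
  {τ T R' R₀ R e C Cg : ℝ} {m n J : ℕ} [NeZero m] {C₀ δ C₁ c lam Λ η θ : ℝ}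
  {ζ : UM B → Dig m → ℝ × ℝ → ℝ} {dζ : UM B → Dig m → ℝ × ℝ → ℝ × ℝ}
  {cM : ℕ → ℝ × ℝ → UM B} {cs : ℕ → ℝ × ℝ → ℝ}

/-- Expected integral of the value. -/
noncomputable def L3_A (W : ℝ → ℝ × ℝ → ℝ) (n J : ℕ) (τ lam θ : ℝ)
    (dζ : UM B → Dig m → ℝ × ℝ → ℝ × ℝ) (cM : ℕ → ℝ × ℝ → UM B) (cs : ℕ → ℝ × ℝ → ℝ)
    (j : ℕ) : ℝ :=
  EJ J (fun ω : Seqs m n => ∫ z, W (τ + lam * (J - j)) (Gr θ dζ cM cs j ω z) ∂U)

/-- Expected second moment. -/
noncomputable def L3_Y (n J : ℕ) (θ : ℝ)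
    (dζ : UM B → Dig m → ℝ × ℝ → ℝ × ℝ) (cM : ℕ → ℝ × ℝ → UM B) (cs : ℕ → ℝ × ℝ → ℝ)
    (j : ℕ) : ℝ :=
  EJ J (fun ω : Seqs m n => ∫ z, len (Gr θ dζ cM cs j ω z) ^ 2 ∂U)

/-- Expected weight. -/
noncomputable def L3_Pj (n J : ℕ) (θ : ℝ)
    (dζ : UM B → Dig m → ℝ × ℝ → ℝ × ℝ) (cM : ℕ → ℝ × ℝ → UM B) (cs : ℕ → ℝ × ℝ → ℝ)
    (j : ℕ) : ℝ :=
  EJ J (fun ω : Seqs m n => ∫ z, rdens ω j (qidx m j z) *
    cs j (Gr θ dζ cM cs j ω (corner m j (qidx m j z))) ∂U)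

theorem L3_step_A (h : L3Q W S HI τ T R' R₀ R e C Cg m n J C₀ δ C₁ c lam Λ η θ ζ dζ cM cs)
    (hC1 : StmtC1) (hC2 : StmtC2) (hC3 : StmtC3') (hC5 : StmtC5) {j : ℕ} (hj : j < J)
    (hJ : (m : ℝ) ^ (2 * J) * Real.log n ^ 2 ≤ n) (h1 : 1 ≤ Real.log n) :
    L3_A W n J τ lam θ dζ cM cs (j + 1) ≤ L3_A W n J τ lam θ dζ cM cs j +
      lam * (L3_Pj n J θ dζ cM cs j + C * η) + lam * e * (1 + L3_Y n J θ dζ cM cs j) +
      (Real.log m + 1) / (4 * Real.pi * Real.log n) * L3_Pj n J θ dζ cM cs j +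
      3 * ((C ^ 2 * C₀ * c + 3 * C ^ 7 * C₁ * C₀ ^ 2 * (1 + c) + 2 * C * (1 + C₁) * Λ +
        C * Λ ^ 2) / Real.log n * η) := by
  have hC0 : 0 < C := by linarith [h.hP.hC]
  have hη0 := h.hη0
  have hc := h.hc
  have hC₁ := h.hC₁
  have hΛ := h.hΛ
  have hC₀ := h.hK.pos
  obtain ⟨r1, r2, -⟩ := L3_ratio (m := m) h.hm h.hn hj.le hJ h1
  have hL0 : 0 < Real.log n := by linarith
  have hr : (m : ℝ) ^ (2 * j) / n ≤ η ^ 2 :=
    r2.trans (pow_le_pow_left₀ (by positivity) h.hη4 2)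
  have h2 : L3_A W n J τ lam θ dζ cM cs (j + 1) = EJ J (fun ω : Seqs m n =>
      avg (fun d : Fin n → Dig m => ∫ z, W (τ + lam * (J - (j + 1)))
      (Gr θ dζ cM cs (j + 1) (Function.update ω j d) z) ∂U)) := by
    unfold L3_A
    rw [hC1 m n J j hj]
    push_cast
    rfl
  rw [h2]
  refine (L3_EJ_mono J fun ω => L3_om_value h hC3 hC5 hj ω).trans ?_
  rw [L3_EJ_add, L3_EJ_add, L3_EJ_add, L3_EJ_add, L3_EJ_mul, L3_EJ_mul, L3_EJ_mul, L3_EJ_mul,
    L3_EJ_add, L3_EJ_add, C2_EJ_const]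
  have q1 := L3_Er2 hC2 h.hm h.hn hj.le r1
  have q2 : EJ J (fun ω : Seqs m n => ∫ z,
      cs j (Gr θ dζ cM cs j ω (corner m j (qidx m j z))) ∂U) ≤
      L3_Pj n J θ dζ cM cs j + C * η := by
    have q3 := L3_Er1 hC2 h.hm h.hn hj.le r1 hη0 hr
    have q4 : ∀ ω : Seqs m n, ∫ z, cs j (Gr θ dζ cM cs j ω (corner m j (qidx m j z))) ∂U ≤
        ∫ z, rdens ω j (qidx m j z) * cs j (Gr θ dζ cM cs j ω (corner m j (qidx m j z))) ∂U +
        C * ∫ z, |rdens ω j (qidx m j z) - 1| ∂U := by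
      intro ω
      have i1 := L3_int_rcs h j ω
      have i2 : Integrable (fun z => C * |rdens ω j (qidx m j z) - 1|) U :=
        (L3_int_r1 h.hn j ω).const_mul _
      rw [← integral_const_mul, ← integral_add i1 i2]
      refine L3_integral_mono (L3_int_cs h j ω) (i1.add i2) ?_
      intro z _
      have c1 := h.cs0 j (Gr θ dζ cM cs j ω (corner m j (qidx m j z)))
      set x := cs j (Gr θ dζ cM cs j ω (corner m j (qidx m j z))) with hx
      set r := rdens ω j (qidx m j z) with hr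
      have h5 : (1 - r) * x ≤ |r - 1| * C := by
        refine (le_abs_self _).trans ?_
        rw [abs_mul, abs_sub_comm, abs_of_nonneg c1.1]
        exact mul_le_mul_of_nonneg_left c1.2 (abs_nonneg _)
      nlinarith
    refine (L3_EJ_mono J q4).trans ?_
    rw [L3_EJ_add, L3_EJ_mul]
    unfold L3_Pj
    have := mul_le_mul_of_nonneg_left q3 hC0.le
    linarith
  have q5 := mul_le_mul_of_nonneg_left q2 h.hlam
  have q6 : (C ^ 2 * C₀ * c + 3 * C ^ 7 * C₁ * C₀ ^ 2 * (1 + c) + 2 * C * (1 + C₁) * Λ +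
        C * Λ ^ 2) / Real.log n * η * (1 + EJ J (fun ω : Seqs m n =>
          ∫ z, rdens ω j (qidx m j z) ^ 2 ∂U)) ≤
      (C ^ 2 * C₀ * c + 3 * C ^ 7 * C₁ * C₀ ^ 2 * (1 + c) + 2 * C * (1 + C₁) * Λ +
        C * Λ ^ 2) / Real.log n * η * 3 :=
    mul_le_mul_of_nonneg_left (by linarith) (by positivity)
  unfold L3_A L3_Y L3_Pj
  unfold L3_Pj at q5
  linarith

theorem L3_step_Y (h : L3Q W S HI τ T R' R₀ R e C Cg m n J C₀ δ C₁ c lam Λ η θ ζ dζ cM cs)
    (hC1 : StmtC1) (hC2 : StmtC2) (hC3 : StmtC3') (hC5 : StmtC5) {j : ℕ} (hj : j < J)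
    (hJ : (m : ℝ) ^ (2 * J) * Real.log n ^ 2 ≤ n) (h1 : 1 ≤ Real.log n) :
    L3_Y n J θ dζ cM cs (j + 1) ≤ L3_Y n J θ dζ cM cs j +
      (Real.log m + 1) * Cg / (2 * Real.pi * Real.log n) *
        (1 + L3_Y n J θ dζ cM cs j + 2 * R * C₁ * η + (1 + R ^ 2) * η) +
      3 * (2 * R * C * C₀ * c / Real.log n * η) := by
  have hC0 : 0 < C := by linarith [h.hP.hC]
  have hCg := h.hP.hCg
  have hR0 : 0 < R := by linarith [h.hP.hR, h.hP.hR₀, h.hP.hR']
  have hη0 := h.hη0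
  have hc := h.hc
  have hC₁ := h.hC₁
  have hC₀ := h.hK.pos
  obtain ⟨r1, r2, -⟩ := L3_ratio (m := m) h.hm h.hn hj.le hJ h1
  have hL0 : 0 < Real.log n := by linarith
  have hr : (m : ℝ) ^ (2 * j) / n ≤ η ^ 2 :=
    r2.trans (pow_le_pow_left₀ (by positivity) h.hη4 2)
  have h2 : L3_Y n J θ dζ cM cs (j + 1) = EJ J (fun ω : Seqs m n =>
      avg (fun d : Fin n → Dig m => ∫ z,
      len (Gr θ dζ cM cs (j + 1) (Function.update ω j d) z) ^ 2 ∂U)) := by
    unfold L3_Y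
    rw [hC1 m n J j hj]
  rw [h2]
  refine (L3_EJ_mono J fun ω => L3_om_moment h hC3 hC5 hj ω).trans ?_
  rw [L3_EJ_add, L3_EJ_add, L3_EJ_mul, L3_EJ_mul, L3_EJ_add, L3_EJ_add, L3_EJ_add, L3_EJ_add,
    C2_EJ_const, C2_EJ_const, L3_EJ_mul]
  have q1 := L3_Er2 hC2 h.hm h.hn hj.le r1
  have q3 := L3_Er1 hC2 h.hm h.hn hj.le r1 hη0 hr
  have hlm : 0 ≤ Real.log m := Real.log_nonneg (by exact_mod_cast (by linarith [h.hm] : 1 ≤ m))
  have q6 : 2 * R * C * C₀ * c / Real.log n * η * (1 + EJ J (fun ω : Seqs m n =>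
          ∫ z, rdens ω j (qidx m j z) ^ 2 ∂U)) ≤
      2 * R * C * C₀ * c / Real.log n * η * 3 :=
    mul_le_mul_of_nonneg_left (by linarith) (by positivity)
  have q7 : (1 + R ^ 2) * EJ J (fun ω : Seqs m n => ∫ z, |rdens ω j (qidx m j z) - 1| ∂U) ≤
      (1 + R ^ 2) * η := mul_le_mul_of_nonneg_left q3 (by positivity)
  have q8 : (Real.log m + 1) * Cg / (2 * Real.pi * Real.log n) *
      (1 + EJ J (fun ω : Seqs m n => ∫ z, len (Gr θ dζ cM cs j ω z) ^ 2 ∂U) + 2 * R * C₁ * η +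
        (1 + R ^ 2) * EJ J (fun ω : Seqs m n => ∫ z, |rdens ω j (qidx m j z) - 1| ∂U)) ≤
      (Real.log m + 1) * Cg / (2 * Real.pi * Real.log n) *
      (1 + EJ J (fun ω : Seqs m n => ∫ z, len (Gr θ dζ cM cs j ω z) ^ 2 ∂U) + 2 * R * C₁ * η +
        (1 + R ^ 2) * η) := mul_le_mul_of_nonneg_left (by linarith) (by positivity)
  unfold L3_Y
  linarith

theorem L3_Y_nonneg (n J : ℕ) (θ : ℝ)
    (dζ : UM B → Dig m → ℝ × ℝ → ℝ × ℝ) (cM : ℕ → ℝ × ℝ → UM B) (cs : ℕ → ℝ × ℝ → ℝ)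
    (j : ℕ) : 0 ≤ L3_Y n J θ dζ cM cs j :=
  L3_EJ_nonneg J fun _ => integral_nonneg fun _ => sq_nonneg _

theorem L3_P_nonneg (h : L3Q W S HI τ T R' R₀ R e C Cg m n J C₀ δ C₁ c lam Λ η θ ζ dζ cM cs)
    (j : ℕ) : 0 ≤ L3_Pj n J θ dζ cM cs j :=
  L3_EJ_nonneg J fun _ => integral_nonneg fun _ => mul_nonneg (rdens_nonneg _ _ _) (h.cs0 _ _).1

/-- A discrete Gronwall inequality. -/
theorem L3_gronwall (Y : ℕ → ℝ) (a b : ℝ) (J : ℕ) (ha : 0 ≤ a) (hb : 0 ≤ b) (h0 : Y 0 = 0)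
    (h : ∀ j, j < J → Y (j + 1) ≤ Y j + a * (1 + Y j) + b) :
    ∀ j, j ≤ J → 1 + Y j ≤ Real.exp (j * a) * (1 + j * b) := by
  intro j
  induction j with
  | zero =>
    intro _
    rw [h0]
    simp
  | succ j ih =>
    intro hj
    have h1 := ih (by omega)
    have h2 := h j (by omega)
    have h3 : 1 + a ≤ Real.exp a := by linarith [Real.add_one_le_exp a]
    have h4 : 1 ≤ Real.exp ((j + 1 : ℕ) * a) := Real.one_le_exp (by positivity)
    have e1 : Real.exp ((j + 1 : ℕ) * a) = Real.exp a * Real.exp (j * a) := by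
      rw [← Real.exp_add]
      congr 1
      push_cast
      ring
    have h5 : (1 + a) * (1 + Y j) ≤ Real.exp a * (Real.exp (j * a) * (1 + j * b)) := by
      calc (1 + a) * (1 + Y j) ≤ (1 + a) * (Real.exp (j * a) * (1 + j * b)) :=
            mul_le_mul_of_nonneg_left h1 (by positivity)
        _ ≤ _ := mul_le_mul_of_nonneg_right h3 (by positivity)
    have e2 : Real.exp ((j + 1 : ℕ) * a) * (1 + (j + 1 : ℕ) * b) =
        Real.exp a * (Real.exp (j * a) * (1 + j * b)) + Real.exp ((j + 1 : ℕ) * a) * b := by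
      rw [e1]
      push_cast
      ring
    rw [e2]
    have h6 : b ≤ Real.exp ((j + 1 : ℕ) * a) * b := le_mul_of_one_le_left hb h4
    nlinarith

theorem L3_Y_bound (h : L3Q W S HI τ T R' R₀ R e C Cg m n J C₀ δ C₁ c lam Λ η θ ζ dζ cM cs)
    (hC1 : StmtC1) (hC2 : StmtC2) (hC3 : StmtC3') (hC5 : StmtC5)
    (hJ : (m : ℝ) ^ (2 * J) * Real.log n ^ 2 ≤ n) (h1 : 1 ≤ Real.log n) (hlm : 1 ≤ Real.log m)
    (hJ2 : 2 * J * Real.log m ≤ Real.log n)
    (hη5 : (Cg * (2 * R * C₁ + (1 + R ^ 2)) + 3 * (2 * R * C * C₀ * c)) * η ≤ 1) :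
    ∀ j, j ≤ J → 1 + L3_Y n J θ dζ cM cs j ≤ 2 * Real.exp Cg := by
  have hC0 : 0 < C := by linarith [h.hP.hC]
  have hCg := h.hP.hCg
  have hR0 : 0 < R := by linarith [h.hP.hR, h.hP.hR₀, h.hP.hR']
  have hη0 := h.hη0
  have hc := h.hc
  have hC₁ := h.hC₁
  have hC₀ := h.hK.pos
  have hL0 : 0 < Real.log n := by linarith
  have hpi := Real.pi_gt_three
  set L := Real.log n with hLd
  set a := (Real.log m + 1) * Cg / (2 * Real.pi * L) with ha
  set b := a * ((2 * R * C₁ + (1 + R ^ 2)) * η) + 3 * (2 * R * C * C₀ * c / L * η) with hb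
  have ha0 : 0 ≤ a := by positivity
  have hb0 : 0 ≤ b := by positivity
  have h0 : L3_Y n J θ dζ cM cs 0 = 0 := by
    unfold L3_Y
    have : (fun ω : Seqs m n => ∫ z, len (Gr θ dζ cM cs 0 ω z) ^ 2 ∂U) = fun _ => 0 := by
      funext ω
      have : ∀ z, len (Gr θ dζ cM cs 0 ω z) ^ 2 = 0 := by
        intro z
        have : Gr θ dζ cM cs 0 ω z = 0 := rfl
        rw [this, A1_len_zero]
        ring
      simp [this]
    rw [this, C2_EJ_const]
  have hg := L3_gronwall (fun j => L3_Y n J θ dζ cM cs j) a b J ha0 hb0 h0 (fun j hj => by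
    have := L3_step_Y h hC1 hC2 hC3 hC5 hj hJ h1
    have e1 : a * (1 + L3_Y n J θ dζ cM cs j + 2 * R * C₁ * η + (1 + R ^ 2) * η) =
        a * (1 + L3_Y n J θ dζ cM cs j) + a * ((2 * R * C₁ + (1 + R ^ 2)) * η) := by ring
    rw [← hLd, ← ha] at this
    rw [hb]
    linarith)
  intro j hj
  refine (hg j hj).trans ?_
  have hjJ : (j : ℝ) ≤ J := by exact_mod_cast hj
  have hJL : (J : ℝ) ≤ L / 2 := by
    have : (J : ℝ) * 1 ≤ J * Real.log m := mul_le_mul_of_nonneg_left hlm (Nat.cast_nonneg _)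
    linarith
  have hja : (j : ℝ) * a ≤ Cg := by
    have h5 : (j : ℝ) * (Real.log m + 1) ≤ L := by
      have h6 : (j : ℝ) * (Real.log m + 1) ≤ J * (Real.log m + 1) :=
        mul_le_mul_of_nonneg_right hjJ (by linarith)
      nlinarith [hJL]
    calc (j : ℝ) * a = (j * (Real.log m + 1)) * (Cg / (2 * Real.pi * L)) := by
          rw [ha]
          ring
      _ ≤ L * (Cg / (2 * Real.pi * L)) := mul_le_mul_of_nonneg_right h5 (by positivity)
      _ = Cg / (2 * Real.pi) := by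
          field_simp
      _ ≤ Cg := div_le_self hCg.le (by linarith)
  have hjb : (j : ℝ) * b ≤ 1 := by
    have e1 : (j : ℝ) * b = (j * a) * ((2 * R * C₁ + (1 + R ^ 2)) * η) +
        (j / L) * (3 * (2 * R * C * C₀ * c)) * η := by
      rw [hb]
      ring
    have h5 : (j : ℝ) / L ≤ 1 := by
      rw [div_le_one hL0]
      linarith
    rw [e1]
    have h6 : (j * a) * ((2 * R * C₁ + (1 + R ^ 2)) * η) ≤
        Cg * ((2 * R * C₁ + (1 + R ^ 2)) * η) := mul_le_mul_of_nonneg_right hja (by positivity)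
    have h7 : (j / L) * (3 * (2 * R * C * C₀ * c)) * η ≤ 1 * (3 * (2 * R * C * C₀ * c)) * η := by
      gcongr
    nlinarith
  calc Real.exp (j * a) * (1 + j * b) ≤ Real.exp Cg * 2 :=
        mul_le_mul (Real.exp_le_exp.2 hja) (by linarith) (by positivity) (Real.exp_nonneg _)
    _ = _ := by ring

end Sum

end Match2D

end

section

/-!
MP_884187_pr, item L3, part f: telescoping.
-/

open MeasureTheory Set Filter Topology

namespace Match2D

section Tel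

variable {B : ℝ} {W : ℝ → ℝ × ℝ → ℝ} {S : ℝ → ℝ × ℝ → ℝ × ℝ} {HI : ℝ → ℝ × ℝ → SymM}
  {τ T R' R₀ R e C Cg : ℝ} {m n J : ℕ} [NeZero m] {C₀ δ C₁ c lam Λ η θ : ℝ}
  {ζ : UM B → Dig m → ℝ × ℝ → ℝ} {dζ : UM B → Dig m → ℝ × ℝ → ℝ × ℝ}
  {cM : ℕ → ℝ × ℝ → UM B} {cs : ℕ → ℝ × ℝ → ℝ}

/-- The telescoped gain. -/
noncomputable def L3_T (n J : ℕ) (θ : ℝ) (ζ : UM B → Dig m → ℝ × ℝ → ℝ)
    (dζ : UM B → Dig m → ℝ × ℝ → ℝ × ℝ) (cM : ℕ → ℝ × ℝ → UM B) (cs : ℕ → ℝ × ℝ → ℝ)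
    (j : ℕ) : ℝ :=
  (Real.sqrt (Real.log n / n))⁻¹ * EJ J (fun ω : Seqs m n =>
    (n : ℝ)⁻¹ * ∑ i, (∫ u, Ph θ ζ dζ cM cs j ω (emb m J (cidx ω J i) u) ∂U) -
      ∫ z, Ph θ ζ dζ cM cs j ω z ∂U)

theorem L3_T_succ (hm : 0 < m) (hPm : ∀ (j : ℕ) (ω : Seqs m n), Measurable (Ph θ ζ dζ cM cs j ω))
    (hPb : ∀ (j : ℕ) (ω : Seqs m n), ∃ b, ∀ x ∈ Sq, |Ph θ ζ dζ cM cs j ω x| ≤ b) (j : ℕ) :
    L3_T n J θ ζ dζ cM cs (j + 1) = L3_T n J θ ζ dζ cM cs j +
      (Real.sqrt (Real.log n / n))⁻¹ * EJ J (fun ω : Seqs m n =>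
      (n : ℝ)⁻¹ * ∑ i, (∫ u, (Ph θ ζ dζ cM cs (j + 1) ω (emb m J (cidx ω J i) u)
        - Ph θ ζ dζ cM cs j ω (emb m J (cidx ω J i) u)) ∂U)
      - ∫ z, (Ph θ ζ dζ cM cs (j + 1) ω z - Ph θ ζ dζ cM cs j ω z) ∂U) := by
  have i1 : ∀ (j : ℕ) (ω : Seqs m n), Integrable (Ph θ ζ dζ cM cs j ω) U := by
    intro j ω
    obtain ⟨b, hb⟩ := hPb j ω
    exact integrable_of_bdd (hPm j ω) hb
  have i2 : ∀ (j : ℕ) (ω : Seqs m n) (i : Fin n),
      Integrable (fun u => Ph θ ζ dζ cM cs j ω (emb m J (cidx ω J i) u)) U := by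
    intro j ω i
    obtain ⟨b, hb⟩ := hPb j ω
    have he : Measurable (emb m J (cidx ω J i)) := by
      unfold emb
      fun_prop
    exact integrable_of_bdd ((hPm j ω).comp he) fun z hz =>
      hb _ (emb_mem_Sq hm (cidx_lt ω J i).1 (cidx_lt ω J i).2 hz)
  unfold L3_T
  rw [← mul_add, ← L3_EJ_add]
  congr 2
  funext ω
  rw [integral_sub (i1 (j + 1) ω) (i1 j ω)]
  have e : ∀ i : Fin n, ∫ u, (Ph θ ζ dζ cM cs (j + 1) ω (emb m J (cidx ω J i) u)
        - Ph θ ζ dζ cM cs j ω (emb m J (cidx ω J i) u)) ∂U =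
      (∫ u, Ph θ ζ dζ cM cs (j + 1) ω (emb m J (cidx ω J i) u) ∂U) -
        ∫ u, Ph θ ζ dζ cM cs j ω (emb m J (cidx ω J i) u) ∂U :=
    fun i => integral_sub (i2 (j + 1) ω i) (i2 j ω i)
  simp_rw [e]
  rw [Finset.sum_sub_distrib]
  ring

theorem L3_T_zero : L3_T n J θ ζ dζ cM cs 0 = 0 := by
  unfold L3_T
  have : (fun ω : Seqs m n =>
    (n : ℝ)⁻¹ * ∑ i, (∫ u, Ph θ ζ dζ cM cs 0 ω (emb m J (cidx ω J i) u) ∂U) -
      ∫ z, Ph θ ζ dζ cM cs 0 ω z ∂U) = fun _ => 0 := by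
    funext ω
    have : ∀ z, Ph θ ζ dζ cM cs 0 ω z = 0 := fun z => rfl
    simp [this]
  rw [this, C2_EJ_const, mul_zero]

theorem L3_A_zero : L3_A (m := m) W n J τ lam θ dζ cM cs 0 = W (τ + lam * J) 0 := by
  unfold L3_A
  have : (fun ω : Seqs m n => ∫ z, W (τ + lam * (J - (0 : ℕ))) (Gr θ dζ cM cs 0 ω z) ∂U) =
      fun _ => W (τ + lam * J) 0 := by
    funext ω
    have e : ∀ z, Gr θ dζ cM cs 0 ω z = 0 := fun z => rfl
    simp only [e, Nat.cast_zero, sub_zero]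
    rw [L3_integral_const]
  rw [this, C2_EJ_const]

theorem L3_total (h : L3Q W S HI τ T R' R₀ R e C Cg m n J C₀ δ C₁ c lam Λ η θ ζ dζ cM cs)
    (hC1 : StmtC1) (hC2 : StmtC2) (hC3 : StmtC3') (hC5 : StmtC5)
    (hJ : (m : ℝ) ^ (2 * J) * Real.log n ^ 2 ≤ n) (h1 : 1 ≤ Real.log n) (hlm : 1 ≤ Real.log m)
    (hJ2 : 2 * J * Real.log m ≤ Real.log n)
    (hη5 : (Cg * (2 * R * C₁ + (1 + R ^ 2)) + 3 * (2 * R * C * C₀ * c)) * η ≤ 1)
    (hPm : ∀ (j : ℕ) (ω : Seqs m n), Measurable (Ph θ ζ dζ cM cs j ω))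
    (hPb : ∀ (j : ℕ) (ω : Seqs m n), ∃ b, ∀ x ∈ Sq, |Ph θ ζ dζ cM cs j ω x| ≤ b)
    {C₂ : ℝ} (hC₂ : 0 ≤ C₂)
    (hL2 : ∀ j, j < J → (1 - δ) * Real.log m / (2 * Real.pi * Real.log n) *
      L3_Pj n J θ dζ cM cs j -
      C₂ * (θ⁻¹ ^ 2 / Real.log n ^ 2 + θ⁻¹ / (Real.log n * Real.sqrt (Real.log n))) ≤
      (Real.sqrt (Real.log n / n))⁻¹ * EJ J (fun ω : Seqs m n =>
      (n : ℝ)⁻¹ * ∑ i, (∫ u, (Ph θ ζ dζ cM cs (j + 1) ω (emb m J (cidx ω J i) u)
        - Ph θ ζ dζ cM cs j ω (emb m J (cidx ω J i) u)) ∂U)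
      - ∫ z, (Ph θ ζ dζ cM cs (j + 1) ω z - Ph θ ζ dζ cM cs j ω z) ∂U))
    (hη6 : θ⁻¹ ^ 2 / Real.log n ≤ η) (hη7 : θ⁻¹ / Real.sqrt (Real.log n) ≤ η)
    (hlamd : lam = (1 - 3 * δ) * Real.log m / (4 * Real.pi * Real.log n))
    (hδ : 1 ≤ δ * Real.log m) :
    - W (τ + lam * J) 0 - lam * J * e * (2 * Real.exp Cg) -
      (Λ * C + 3 * (C ^ 2 * C₀ * c + 3 * C ^ 7 * C₁ * C₀ ^ 2 * (1 + c) + 2 * C * (1 + C₁) * Λ +
        C * Λ ^ 2) + 2 * C₂) * η ≤
    L3_T n J θ ζ dζ cM cs J - EJ J (fun ω : Seqs m n => ∫ z, W τ (Gr θ dζ cM cs J ω z) ∂U) := by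
  have hC0 : 0 < C := by linarith [h.hP.hC]
  have he := h.hP.he
  have hη0 := h.hη0
  have hc := h.hc
  have hC₁ := h.hC₁
  have hΛ := h.hΛ
  have hlam := h.hlam
  have hC₀ := h.hK.pos
  have hm0 : 0 < m := by linarith [h.hm]
  have hL0 : 0 < Real.log n := by linarith
  have hpi := Real.pi_pos
  have hY := L3_Y_bound h hC1 hC2 hC3 hC5 hJ h1 hlm hJ2 hη5
  set L := Real.log n with hLd
  set K₁ := C ^ 2 * C₀ * c + 3 * C ^ 7 * C₁ * C₀ ^ 2 * (1 + c) + 2 * C * (1 + C₁) * Λ +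
        C * Λ ^ 2 with hK₁
  have hK₁0 : 0 ≤ K₁ := by positivity
  set ℓ := lam * e * (2 * Real.exp Cg) + (Λ * C + 3 * K₁ + 2 * C₂) / L * η with hℓ
  have hstep : ∀ k, k ≤ J → - W (τ + lam * J) 0 - k * ℓ ≤
      L3_T n J θ ζ dζ cM cs k - L3_A W n J τ lam θ dζ cM cs k := by
    intro k
    induction k with
    | zero =>
      intro _
      rw [L3_T_zero, L3_A_zero]
      simp
    | succ k ih =>
      intro hk
      have h2 := ih (by omega)
      have hk' : k < J := by omega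
      have h3 := L3_step_A h hC1 hC2 hC3 hC5 hk' hJ h1
      have h4 := hL2 k hk'
      have h5 := L3_P_nonneg (J := J) h k
      have h6 := hY k hk'.le
      rw [L3_T_succ hm0 hPm hPb]
      set P := L3_Pj n J θ dζ cM cs k with hP
      -- the error of the gain
      have h7 : C₂ * (θ⁻¹ ^ 2 / L ^ 2 + θ⁻¹ / (L * Real.sqrt L)) ≤ 2 * C₂ / L * η := by
        have e1 : C₂ * (θ⁻¹ ^ 2 / L ^ 2 + θ⁻¹ / (L * Real.sqrt L)) =
            C₂ / L * (θ⁻¹ ^ 2 / L + θ⁻¹ / Real.sqrt L) := by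
          have : 0 < Real.sqrt L := Real.sqrt_pos.2 hL0
          field_simp
        rw [e1]
        calc C₂ / L * (θ⁻¹ ^ 2 / L + θ⁻¹ / Real.sqrt L) ≤ C₂ / L * (η + η) :=
              mul_le_mul_of_nonneg_left (add_le_add hη6 hη7) (by positivity)
          _ = _ := by ring
      -- the coefficient of P
      have h8 : lam * P + (Real.log m + 1) / (4 * Real.pi * L) * P ≤
          (1 - δ) * Real.log m / (2 * Real.pi * L) * P := by
        rw [← add_mul]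
        refine mul_le_mul_of_nonneg_right ?_ h5
        rw [hlamd, ← add_div, div_le_div_iff₀ (by positivity) (by positivity)]
        have : ((1 - 3 * δ) * Real.log m + (Real.log m + 1)) ≤ 2 * ((1 - δ) * Real.log m) := by
          nlinarith
        calc ((1 - 3 * δ) * Real.log m + (Real.log m + 1)) * (2 * Real.pi * L) ≤
            2 * ((1 - δ) * Real.log m) * (2 * Real.pi * L) :=
              mul_le_mul_of_nonneg_right this (by positivity)
          _ = _ := by ring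
      have h9 : lam * (C * η) ≤ Λ * C / L * η := by
        calc lam * (C * η) ≤ Λ / L * (C * η) := mul_le_mul_of_nonneg_right h.hlam' (by positivity)
          _ = _ := by ring
      have h10 : lam * e * (1 + L3_Y n J θ dζ cM cs k) ≤ lam * e * (2 * Real.exp Cg) :=
        mul_le_mul_of_nonneg_left h6 (by positivity)
      have e2 : ((k + 1 : ℕ) : ℝ) * ℓ = k * ℓ + ℓ := by
        push_cast
        ring
      have e3 : (Λ * C + 3 * K₁ + 2 * C₂) / L * η =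
          Λ * C / L * η + 3 * (K₁ / L * η) + 2 * C₂ / L * η := by ring
      rw [e2]
      rw [e3] at hℓ
      linarith
  have hfin := hstep J le_rfl
  have e1 : L3_A W n J τ lam θ dζ cM cs J =
      EJ J (fun ω : Seqs m n => ∫ z, W τ (Gr θ dζ cM cs J ω z) ∂U) := by
    unfold L3_A
    simp only [sub_self, mul_zero, add_zero]
  rw [e1] at hfin
  have hJL : (J : ℝ) / L ≤ 1 := by
    rw [div_le_one hL0]
    have : (J : ℝ) * 1 ≤ J * Real.log m := mul_le_mul_of_nonneg_left hlm (Nat.cast_nonneg _)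
    linarith [Nat.cast_nonneg (α := ℝ) J]
  have e2 : (J : ℝ) * ℓ = lam * J * e * (2 * Real.exp Cg) +
      (J / L) * ((Λ * C + 3 * K₁ + 2 * C₂) * η) := by
    rw [hℓ]
    ring
  have h11 : (J / L) * ((Λ * C + 3 * K₁ + 2 * C₂) * η) ≤ 1 * ((Λ * C + 3 * K₁ + 2 * C₂) * η) :=
    mul_le_mul_of_nonneg_right hJL (by positivity)
  rw [e2] at hfin
  linarith

end Tel

end Match2D

end
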